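import Pool.Agent.LibPA25.V0
import Pool.Agent.LibPA15.L

/-!
(helper15) [PA25 V3].  The local hypothesis for pairs, with a prime `l` as large as we like.
-/

set_option autoImplicit false

namespace PA25

open Finset Pasch SP15

/-- with a prime `l` as large as we like -/
theorem V2_loc' (a b : ℤ) (ha : a ≠ 0) (hb : b ≠ 0) (hab : a ≠ b) (L : ℕ) :
    ∃ l : ℕ, L < l ∧ Loc {a, b} l := by
  obtain ⟨l, hL, hfact, h16, hla, hlb, y, z, hsq, hyz, hneg⟩ := PA15.core2L a b ha hb hab L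
  refine ⟨l, hL, loc_of {a, b} l (by omega) ?_ y z hsq hyz ?_⟩
  · intro h hh
    rcases mem_insert.1 hh with rfl | hh
    · exact hla
    · rw [mem_singleton.1 hh]; exact hlb
  · rw [prod_pair hab]
    have e : PA15.Kr l ((a : ZMod l) * (y : ZMod l) ^ 2) * PA15.Kr l ((a : ZMod l) * (z : ZMod l) ^ 2) *
        (PA15.Kr l ((b : ZMod l) * (y : ZMod l) ^ 2) * PA15.Kr l ((b : ZMod l) * (z : ZMod l) ^ 2)) =
        PA15.Kr l ((a : ZMod l) * (y : ZMod l) ^ 2) * PA15.Kr l ((b : ZMod l) * (y : ZMod l) ^ 2) *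
        (PA15.Kr l ((a : ZMod l) * (z : ZMod l) ^ 2) * PA15.Kr l ((b : ZMod l) * (z : ZMod l) ^ 2)) := by
      ring
    rw [e]
    exact hneg

end PA25
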