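import Pool.Agent.LibPA25.E2
import Pool.Agent.LibPA39.SM

/-!
The second moment (block LibPA39) in the form `PA25.Second`.
-/

set_option autoImplicit false

namespace PA25

open Finset Pasch

theorem second_proof : Second := by
  intro N hN i
  fin_cases i
  · obtain ⟨C, w1, hC, h⟩ := PA39.sm1 N hN
    exact ⟨C, hC, w1, fun w hw S hS => by simpa [ni] using h w hw S hS⟩
  · obtain ⟨C, w1, hC, h⟩ := PA39.sm2 N hN
    exact ⟨C, hC, w1, fun w hw S hS => by simpa [ni] using h w hw S hS⟩
  · obtain ⟨C, w1, hC, h⟩ := PA39.sm3 N hN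
    exact ⟨C, hC, w1, fun w hw S hS => by simpa [ni] using h w hw S hS⟩
  · obtain ⟨C, w1, hC, h⟩ := PA39.sm4 N hN
    exact ⟨C, hC, w1, fun w hw S hS => by simpa [ni] using h w hw S hS⟩

end PA25
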