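import Pool.Agent.LibPA25.Defs
import Pool.Agent.LibSP15.A2
import Pool.Agent.LibPA15.G

/-!
(helper15) [PA25 V0].  From units `y, z` with `y z` a square and a negative product to the local hypothesis.
Letters: `d = e = 1`, `f = P` with `P² y z = 1`, `b = 1/(y P)`, `c = 1/(z P)`, `a = 2/(y+z)`, `k = y + z`.
-/

set_option autoImplicit false

namespace PA25

open Finset Pasch SP15 PA15

lemma Gl_eq (h : ℤ) (l : ℕ) [Fact l.Prime] (n : ℕ) :
    Gl h l n = Kr l ((h : ZMod l) * ((n : ZMod l)⁻¹) ^ 2) := by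
  have hl : l ≠ 0 := (Fact.out : l.Prime).ne_zero
  unfold Gl
  rw [dif_pos hl]
  rfl

theorem loc_of (J : Finset ℤ) (l : ℕ) [Fact l.Prime] (h7 : 7 < l) (hJ : ∀ h ∈ J, ¬ (l : ℤ) ∣ h)
    (y z : (ZMod l)ˣ) (hsq : IsSquare (y * z)) (hyz : y ≠ -z)
    (hneg : ∏ h ∈ J, (Kr l ((h : ZMod l) * (y : ZMod l) ^ 2) * Kr l ((h : ZMod l) * (z : ZMod l) ^ 2)) < 0) :
    Loc J l := by
  have hl : l.Prime := Fact.out
  obtain ⟨r, hr⟩ := hsq
  have h20 : (2 : ZMod l) ≠ 0 := by
    intro h
    have h1 : ((2 : ℕ) : ZMod l) = 0 := by exact_mod_cast h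
    rw [ZMod.natCast_eq_zero_iff] at h1
    have := (Nat.prime_dvd_prime_iff_eq hl Nat.prime_two).1 h1
    omega
  have hS0 : (y : ZMod l) + (z : ZMod l) ≠ 0 := by
    intro h
    apply hyz
    apply Units.ext
    rw [Units.val_neg]
    linear_combination h
  set S : (ZMod l)ˣ := Units.mk0 _ hS0 with hS
  set two : (ZMod l)ˣ := Units.mk0 _ h20 with htwo
  set P : (ZMod l)ˣ := r⁻¹ with hP
  have hPP : (P : ZMod l) * P * ((y : ZMod l) * z) = 1 := by
    have h1 : P * P * (y * z) = 1 := by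
      rw [hr, hP, mul_mul_mul_comm, inv_mul_cancel, one_mul]
    have := congrArg (fun u : (ZMod l)ˣ => (u : ZMod l)) h1
    simpa using this
  set A : (ZMod l)ˣ := two * S⁻¹ with hA
  set B : (ZMod l)ˣ := (y * P)⁻¹ with hB
  set C : (ZMod l)ˣ := (z * P)⁻¹ with hC
  have hy : (y : ZMod l) * ((y⁻¹ : (ZMod l)ˣ) : ZMod l) = 1 := Units.mul_inv y
  have hSS : (S : ZMod l) = (y : ZMod l) + z := rfl
  have h2v : (two : ZMod l) = 2 := rfl
  have hAS : (A : ZMod l) * S = 2 := by
    rw [hA, Units.val_mul, mul_assoc, Units.inv_mul, mul_one, h2v]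
  have hBv : (B : ZMod l) * (y * P) = 1 := by
    have := Units.inv_mul (y * P)
    rw [← hB, Units.val_mul] at this
    exact this
  have hCv : (C : ZMod l) * (z * P) = 1 := by
    have := Units.inv_mul (z * P)
    rw [← hC, Units.val_mul] at this
    exact this
  have hcop : ∀ u : (ZMod l)ˣ, l.Coprime (u : ZMod l).val := by
    intro u
    rw [Nat.Prime.coprime_iff_not_dvd hl, ← ZMod.natCast_eq_zero_iff, ZMod.natCast_zmod_val]
    exact u.ne_zero
  have hBC : (B : ZMod l) * C = 1 := by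
    -- (B C) (y P)(z P) = 1 and P² y z = 1
    have h1 : (B : ZMod l) * C * (P * P * (y * z)) = 1 := by
      calc (B : ZMod l) * C * (P * P * (y * z)) = (B * (y * P)) * (C * (z * P)) := by ring
        _ = 1 := by rw [hBv, hCv, one_mul]
    rw [hPP, mul_one] at h1
    exact h1
  refine ⟨hl, h7, hJ, (A : ZMod l).val, (B : ZMod l).val, (C : ZMod l).val, 1, 1, (P : ZMod l).val,
    (S : ZMod l).val, ⟨hcop A, hcop B, hcop C, Nat.coprime_one_right l, Nat.coprime_one_right l,
      hcop P, hcop S⟩, ?_, ?_, ?_⟩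
  · rw [← ZMod.natCast_eq_natCast_iff]
    push_cast
    simp only [ZMod.natCast_zmod_val]
    rw [mul_comm (S : ZMod l), hAS, hBC]
    norm_num
  · rw [← ZMod.natCast_eq_natCast_iff]
    push_cast
    simp only [ZMod.natCast_zmod_val]
    -- C + B = S P
    have h1 : (C : ZMod l) = y * P := by
      calc (C : ZMod l) = C * (B * (y * P)) := by rw [hBv, mul_one]
        _ = (B * C) * (y * P) := by ring
        _ = y * P := by rw [hBC, one_mul]
    have h2 : (B : ZMod l) = z * P := by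
      calc (B : ZMod l) = B * (C * (z * P)) := by rw [hCv, mul_one]
        _ = (B * C) * (z * P) := by ring
        _ = z * P := by rw [hBC, one_mul]
    rw [h1, h2, hSS]
    ring
  · -- the product
    have e1 : ∀ h : ℤ, Gl h l ((A : ZMod l).val * (B : ZMod l).val * (C : ZMod l).val) =
        Kr l ((h : ZMod l) * ((A : ZMod l)⁻¹) ^ 2) := by
      intro h
      rw [Gl_eq]
      push_cast
      simp only [ZMod.natCast_zmod_val]
      rw [mul_assoc (A : ZMod l), hBC, mul_one]
    have e2 : ∀ h : ℤ, Gl h l ((A : ZMod l).val * 1 * 1) =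
        Kr l ((h : ZMod l) * ((A : ZMod l)⁻¹) ^ 2) := by
      intro h
      rw [Gl_eq]
      push_cast
      simp only [ZMod.natCast_zmod_val, mul_one]
    have e3 : ∀ h : ℤ, Gl h l ((B : ZMod l).val * 1 * (P : ZMod l).val) =
        Kr l ((h : ZMod l) * (y : ZMod l) ^ 2) := by
      intro h
      rw [Gl_eq]
      push_cast
      simp only [ZMod.natCast_zmod_val, mul_one]
      have : ((B : ZMod l) * (P : ZMod l))⁻¹ = y := by
        apply Kloo.inv_eq_of_mul_eq_one
        calc (B : ZMod l) * P * y = B * (y * P) := by ring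
          _ = 1 := hBv
      rw [this]
    have e4 : ∀ h : ℤ, Gl h l ((C : ZMod l).val * 1 * (P : ZMod l).val) =
        Kr l ((h : ZMod l) * (z : ZMod l) ^ 2) := by
      intro h
      rw [Gl_eq]
      push_cast
      simp only [ZMod.natCast_zmod_val, mul_one]
      have : ((C : ZMod l) * (P : ZMod l))⁻¹ = z := by
        apply Kloo.inv_eq_of_mul_eq_one
        calc (C : ZMod l) * P * z = C * (z * P) := by ring
          _ = 1 := hCv
      rw [this]
    have e5 : ∏ h ∈ J, G4 h l (A : ZMod l).val (B : ZMod l).val (C : ZMod l).val 1 1 (P : ZMod l).val =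
        (∏ h ∈ J, (Kr l ((h : ZMod l) * ((A : ZMod l)⁻¹) ^ 2)) ^ 2) *
        ∏ h ∈ J, (Kr l ((h : ZMod l) * (y : ZMod l) ^ 2) * Kr l ((h : ZMod l) * (z : ZMod l) ^ 2)) := by
      rw [← prod_mul_distrib]
      refine prod_congr rfl fun h _ => ?_
      unfold G4
      rw [e1, e2, e3, e4]
      ring
    rw [e5]
    refine mul_neg_of_pos_of_neg (prod_pos fun h _ => ?_) hneg
    exact (sq_nonneg _).lt_of_ne (pow_ne_zero 2 (Kr_ne_zero _)).symm

end PA25
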