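import Pool.Agent.LibPA25.Defs

/-!
ROW [PA25 K3].  The modulus `Q` and the classes.
PROOF.  `y = l + 7 + ∑_{h ∈ J} |h|`, `P` = the product of the primes `≤ y` except `l` (all prime factors of the `h ∈ J`, `h ≠ 0`, are `≤ y`; `2, 3, 5, 7 ∣ P` because `l > 7`), `Q = P l`.
Chinese remainder (`(P, l) = 1`): `α ≡ 1 [MOD P]`, `α ≡ a₀ [MOD l]`, same with `b₀, c₀, d₀`; `κ ≡ 1 [MOD P]`, `κ ≡ (l + 1)/2 * k₀ [MOD l]`, so `2 κ ≡ k₀ [MOD l]`.
`Cls.e`: `p ∣ P`, `p ≠ 2`: `2 κ α - β γ ≡ 1`; `p = l`: `≡ k₀ a₀ - b₀ c₀ ≡ d₀ e₀`, a unit.  `Cls.f`: `p ∣ P` odd: `≡ 2`; `p = l`: `k₀ c₀ a₀ + b₀ (d₀² - c₀²) ≡ c₀ (d₀ e₀ + b₀ c₀) + b₀ d₀² - b₀ c₀²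
= d₀ (c₀ e₀ + b₀ d₀) ≡ d₀ k₀ f₀`, a unit.
-/

set_option autoImplicit false

namespace PA25

open Finset Pasch

private lemma k3_cop {x x0 P l : ℕ} (h1 : x ≡ 1 [MOD P]) (h2 : x ≡ x0 [MOD l]) (h3 : l.Coprime x0) :
    x.Coprime (P * l) := by
  refine Nat.Coprime.mul_right ?_ ?_
  · have := h1.gcd_eq
    rw [Nat.gcd_one_left] at this
    exact this
  · have := h2.gcd_eq
    have h4 : x0.gcd l = 1 := by rw [Nat.gcd_comm]; exact h3
    rw [h4] at this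
    exact this

private lemma k3_one {x P p : ℕ} (h1 : x ≡ 1 [MOD P]) (hp : p ∣ P) : ((x : ℕ) : ZMod p) = 1 := by
  have := (ZMod.natCast_eq_natCast_iff _ _ _).2 (h1.of_dvd hp)
  simpa using this

private lemma k3_ne {x l : ℕ} (hl : l.Prime) (h : l.Coprime x) : ((x : ℕ) : ZMod l) ≠ 0 := by
  intro h0
  rw [ZMod.natCast_eq_zero_iff] at h0
  exact ((Nat.Prime.coprime_iff_not_dvd hl).1 h) h0

theorem K3_classes (J : Finset ℤ) (hJ : ∀ h ∈ J, h ≠ 0) (l : ℕ) (hl : l.Prime) (hl7 : 7 < l)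
    (a₀ b₀ c₀ d₀ e₀ f₀ k₀ : ℕ) (hco : l.Coprime a₀ ∧ l.Coprime b₀ ∧ l.Coprime c₀ ∧ l.Coprime d₀ ∧
      l.Coprime e₀ ∧ l.Coprime f₀ ∧ l.Coprime k₀)
    (h1 : d₀ * e₀ + b₀ * c₀ ≡ k₀ * a₀ [MOD l]) (h2 : c₀ * e₀ + b₀ * d₀ ≡ k₀ * f₀ [MOD l]) :
    ∃ Q α β γ δ κ : ℕ, Cls Q α β γ δ κ ∧ l ∣ Q ∧ (∀ h ∈ J, ∀ p : ℕ, p.Prime → (p : ℤ) ∣ h → p ∣ Q) ∧
      α ≡ a₀ [MOD l] ∧ β ≡ b₀ [MOD l] ∧ γ ≡ c₀ [MOD l] ∧ δ ≡ d₀ [MOD l] ∧ 2 * κ ≡ k₀ [MOD l] := by
  obtain ⟨ca, cb, cc, cd, ce, cf, ck⟩ := hco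
  set y : ℕ := l + 7 + ∑ h ∈ J, h.natAbs with hy
  set S : Finset ℕ := (Finset.range (y + 1)).filter (fun p => p.Prime ∧ p ≠ l) with hS
  set P : ℕ := ∏ p ∈ S, p with hP
  have hdvd : ∀ p : ℕ, p.Prime → p ≤ y → p ≠ l → p ∣ P := by
    intro p hp hpy hpl
    exact Finset.dvd_prod_of_mem _ (by rw [hS, Finset.mem_filter, Finset.mem_range]; exact ⟨by omega, hp, hpl⟩)
  have hcop : P.Coprime l := by
    rw [hP]
    refine Nat.Coprime.prod_left fun p hp => ?_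
    rw [hS, Finset.mem_filter] at hp
    exact (Nat.coprime_primes hp.2.1 hl).2 hp.2.2
  have hPpos : 0 < P := by
    rw [hP]
    refine Finset.prod_pos fun p hp => ?_
    rw [hS, Finset.mem_filter] at hp
    exact hp.2.1.pos
  have h210 : 210 ∣ P := by
    have hsub : ({2, 3, 5, 7} : Finset ℕ) ⊆ S := by
      intro p hp
      rw [hS, Finset.mem_filter, Finset.mem_range]
      simp only [Finset.mem_insert, Finset.mem_singleton] at hp
      rcases hp with rfl | rfl | rfl | rfl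
      · exact ⟨by omega, by norm_num, by omega⟩
      · exact ⟨by omega, by norm_num, by omega⟩
      · exact ⟨by omega, by norm_num, by omega⟩
      · exact ⟨by omega, by norm_num, by omega⟩
    have h := Finset.prod_dvd_prod_of_subset _ _ (fun p : ℕ => p) hsub
    have e : ∏ p ∈ ({2, 3, 5, 7} : Finset ℕ), p = 210 := by decide
    rw [e] at h
    exact h
  obtain ⟨α, hα1, hα2⟩ := Nat.chineseRemainder hcop 1 a₀
  obtain ⟨β, hβ1, hβ2⟩ := Nat.chineseRemainder hcop 1 b₀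
  obtain ⟨γ, hγ1, hγ2⟩ := Nat.chineseRemainder hcop 1 c₀
  obtain ⟨δ, hδ1, hδ2⟩ := Nat.chineseRemainder hcop 1 d₀
  obtain ⟨κ, hκ1, hκ2⟩ := Nat.chineseRemainder hcop 1 ((l + 1) / 2 * k₀)
  have hodd : l % 2 = 1 := by
    rcases hl.eq_two_or_odd with h | h
    · omega
    · exact h
  have hκ3 : 2 * κ ≡ k₀ [MOD l] := by
    have h3 : 2 * κ ≡ 2 * ((l + 1) / 2 * k₀) [MOD l] := hκ2.mul_left 2
    have h4 : 2 * ((l + 1) / 2 * k₀) = l * k₀ + k₀ := by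
      have h5 : 2 * ((l + 1) / 2) = l + 1 := by omega
      rw [← mul_assoc, h5]
      ring
    rw [h4] at h3
    refine h3.trans ?_
    have h6 : l * k₀ + k₀ ≡ 0 + k₀ [MOD l] := Nat.ModEq.add_right _ (by
      rw [Nat.modEq_zero_iff_dvd]
      exact Dvd.intro _ rfl)
    simp
  have hfact : Fact l.Prime := ⟨hl⟩
  -- the values in ZMod l
  have zα : (α : ZMod l) = a₀ := (ZMod.natCast_eq_natCast_iff _ _ _).2 hα2
  have zβ : (β : ZMod l) = b₀ := (ZMod.natCast_eq_natCast_iff _ _ _).2 hβ2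
  have zγ : (γ : ZMod l) = c₀ := (ZMod.natCast_eq_natCast_iff _ _ _).2 hγ2
  have zδ : (δ : ZMod l) = d₀ := (ZMod.natCast_eq_natCast_iff _ _ _).2 hδ2
  have zκ : (2 : ZMod l) * κ = k₀ := by
    have := (ZMod.natCast_eq_natCast_iff _ _ _).2 hκ3
    push_cast at this
    exact this
  have z1 : (d₀ : ZMod l) * e₀ + b₀ * c₀ = k₀ * a₀ := by
    have := (ZMod.natCast_eq_natCast_iff _ _ _).2 h1
    push_cast at this
    exact this
  have z2 : (c₀ : ZMod l) * e₀ + b₀ * d₀ = k₀ * f₀ := by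
    have := (ZMod.natCast_eq_natCast_iff _ _ _).2 h2
    push_cast at this
    exact this
  have hκcop : l.Coprime κ := by
    have h7 : (2 * κ).Coprime l := by
      have := hκ3.gcd_eq
      have h4 : k₀.gcd l = 1 := by rw [Nat.gcd_comm]; exact ck
      rw [h4] at this
      exact this
    exact (Nat.Coprime.coprime_mul_left h7).symm
  refine ⟨P * l, α, β, γ, δ, κ, ⟨h210.mul_right l, Nat.mul_pos hPpos hl.pos, k3_cop hα1 hα2 ca,
    k3_cop hβ1 hβ2 cb, k3_cop hγ1 hγ2 cc, k3_cop hδ1 hδ2 cd,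
    k3_cop hκ1 (Nat.ModEq.refl κ) hκcop, ?_, ?_⟩, Dvd.intro_left _ rfl, ?_, hα2, hβ2, hγ2, hδ2, hκ3⟩
  · intro p hp hpQ hp2 hd
    have hz := (ZMod.intCast_zmod_eq_zero_iff_dvd _ _).2 hd
    push_cast at hz
    rcases (Nat.Prime.dvd_mul hp).1 hpQ with h | h
    · have hpf : Fact p.Prime := ⟨hp⟩
      rw [k3_one hκ1 h, k3_one hα1 h, k3_one hβ1 h, k3_one hγ1 h] at hz
      norm_num at hz
    · have hpl : p = l := (Nat.prime_dvd_prime_iff_eq hp hl).1 h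
      subst hpl
      rw [zα, zβ, zγ, zκ] at hz
      have h8 : (d₀ : ZMod p) * e₀ = 0 := by linear_combination z1 + hz
      rcases mul_eq_zero.1 h8 with h9 | h9
      · exact k3_ne hl cd h9
      · exact k3_ne hl ce h9
  · intro p hp hpQ hp2 hd
    have hz := (ZMod.intCast_zmod_eq_zero_iff_dvd _ _).2 hd
    push_cast at hz
    rcases (Nat.Prime.dvd_mul hp).1 hpQ with h | h
    · have hpf : Fact p.Prime := ⟨hp⟩
      rw [k3_one hκ1 h, k3_one hα1 h, k3_one hβ1 h, k3_one hγ1 h, k3_one hδ1 h] at hz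
      have h10 : ((2 : ℕ) : ZMod p) = 0 := by
        push_cast
        linear_combination hz
      rw [ZMod.natCast_eq_zero_iff] at h10
      exact hp2 ((Nat.prime_dvd_prime_iff_eq hp Nat.prime_two).1 h10)
    · have hpl : p = l := (Nat.prime_dvd_prime_iff_eq hp hl).1 h
      subst hpl
      rw [zα, zβ, zγ, zκ, zδ] at hz
      have h8 : (d₀ : ZMod p) * (k₀ * f₀) = 0 := by
        linear_combination hz + (c₀ : ZMod p) * z1 - (d₀ : ZMod p) * z2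
      rcases mul_eq_zero.1 h8 with h9 | h9
      · exact k3_ne hl cd h9
      · rcases mul_eq_zero.1 h9 with h11 | h11
        · exact k3_ne hl ck h11
        · exact k3_ne hl cf h11
  · intro h hh p hp hph
    by_cases hpl : p = l
    · rw [hpl]
      exact Dvd.intro_left _ rfl
    · refine Dvd.dvd.mul_right (hdvd p hp ?_ hpl) l
      have h12 : p ∣ h.natAbs := by
        have := Int.natAbs_dvd_natAbs.2 hph
        simpa using this
      have h13 : p ≤ h.natAbs := Nat.le_of_dvd (by have := hJ h hh; omega) h12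
      have h14 : h.natAbs ≤ ∑ h ∈ J, h.natAbs := Finset.single_le_sum (f := fun h : ℤ => h.natAbs) (fun _ _ => Nat.zero_le _) hh
      omega

end PA25
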