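import Pool.Agent.LibPA25.K2
import Pool.Agent.LibPA25.K3

/-!
(helper39) [PA25 W1].  Twist by a multiplicative function `g` with values `1, -1`, and a class `r` modulo `q₀`.
Every letter lies on exactly two of the four lines, so `g (l n₁) g (l n₂) g (l n₃) g (l n₄) = 1`.
Classes modulo `2 q₀`: `b ≡ c ≡ d ≡ 1`, `a ≡ a₁`, `k₁ a₁ ≡ 1`; then `e ≡ 1` modulo `2 q₀`, `f ≡ a₁` modulo `q₀` and all four moduli are `≡ a₁` modulo `q₀`.
-/

set_option autoImplicit false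

namespace PA25

open Finset Pasch SP15

private theorem W1_Gl {h : ℤ} {l n n' : ℕ} (hn : n ≡ n' [MOD l]) : Gl h l n = Gl h l n' := by
  unfold Gl
  split_ifs with hl
  · haveI : NeZero l := ⟨hl⟩
    have : (n : ZMod l) = (n' : ZMod l) := (ZMod.natCast_eq_natCast_iff _ _ _).2 hn
    unfold Kloo.F
    rw [this]
  · rfl

private theorem W1_G4 {h : ℤ} {l a b c d e f a' b' c' d' e' f' : ℕ} (ha : a ≡ a' [MOD l]) (hb : b ≡ b' [MOD l])
    (hc : c ≡ c' [MOD l]) (hd : d ≡ d' [MOD l]) (he : e ≡ e' [MOD l]) (hf : f ≡ f' [MOD l]) :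
    G4 h l a b c d e f = G4 h l a' b' c' d' e' f' := by
  unfold G4
  rw [W1_Gl (Nat.ModEq.mul (Nat.ModEq.mul ha hb) hc), W1_Gl (Nat.ModEq.mul (Nat.ModEq.mul ha hd) he),
    W1_Gl (Nat.ModEq.mul (Nat.ModEq.mul hb hd) hf), W1_Gl (Nat.ModEq.mul (Nat.ModEq.mul hc he) hf)]

private theorem W1_sign {P : Fin 4 → ℝ} (h0 : ∀ i, P i ≠ 0) (h : ∏ i, P i < 0) : (∃ i, 0 < P i) ∧ (∃ i, P i < 0) := by
  constructor
  · by_contra hc
    push Not at hc
    have h1 : ∀ i, P i < 0 := fun i => lt_of_le_of_ne (hc i) (h0 i)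
    rw [Fin.prod_univ_four] at h
    have h2 := mul_pos_of_neg_of_neg (h1 0) (h1 1)
    have h3 := mul_pos_of_neg_of_neg (h1 2) (h1 3)
    have h4 := mul_pos h2 h3
    rw [mul_assoc (P 0 * P 1)] at h
    linarith
  · by_contra hc
    push Not at hc
    exact absurd (Finset.prod_nonneg fun i _ => hc i) (not_le.2 h)

theorem W1_signs (J : Finset ℤ) (l : ℕ) (hl : l.Prime) {Q α β γ δ κ : ℕ} (hC : Cls Q α β γ δ κ) (hlQ : l ∣ Q)
    {a₀ b₀ c₀ d₀ e₀ f₀ k₀ : ℕ} (hco : l.Coprime a₀ ∧ l.Coprime b₀ ∧ l.Coprime c₀ ∧ l.Coprime d₀ ∧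
      l.Coprime e₀ ∧ l.Coprime f₀ ∧ l.Coprime k₀)
    (h1 : d₀ * e₀ + b₀ * c₀ ≡ k₀ * a₀ [MOD l]) (h2 : c₀ * e₀ + b₀ * d₀ ≡ k₀ * f₀ [MOD l])
    (hneg : ∏ h ∈ J, G4 h l a₀ b₀ c₀ d₀ e₀ f₀ < 0)
    (ha : α ≡ a₀ [MOD l]) (hb : β ≡ b₀ [MOD l]) (hc : γ ≡ c₀ [MOD l]) (hd : δ ≡ d₀ [MOD l])
    (hk : 2 * κ ≡ k₀ [MOD l]) {N w : ℕ} {q : Cf} (hq : IsConf N w q) (hcl : InCls Q α β γ δ κ q)
    (g : ℕ → ℝ) (hg1 : ∀ n, g n = 1 ∨ g n = -1) (hg : ∀ m n : ℕ, m.Coprime n → g (m * n) = g m * g n) :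
    (∃ i : Fin 4, 0 < g (l * ni i q) * ∏ h ∈ J, Fre h (l * ni i q)) ∧
      (∃ i : Fin 4, g (l * ni i q) * ∏ h ∈ J, Fre h (l * ni i q) < 0) := by
  obtain ⟨ca, cb, cc, cd, ce, cf, ck⟩ := hco
  have ea : q.a ≡ a₀ [MOD l] := (hcl.a.of_dvd hlQ).trans ha
  have eb : q.b ≡ b₀ [MOD l] := (hcl.b.of_dvd hlQ).trans hb
  have ec : q.c ≡ c₀ [MOD l] := (hcl.c.of_dvd hlQ).trans hc
  have ed : q.d ≡ d₀ [MOD l] := (hcl.d.of_dvd hlQ).trans hd
  have ek : q.k ≡ k₀ [MOD l] := by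
    obtain ⟨k₁, hk1, hk2⟩ := hcl.k
    rw [hk1]
    exact (Nat.ModEq.mul_left 2 (hk2.of_dvd hlQ)).trans hk
  have ee : q.e ≡ e₀ [MOD l] := by
    have h3 : q.d * q.e + q.b * q.c ≡ d₀ * e₀ + b₀ * c₀ [MOD l] := by
      rw [hq.eq1]
      exact (Nat.ModEq.mul ek ea).trans h1.symm
    have h4 : q.d * q.e ≡ d₀ * e₀ [MOD l] := Nat.ModEq.add_right_cancel (Nat.ModEq.mul eb ec) h3
    have h5 : d₀ * q.e ≡ d₀ * e₀ [MOD l] := (Nat.ModEq.mul_right _ ed.symm).trans h4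
    exact Nat.ModEq.cancel_left_of_coprime cd h5
  have ef : q.f ≡ f₀ [MOD l] := by
    have h3 : q.k * q.f ≡ k₀ * f₀ [MOD l] := by
      rw [← hq.eq2]
      exact (Nat.ModEq.add (Nat.ModEq.mul ec ee) (Nat.ModEq.mul eb ed)).trans h2
    have h5 : k₀ * q.f ≡ k₀ * f₀ [MOD l] := (Nat.ModEq.mul_right _ ek.symm).trans h3
    exact Nat.ModEq.cancel_left_of_coprime ck h5
  have tr : ∀ {x y : ℕ}, x ≡ y [MOD l] → l.Coprime y → l.Coprime x := by
    intro x y hxy hy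
    unfold Nat.Coprime at hy ⊢
    rw [Nat.gcd_comm, hxy.gcd_eq, Nat.gcd_comm]
    exact hy
  have hcop : l.Coprime (q.a * q.b * q.c * q.d * q.e * q.f) :=
    (((((tr ea ca).mul_right (tr eb cb)).mul_right (tr ec cc)).mul_right (tr ed cd)).mul_right (tr ee ce)).mul_right
      (tr ef cf)
  have hsq : Squarefree (l * (q.a * q.b * q.c * q.d * q.e * q.f)) := by
    rw [Nat.squarefree_mul hcop]
    exact ⟨hl.squarefree, hq.sqf⟩
  have hG : ∀ h : ℤ, G4 h l q.a q.b q.c q.d q.e q.f = G4 h l a₀ b₀ c₀ d₀ e₀ f₀ := fun h => W1_G4 ea eb ec ed ee ef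
  have hdv : ∀ i : Fin 4, l * ni i q ∣ l * (q.a * q.b * q.c * q.d * q.e * q.f) := by
    intro i
    apply mul_dvd_mul_left
    fin_cases i
    · exact ⟨q.d * q.e * q.f, by simp [ni, n1]; ring⟩
    · exact ⟨q.b * q.c * q.f, by simp [ni, n2]; ring⟩
    · exact ⟨q.a * q.c * q.e, by simp [ni, n3]; ring⟩
    · exact ⟨q.a * q.b * q.d, by simp [ni, n4]; ring⟩
  have hgsq : ∀ n, g n * g n = 1 := by
    intro n
    rcases hg1 n with h | h <;> rw [h] <;> norm_num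
  have hgne : ∀ n, g n ≠ 0 := by
    intro n
    rcases hg1 n with h | h <;> rw [h] <;> norm_num
  have g3 : ∀ x y z : ℕ, Squarefree (l * (x * y * z)) → g (l * (x * y * z)) = g l * (g x * g y * g z) := by
    intro x y z hs
    obtain ⟨c1, _, s1⟩ := Nat.squarefree_mul_iff.1 hs
    obtain ⟨c2, s2, _⟩ := Nat.squarefree_mul_iff.1 s1
    obtain ⟨c3, _, _⟩ := Nat.squarefree_mul_iff.1 s2
    rw [hg _ _ c1, hg _ _ c2, hg _ _ c3]
  apply W1_sign
  · intro i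
    exact mul_ne_zero (hgne _) (Finset.prod_ne_zero_iff.2 fun h _ => K1_ne h _ (hsq.squarefree_of_dvd (hdv i)))
  · have hg4 : ∏ i : Fin 4, g (l * ni i q) = 1 := by
      have t0 := g3 q.a q.b q.c (hsq.squarefree_of_dvd (by simpa [ni, n1] using hdv 0))
      have t1 := g3 q.a q.d q.e (hsq.squarefree_of_dvd (by simpa [ni, n2] using hdv 1))
      have t2 := g3 q.b q.d q.f (hsq.squarefree_of_dvd (by simpa [ni, n3] using hdv 2))
      have t3 := g3 q.c q.e q.f (hsq.squarefree_of_dvd (by simpa [ni, n4] using hdv 3))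
      have e0 : g (l * ni 0 q) = g l * (g q.a * g q.b * g q.c) := by simpa [ni, n1] using t0
      have e1 : g (l * ni 1 q) = g l * (g q.a * g q.d * g q.e) := by simpa [ni, n2] using t1
      have e2 : g (l * ni 2 q) = g l * (g q.b * g q.d * g q.f) := by simpa [ni, n3] using t2
      have e3 : g (l * ni 3 q) = g l * (g q.c * g q.e * g q.f) := by simpa [ni, n4] using t3
      rw [Fin.prod_univ_four, e0, e1, e2, e3]
      calc g l * (g q.a * g q.b * g q.c) * (g l * (g q.a * g q.d * g q.e)) * (g l * (g q.b * g q.d * g q.f)) *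
            (g l * (g q.c * g q.e * g q.f))
          = (g l * g l) * (g l * g l) * (g q.a * g q.a) * (g q.b * g q.b) * (g q.c * g q.c) * (g q.d * g q.d) *
            (g q.e * g q.e) * (g q.f * g q.f) := by ring
        _ = 1 := by simp only [hgsq, mul_one]
    rw [Finset.prod_mul_distrib, hg4, one_mul, Finset.prod_comm]
    choose Y hY1 hY2 using fun h : ℤ => K1_four h l q.k q.a q.b q.c q.d q.e q.f hsq hq.eq1 hq.eq2
    have h6 : ∀ h ∈ J, ∏ i : Fin 4, Fre h (l * ni i q) = Y h * G4 h l a₀ b₀ c₀ d₀ e₀ f₀ := by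
      intro h _
      rw [← hG h, ← hY2 h, Fin.prod_univ_four]
      simp [ni, n1, n2, n3, n4]
    rw [Finset.prod_congr rfl h6, Finset.prod_mul_distrib]
    exact mul_neg_of_pos_of_neg (Finset.prod_pos fun h _ => hY1 h) hneg

end PA25
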