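import Pool.Agent.LibPA25.K2
import Pool.Agent.LibPA25.K3

/-!
(helper39) [PA25 W2].  The modulus `Q` and the classes with a prescribed class `r₀` modulo `q₀` for the four moduli.
Classes modulo `2 q₀`: `b ≡ c ≡ d ≡ 1`, `a ≡ a₁`, `k₁ a₁ ≡ 1`; then `e ≡ 1` modulo `2 q₀`, `f ≡ a₁` modulo `q₀` and all four moduli are `≡ a₁ ≡ r₀` modulo `q₀`.
-/

set_option autoImplicit false

namespace PA25

open Finset Pasch

private lemma w2_cop {x x0 y0 P l : ℕ} (h1 : x ≡ y0 [MOD P]) (hy : y0.Coprime P) (h2 : x ≡ x0 [MOD l])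
    (h3 : l.Coprime x0) : x.Coprime (P * l) := by
  refine Nat.Coprime.mul_right ?_ ?_
  · have := h1.gcd_eq
    rw [hy] at this
    exact this
  · have := h2.gcd_eq
    have h4 : x0.gcd l = 1 := by rw [Nat.gcd_comm]; exact h3
    rw [h4] at this
    exact this

private lemma w2_val {x y0 P p : ℕ} (h1 : x ≡ y0 [MOD P]) (hp : p ∣ P) : ((x : ℕ) : ZMod p) = ((y0 : ℕ) : ZMod p) :=
  (ZMod.natCast_eq_natCast_iff _ _ _).2 (h1.of_dvd hp)

private lemma w2_ne {x l : ℕ} (hl : l.Prime) (h : l.Coprime x) : ((x : ℕ) : ZMod l) ≠ 0 := by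
  intro h0
  rw [ZMod.natCast_eq_zero_iff] at h0
  exact ((Nat.Prime.coprime_iff_not_dvd hl).1 h) h0

/-- the class of the four moduli -/
private lemma w2_conf {Q α β γ δ κ q₀ a₁ : ℕ} (hQ : 2 * q₀ ∣ Q) (hα : α ≡ a₁ [MOD 2 * q₀]) (hβ : β ≡ 1 [MOD 2 * q₀])
    (hγ : γ ≡ 1 [MOD 2 * q₀]) (hδ : δ ≡ 1 [MOD 2 * q₀]) (hκ : κ * a₁ ≡ 1 [MOD 2 * q₀]) (hq0 : 0 < q₀)
    {N w : ℕ} {q : Cf} (hq : IsConf N w q) (hcl : InCls Q α β γ δ κ q) (i : Fin 4) : ni i q ≡ a₁ [MOD q₀] := by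
  have ea : q.a ≡ a₁ [MOD 2 * q₀] := (hcl.a.of_dvd hQ).trans hα
  have eb : q.b ≡ 1 [MOD 2 * q₀] := (hcl.b.of_dvd hQ).trans hβ
  have ec : q.c ≡ 1 [MOD 2 * q₀] := (hcl.c.of_dvd hQ).trans hγ
  have ed : q.d ≡ 1 [MOD 2 * q₀] := (hcl.d.of_dvd hQ).trans hδ
  obtain ⟨k₁, hk1, hk2⟩ := hcl.k
  have ek : k₁ * a₁ ≡ 1 [MOD 2 * q₀] := (Nat.ModEq.mul_right _ (hk2.of_dvd hQ)).trans hκ
  have ee : q.e ≡ 1 [MOD 2 * q₀] := by
    have h3 : q.d * q.e + q.b * q.c ≡ 1 + 1 [MOD 2 * q₀] := by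
      rw [hq.eq1, hk1]
      calc 2 * k₁ * q.a = 2 * (k₁ * q.a) := by ring
        _ ≡ 2 * (k₁ * a₁) [MOD 2 * q₀] := Nat.ModEq.mul_left _ (Nat.ModEq.mul_left _ ea)
        _ ≡ 2 * 1 [MOD 2 * q₀] := Nat.ModEq.mul_left _ ek
    have h4 : q.b * q.c ≡ 1 [MOD 2 * q₀] := Nat.ModEq.mul eb ec
    have h5 : q.d * q.e ≡ 1 [MOD 2 * q₀] := Nat.ModEq.add_right_cancel h4 h3
    have h6 : 1 * q.e ≡ 1 [MOD 2 * q₀] := (Nat.ModEq.mul_right _ ed.symm).trans h5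
    rw [one_mul] at h6
    exact h6
  have ef : q.f ≡ a₁ [MOD q₀] := by
    have h3 : 2 * (k₁ * q.f) ≡ 2 * 1 [MOD 2 * q₀] := by
      have h4 : q.c * q.e + q.b * q.d ≡ 1 + 1 [MOD 2 * q₀] :=
        Nat.ModEq.add (Nat.ModEq.mul ec ee) (Nat.ModEq.mul eb ed)
      rw [hq.eq2, hk1] at h4
      calc 2 * (k₁ * q.f) = 2 * k₁ * q.f := by ring
        _ ≡ 1 + 1 [MOD 2 * q₀] := h4
    have h4 : k₁ * q.f ≡ 1 [MOD q₀] := Nat.ModEq.mul_left_cancel' (by norm_num) h3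
    have ek' : k₁ * a₁ ≡ 1 [MOD q₀] := ek.of_dvd (Dvd.intro_left _ rfl)
    calc q.f = 1 * q.f := (one_mul _).symm
      _ ≡ (k₁ * a₁) * q.f [MOD q₀] := Nat.ModEq.mul_right _ ek'.symm
      _ = a₁ * (k₁ * q.f) := by ring
      _ ≡ a₁ * 1 [MOD q₀] := Nat.ModEq.mul_left _ h4
      _ = a₁ := mul_one _
  have dq : q₀ ∣ 2 * q₀ := Dvd.intro_left _ rfl
  have ea' := ea.of_dvd dq
  have eb' := eb.of_dvd dq
  have ec' := ec.of_dvd dq
  have ed' := ed.of_dvd dq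
  have ee' := ee.of_dvd dq
  unfold ni n1 n2 n3 n4
  split_ifs
  · simpa using Nat.ModEq.mul (Nat.ModEq.mul ea' eb') ec'
  · simpa using Nat.ModEq.mul (Nat.ModEq.mul ea' ed') ee'
  · simpa using Nat.ModEq.mul (Nat.ModEq.mul eb' ed') ef
  · simpa using Nat.ModEq.mul (Nat.ModEq.mul ec' ee') ef

theorem W2_classes (J : Finset ℤ) (hJ : ∀ h ∈ J, h ≠ 0) (l : ℕ) (hl : l.Prime) (hl7 : 7 < l)
    (a₀ b₀ c₀ d₀ e₀ f₀ k₀ : ℕ) (hco : l.Coprime a₀ ∧ l.Coprime b₀ ∧ l.Coprime c₀ ∧ l.Coprime d₀ ∧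
      l.Coprime e₀ ∧ l.Coprime f₀ ∧ l.Coprime k₀)
    (h1 : d₀ * e₀ + b₀ * c₀ ≡ k₀ * a₀ [MOD l]) (h2 : c₀ * e₀ + b₀ * d₀ ≡ k₀ * f₀ [MOD l])
    (q₀ r₀ : ℕ) (hq0 : 0 < q₀) (hlq : ¬ l ∣ q₀) (hr0 : r₀.Coprime q₀) :
    ∃ Q α β γ δ κ : ℕ, Cls Q α β γ δ κ ∧ l ∣ Q ∧ (∀ h ∈ J, ∀ p : ℕ, p.Prime → (p : ℤ) ∣ h → p ∣ Q) ∧
      α ≡ a₀ [MOD l] ∧ β ≡ b₀ [MOD l] ∧ γ ≡ c₀ [MOD l] ∧ δ ≡ d₀ [MOD l] ∧ 2 * κ ≡ k₀ [MOD l] ∧
      (∀ (N w : ℕ) (q : Cf), IsConf N w q → InCls Q α β γ δ κ q → ∀ i, ni i q ≡ r₀ [MOD q₀]) := by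
  obtain ⟨ca, cb, cc, cd, ce, cf, ck⟩ := hco
  set y : ℕ := l + 7 + ∑ h ∈ J, h.natAbs with hy
  set S : Finset ℕ := (Finset.range (y + 1)).filter (fun p => p.Prime ∧ p ≠ l) with hS
  set P₀ : ℕ := ∏ p ∈ S, p with hP
  have hdvd : ∀ p : ℕ, p.Prime → p ≤ y → p ≠ l → p ∣ P₀ := by
    intro p hp hpy hpl
    exact Finset.dvd_prod_of_mem _ (by rw [hS, Finset.mem_filter, Finset.mem_range]; exact ⟨by omega, hp, hpl⟩)
  have hcop0 : P₀.Coprime l := by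
    rw [hP]
    refine Nat.Coprime.prod_left fun p hp => ?_
    rw [hS, Finset.mem_filter] at hp
    exact (Nat.coprime_primes hp.2.1 hl).2 hp.2.2
  have hPpos0 : 0 < P₀ := by
    rw [hP]
    refine Finset.prod_pos fun p hp => ?_
    rw [hS, Finset.mem_filter] at hp
    exact hp.2.1.pos
  have h2100 : 210 ∣ P₀ := by
    have hsub : ({2, 3, 5, 7} : Finset ℕ) ⊆ S := by
      intro p hp
      rw [hS, Finset.mem_filter, Finset.mem_range]
      simp only [Finset.mem_insert, Finset.mem_singleton] at hp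
      rcases hp with rfl | rfl | rfl | rfl
      · exact ⟨by omega, by norm_num, by omega⟩
      · exact ⟨by omega, by norm_num, by omega⟩
      · exact ⟨by omega, by norm_num, by omega⟩
      · exact ⟨by omega, by norm_num, by omega⟩
    have h := Finset.prod_dvd_prod_of_subset _ _ (fun p : ℕ => p) hsub
    have e : ∏ p ∈ ({2, 3, 5, 7} : Finset ℕ), p = 210 := by decide
    rw [e] at h
    exact h
  set P : ℕ := P₀ * (2 * q₀) with hPP
  have hcop : P.Coprime l := by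
    rw [hPP]
    refine Nat.Coprime.mul_left hcop0 (Nat.Coprime.mul_left ?_ ?_)
    · rw [Nat.coprime_comm, Nat.Prime.coprime_iff_not_dvd hl]
      intro h
      have := Nat.le_of_dvd (by norm_num) h
      omega
    · rw [Nat.coprime_comm, Nat.Prime.coprime_iff_not_dvd hl]
      exact hlq
  have hPpos : 0 < P := Nat.mul_pos hPpos0 (by omega)
  have h210 : 210 ∣ P := h2100.mul_right _
  have h2q : 2 * q₀ ∣ P := Dvd.intro_left _ rfl
  -- the class of `a` modulo `P`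
  obtain ⟨a₁, ha1P, ha1p, ha1q⟩ := Nat.forall_exists_prime_gt_and_modEq P (show q₀ ≠ 0 by omega) hr0
  have ha1c : a₁.Coprime P := by
    rw [Nat.Prime.coprime_iff_not_dvd ha1p]
    intro h
    have := Nat.le_of_dvd hPpos h
    omega
  obtain ⟨m, _, hm⟩ := Nat.exists_mul_mod_eq_one_of_coprime ha1c (by
    have := Nat.le_of_dvd hPpos h210
    omega)
  have hmc : m * a₁ ≡ 1 [MOD P] := by
    rw [mul_comm]
    unfold Nat.ModEq
    rw [hm, Nat.mod_eq_of_lt]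
    have := Nat.le_of_dvd hPpos h210
    omega
  have hmcop : m.Coprime P := by
    have h3 := hmc.gcd_eq
    rw [Nat.gcd_one_left] at h3
    exact Nat.Coprime.coprime_mul_right h3
  obtain ⟨α, hα1, hα2⟩ := Nat.chineseRemainder hcop a₁ a₀
  obtain ⟨β, hβ1, hβ2⟩ := Nat.chineseRemainder hcop 1 b₀
  obtain ⟨γ, hγ1, hγ2⟩ := Nat.chineseRemainder hcop 1 c₀
  obtain ⟨δ, hδ1, hδ2⟩ := Nat.chineseRemainder hcop 1 d₀
  obtain ⟨κ, hκ1, hκ2⟩ := Nat.chineseRemainder hcop m ((l + 1) / 2 * k₀)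
  have hodd : l % 2 = 1 := by
    rcases hl.eq_two_or_odd with h | h
    · omega
    · exact h
  have hκ3 : 2 * κ ≡ k₀ [MOD l] := by
    have h3 : 2 * κ ≡ 2 * ((l + 1) / 2 * k₀) [MOD l] := hκ2.mul_left 2
    have h4 : 2 * ((l + 1) / 2 * k₀) = l * k₀ + k₀ := by
      have h5 : 2 * ((l + 1) / 2) = l + 1 := by omega
      rw [← mul_assoc, h5]
      ring
    rw [h4] at h3
    refine h3.trans ?_
    have h6 : l * k₀ + k₀ ≡ 0 + k₀ [MOD l] := Nat.ModEq.add_right _ (by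
      rw [Nat.modEq_zero_iff_dvd]
      exact Dvd.intro _ rfl)
    simp
  have hfact : Fact l.Prime := ⟨hl⟩
  -- the values in ZMod l
  have zα : (α : ZMod l) = a₀ := (ZMod.natCast_eq_natCast_iff _ _ _).2 hα2
  have zβ : (β : ZMod l) = b₀ := (ZMod.natCast_eq_natCast_iff _ _ _).2 hβ2
  have zγ : (γ : ZMod l) = c₀ := (ZMod.natCast_eq_natCast_iff _ _ _).2 hγ2
  have zδ : (δ : ZMod l) = d₀ := (ZMod.natCast_eq_natCast_iff _ _ _).2 hδ2
  have zκ : (2 : ZMod l) * κ = k₀ := by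
    have := (ZMod.natCast_eq_natCast_iff _ _ _).2 hκ3
    push_cast at this
    exact this
  have z1 : (d₀ : ZMod l) * e₀ + b₀ * c₀ = k₀ * a₀ := by
    have := (ZMod.natCast_eq_natCast_iff _ _ _).2 h1
    push_cast at this
    exact this
  have z2 : (c₀ : ZMod l) * e₀ + b₀ * d₀ = k₀ * f₀ := by
    have := (ZMod.natCast_eq_natCast_iff _ _ _).2 h2
    push_cast at this
    exact this
  have hκcop : l.Coprime κ := by
    have h7 : (2 * κ).Coprime l := by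
      have := hκ3.gcd_eq
      have h4 : k₀.gcd l = 1 := by rw [Nat.gcd_comm]; exact ck
      rw [h4] at this
      exact this
    exact (Nat.Coprime.coprime_mul_left h7).symm
  have one1 : ∀ p : ℕ, p ∣ P → ((m : ℕ) : ZMod p) * ((a₁ : ℕ) : ZMod p) = 1 := by
    intro p hp
    have := (ZMod.natCast_eq_natCast_iff _ _ _).2 (hmc.of_dvd hp)
    push_cast at this
    exact this
  have hc1 : (1 : ℕ).Coprime P := Nat.coprime_one_left _
  refine ⟨P * l, α, β, γ, δ, κ, ⟨h210.mul_right l, Nat.mul_pos hPpos hl.pos, w2_cop hα1 ha1c hα2 ca,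
    w2_cop hβ1 hc1 hβ2 cb, w2_cop hγ1 hc1 hγ2 cc, w2_cop hδ1 hc1 hδ2 cd,
    w2_cop hκ1 hmcop (Nat.ModEq.refl κ) hκcop, ?_, ?_⟩, Dvd.intro_left _ rfl, ?_, hα2, hβ2, hγ2, hδ2, hκ3, ?_⟩
  · intro p hp hpQ hp2 hd
    have hz := (ZMod.intCast_zmod_eq_zero_iff_dvd _ _).2 hd
    push_cast at hz
    rcases (Nat.Prime.dvd_mul hp).1 hpQ with h | h
    · have hpf : Fact p.Prime := ⟨hp⟩
      rw [w2_val hκ1 h, w2_val hα1 h, w2_val hβ1 h, w2_val hγ1 h, Nat.cast_one] at hz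
      have h10 : (1 : ZMod p) = 0 := by
        linear_combination hz - 2 * one1 p h
      exact one_ne_zero h10
    · have hpl : p = l := (Nat.prime_dvd_prime_iff_eq hp hl).1 h
      subst hpl
      rw [zα, zβ, zγ, zκ] at hz
      have h8 : (d₀ : ZMod p) * e₀ = 0 := by linear_combination z1 + hz
      rcases mul_eq_zero.1 h8 with h9 | h9
      · exact w2_ne hl cd h9
      · exact w2_ne hl ce h9
  · intro p hp hpQ hp2 hd
    have hz := (ZMod.intCast_zmod_eq_zero_iff_dvd _ _).2 hd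
    push_cast at hz
    rcases (Nat.Prime.dvd_mul hp).1 hpQ with h | h
    · have hpf : Fact p.Prime := ⟨hp⟩
      rw [w2_val hκ1 h, w2_val hα1 h, w2_val hβ1 h, w2_val hγ1 h, w2_val hδ1 h, Nat.cast_one] at hz
      have h10 : ((2 : ℕ) : ZMod p) = 0 := by
        push_cast
        linear_combination hz - 2 * one1 p h
      rw [ZMod.natCast_eq_zero_iff] at h10
      exact hp2 ((Nat.prime_dvd_prime_iff_eq hp Nat.prime_two).1 h10)
    · have hpl : p = l := (Nat.prime_dvd_prime_iff_eq hp hl).1 h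
      subst hpl
      rw [zα, zβ, zγ, zκ, zδ] at hz
      have h8 : (d₀ : ZMod p) * (k₀ * f₀) = 0 := by
        linear_combination hz + (c₀ : ZMod p) * z1 - (d₀ : ZMod p) * z2
      rcases mul_eq_zero.1 h8 with h9 | h9
      · exact w2_ne hl cd h9
      · rcases mul_eq_zero.1 h9 with h11 | h11
        · exact w2_ne hl ck h11
        · exact w2_ne hl cf h11
  · intro h hh p hp hph
    by_cases hpl : p = l
    · rw [hpl]
      exact Dvd.intro_left _ rfl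
    · refine Dvd.dvd.mul_right (Dvd.dvd.mul_right (hdvd p hp ?_ hpl) _) l
      have h12 : p ∣ h.natAbs := by
        have := Int.natAbs_dvd_natAbs.2 hph
        simpa using this
      have h13 : p ≤ h.natAbs := Nat.le_of_dvd (by have := hJ h hh; omega) h12
      have h14 : h.natAbs ≤ ∑ h ∈ J, h.natAbs := Finset.single_le_sum (f := fun h : ℤ => h.natAbs) (fun _ _ => Nat.zero_le _) hh
      omega
  · intro N w q hq hcl i
    refine (w2_conf (h2q.mul_right l) (hα1.of_dvd h2q) (hβ1.of_dvd h2q) (hγ1.of_dvd h2q) (hδ1.of_dvd h2q) ?_ hq0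
      hq hcl i).trans ha1q
    exact (Nat.ModEq.mul_right _ (hκ1.of_dvd h2q)).trans (hmc.of_dvd h2q)

end PA25
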