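import Pool.Agent.LibPA25.E2
import Pool.Agent.LibPA25.Sec
import Pool.Agent.LibPA25.V0
import Pool.Agent.LibPA25.W1
import Pool.Agent.LibPA25.W2

/-!
(helper39) [PA25 W3].  THE MAIN THEOREM with the twist by a multiplicative function `g` (values `1, -1`), uniformly in `g`,
and a class `r` modulo `q₀`; from zero (with `second_proof`).
-/

set_option autoImplicit false

namespace PA25

open Finset Filter Topology Pasch SP15

private theorem w3_sqf {Q α β γ δ κ N w : ℕ} (hC : Cls Q α β γ δ κ) {q : Cf} (hq : IsConf N w q)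
    (hcl : InCls Q α β γ δ κ q) {l : ℕ} (hl : l.Prime) (hlQ : l ∣ Q) :
    (∀ i, Squarefree (l * ni i q)) ∧ (∀ i, (ni i q).Coprime Q) ∧ (∀ i, 0 < ni i q) ∧
      ∀ i, ni i q ≤ 10 ^ 4 * w ^ N := by
  have ca : q.a.Coprime Q := by
    have := hcl.a.gcd_eq
    rw [Nat.Coprime, this]; exact hC.a
  have cb : q.b.Coprime Q := by
    have := hcl.b.gcd_eq
    rw [Nat.Coprime, this]; exact hC.b
  have cc : q.c.Coprime Q := by
    have := hcl.c.gcd_eq
    rw [Nat.Coprime, this]; exact hC.c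
  have cd : q.d.Coprime Q := by
    have := hcl.d.gcd_eq
    rw [Nat.Coprime, this]; exact hC.d
  have ce := hcl.e
  have cf := hcl.f
  have hcop : ∀ i, (ni i q).Coprime Q := by
    intro i
    unfold ni n1 n2 n3 n4
    split_ifs
    · exact (ca.mul_left cb).mul_left cc
    · exact (ca.mul_left cd).mul_left ce
    · exact (cb.mul_left cd).mul_left cf
    · exact (cc.mul_left ce).mul_left cf
  have hs := hq.sqf
  have hdvd : ∀ i, ni i q ∣ q.a * q.b * q.c * q.d * q.e * q.f := by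
    intro i
    unfold ni n1 n2 n3 n4
    split_ifs
    · exact ⟨q.d * q.e * q.f, by ring⟩
    · exact ⟨q.b * q.c * q.f, by ring⟩
    · exact ⟨q.a * q.c * q.e, by ring⟩
    · exact ⟨q.a * q.b * q.d, by ring⟩
  have hsq : ∀ i, Squarefree (ni i q) := fun i => hs.squarefree_of_dvd (hdvd i)
  have hpos : ∀ i, 0 < ni i q := fun i => Nat.pos_of_ne_zero (hsq i).ne_zero
  refine ⟨fun i => ?_, hcop, hpos, fun i => ?_⟩
  · rw [Nat.squarefree_mul_iff]
    exact ⟨((hcop i).coprime_dvd_right hlQ).symm, hl.squarefree, hsq i⟩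
  · have e1 := hq.eq1
    have e2 := hq.eq2
    have a1 : q.b * q.c ≤ q.k * q.a := by rw [← e1]; exact Nat.le_add_left _ _
    have a2 : q.d * q.e ≤ q.k * q.a := by rw [← e1]; exact Nat.le_add_right _ _
    have a3 : q.b * q.d ≤ q.k * q.f := by rw [← e2]; exact Nat.le_add_left _ _
    have a4 : q.c * q.e ≤ q.k * q.f := by rw [← e2]; exact Nat.le_add_right _ _
    have h1 := hq.ahi
    have h2 := hq.fhi
    unfold ni n1 n2 n3 n4
    split_ifs
    · calc q.a * q.b * q.c = q.a * (q.b * q.c) := by ring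
        _ ≤ q.a * (q.k * q.a) := Nat.mul_le_mul_left _ a1
        _ = q.k * q.a ^ 2 := by ring
        _ ≤ _ := h1
    · calc q.a * q.d * q.e = q.a * (q.d * q.e) := by ring
        _ ≤ q.a * (q.k * q.a) := Nat.mul_le_mul_left _ a2
        _ = q.k * q.a ^ 2 := by ring
        _ ≤ _ := h1
    · calc q.b * q.d * q.f = q.f * (q.b * q.d) := by ring
        _ ≤ q.f * (q.k * q.f) := Nat.mul_le_mul_left _ a3
        _ = q.k * q.f ^ 2 := by ring
        _ ≤ _ := h2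
    · calc q.c * q.e * q.f = q.f * (q.c * q.e) := by ring
        _ ≤ q.f * (q.k * q.f) := Nat.mul_le_mul_left _ a4
        _ = q.k * q.f ^ 2 := by ring
        _ ≤ _ := h2

/-- the choice of `T` -/
private theorem w3_T (K n : ℕ) (hK : 1 ≤ K) (hn : 1 ≤ n) (T1 : ℕ) : ∀ᶠ X : ℕ in atTop,
    ∃ T : ℕ, T1 ≤ T ∧ K * T ^ n ≤ X ∧ X ≤ K * 2 ^ n * T ^ n := by
  filter_upwards [eventually_ge_atTop (K * T1 ^ n + T1 + K)] with X hX
  set P : ℕ → Prop := fun T => K * T ^ n ≤ X with hP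
  classical
  set T := Nat.findGreatest P X with hT
  have h1 : T1 ≤ T := by
    apply Nat.le_findGreatest
    · omega
    · show K * T1 ^ n ≤ X
      omega
  have h1' : 1 ≤ T := by
    apply Nat.le_findGreatest
    · omega
    · show K * 1 ^ n ≤ X
      rw [one_pow, mul_one]
      omega
  have h2 : P T := by
    apply Nat.findGreatest_spec (m := 1)
    · omega
    · show K * 1 ^ n ≤ X
      rw [one_pow, mul_one]
      omega
  refine ⟨T, h1, h2, ?_⟩
  have h3 : ¬ P (T + 1) ∨ X < T + 1 := by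
    by_cases h : T + 1 ≤ X
    · exact Or.inl (Nat.findGreatest_is_greatest (Nat.lt_succ_self _) h)
    · exact Or.inr (by omega)
  have h4 : X < K * (T + 1) ^ n := by
    rcases h3 with h3 | h3
    · exact not_le.1 h3
    · calc X < T + 1 := h3
        _ = 1 * (T + 1) ^ 1 := by ring
        _ ≤ K * (T + 1) ^ n := Nat.mul_le_mul hK (Nat.pow_le_pow_right (by omega) hn)
  calc X ≤ K * (T + 1) ^ n := h4.le
    _ ≤ K * (2 * T) ^ n := Nat.mul_le_mul_left _ (Nat.pow_le_pow_left (by omega) _)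
    _ = _ := by rw [mul_pow]; ring

private lemma w3_inv {l q₀ r : ℕ} (hlq : l.Coprime q₀) (hq0 : 0 < q₀) (hr : r.Coprime q₀) :
    ∃ r₀ : ℕ, r₀.Coprime q₀ ∧ l * r₀ ≡ r [MOD q₀] := by
  rcases Nat.lt_or_ge 1 q₀ with h | h
  · obtain ⟨m, _, hm⟩ := Nat.exists_mul_mod_eq_one_of_coprime hlq h
    have hm1 : l * m ≡ 1 [MOD q₀] := by
      unfold Nat.ModEq
      rw [hm, Nat.mod_eq_of_lt h]
    have hmc : m.Coprime q₀ := by
      have h3 := hm1.gcd_eq
      rw [Nat.gcd_one_left] at h3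
      exact Nat.Coprime.coprime_mul_left h3
    refine ⟨m * r, hmc.mul_left hr, ?_⟩
    calc l * (m * r) = (l * m) * r := by ring
      _ ≡ 1 * r [MOD q₀] := Nat.ModEq.mul_right _ hm1
      _ = r := one_mul _
  · have : q₀ = 1 := by omega
    subst this
    exact ⟨0, by simp, by simp [Nat.modEq_one]⟩

open Classical in
theorem W3_main (J : Finset ℤ) (hJ : ∀ h ∈ J, h ≠ 0) (l : ℕ) (hl : Loc J l) (q₀ r : ℕ) (hq0 : 0 < q₀)
    (hlq : ¬ l ∣ q₀) (hr : r.Coprime q₀) :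
    ∃ η : ℝ, 0 < η ∧ ∀ᶠ X : ℕ in atTop, ∀ g : ℕ → ℝ, (∀ n, g n = 1 ∨ g n = -1) →
      (∀ m n : ℕ, m.Coprime n → g (m * n) = g m * g n) →
      η * X ≤ #((Icc 1 X).filter fun c : ℕ => c ≡ r [MOD q₀] ∧ Squarefree c ∧ Odd c ∧ (∀ h ∈ J, Int.gcd h c = 1) ∧
        0 < g c * ∏ h ∈ J, Fre h c) ∧
      η * X ≤ #((Icc 1 X).filter fun c : ℕ => c ≡ r [MOD q₀] ∧ Squarefree c ∧ Odd c ∧ (∀ h ∈ J, Int.gcd h c = 1) ∧
        g c * ∏ h ∈ J, Fre h c < 0) := by
  have hSM := second_proof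
  obtain ⟨hlp, hl7, hlJ, a₀, b₀, c₀, d₀, e₀, f₀, k₀, hco, h1, h2, hneg⟩ := hl
  obtain ⟨r₀, hr0, hlr⟩ := w3_inv ((Nat.Prime.coprime_iff_not_dvd hlp).2 hlq) hq0 hr
  obtain ⟨Q, α, β, γ, δ, κ, hC, hlQ, hQJ, ea, eb, ec, ed, ek, hcls⟩ := W2_classes J hJ l hlp hl7 a₀ b₀ c₀ d₀ e₀ f₀ k₀
    hco h1 h2 q₀ r₀ hq0 hlq hr0
  obtain ⟨s, hs1, hs⟩ := L1_sieve
  obtain ⟨κ₉, hκ, T0, hT0⟩ := T6_first s hs1 hs hC
  have hN : 1000 ≤ NN s := by unfold NN; omega
  have hg : 1 ≤ gg s := by unfold gg; omega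
  choose C hC0 w1 hw1 using hSM (NN s) hN
  set CC : ℝ := ∑ i, C i with hCC
  have hCi : ∀ i, C i ≤ CC := fun i => Finset.single_le_sum (fun j _ => (hC0 j).le) (mem_univ i)
  have hCC0 : 0 < CC := lt_of_lt_of_le (hC0 0) (hCi 0)
  set W1 : ℕ := ∑ i, w1 i with hW1
  have hWi : ∀ i, w1 i ≤ W1 := fun i => Finset.single_le_sum (fun j _ => Nat.zero_le _) (mem_univ i)
  set t := gg s with htd
  set N := NN s with hNd
  set K : ℕ := 10 ^ 4 * l with hKd
  have hK1 : 1 ≤ K := by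
    have := hlp.pos
    rw [hKd]; omega
  have hn1 : 1 ≤ t * N := Nat.one_le_iff_ne_zero.2 (Nat.mul_ne_zero (by omega) (by omega))
  refine ⟨κ₉ ^ 2 * t ^ 2 / (16 * CC * (K * 2 ^ (t * N))), by positivity, ?_⟩
  filter_upwards [w3_T K (t * N) hK1 hn1 (T0 + W1 + 2)] with X hX
  obtain ⟨T, hT1, hT2, hT3⟩ := hX
  obtain ⟨S, hS, hSum⟩ := hT0 T (by omega)
  set w := T ^ t with hw
  have hTw : T ≤ w := by
    rw [hw]
    calc T = T ^ 1 := (pow_one T).symm
      _ ≤ T ^ t := Nat.pow_le_pow_right (by omega) hg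
  have hwN : w ^ N = T ^ (t * N) := by rw [hw, ← pow_mul]
  have hlogT : 0 < Real.log T := Real.log_pos (by exact_mod_cast (by omega : 1 < T))
  have hlogw : Real.log w = t * Real.log T := by
    rw [hw]
    push_cast
    rw [Real.log_pow]
  have hKl : K = 10 ^ 4 * l := hKd
  clear_value K
  clear_value w
  clear_value CC W1
  clear_value t N
  have hwpos : (0 : ℝ) < (w : ℝ) ^ N := by
    have h0 : 0 < w := by omega
    have h0' : (0 : ℝ) < (w : ℝ) := by exact_mod_cast h0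
    exact pow_pos h0' N
  have hmem : ∀ q ∈ S, ∀ i, l * ni i q ∈ Icc 1 X ∧ Squarefree (l * ni i q) ∧ Odd (l * ni i q) ∧
      (∀ h ∈ J, Int.gcd h ((l * ni i q : ℕ) : ℤ) = 1) ∧ l * ni i q ≡ r [MOD q₀] := by
    intro q hq i
    obtain ⟨g1, g2⟩ := hS q hq
    obtain ⟨s1, s2, s3, s4⟩ := w3_sqf hC g1 g2 hlp hlQ
    refine ⟨?_, s1 i, ?_, ?_, (Nat.ModEq.mul_left _ (hcls _ _ q g1 g2 i)).trans hlr⟩
    · rw [mem_Icc]
      constructor
      · have := Nat.mul_pos hlp.pos (s3 i)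
        omega
      · calc l * ni i q ≤ l * (10 ^ 4 * w ^ N) := Nat.mul_le_mul_left _ (s4 i)
          _ = K * T ^ (t * N) := by rw [hwN, hKl]; ring
          _ ≤ X := hT2
    · have hl2 : Odd l := hlp.odd_of_ne_two (by omega)
      have h2Q : 2 ∣ Q := Dvd.dvd.trans (by norm_num) hC.h210
      have hn2 : Odd (ni i q) := by
        rw [Nat.odd_iff, ← Nat.not_even_iff, even_iff_two_dvd]
        intro hd
        have := Nat.dvd_gcd hd h2Q
        rw [(s2 i)] at this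
        omega
      exact hl2.mul hn2
    · intro h hh
      have hcop : (h.natAbs).Coprime (l * ni i q) := by
        rw [Nat.coprime_iff_gcd_eq_one]
        by_contra hne
        obtain ⟨p, hp, hpd⟩ := Nat.exists_prime_and_dvd hne
        have hp1 : p ∣ h.natAbs := hpd.trans (Nat.gcd_dvd_left _ _)
        have hp2 : p ∣ l * ni i q := hpd.trans (Nat.gcd_dvd_right _ _)
        have hp3 : (p : ℤ) ∣ h := Int.natCast_dvd.2 hp1
        rcases (Nat.Prime.dvd_mul hp).1 hp2 with h5 | h5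
        · have : p = l := (Nat.prime_dvd_prime_iff_eq hp hlp).1 h5
          rw [this] at hp3
          exact hlJ h hh hp3
        · have h6 := hQJ h hh p hp hp3
          have := Nat.dvd_gcd h5 h6
          rw [(s2 i)] at this
          exact hp.one_lt.ne' (Nat.dvd_one.1 this)
      rw [Int.gcd, Int.natAbs_natCast]
      exact hcop
  have hBd : ∀ i : Fin 4, ∑ q ∈ S, ∑ q' ∈ S with l * ni i q' = l * ni i q, wt w q * wt w q' ≤
      CC * (w : ℝ) ^ N / Real.log w ^ 2 := by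
    intro i
    have h3 := hw1 i w (by have := hWi i; omega) S (fun q hq => (hS q hq).1)
    have h4 : ∀ q q' : Cf, l * ni i q' = l * ni i q ↔ ni i q' = ni i q := fun q q' =>
      ⟨fun h => Nat.eq_of_mul_eq_mul_left hlp.pos h, fun h => by rw [h]⟩
    have h5 : ∑ q ∈ S, ∑ q' ∈ S with l * ni i q' = l * ni i q, wt w q * wt w q' =
        ∑ q ∈ S, ∑ q' ∈ S with ni i q' = ni i q, wt w q * wt w q' := by
      refine sum_congr rfl fun q _ => sum_congr ?_ fun _ _ => rfl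
      ext q'
      rw [mem_filter, mem_filter, h4]
    rw [h5]
    refine h3.trans ?_
    have := hCi i
    gcongr
  have hwt : ∀ q ∈ S, 0 ≤ wt w q := fun q _ => by unfold wt; positivity
  have key : ∀ A : Finset ℕ, (∀ q ∈ S, ∃ i : Fin 4, l * ni i q ∈ A) →
      κ₉ ^ 2 * t ^ 2 / (16 * CC * (K * 2 ^ (t * N))) * X ≤ #A := by
    intro A hA
    have hE := E1_cauchy S (wt w) hwt (fun i q => l * ni i q) A hA _ hBd
    have hS0 : κ₉ * (w : ℝ) ^ N / Real.log T ≤ ∑ q ∈ S, wt w q := hSum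
    have h5 : (κ₉ * (w : ℝ) ^ N / Real.log T) ^ 2 ≤ 16 * #A * (CC * (w : ℝ) ^ N / Real.log w ^ 2) :=
      (pow_le_pow_left₀ (by positivity) hS0 2).trans hE
    rw [hlogw] at h5
    have hgR : (0 : ℝ) < t := by exact_mod_cast (by omega : 0 < t)
    have h6 : κ₉ ^ 2 * t ^ 2 * (w : ℝ) ^ N ≤ 16 * CC * #A := by
      have e1 : (κ₉ * (w : ℝ) ^ N / Real.log T) ^ 2 =
          (κ₉ ^ 2 * t ^ 2 * (w : ℝ) ^ N) * ((w : ℝ) ^ N / ((t : ℝ) * Real.log T) ^ 2) := by
        field_simp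
      have e2 : 16 * (#A : ℝ) * (CC * (w : ℝ) ^ N / ((t : ℝ) * Real.log T) ^ 2) =
          (16 * CC * #A) * ((w : ℝ) ^ N / ((t : ℝ) * Real.log T) ^ 2) := by ring
      rw [e1, e2] at h5
      exact le_of_mul_le_mul_right h5 (by positivity)
    have h7 : (X : ℝ) ≤ (K * 2 ^ (t * N)) * (w : ℝ) ^ N := by
      have : X ≤ K * 2 ^ (t * N) * w ^ N := by rw [hwN]; exact hT3
      exact_mod_cast this
    rw [div_mul_eq_mul_div, div_le_iff₀ (by positivity)]
    calc κ₉ ^ 2 * (t : ℝ) ^ 2 * X ≤ κ₉ ^ 2 * (t : ℝ) ^ 2 * ((K * 2 ^ (t * N)) * (w : ℝ) ^ N) := by gcongr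
      _ = (κ₉ ^ 2 * t ^ 2 * (w : ℝ) ^ N) * (K * 2 ^ (t * N)) := by ring
      _ ≤ (16 * CC * #A) * (K * 2 ^ (t * N)) := by gcongr
      _ = #A * (16 * CC * (K * 2 ^ (t * N))) := by ring
  intro g hg1 hg
  constructor
  · apply key
    intro q hq
    obtain ⟨g1, g2⟩ := hS q hq
    obtain ⟨⟨i, hi⟩, -⟩ := W1_signs J l hlp hC hlQ hco h1 h2 hneg ea eb ec ed ek g1 g2 g hg1 hg
    obtain ⟨m1, m2, m3, m4, m5⟩ := hmem q hq i
    exact ⟨i, mem_filter.2 ⟨m1, m5, m2, m3, m4, hi⟩⟩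
  · apply key
    intro q hq
    obtain ⟨g1, g2⟩ := hS q hq
    obtain ⟨-, ⟨i, hi⟩⟩ := W1_signs J l hlp hC hlQ hco h1 h2 hneg ea eb ec ed ek g1 g2 g hg1 hg
    obtain ⟨m1, m2, m3, m4, m5⟩ := hmem q hq i
    exact ⟨i, mem_filter.2 ⟨m1, m5, m2, m3, m4, hi⟩⟩

/-- the local hypothesis for one integer, with `l` large -/
theorem W3_loc (a : ℤ) (ha : a ≠ 0) (M : ℕ) : ∃ l : ℕ, M < l ∧ Loc {a} l := by
  obtain ⟨l, hlgt, hlp, hlm⟩ := Nat.forall_exists_prime_gt_and_modEq (a.natAbs + 16 + M)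
    (show (4 : ℕ) ≠ 0 by norm_num) (show Nat.Coprime 3 4 by norm_num)
  have hfact : Fact l.Prime := ⟨hlp⟩
  have h3 : l % 4 = 3 := hlm
  have hla : ¬ (l : ℤ) ∣ a := by
    intro h
    have := Nat.le_of_dvd (Int.natAbs_pos.2 ha) (Int.natCast_dvd.1 h)
    omega
  have ha0 : (a : ZMod l) ≠ 0 := by
    rw [Ne, ZMod.intCast_zmod_eq_zero_iff_dvd]; exact hla
  obtain ⟨y, hy⟩ := A1_exists_pos h3 (by omega) (a : ZMod l) ha0
  obtain ⟨z, hz⟩ := Kloo.exists_neg h3 (by omega) (a : ZMod l) ha0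
  have hneg : PA15.Kr l ((a : ZMod l) * (y : ZMod l) ^ 2) * PA15.Kr l ((a : ZMod l) * (z : ZMod l) ^ 2) < 0 :=
    mul_neg_of_pos_of_neg hy hz
  have hne : (y : ZMod l) ^ 2 ≠ (z : ZMod l) ^ 2 := by
    intro h
    rw [h] at hneg
    exact absurd hneg (not_lt.2 (mul_self_nonneg _))
  have hJ : ∀ h ∈ ({a} : Finset ℤ), ¬ (l : ℤ) ∣ h := by
    intro h hh
    rw [mem_singleton.1 hh]; exact hla
  rcases PA15.sq_or_neg h3 (y * z) with hsq | hsq
  · refine ⟨l, by omega, loc_of {a} l (by omega) hJ y z hsq ?_ (by rw [prod_singleton]; exact hneg)⟩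
    rintro rfl
    apply hne
    rw [Units.val_neg]; ring
  · have e : ((-z : (ZMod l)ˣ) : ZMod l) ^ 2 = (z : ZMod l) ^ 2 := by rw [Units.val_neg]; ring
    refine ⟨l, by omega, loc_of {a} l (by omega) hJ y (-z) (by rw [mul_neg]; exact hsq) ?_
      (by rw [prod_singleton, e]; exact hneg)⟩
    rw [neg_neg]
    rintro rfl
    exact hne rfl

open Classical in
/-- one integer, all classes, all multiplicative twists -/
theorem W3_one (a : ℤ) (ha : a ≠ 0) (q r : ℕ) (hq : 0 < q) (hr : r.Coprime q) :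
    ∃ η : ℝ, 0 < η ∧ ∀ᶠ X : ℕ in atTop, ∀ g : ℕ → ℝ, (∀ n, g n = 1 ∨ g n = -1) →
      (∀ m n : ℕ, m.Coprime n → g (m * n) = g m * g n) →
      η * X ≤ #((Icc 1 X).filter fun c : ℕ => c ≡ r [MOD q] ∧ Squarefree c ∧ Odd c ∧ Int.gcd a c = 1 ∧
        0 < g c * Fre a c) ∧
      η * X ≤ #((Icc 1 X).filter fun c : ℕ => c ≡ r [MOD q] ∧ Squarefree c ∧ Odd c ∧ Int.gcd a c = 1 ∧
        g c * Fre a c < 0) := by
  obtain ⟨l, hlq, hl⟩ := W3_loc a ha q
  have hnd : ¬ l ∣ q := fun h => by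
    have := Nat.le_of_dvd hq h
    omega
  obtain ⟨η, hη, h⟩ := W3_main {a} (by simpa using ha) l hl q r hq hnd hr
  refine ⟨η, hη, ?_⟩
  filter_upwards [h] with X hX g hg1 hg
  simpa using hX g hg1 hg

end PA25
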