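import Pool.Agent.LibPA25.Defs

/-!
ROW [PA25 A1].  The three linear forms `a, E, F` in `t`.
PROOF.  `(Q, d e₀) = 1`, `(2 k₁, d e₀) = 1` (`cop`, `2 ∣ Q`, so everything in `k₁ b c d e₀` is odd).  CRT: choose `a1` with `a1 ≡ α [MOD Q]`, `2 k₁ a1 ≡ b c [MOD d e₀]`,
`H < a1 ≤ H + Q d e₀`.  `2 k₁ a1 > 2 k₁ H ≥ 8 b c` so `E1 := (2 k₁ a1 - b c)/(d e₀)` is positive (`b c ≥ 1`).
`d (c e₀ E1 + b d) = c (2 k₁ a1 - b c) + b d² = 2 k₁ c a1 + b (d² - c²)`; `k₁ ∣ d² - c²`, `2 ∣ d² - c²` (`c, d` odd), `k₁` odd, `(d, 2 k₁) = 1`: so `2 k₁ ∣ c e₀ E1 + b d`,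
`F1` = quotient, and `k₁ d F1 = k₁ c a1 + b (d² - c²)/2`.
Coprimality.  `a1`: `α` is prime to `Q`; a prime `p ∣ d e₀`, `p ∣ a1` gives `p ∣ b c`, impossible.  `E1`: `p = 2`: `d e₀ E1 = 2 k₁ a1 - b c` is odd; `p ∣ k₁`: `p ∣ b c`, impossible;
`p ∣ Q`, `p ≠ 2`: `d e₀ E1 ≡ 2 κ α - β γ` mod `p`, `Cls.e`.  `F1`: `p = 2`: `8 ∣ d² - c²`, so `k₁ d F1 ≡ k₁ c a1` mod 2 is odd; `p ∣ Q`, `p ≠ 2`:
`2 k₁ d F1 ≡ 2 κ γ α + β (δ² - γ²)`, `Cls.f`; `p ∣ c`: `p ∣ 2 k₁ F1 - b d`, `p ∣ F1` would give `p ∣ b d`, impossible; the same for `p ∣ e₀`.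
-/

set_option autoImplicit false

namespace PA25

open Finset Pasch

private theorem a1_inv {K M : ℕ} (hM : 0 < M) (h : K.Coprime M) : ∃ v : ℕ, K * v ≡ 1 [MOD M] := by
  rcases Nat.lt_or_ge 1 M with h1 | h1
  · obtain ⟨m, -, hm⟩ := Nat.exists_mul_mod_eq_one_of_coprime h h1
    refine ⟨m, ?_⟩
    unfold Nat.ModEq
    rw [hm, Nat.mod_eq_of_lt h1]
  · have : M = 1 := by omega
    subst this
    exact ⟨0, Nat.modEq_one⟩

private theorem a1_crt {Q M K : ℕ} (hQ : 0 < Q) (hM : 0 < M) (hQM : Q.Coprime M) (hKM : K.Coprime M) (α R H : ℕ) :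
    ∃ a, H < a ∧ a ≤ H + Q * M ∧ a ≡ α [MOD Q] ∧ K * a ≡ R [MOD M] := by
  obtain ⟨v, hv⟩ := a1_inv hM hKM
  obtain ⟨a0, h1, h2⟩ := Nat.chineseRemainder hQM α (v * R)
  have hQM0 : 0 < Q * M := Nat.mul_pos hQ hM
  have hlt := Nat.mod_lt (a0 + (H + 1) * (Q * M - 1)) hQM0
  have h3 : H + 1 + (a0 + (H + 1) * (Q * M - 1)) % (Q * M) ≡ a0 [MOD (Q * M)] := by
    have h4 : H + 1 + (a0 + (H + 1) * (Q * M - 1)) % (Q * M) ≡ H + 1 + (a0 + (H + 1) * (Q * M - 1)) [MOD (Q * M)] :=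
      Nat.ModEq.add_left _ (Nat.mod_modEq _ _)
    have h5 : H + 1 + (a0 + (H + 1) * (Q * M - 1)) = a0 + (H + 1) * (Q * M) := by
      have : (H + 1) * (Q * M) = (H + 1) * (Q * M - 1) + (H + 1) := by
        rw [← Nat.mul_succ]
        congr 1
        omega
      rw [this]
      ring
    rw [h5] at h4
    refine h4.trans ?_
    unfold Nat.ModEq
    rw [Nat.add_mul_mod_self_right]
  refine ⟨H + 1 + (a0 + (H + 1) * (Q * M - 1)) % (Q * M), by omega, by omega, ?_, ?_⟩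
  · exact (h3.of_dvd (Dvd.intro _ rfl)).trans h1
  · have h6 : H + 1 + (a0 + (H + 1) * (Q * M - 1)) % (Q * M) ≡ v * R [MOD M] :=
      (h3.of_dvd (Dvd.intro_left _ rfl)).trans h2
    calc K * (H + 1 + (a0 + (H + 1) * (Q * M - 1)) % (Q * M)) ≡ K * (v * R) [MOD M] := h6.mul_left K
      _ = K * v * R := by ring
      _ ≡ 1 * R [MOD M] := hv.mul_right R
      _ = R := one_mul R

private theorem a1_sq {N p x y : ℕ} (hN : Squarefree N) (hp : p.Prime) (hx : p ∣ x) (hy : p ∣ y) (h : x * y ∣ N) :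
    False := by
  have h1 := hN p ((mul_dvd_mul hx hy).trans h)
  rw [Nat.isUnit_iff] at h1
  exact hp.one_lt.ne' h1

private theorem a1_cop {x y : ℕ} (h : ∀ p : ℕ, p.Prime → p ∣ x → p ∣ y → False) : x.Coprime y :=
  Nat.coprime_of_dvd fun p hp hx hy => h p hp hx hy

private theorem a1_int {Q x y : ℕ} (h : x ≡ y [MOD Q]) {p : ℕ} (hp : p ∣ Q) : (x : ℤ) ≡ (y : ℤ) [ZMOD (p : ℤ)] :=
  Int.natCast_modEq_iff.2 (h.of_dvd hp)

theorem A1_forms {Q α β γ δ κ w H k₁ b c d e₀ : ℕ} (hC : Cls Q α β γ δ κ) (hP : Pre Q β γ δ κ w H k₁ b c d e₀)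
    (hH : 1 ≤ H) :
    ∃ a1 E1 F1 : ℕ, H < a1 ∧ a1 ≤ H + Q * d * e₀ ∧ a1 ≡ α [MOD Q] ∧ 0 < E1 ∧ 0 < F1 ∧
      d * (e₀ * E1) + b * c = 2 * k₁ * a1 ∧ c * (e₀ * E1) + b * d = 2 * k₁ * F1 ∧
      a1.Coprime (Q * d * e₀) ∧ E1.Coprime (2 * k₁ * Q) ∧ F1.Coprime (c * e₀ * Q) := by
  have hQ0 := hC.pos
  have h2Q : 2 ∣ Q := dvd_trans (by norm_num) hC.h210
  have hN := hP.sqf
  have hN0 : k₁ * b * c * d * e₀ ≠ 0 := hN.ne_zero
  have hk0 : 0 < k₁ := Nat.pos_of_ne_zero fun h => hN0 (by rw [h]; simp)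
  have hb0 : 0 < b := Nat.pos_of_ne_zero fun h => hN0 (by rw [h]; simp)
  have hc0 : 0 < c := Nat.pos_of_ne_zero fun h => hN0 (by rw [h]; simp)
  have hd0 : 0 < d := Nat.pos_of_ne_zero fun h => hN0 (by rw [h]; simp)
  have he0 : 0 < e₀ := Nat.pos_of_ne_zero fun h => hN0 (by rw [h]; simp)
  have hcop : ∀ p : ℕ, p.Prime → p ∣ k₁ * b * c * d * e₀ → p ∣ Q → False := fun p hp h1 h2 =>
    Nat.not_coprime_of_dvd_of_dvd hp.one_lt h1 h2 hP.cop
  have hk2 : ¬ 2 ∣ k₁ := fun h => hcop 2 Nat.prime_two (by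
    rw [show k₁ * b * c * d * e₀ = k₁ * (b * c * d * e₀) by ring]; exact Dvd.dvd.mul_right h _) h2Q
  have hb2 : ¬ 2 ∣ b := fun h => hcop 2 Nat.prime_two (by
    rw [show k₁ * b * c * d * e₀ = b * (k₁ * c * d * e₀) by ring]; exact Dvd.dvd.mul_right h _) h2Q
  have hc2 : ¬ 2 ∣ c := fun h => hcop 2 Nat.prime_two (by
    rw [show k₁ * b * c * d * e₀ = c * (k₁ * b * d * e₀) by ring]; exact Dvd.dvd.mul_right h _) h2Q
  have hd2 : ¬ 2 ∣ d := fun h => hcop 2 Nat.prime_two (by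
    rw [show k₁ * b * c * d * e₀ = d * (k₁ * b * c * e₀) by ring]; exact Dvd.dvd.mul_right h _) h2Q
  have hQM : Q.Coprime (d * e₀) := a1_cop fun p hp h1 h2 => hcop p hp (by
    rw [show k₁ * b * c * d * e₀ = (d * e₀) * (k₁ * b * c) by ring]; exact Dvd.dvd.mul_right h2 _) h1
  have hkM : k₁.Coprime (d * e₀) := a1_cop fun p hp h1 h2 => a1_sq hN hp h1 h2 ⟨b * c, by ring⟩
  have h2M : Nat.Coprime 2 (d * e₀) := (Nat.Coprime.of_dvd_left h2Q hQM)
  have hKM : (2 * k₁).Coprime (d * e₀) := Nat.Coprime.mul_left h2M hkM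
  obtain ⟨a1, ha1, ha2', ha3, ha4⟩ := a1_crt hQ0 (Nat.mul_pos hd0 he0) hQM hKM α (b * c) H
  have hbig : b * c < 2 * k₁ * a1 := by
    have h1 : k₁ * H ≤ k₁ * a1 := Nat.mul_le_mul_left _ ha1.le
    have h2 := hP.bH
    have h3 : 0 < b * c := Nat.mul_pos hb0 hc0
    calc b * c < 4 * (b * c) := by omega
      _ ≤ k₁ * a1 := h2.trans h1
      _ ≤ 2 * k₁ * a1 := by
          have : 2 * k₁ * a1 = 2 * (k₁ * a1) := by ring
          omega
  obtain ⟨E1, hE1⟩ : d * e₀ ∣ 2 * k₁ * a1 - b * c := (Nat.modEq_iff_dvd' hbig.le).1 ha4.symm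
  have hE : d * (e₀ * E1) + b * c = 2 * k₁ * a1 := by
    rw [← mul_assoc, ← hE1]
    omega
  have hE0 : 0 < E1 := by
    rcases Nat.eq_zero_or_pos E1 with h | h
    · rw [h] at hE
      simp only [mul_zero, zero_add] at hE
      omega
    · exact h
  -- the third form
  have h8 : (8 : ℤ) ∣ (d : ℤ) ^ 2 - (c : ℤ) ^ 2 := by
    have hd' : (d : ℤ) % 8 = 1 ∨ (d : ℤ) % 8 = 3 ∨ (d : ℤ) % 8 = 5 ∨ (d : ℤ) % 8 = 7 := by omega
    have hc' : (c : ℤ) % 8 = 1 ∨ (c : ℤ) % 8 = 3 ∨ (c : ℤ) % 8 = 5 ∨ (c : ℤ) % 8 = 7 := by omega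
    have e1 : ((d : ℤ) ^ 2) % 8 = 1 := by
      rw [pow_two, Int.mul_emod]
      rcases hd' with h | h | h | h <;> rw [h] <;> norm_num
    have e2 : ((c : ℤ) ^ 2) % 8 = 1 := by
      rw [pow_two, Int.mul_emod]
      rcases hc' with h | h | h | h <;> rw [h] <;> norm_num
    omega
  have h2k : (2 * (k₁ : ℤ)) ∣ (d : ℤ) ^ 2 - (c : ℤ) ^ 2 := by
    apply IsCoprime.mul_dvd
    · have : IsCoprime ((2 : ℕ) : ℤ) (k₁ : ℤ) := Nat.isCoprime_iff_coprime.2 ((Nat.Prime.coprime_iff_not_dvd Nat.prime_two).2 hk2)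
      exact_mod_cast this
    · exact dvd_trans (by norm_num) h8
    · exact hP.kc
  have hEz : (d : ℤ) * (e₀ * E1) + b * c = 2 * k₁ * a1 := by exact_mod_cast hE
  have hid : (d : ℤ) * (c * (e₀ * E1) + b * d) = 2 * k₁ * (c * a1) + b * ((d : ℤ) ^ 2 - (c : ℤ) ^ 2) := by
    linear_combination (c : ℤ) * hEz
  have hdk : IsCoprime (2 * (k₁ : ℤ)) (d : ℤ) := by
    have h1 : (2 * k₁).Coprime d := Nat.Coprime.of_dvd_right (Dvd.intro _ rfl) hKM
    have := Nat.isCoprime_iff_coprime.2 h1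
    exact_mod_cast this
  have hdiv : (2 * (k₁ : ℤ)) ∣ c * (e₀ * E1) + b * d := by
    apply hdk.dvd_of_dvd_mul_left
    rw [hid]
    exact dvd_add (Dvd.intro _ rfl) (Dvd.dvd.mul_left h2k _)
  have hdivN : 2 * k₁ ∣ c * (e₀ * E1) + b * d := by exact_mod_cast hdiv
  obtain ⟨F1, hF⟩ := hdivN
  have hbd0 : 0 < b * d := Nat.mul_pos hb0 hd0
  have hF0 : 0 < F1 := by
    rcases Nat.eq_zero_or_pos F1 with h | h
    · rw [h] at hF
      omega
    · exact h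
  have hFz : (c : ℤ) * (e₀ * E1) + b * d = 2 * k₁ * F1 := by exact_mod_cast hF
  have hid2 : (2 : ℤ) * k₁ * (d * F1) = 2 * k₁ * (c * a1) + b * ((d : ℤ) ^ 2 - (c : ℤ) ^ 2) := by
    rw [← hid, hFz]
    ring
  have haQ : a1.Coprime Q := by
    have h1 := ha3.gcd_eq
    unfold Nat.Coprime
    rw [h1]
    exact hC.a
  have ha2 : ¬ 2 ∣ a1 := fun h => Nat.not_coprime_of_dvd_of_dvd (by norm_num) h h2Q haQ
  refine ⟨a1, E1, F1, ha1, by rw [mul_assoc]; exact ha2', ha3, hE0, hF0, hE, hF, ?_, ?_, ?_⟩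
  · rw [mul_assoc]
    apply Nat.Coprime.mul_right haQ
    apply a1_cop
    intro p hp h1 h2
    have h3 : p ∣ b * c := by
      have h4 : p ∣ d * (e₀ * E1) + b * c := by
        rw [hE]
        exact Dvd.dvd.mul_left h1 _
      have h5 : p ∣ d * (e₀ * E1) := by
        rw [← mul_assoc]
        exact Dvd.dvd.mul_right h2 _
      exact (Nat.dvd_add_right h5).1 h4
    exact a1_sq hN hp h3 h2 ⟨k₁, by ring⟩
  · apply a1_cop
    intro p hp h1 h2
    have h5 : p ∣ d * (e₀ * E1) := Dvd.dvd.mul_left (Dvd.dvd.mul_left h1 _) _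
    rcases (Nat.Prime.dvd_mul hp).1 h2 with h3 | h3
    · have h4 : p ∣ b * c := by
        have h6 : p ∣ d * (e₀ * E1) + b * c := by
          rw [hE]
          exact Dvd.dvd.mul_right h3 _
        exact (Nat.dvd_add_right h5).1 h6
      rcases (Nat.Prime.dvd_mul hp).1 h3 with h6 | h6
      · have h7 : p = 2 := (Nat.prime_dvd_prime_iff_eq hp Nat.prime_two).1 h6
        subst h7
        rcases (Nat.Prime.dvd_mul Nat.prime_two).1 h4 with h8 | h8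
        · exact hb2 h8
        · exact hc2 h8
      · exact a1_sq hN hp h6 h4 ⟨d * e₀, by ring⟩
    · by_cases hp2 : p = 2
      · subst hp2
        have h4 : 2 ∣ b * c := by
          have h6 : 2 ∣ d * (e₀ * E1) + b * c := by
            rw [hE, mul_assoc]
            exact Dvd.intro _ rfl
          exact (Nat.dvd_add_right h5).1 h6
        rcases (Nat.Prime.dvd_mul Nat.prime_two).1 h4 with h8 | h8
        · exact hb2 h8
        · exact hc2 h8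
      · apply hC.e p hp h3 hp2
        have m1 := a1_int hP.hk h3
        have m2 := a1_int ha3 h3
        have m3 := a1_int hP.hb h3
        have m4 := a1_int hP.hc h3
        have m5 : (2 * k₁ * a1 - b * c : ℤ) ≡ 2 * κ * α - β * γ [ZMOD (p : ℤ)] :=
          ((m1.mul_left 2).mul m2).sub (m3.mul m4)
        have m6 : (p : ℤ) ∣ 2 * k₁ * a1 - b * c := by
          rw [← hEz]
          have : (p : ℤ) ∣ (d : ℤ) * (e₀ * E1) := by exact_mod_cast h5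
          simpa using this
        exact (m5.dvd_iff).1 m6
  · apply a1_cop
    intro p hp h1 h2
    have hFp : p ∣ 2 * k₁ * F1 := Dvd.dvd.mul_left h1 _
    rcases (Nat.Prime.dvd_mul hp).1 h2 with h3 | h3
    · have h4 : p ∣ c * (e₀ * E1) := by
        rcases (Nat.Prime.dvd_mul hp).1 h3 with h5 | h5
        · exact Dvd.dvd.mul_right h5 _
        · exact Dvd.dvd.mul_left (Dvd.dvd.mul_right h5 _) _
      have h5 : p ∣ b * d := by
        rw [← hF] at hFp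
        exact (Nat.dvd_add_right h4).1 hFp
      exact a1_sq hN hp h3 h5 ⟨k₁, by ring⟩
    · by_cases hp2 : p = 2
      · subst hp2
        obtain ⟨F', hF'⟩ := h1
        obtain ⟨r, hr⟩ := h8
        have h9 : (k₁ : ℤ) * (c * a1) = 2 * (k₁ * (d * F') - 2 * b * r) := by
          have h10 : (F1 : ℤ) = 2 * F' := by exact_mod_cast hF'
          rw [hr, h10] at hid2
          linarith
        have h11 : (2 : ℤ) ∣ (k₁ : ℤ) * (c * a1) := ⟨_, h9⟩
        have h12 : 2 ∣ k₁ * (c * a1) := by exact_mod_cast h11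
        rcases (Nat.Prime.dvd_mul Nat.prime_two).1 h12 with h13 | h13
        · exact hk2 h13
        · rcases (Nat.Prime.dvd_mul Nat.prime_two).1 h13 with h14 | h14
          · exact hc2 h14
          · exact ha2 h14
      · apply hC.f p hp h3 hp2
        have m1 := a1_int hP.hk h3
        have m2 := a1_int ha3 h3
        have m3 := a1_int hP.hb h3
        have m4 := a1_int hP.hc h3
        have m7 := a1_int hP.hd h3
        have m5 : (2 * k₁ * c * a1 + b * ((d : ℤ) ^ 2 - (c : ℤ) ^ 2)) ≡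
            2 * κ * γ * α + β * ((δ : ℤ) ^ 2 - (γ : ℤ) ^ 2) [ZMOD (p : ℤ)] :=
          (((m1.mul_left 2).mul m4).mul m2).add (m3.mul ((m7.pow 2).sub (m4.pow 2)))
        have m6 : (p : ℤ) ∣ 2 * k₁ * c * a1 + b * ((d : ℤ) ^ 2 - (c : ℤ) ^ 2) := by
          have h15 : (2 * k₁ * c * a1 + b * ((d : ℤ) ^ 2 - (c : ℤ) ^ 2) : ℤ) = 2 * k₁ * d * F1 := by
            linarith
          rw [h15]
          have : (p : ℤ) ∣ (F1 : ℤ) := by exact_mod_cast h1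
          exact Dvd.dvd.mul_left this _
        exact (m5.dvd_iff).1 m6

end PA25
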