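import Pool.Agent.LibPA25.Defs

/-!
ROW [PA25 A2].  From the three rough numbers `a, E, F` to `GoodA` (`e = e₀ E`, `f = F`).
PROOF.  `c ≤ w^19`, `d ≤ 4 w^19`, `k₁ ≤ w²`, `e₀ ≤ w` have no prime factor `> w^100` (`w ≥ 2`).  Roughness: a prime `p ∣ a` does not divide `Q` (coprime), so `w^100 < p`; same `E`, `F`.
`e / e₀ = E`.  Coprime to `Q`: `e₀` (from `cop`) and `E`.  Squarefree of `a b c d (e₀ E) F`: the factors `b c d e₀` are squarefree and pairwise coprime (`Pre.sqf`); `a, E, F` squarefree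
(all their primes are `> w^100`, hypotheses `s1 s2 s3`).  Pairwise coprime (`p` prime): write `e = e₀ E`, `d e + b c = 2 k₁ a`, `c e + b d = 2 k₁ F`; every `p ∣ a` or `p ∣ E` or `p ∣ F`
is `> w^100`, hence does not divide `c, d, k₁, e₀, 2`.
`a, b`: hypothesis `ab`.  `a, e`: `p ∣ b c`, so `p ∣ b`.  `a, F`: `p ∣ c e + b d` and `p ∣ d e + b c`, so `p ∣ b (d² - c²)` and `p ∣ e (d² - c²)`; `d² - c²` is positive and
`≤ 16 w^38 < w^100`, so `p ∣ b`.  `b, e` (`p ∣ b`, `p ∣ E`): `p ∣ 2 k₁ a`, so `p ∣ a`.  `b, F`: `p ∣ c e`, `p ∣ e`, `p ∣ a`.  `E, F`: `p ∣ b d`, so `p ∣ b`, then as before `p ∣ a`, `p ∣ a, b`.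
-/

set_option autoImplicit false

namespace PA25

open Finset Pasch

private theorem a2_cop {m n : ℕ} (h : ∀ p : ℕ, p.Prime → p ∣ m → ¬ p ∣ n) : m.Coprime n :=
  Nat.Coprime.symm (Nat.coprime_of_dvd fun p hp h1 h2 => h p hp h2 h1)

private theorem a2_sq {n W : ℕ} (hr : Rough W n) (hs : ∀ p : ℕ, p.Prime → W < p → ¬ p ^ 2 ∣ n) :
    Squarefree n := by
  rw [Nat.squarefree_iff_prime_squarefree]
  intro p hp hpn
  have h1 : p ∣ n := (dvd_mul_right p p).trans hpn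
  refine hs p hp (hr p hp h1) ?_
  rw [sq]
  exact hpn

private theorem a2_not {p n W : ℕ} (hn : 0 < n) (hnW : n ≤ W) (hp : W < p) : ¬ p ∣ n := by
  intro h
  have := Nat.le_of_dvd hn h
  omega

theorem A2_good {Q α β γ δ κ w H k₁ b c d e₀ : ℕ} (hw : 2 ≤ w) (hC : Cls Q α β γ δ κ)
    (hP : Pre Q β γ δ κ w H k₁ b c d e₀) {a E F : ℕ} (ha0 : 0 < a) (hE0 : 0 < E) (hF0 : 0 < F)
    (ha : a ≡ α [MOD Q]) (h1 : d * (e₀ * E) + b * c = 2 * k₁ * a) (h2 : c * (e₀ * E) + b * d = 2 * k₁ * F)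
    (c1 : a.Coprime (Q * d * e₀)) (c2 : E.Coprime (2 * k₁ * Q)) (c3 : F.Coprime (c * e₀ * Q))
    (r1 : ∀ p : ℕ, p.Prime → ¬ p ∣ Q → p ∣ a → w ^ 100 < p)
    (r2 : ∀ p : ℕ, p.Prime → ¬ p ∣ Q → p ∣ E → w ^ 100 < p)
    (r3 : ∀ p : ℕ, p.Prime → ¬ p ∣ Q → p ∣ F → w ^ 100 < p)
    (s1 : ∀ p : ℕ, p.Prime → w ^ 100 < p → ¬ p ^ 2 ∣ a) (s2 : ∀ p : ℕ, p.Prime → w ^ 100 < p → ¬ p ^ 2 ∣ E)
    (s3 : ∀ p : ℕ, p.Prime → w ^ 100 < p → ¬ p ^ 2 ∣ F)
    (ab : ∀ p : ℕ, p.Prime → w ^ 100 < p → p ∣ b → ¬ p ∣ a) :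
    GoodA Q α w k₁ b c d e₀ a (e₀ * E) F := by
  have hsq := hP.sqf
  have h0 : k₁ * b * c * d * e₀ ≠ 0 := hsq.ne_zero
  have he0 : 0 < e₀ := Nat.pos_of_ne_zero (right_ne_zero_of_mul h0)
  have hz1 := left_ne_zero_of_mul h0
  have hd0 : 0 < d := Nat.pos_of_ne_zero (right_ne_zero_of_mul hz1)
  have hz2 := left_ne_zero_of_mul hz1
  have hc0 : 0 < c := Nat.pos_of_ne_zero (right_ne_zero_of_mul hz2)
  have hz3 := left_ne_zero_of_mul hz2
  have hb0 : 0 < b := Nat.pos_of_ne_zero (right_ne_zero_of_mul hz3)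
  have hk0 : 0 < k₁ := Nat.pos_of_ne_zero (left_ne_zero_of_mul hz3)
  -- sizes
  have hpw : ∀ {i j : ℕ}, i ≤ j → w ^ i ≤ w ^ j := fun h => Nat.pow_le_pow_right (by omega) h
  have hw4 : 4 ≤ w ^ 2 := by nlinarith
  have hcW : c ≤ w ^ 100 := hP.cw.trans (hpw (by norm_num))
  have hdc := hP.dc
  have hcw := hP.cw
  have hkw := hP.kw
  have hew := hP.ew
  have hcd := hP.cd
  have hd21 : d ≤ w ^ 21 := by
    calc d ≤ 4 * c := hdc
      _ ≤ w ^ 2 * w ^ 19 := Nat.mul_le_mul hw4 hcw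
      _ = w ^ 21 := by ring
  have hdW : d ≤ w ^ 100 := hd21.trans (hpw (by norm_num))
  have hkW : k₁ ≤ w ^ 100 := by
    have : k₁ ≤ w ^ 2 := by omega
    exact this.trans (hpw (by norm_num))
  have heW : e₀ ≤ w ^ 100 := by
    have : w ^ 1 ≤ w ^ 100 := hpw (by norm_num)
    rw [pow_one] at this
    omega
  have h2W : 2 ≤ w ^ 100 := by
    have : w ^ 1 ≤ w ^ 100 := hpw (by norm_num)
    rw [pow_one] at this
    omega
  have hdd : d ^ 2 ≤ w ^ 100 := by
    calc d ^ 2 ≤ (w ^ 21) ^ 2 := Nat.pow_le_pow_left hd21 2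
      _ = w ^ 42 := by ring
      _ ≤ w ^ 100 := hpw (by norm_num)
  -- large primes
  have nc : ∀ p : ℕ, w ^ 100 < p → ¬ p ∣ c := fun p hp => a2_not hc0 hcW hp
  have nd : ∀ p : ℕ, w ^ 100 < p → ¬ p ∣ d := fun p hp => a2_not hd0 hdW hp
  have nk : ∀ p : ℕ, w ^ 100 < p → ¬ p ∣ k₁ := fun p hp => a2_not hk0 hkW hp
  have ne : ∀ p : ℕ, w ^ 100 < p → ¬ p ∣ e₀ := fun p hp => a2_not he0 heW hp
  have n2 : ∀ p : ℕ, w ^ 100 < p → ¬ p ∣ 2 := fun p hp => a2_not (by norm_num) h2W hp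
  have nn : ∀ p : ℕ, w ^ 100 < p → ¬ p ∣ d ^ 2 - c ^ 2 := by
    intro p hp
    have hlt : c ^ 2 < d ^ 2 := Nat.pow_lt_pow_left hcd (by norm_num)
    exact a2_not (Nat.sub_pos_of_lt hlt) ((Nat.sub_le _ _).trans hdd) hp
  -- roughness
  have ra : Rough (w ^ 100) a := by
    intro p hp hpa
    refine r1 p hp (fun hpQ => ?_) hpa
    have h1 : p ∣ Q * d * e₀ := (hpQ.mul_right d).mul_right e₀
    exact hp.one_lt.ne' (Nat.eq_one_of_dvd_coprimes c1 hpa h1)
  have rE : Rough (w ^ 100) E := by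
    intro p hp hpa
    refine r2 p hp (fun hpQ => ?_) hpa
    have h1 : p ∣ 2 * k₁ * Q := hpQ.mul_left _
    exact hp.one_lt.ne' (Nat.eq_one_of_dvd_coprimes c2 hpa h1)
  have rF : Rough (w ^ 100) F := by
    intro p hp hpa
    refine r3 p hp (fun hpQ => ?_) hpa
    have h1 : p ∣ c * e₀ * Q := hpQ.mul_left _
    exact hp.one_lt.ne' (Nat.eq_one_of_dvd_coprimes c3 hpa h1)
  -- `p ∣ b` and `p ∣ E` are impossible together
  have bE : ∀ p : ℕ, p.Prime → w ^ 100 < p → p ∣ b → ¬ p ∣ E := by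
    intro p hp hpw' hpb hpE
    have h3 : p ∣ 2 * k₁ * a := by
      rw [← h1]
      exact dvd_add ((hpE.mul_left _).mul_left _) (hpb.mul_right _)
    rcases hp.dvd_mul.1 h3 with h4 | h4
    · rcases hp.dvd_mul.1 h4 with h5 | h5
      · exact n2 p hpw' h5
      · exact nk p hpw' h5
    · exact ab p hp hpw' hpb h4
  -- the squarefree part `U = b c d e₀`
  have hU : Squarefree (b * c * d * e₀) := by
    refine hsq.squarefree_of_dvd ⟨k₁, by ring⟩
  have hUb : ∀ p : ℕ, p.Prime → w ^ 100 < p → p ∣ b * c * d * e₀ → p ∣ b := by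
    intro p hp hpw' h
    rcases hp.dvd_mul.1 h with h | h
    · rcases hp.dvd_mul.1 h with h | h
      · rcases hp.dvd_mul.1 h with h | h
        · exact h
        · exact absurd h (nc p hpw')
      · exact absurd h (nd p hpw')
    · exact absurd h (ne p hpw')
  have cUa : (b * c * d * e₀).Coprime a := by
    refine a2_cop fun p hp h1 h2 => ?_
    have hpw' := ra p hp h2
    exact ab p hp hpw' (hUb p hp hpw' h1) h2
  have cUE : (b * c * d * e₀).Coprime E := by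
    refine a2_cop fun p hp h1 h2 => ?_
    have hpw' := rE p hp h2
    exact bE p hp hpw' (hUb p hp hpw' h1) h2
  have cUF : (b * c * d * e₀).Coprime F := by
    refine a2_cop fun p hp h3 h4 => ?_
    have hpw' := rF p hp h4
    have hpb := hUb p hp hpw' h3
    have h5 : p ∣ c * (e₀ * E) := by
      have h6 : p ∣ c * (e₀ * E) + b * d := by
        rw [h2]
        exact h4.mul_left _
      exact (Nat.dvd_add_iff_left (hpb.mul_right d)).2 h6
    rcases hp.dvd_mul.1 h5 with h6 | h6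
    · exact nc p hpw' h6
    · rcases hp.dvd_mul.1 h6 with h7 | h7
      · exact ne p hpw' h7
      · exact bE p hp hpw' hpb h7
  have caE : a.Coprime E := by
    refine a2_cop fun p hp h3 h4 => ?_
    have hpw' := ra p hp h3
    have h5 : p ∣ b * c := by
      have h6 : p ∣ d * (e₀ * E) + b * c := by
        rw [h1]
        exact h3.mul_left _
      exact (Nat.dvd_add_iff_right ((h4.mul_left e₀).mul_left d)).2 h6
    rcases hp.dvd_mul.1 h5 with h6 | h6
    · exact ab p hp hpw' h6 h3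
    · exact nc p hpw' h6
  have caF : a.Coprime F := by
    refine a2_cop fun p hp h3 h4 => ?_
    have hpw' := ra p hp h3
    have h5 : p ∣ c * (d * (e₀ * E) + b * c) := by
      rw [h1]
      exact (h3.mul_left _).mul_left _
    have h6 : p ∣ d * (c * (e₀ * E) + b * d) := by
      rw [h2]
      exact (h4.mul_left _).mul_left _
    have hlt : c ^ 2 < d ^ 2 := Nat.pow_lt_pow_left hcd (by norm_num)
    have h7 : d * (c * (e₀ * E) + b * d) = c * (d * (e₀ * E) + b * c) + b * (d ^ 2 - c ^ 2) := by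
      obtain ⟨t, ht⟩ := Nat.exists_eq_add_of_le hlt.le
      rw [ht, Nat.add_sub_cancel_left]
      have : d * (c * (e₀ * E) + b * d) = c * d * (e₀ * E) + b * d ^ 2 := by ring
      rw [this, ht]
      ring
    rw [h7] at h6
    have h8 : p ∣ b * (d ^ 2 - c ^ 2) := (Nat.dvd_add_iff_right h5).2 h6
    rcases hp.dvd_mul.1 h8 with h9 | h9
    · exact ab p hp hpw' h9 h3
    · exact nn p hpw' h9
  have cEF : E.Coprime F := by
    refine a2_cop fun p hp h3 h4 => ?_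
    have hpw' := rE p hp h3
    have h5 : p ∣ b * d := by
      have h6 : p ∣ c * (e₀ * E) + b * d := by
        rw [h2]
        exact h4.mul_left _
      exact (Nat.dvd_add_iff_right ((h3.mul_left e₀).mul_left c)).2 h6
    rcases hp.dvd_mul.1 h5 with h6 | h6
    · exact bE p hp hpw' h6 h3
    · exact nd p hpw' h6
  refine ⟨ha, ra, rF, h1, h2, dvd_mul_right _ _, ?_, ?_, ?_, ?_⟩
  · rw [Nat.mul_div_cancel_left _ he0]
    exact rE
  · have h3 : a * b * c * d * (e₀ * E) * F = (((b * c * d * e₀) * a) * E) * F := by ring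
    rw [h3]
    have k1 : Squarefree ((b * c * d * e₀) * a) := (Nat.squarefree_mul cUa).2 ⟨hU, a2_sq ra s1⟩
    have k2 : ((b * c * d * e₀) * a).Coprime E := Nat.Coprime.mul_left cUE caE
    have k3 : Squarefree (((b * c * d * e₀) * a) * E) := (Nat.squarefree_mul k2).2 ⟨k1, a2_sq rE s2⟩
    have k4 : (((b * c * d * e₀) * a) * E).Coprime F :=
      Nat.Coprime.mul_left (Nat.Coprime.mul_left cUF caF) cEF
    exact (Nat.squarefree_mul k4).2 ⟨k3, a2_sq rF s3⟩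
  · have k1 : e₀.Coprime Q := Nat.Coprime.coprime_dvd_left (dvd_mul_left _ _) hP.cop
    have k2 : E.Coprime Q := Nat.Coprime.coprime_dvd_right (dvd_mul_left _ _) c2
    exact Nat.Coprime.mul_left k1 k2
  · exact Nat.Coprime.coprime_dvd_right (dvd_mul_left _ _) c3

end PA25
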