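import Pool.Agent.LibPA25.Defs

/-!
ROW [PA25 P1].  Sizes of `HA`, `HB`.  ONLY MATHLIB (natural numbers).
PROOF.  `HA = √(w^N/(2k₁))`: `Nat.sqrt_le'`, `Nat.lt_succ_sqrt'`, `Nat.div_mul_le_self`, `Nat.lt_mul_div_succ`.  `w^N/(2k₁) ≥ w^(N-2) ≥ (w^(N/2-2))²`.
`HB = k₁ HA/(8 b₀ c) ≥ w^(N/2-2)/(8 w^20) ≥ w^(N/2 - 25)` (`8 ≤ w³`).  `k₁ HA < 8 b₀ c (HB + 1) ≤ 16 b₀ c HB` (`HB ≥ 1`).
-/

set_option autoImplicit false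

namespace PA25

open Finset Pasch

theorem P1_HA (N w k₁ : ℕ) (hw : 2 ≤ w) (hN : 60 ≤ N) (hk : 1 ≤ k₁) (hk2 : 2 * k₁ ≤ w ^ 2) :
    w ^ (N / 2 - 2) ≤ HA N w k₁ ∧ 2 * k₁ * HA N w k₁ ^ 2 ≤ w ^ N ∧ w ^ N < 2 * k₁ * (HA N w k₁ + 1) ^ 2 ∧
      HA N w k₁ ^ 2 ≤ w ^ N := by
  have hk0 : 0 < 2 * k₁ := by omega
  have hs : HA N w k₁ ^ 2 ≤ w ^ N / (2 * k₁) := Nat.sqrt_le' _
  refine ⟨?_, ?_, ?_, ?_⟩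
  · unfold HA
    rw [Nat.le_sqrt', Nat.le_div_iff_mul_le hk0]
    calc (w ^ (N / 2 - 2)) ^ 2 * (2 * k₁) ≤ (w ^ (N / 2 - 2)) ^ 2 * w ^ 2 :=
          Nat.mul_le_mul_left _ hk2
      _ = w ^ ((N / 2 - 2) * 2 + 2) := by rw [← pow_mul, ← pow_add]
      _ ≤ w ^ N := Nat.pow_le_pow_right (by omega) (by omega)
  · calc 2 * k₁ * HA N w k₁ ^ 2 ≤ 2 * k₁ * (w ^ N / (2 * k₁)) := Nat.mul_le_mul_left _ hs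
      _ ≤ w ^ N := Nat.mul_div_le _ _
  · have h1 : w ^ N < 2 * k₁ * (w ^ N / (2 * k₁) + 1) := Nat.lt_mul_div_succ _ hk0
    have h2 : w ^ N / (2 * k₁) < (HA N w k₁ + 1) ^ 2 := Nat.lt_succ_sqrt' _
    exact h1.trans_le (Nat.mul_le_mul_left _ h2)
  · exact hs.trans (Nat.div_le_self _ _)

theorem P1_HB (N w k₁ b₀ c : ℕ) (hw : 2 ≤ w) (hN : 60 ≤ N) (hk : 1 ≤ k₁) (hk2 : 2 * k₁ ≤ w ^ 2) (hb : 1 ≤ b₀)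
    (hbw : b₀ ≤ w) (hc : 1 ≤ c) (hcw : c ≤ w ^ 19) :
    w ^ (N / 2 - 25) ≤ HB N w k₁ b₀ c ∧ 8 * b₀ * c * HB N w k₁ b₀ c ≤ k₁ * HA N w k₁ ∧
      k₁ * HA N w k₁ ≤ 16 * b₀ * c * HB N w k₁ b₀ c ∧ HB N w k₁ b₀ c ≤ w ^ 2 * HA N w k₁ := by
  obtain ⟨hA, -, -, -⟩ := P1_HA N w k₁ hw hN hk hk2
  have hD0 : 0 < 8 * b₀ * c := by positivity
  have hD : 8 * b₀ * c ≤ w ^ 23 := by
    have h8 : 8 ≤ w ^ 3 := by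
      calc 8 = 2 ^ 3 := by norm_num
        _ ≤ w ^ 3 := Nat.pow_le_pow_left hw 3
    calc 8 * b₀ * c ≤ w ^ 3 * w * w ^ 19 := Nat.mul_le_mul (Nat.mul_le_mul h8 hbw) hcw
      _ = w ^ 23 := by ring
  have h1 : w ^ (N / 2 - 25) ≤ HB N w k₁ b₀ c := by
    unfold HB
    rw [Nat.le_div_iff_mul_le hD0]
    calc w ^ (N / 2 - 25) * (8 * b₀ * c) ≤ w ^ (N / 2 - 25) * w ^ 23 := Nat.mul_le_mul_left _ hD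
      _ = w ^ (N / 2 - 2) := by
          rw [← pow_add]
          congr 1
          omega
      _ ≤ HA N w k₁ := hA
      _ ≤ k₁ * HA N w k₁ := Nat.le_mul_of_pos_left _ hk
  have h2 : 8 * b₀ * c * HB N w k₁ b₀ c ≤ k₁ * HA N w k₁ := Nat.mul_div_le _ _
  have h0 : 1 ≤ HB N w k₁ b₀ c := (Nat.one_le_pow _ _ (by omega)).trans h1
  refine ⟨h1, h2, ?_, ?_⟩
  · have h3 : k₁ * HA N w k₁ < 8 * b₀ * c * (HB N w k₁ b₀ c + 1) := Nat.lt_mul_div_succ _ hD0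
    have h4 : 8 * b₀ * c * (HB N w k₁ b₀ c + 1) ≤ 8 * b₀ * c * (2 * HB N w k₁ b₀ c) :=
      Nat.mul_le_mul_left _ (by omega)
    calc k₁ * HA N w k₁ ≤ 8 * b₀ * c * (2 * HB N w k₁ b₀ c) := h3.le.trans h4
      _ = 16 * b₀ * c * HB N w k₁ b₀ c := by ring
  · calc HB N w k₁ b₀ c ≤ k₁ * HA N w k₁ := Nat.div_le_self _ _
      _ ≤ w ^ 2 * HA N w k₁ := Nat.mul_le_mul_right _ (by omega)

end PA25
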