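import Pool.Agent.LibPA25.L3
import Pool.Agent.LibPA25.A1
import Pool.Agent.LibPA25.A2
import Pool.Agent.LibPA25.P1

/-!
ROW [PA25 A3].  The number of `a`.
`P1_HA`, `P1_HB` (P1.lean) have all size facts about `HA`, `HB`.
PROOF.  `N = NN s = 1000 (s + 10)`.  `H = HA N w k₁ = √(w^N/(2k₁))`, `2 k₁ ≤ w²`: `H ≥ w^(N/2 - 1) - 1 ≥ w^(N/2 - 2)` for `w ≥ 2`.  `A1_forms` gives `a1 E1 F1`.  For all `t`:
`a = Q d e₀ t + a1`, `E = 2 k₁ Q t + E1`, `F = c e₀ Q t + F1` satisfy the two equations (`ring`/`linarith`), the congruence and the coprimalities.  `M = H / (Q d e₀) - 1`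
(natural division), so `a ≤ 2 H` for `t < M` and `M ≥ H/(2 Q d e₀) ≥ H/(8 Q w^20)`.  `L3_forms` with `r = 3`, `z = w^100`, `M' = b ≤ w^N ≤ z^N` (`m = N`):
`z^(s+2) ≤ M`: `w^(100 s + 200) * 8 Q w^20 * w² ≤ w^(N/2)` for `w ≥ 8 Q`.  `(A M + B) z² ≤ M²`: `A i M + B i ≤ 4 w² H + ..` (`Q d e₀ M + a1 ≤ 2 H + ..`,
`2 k₁ Q M + E1 ≤ 2 k₁ (a1 + H) ≤ 8 k₁ H`, `c e₀ Q M + F1 ≤ c e₀ Q M + c e₀ E1 + b d ≤ ..`; `F1 ≤ 2 k₁ F1 = c e₀ E1 + b d ≤ 2 k₁ a1 + 4 b c ≤ ..` since `c ≤ d ≤ 4c`), all `≤ 20 w² H`,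
and `M² ≥ H²/(64 Q² w^40) ≥ 20 w^202 H`.  `A2_good` turns the good `t` into elements `a` of `AS` (witnesses `e = e₀ E`, `f = F`), injectively.
Constant: `κ₀ M / (100 log w)^3 ≥ κ₀ H / (2 Q d e₀ 10^6 (log w)^3)`.
-/

set_option autoImplicit false

namespace PA25

open Finset Pasch

private theorem a3_pos {Q β γ δ κ w H k₁ b c d e₀ : ℕ} (hP : Pre Q β γ δ κ w H k₁ b c d e₀) :
    0 < k₁ ∧ 0 < b ∧ 0 < c ∧ 0 < d ∧ 0 < e₀ := by
  have h := hP.sqf.ne_zero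
  have h2 : 0 < k₁ * b * c * d * e₀ := Nat.pos_of_ne_zero h
  refine ⟨?_, ?_, ?_, ?_, ?_⟩ <;>
    · apply Nat.pos_of_ne_zero
      rintro rfl
      simp at h2

/-- the size facts -/
private theorem a3_sizes (s : ℕ) {Q β γ δ κ w k₁ b c d e₀ a1 E1 F1 : ℕ} (hQ : 0 < Q) (hw8 : 8 * Q ≤ w)
    (hP : Pre Q β γ δ κ w (HA (NN s) w k₁) k₁ b c d e₀)
    (h1 : HA (NN s) w k₁ < a1) (h2 : a1 ≤ HA (NN s) w k₁ + Q * d * e₀)
    (h3 : d * (e₀ * E1) + b * c = 2 * k₁ * a1) (h4 : c * (e₀ * E1) + b * d = 2 * k₁ * F1) (M : ℕ)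
    (hM : M = HA (NN s) w k₁ / (Q * d * e₀) - 1) :
    (w ^ 100) ^ (s + 2) ≤ M ∧ Q * d * e₀ * (M + 1) ≤ HA (NN s) w k₁ ∧ HA (NN s) w k₁ ≤ 2 * (Q * d * e₀) * M ∧
      (Q * d * e₀ * M + a1) * (w ^ 100) ^ 2 ≤ M ^ 2 ∧ (2 * k₁ * Q * M + E1) * (w ^ 100) ^ 2 ≤ M ^ 2 ∧
      (c * e₀ * Q * M + F1) * (w ^ 100) ^ 2 ≤ M ^ 2 := by
  obtain ⟨pk, pb, pc, pd, pe⟩ := a3_pos hP
  have hw2 : 2 ≤ w := by omega
  set H := HA (NN s) w k₁ with hHdef
  have hN : 60 ≤ NN s := by unfold NN; omega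
  obtain ⟨hH1, -, -, -⟩ := P1_HA (NN s) w k₁ hw2 hN pk hP.kw
  rw [← hHdef] at hH1
  have hNN : NN s / 2 - 2 = 500 * s + 4998 := by unfold NN; omega
  rw [hNN] at hH1
  have pD : 0 < Q * d * e₀ := by positivity
  -- `Q d e₀ ≤ w ^ 21`
  have hD : Q * d * e₀ ≤ w ^ 21 := by
    have hd : d ≤ 4 * w ^ 19 := hP.dc.trans (Nat.mul_le_mul_left 4 hP.cw)
    calc Q * d * e₀ ≤ Q * (4 * w ^ 19) * w := by
          apply Nat.mul_le_mul _ hP.ew
          exact Nat.mul_le_mul_left _ hd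
      _ = (4 * Q) * w ^ 20 := by ring
      _ ≤ w * w ^ 20 := by
          apply Nat.mul_le_mul_right
          omega
      _ = w ^ 21 := by ring
  -- `w ^ (500 s + 4977) ≤ H / D`
  have hq : w ^ (500 * s + 4977) ≤ H / (Q * d * e₀) := by
    rw [Nat.le_div_iff_mul_le pD]
    calc w ^ (500 * s + 4977) * (Q * d * e₀) ≤ w ^ (500 * s + 4977) * w ^ 21 := Nat.mul_le_mul_left _ hD
      _ = w ^ (500 * s + 4998) := by rw [← pow_add]
      _ ≤ H := hH1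
  have hpow : 2 * w ^ (500 * s + 4976) ≤ w ^ (500 * s + 4977) := by
    rw [show 500 * s + 4977 = (500 * s + 4976) + 1 by ring, pow_succ, mul_comm]
    exact Nat.mul_le_mul_left _ hw2
  have hpos : 1 ≤ w ^ (500 * s + 4976) := Nat.one_le_pow _ _ (by omega)
  have hMbig : w ^ (500 * s + 4976) ≤ M := by rw [hM]; omega
  have hM1 : M + 1 = H / (Q * d * e₀) := by rw [hM]; omega
  have hup : Q * d * e₀ * (M + 1) ≤ H := by rw [hM1]; exact Nat.mul_div_le _ _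
  have hlt : H < Q * d * e₀ * (M + 2) := by
    have := Nat.lt_mul_div_succ H pD
    rw [← hM1] at this
    exact this
  have hM4 : 2 ≤ M := by
    have : w ^ 1 ≤ w ^ (500 * s + 4976) := Nat.pow_le_pow_right (by omega) (by omega)
    rw [pow_one] at this
    omega
  have hHM : H ≤ 2 * (Q * d * e₀) * M := by nlinarith
  have hDH : Q * d * e₀ ≤ H := by nlinarith
  -- `H ≤ w ^ 22 * M`
  have hHM2 : H ≤ w ^ 22 * M := by
    calc H ≤ 2 * (Q * d * e₀) * M := hHM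
      _ ≤ (w * w ^ 21) * M := by
          apply Nat.mul_le_mul_right
          exact Nat.mul_le_mul hw2 hD
      _ = w ^ 22 * M := by ring
  have hk : 2 * k₁ ≤ w ^ 2 := hP.kw
  have hcd : c ≤ d := hP.cd.le
  have ha1 : a1 ≤ 2 * H := by omega
  have hw4 : 8 ≤ w := by nlinarith
  have key : ∀ X : ℕ, X ≤ 4 * w ^ 2 * H → X * (w ^ 100) ^ 2 ≤ M ^ 2 := by
    intro X hX
    have h226 : w ^ 226 ≤ M := by
      refine le_trans ?_ hMbig
      exact Nat.pow_le_pow_right (by omega) (by omega)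
    calc X * (w ^ 100) ^ 2 ≤ (4 * w ^ 2 * H) * (w ^ 100) ^ 2 := Nat.mul_le_mul_right _ hX
      _ ≤ (w * w ^ 2 * (w ^ 22 * M)) * (w ^ 100) ^ 2 := by
          apply Nat.mul_le_mul_right
          apply Nat.mul_le_mul _ hHM2
          apply Nat.mul_le_mul_right
          omega
      _ = w ^ 225 * M := by ring
      _ ≤ w ^ 226 * M := by
          apply Nat.mul_le_mul_right
          exact Nat.pow_le_pow_right (by omega) (by omega)
      _ ≤ M * M := Nat.mul_le_mul_right _ h226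
      _ = M ^ 2 := by ring
  have hw2H : H ≤ w ^ 2 * H := Nat.le_mul_of_pos_left _ (by positivity)
  have hDM : Q * d * e₀ * M ≤ H := le_trans (Nat.mul_le_mul_left _ (by omega)) hup
  have h4 : w ^ 2 * H + 3 * (w ^ 2 * H) = 4 * w ^ 2 * H := by ring
  refine ⟨?_, hup, hHM, key _ ?_, key _ ?_, key _ ?_⟩
  · rw [← pow_mul]
    refine le_trans ?_ hMbig
    apply Nat.pow_le_pow_right (by omega)
    have : 100 * (s + 2) = 100 * s + 200 := by ring
    omega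
  · omega
  · -- `2 k₁ Q M + E1`
    have e1 : Q * M ≤ H := by
      refine le_trans ?_ hDM
      apply Nat.mul_le_mul_right
      rw [mul_assoc]
      exact Nat.le_mul_of_pos_right _ (by positivity)
    have e2 : 2 * k₁ * Q * M ≤ w ^ 2 * H := by
      calc 2 * k₁ * Q * M = 2 * k₁ * (Q * M) := by ring
        _ ≤ w ^ 2 * H := Nat.mul_le_mul hk e1
    have e3 : E1 ≤ 2 * k₁ * a1 := by
      have : E1 ≤ d * (e₀ * E1) := by
        rw [← mul_assoc]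
        exact Nat.le_mul_of_pos_left _ (by positivity)
      omega
    have e4 : 2 * k₁ * a1 ≤ w ^ 2 * (2 * H) := Nat.mul_le_mul hk ha1
    have e5 : w ^ 2 * (2 * H) = 2 * (w ^ 2 * H) := by ring
    omega
  · have e1 : c * e₀ * Q * M ≤ H := by
      refine le_trans ?_ hDM
      apply Nat.mul_le_mul_right
      calc c * e₀ * Q = (Q * e₀) * c := by ring
        _ ≤ (Q * e₀) * d := Nat.mul_le_mul_left _ hcd
        _ = Q * d * e₀ := by ring
    have e2 : b * d ≤ k₁ * H := by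
      calc b * d ≤ b * (4 * c) := Nat.mul_le_mul_left _ hP.dc
        _ = 4 * (b * c) := by ring
        _ ≤ k₁ * H := hP.bH
    have e3 : c * (e₀ * E1) ≤ 2 * k₁ * a1 := by
      have : c * (e₀ * E1) ≤ d * (e₀ * E1) := Nat.mul_le_mul_right _ hcd
      omega
    have e4 : 2 * k₁ * F1 ≤ 2 * k₁ * (a1 + H) := by
      have x1 : 2 * k₁ * (a1 + H) = 2 * k₁ * a1 + 2 * (k₁ * H) := by ring
      omega
    have e5 : F1 ≤ a1 + H := Nat.le_of_mul_le_mul_left e4 (by positivity)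
    omega

theorem A3_count (s : ℕ) (hs1 : 1 ≤ s) (hs : LS s) {Q α β γ δ κ : ℕ} (hC : Cls Q α β γ δ κ) :
    ∃ κ₀ : ℝ, 0 < κ₀ ∧ ∃ w0 : ℕ, ∀ w : ℕ, w0 ≤ w → ∀ k₁ b c d e₀ : ℕ, b ≤ w ^ NN s →
      Pre Q β γ δ κ w (HA (NN s) w k₁) k₁ b c d e₀ →
      κ₀ * HA (NN s) w k₁ / (d * e₀ * Real.log w ^ 3) ≤ (#(AS Q (NN s) w α k₁ b c d e₀) : ℝ) := by
  classical
  obtain ⟨κL, hκL, hL⟩ := L3_forms s hs1 hs
  obtain ⟨z0, hz0⟩ := hL (NN s)
  have hQ := hC.pos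
  refine ⟨κL / (2 * Q * 10 ^ 6), by positivity, max z0 (8 * Q), ?_⟩
  intro w hw k₁ b c d e₀ hb hP
  have hw8 : 8 * Q ≤ w := le_trans (le_max_right _ _) hw
  have hwz : z0 ≤ w := le_trans (le_max_left _ _) hw
  have hw2 : 2 ≤ w := by omega
  obtain ⟨pk, pb, pc, pd, pe⟩ := a3_pos hP
  have hN : 60 ≤ NN s := by unfold NN; omega
  have hH1 : 1 ≤ HA (NN s) w k₁ :=
    le_trans (Nat.one_le_pow _ _ (by omega)) (P1_HA (NN s) w k₁ hw2 hN pk hP.kw).1
  obtain ⟨a1, E1, F1, g1, g2, g3, g4, g5, g6, g7, g8, g9, g10⟩ := A1_forms hC hP hH1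
  obtain ⟨m1, m2, m3, m4, m5, m6⟩ := a3_sizes s hQ hw8 hP g1 g2 g6 g7 _ rfl
  set M := HA (NN s) w k₁ / (Q * d * e₀) - 1 with hM
  have hzz : z0 ≤ w ^ 100 := hwz.trans (Nat.le_self_pow (by norm_num) w)
  have hcount := hz0 (w ^ 100) hzz Q M b 3 ![Q * d * e₀, 2 * k₁ * Q, c * e₀ * Q] ![a1, E1, F1] hC.h210 le_rfl m1 pb
    (hb.trans (Nat.pow_le_pow_left (Nat.le_self_pow (by norm_num) w) _)) (by
      intro i
      fin_cases i
      · exact ⟨by show 0 < Q * d * e₀; positivity, by show 0 < a1; omega, g8.symm, m4⟩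
      · exact ⟨by show 0 < 2 * k₁ * Q; positivity, g4, g9.symm, m5⟩
      · exact ⟨by show 0 < c * e₀ * Q; positivity, g5, g10.symm, m6⟩)
  -- the injection
  have hinj : (#{t ∈ range M | ∀ i : Fin 3,
      (∀ p : ℕ, p.Prime → ¬ p ∣ Q → p ∣ (![Q * d * e₀, 2 * k₁ * Q, c * e₀ * Q] : Fin 3 → ℕ) i * t + (![a1, E1, F1] : Fin 3 → ℕ) i → w ^ 100 < p) ∧
      (∀ p : ℕ, p.Prime → w ^ 100 < p → ¬ p ^ 2 ∣ (![Q * d * e₀, 2 * k₁ * Q, c * e₀ * Q] : Fin 3 → ℕ) i * t + (![a1, E1, F1] : Fin 3 → ℕ) i) ∧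
      (∀ p : ℕ, p.Prime → w ^ 100 < p → p ∣ b → ¬ p ∣ (![Q * d * e₀, 2 * k₁ * Q, c * e₀ * Q] : Fin 3 → ℕ) i * t + (![a1, E1, F1] : Fin 3 → ℕ) i)}) ≤
      #(AS Q (NN s) w α k₁ b c d e₀) := by
    apply card_le_card_of_injOn (fun t => Q * d * e₀ * t + a1)
    · intro t ht
      rw [mem_coe, mem_filter, mem_range] at ht
      obtain ⟨htM, ht⟩ := ht
      have t0 := ht 0
      have t1 := ht 1
      have t2 := ht 2
      simp only [Matrix.cons_val_zero, Matrix.cons_val_one, Matrix.cons_val_two, Matrix.tail_cons, Matrix.head_cons,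
        Matrix.cons_val] at t0 t1 t2
      rw [mem_coe, mem_AS]
      have hQD : 0 < Q * d * e₀ := by positivity
      have u1 : Q * d * e₀ * (t + 1) ≤ Q * d * e₀ * M := Nat.mul_le_mul_left _ htM
      have u2 : Q * d * e₀ * (t + 1) = Q * d * e₀ * t + Q * d * e₀ := by ring
      have u3 : Q * d * e₀ * (M + 1) = Q * d * e₀ * M + Q * d * e₀ := by ring
      refine ⟨⟨by show _ < Q * d * e₀ * t + a1; omega, by show Q * d * e₀ * t + a1 ≤ _; omega⟩,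
        e₀ * (2 * k₁ * Q * t + E1), c * e₀ * Q * t + F1, ?_⟩
      have pa : 0 < Q * d * e₀ * t + a1 := by omega
      have pE : 0 < 2 * k₁ * Q * t + E1 := by omega
      have pF : 0 < c * e₀ * Q * t + F1 := by omega
      refine A2_good hw2 hC hP pa pE pF ?_ ?_ ?_ ?_ ?_ ?_ t0.1 t1.1 t2.1 t0.2.1 t1.2.1 t2.2.1 ?_
      · show Q * d * e₀ * t + a1 ≡ α [MOD Q]
        have : Q * d * e₀ * t + a1 ≡ 0 + a1 [MOD Q] := by
          apply Nat.ModEq.add_right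
          exact (Nat.modEq_zero_iff_dvd).2 ⟨d * e₀ * t, by ring⟩
        rw [zero_add] at this
        exact this.trans g3
      · show d * (e₀ * (2 * k₁ * Q * t + E1)) + b * c = 2 * k₁ * (Q * d * e₀ * t + a1)
        calc d * (e₀ * (2 * k₁ * Q * t + E1)) + b * c = 2 * k₁ * Q * d * e₀ * t + (d * (e₀ * E1) + b * c) := by ring
          _ = 2 * k₁ * (Q * d * e₀ * t + a1) := by rw [g6]; ring
      · calc c * (e₀ * (2 * k₁ * Q * t + E1)) + b * d = 2 * k₁ * (c * e₀ * Q * t) + (c * (e₀ * E1) + b * d) := by ring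
          _ = 2 * k₁ * (c * e₀ * Q * t + F1) := by rw [g7]; ring
      · show (Q * d * e₀ * t + a1).Coprime (Q * d * e₀)
        rw [Nat.coprime_mul_left_add_left]
        exact g8
      · rw [Nat.coprime_mul_left_add_left]
        exact g9
      · rw [Nat.coprime_mul_left_add_left]
        exact g10
      · intro p hp hpw hpb
        exact t0.2.2 p hp hpw hpb
    · intro t ht t' ht' h
      have h' : Q * d * e₀ * t + a1 = Q * d * e₀ * t' + a1 := h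
      have hQD : 0 < Q * d * e₀ := by positivity
      exact Nat.eq_of_mul_eq_mul_left hQD (by omega)
  refine le_trans ?_ (Nat.cast_le.2 hinj)
  refine le_trans ?_ hcount
  -- the constants
  have hlog : 0 < Real.log w := Real.log_pos (by exact_mod_cast (by omega : 1 < w))
  have hl : Real.log ((w ^ 100 : ℕ) : ℝ) = 100 * Real.log w := by
    push_cast
    rw [Real.log_pow]
    norm_num
  rw [hl]
  have hHM : (HA (NN s) w k₁ : ℝ) ≤ 2 * (Q * d * e₀) * M := by exact_mod_cast m3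
  have hdpos : (0 : ℝ) < d * e₀ * Real.log w ^ 3 := by
    have : (0 : ℝ) < d := by exact_mod_cast pd
    have : (0 : ℝ) < e₀ := by exact_mod_cast pe
    positivity
  have hQr : (0 : ℝ) < Q := by exact_mod_cast hQ
  rw [div_le_div_iff₀ hdpos (by positivity)]
  have hd0 : (0 : ℝ) < d := by exact_mod_cast pd
  have he0 : (0 : ℝ) < e₀ := by exact_mod_cast pe
  calc κL / (2 * Q * 10 ^ 6) * (HA (NN s) w k₁ : ℝ) * (100 * Real.log w) ^ 3
      ≤ κL / (2 * Q * 10 ^ 6) * (2 * (Q * d * e₀) * M) * (100 * Real.log w) ^ 3 := by gcongr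
    _ = κL * M * (d * e₀ * Real.log w ^ 3) := by
        field_simp
        ring

end PA25
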