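import Pool.Agent.LibPA25.L4
import Pool.Agent.LibPA25.P1

/-!
ROW [PA25 B1].  The number of `B`.
`P1_HA`, `P1_HB` (P1.lean) have all size facts about `HA`, `HB`.
PROOF.  `L4_rough` with `q = Q`, `z = w^100`, `M' = 1`, `m = 0`, `H = HB = k₁ HA/(8 b₀ c)`, `r0` with `b₀ r0 ≡ β [MOD Q]` (`b₀` is prime to `Q`; `r0` prime to `Q` since `β` is):
`n ≡ r0 ↔ b₀ n ≡ β`.  Size: `HA ≥ w^(N/2 - 2)` (`2 k₁ ≤ w²`), so `HB ≥ w^(N/2 - 2)/(8 w^20) - 1`, and `Q² w^(100 (s + 3)) ≤ HB` for `w` large (`N = 1000 (s + 10)`).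
`log (w^100) = 100 log w`.
-/

set_option autoImplicit false

namespace PA25

open Finset Pasch

theorem B1_count (s : ℕ) (hs1 : 1 ≤ s) (hs : LS s) {Q β : ℕ} (hQ : 210 ∣ Q) (hQ0 : 0 < Q) (hβ : β.Coprime Q) :
    ∃ κ₁ : ℝ, 0 < κ₁ ∧ ∃ w0 : ℕ, ∀ w : ℕ, w0 ≤ w → ∀ k₁ b₀ c : ℕ, 1 ≤ k₁ → 2 * k₁ ≤ w ^ 2 → 1 ≤ b₀ → b₀ ≤ w →
      b₀.Coprime Q → 1 ≤ c → c ≤ w ^ 19 →
      κ₁ * HB (NN s) w k₁ b₀ c / Real.log w ≤ (#(BS Q (NN s) w β k₁ b₀ c) : ℝ) := by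
  classical
  obtain ⟨κ, hκ, hL⟩ := L4_rough s hs1 hs
  obtain ⟨z0, hz0⟩ := hL 0
  have hQr : (0 : ℝ) < Q := by exact_mod_cast hQ0
  have hQ1 : 1 < Q := by
    have := Nat.le_of_dvd hQ0 hQ
    omega
  refine ⟨κ / (100 * Q), by positivity, max 2 (max z0 (Q ^ 2)), ?_⟩
  intro w hw k₁ b₀ c hk1 hk2 hb1 hbw hbQ hc1 hcw
  have hw2 : 2 ≤ w := (le_max_left _ _).trans hw
  have hwz : z0 ≤ w := ((le_max_left _ _).trans (le_max_right _ _)).trans hw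
  have hwQ : Q ^ 2 ≤ w := ((le_max_right _ _).trans (le_max_right _ _)).trans hw
  have hz : z0 ≤ w ^ 100 := hwz.trans (Nat.le_self_pow (by norm_num) w)
  have hN : 60 ≤ NN s := by unfold NN; omega
  obtain ⟨hB1, -, -, -⟩ := P1_HB (NN s) w k₁ b₀ c hw2 hN hk1 hk2 hb1 hbw hc1 hcw
  have hsize : Q ^ 2 * (w ^ 100) ^ (s + 3) ≤ HB (NN s) w k₁ b₀ c := by
    have e1 : Q ^ 2 * (w ^ 100) ^ (s + 3) ≤ w ^ (1 + 100 * (s + 3)) := by
      have e0 : w ^ (1 + 100 * (s + 3)) = w * (w ^ 100) ^ (s + 3) := by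
        rw [pow_add w 1, pow_one, pow_mul]
      rw [e0]
      exact Nat.mul_le_mul_right _ hwQ
    have e2 : w ^ (1 + 100 * (s + 3)) ≤ w ^ (NN s / 2 - 25) := by
      refine Nat.pow_le_pow_right (by omega) ?_
      unfold NN
      omega
    exact e1.trans (e2.trans hB1)
  -- the class `r0`
  obtain ⟨m, -, hm⟩ := Nat.exists_mul_mod_eq_one_of_coprime hbQ hQ1
  have hm1 : b₀ * m ≡ 1 [MOD Q] := by
    unfold Nat.ModEq
    rw [hm, Nat.mod_eq_of_lt hQ1]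
  have hmQ : m.Coprime Q := by
    have h1 : Nat.gcd (b₀ * m) Q = 1 := by
      rw [hm1.gcd_eq]; simp
    exact Nat.Coprime.coprime_mul_left (k := b₀) h1
  have hr : b₀ * (m * β) ≡ β [MOD Q] := by
    have h1 := hm1.mul_right β
    rw [one_mul, mul_assoc] at h1
    exact h1
  have hrc : (m * β).Coprime Q := hmQ.mul_left hβ
  have main := hz0 (w ^ 100) hz Q (HB (NN s) w k₁ b₀ c) (m * β) 1 hQ hQ0 hsize hrc one_pos
    (by rw [pow_zero])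
  have hlog : Real.log ((w ^ 100 : ℕ) : ℝ) = 100 * Real.log w := by
    push_cast
    rw [Real.log_pow]
    norm_num
  rw [hlog] at main
  have e3 : κ / (100 * Q) * HB (NN s) w k₁ b₀ c / Real.log w =
      κ * HB (NN s) w k₁ b₀ c / (Q * (100 * Real.log w)) := by
    ring
  rw [e3]
  refine main.trans ?_
  have e4 : ({n ∈ Ioc (HB (NN s) w k₁ b₀ c) (2 * HB (NN s) w k₁ b₀ c) | n ≡ m * β [MOD Q] ∧ Rough (w ^ 100) n ∧
      Squarefree n ∧ n.Coprime 1} : Finset ℕ) ⊆ BS Q (NN s) w β k₁ b₀ c := by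
    intro n hn
    rw [Finset.mem_filter, Finset.mem_Ioc] at hn
    obtain ⟨h1, h2, h3, h4, -⟩ := hn
    rw [mem_BS]
    exact ⟨h1, (h2.mul_left b₀).trans hr, h3, h4⟩
  exact_mod_cast Finset.card_le_card e4

end PA25
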