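import Pool.Agent.LibPA25.A3
import Pool.Agent.LibPA25.B1

/-!
ROW [PA25 B2].  The number of pairs `(B, a)`.
`P1_HA`, `P1_HB` (P1.lean) have all size facts about `HA`, `HB`.
PROOF.  For `B ∈ BS` put `b = b₀ B`; `Pre Q β γ δ κ w HA k₁ b c d e₀` holds: `B` is squarefree and all its primes are `> w^100`, while `k₁ ≤ w²`, `b₀ ≤ w`, `c ≤ w^19`, `d ≤ 4 w^19`, `e₀ ≤ w`, so
`B` is coprime to `k₁ b₀ c d e₀` and also to `Q` (`w^100 ≥ Q` for `w` large; or: `b₀ B ≡ β`, `β` prime to `Q`).  `4 b c = 4 b₀ B c ≤ 8 b₀ c HB ≤ k₁ HA`.  `b ≤ w * 2 HB ≤ w^N`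
(`HB ≤ k₁ HA ≤ w² w^(N/2)`).  `A3_count` for every `B`, `B1_count` for the number:
sum `≥ κ₁ HB/log w * κ₀ HA/(d e₀ (log w)^3)`.  `HB ≥ k₁ HA/(16 b₀ c)` (the floor is `≥ 1` for `w` large), `HA² ≥ w^N/(8 k₁)` (`(HA+1)² > w^N/(2k₁)` and `HA ≥ 1`, so `4 HA² ≥ ..`), so the product is
`≥ κ₀ κ₁ w^N/(128 b₀ c d e₀ (log w)^4)`.
-/

set_option autoImplicit false

namespace PA25

open Finset Pasch

private theorem b2_cop {w B n : ℕ} (hr : Rough (w ^ 100) B) (hn : 1 ≤ n) (hnw : n ≤ w ^ 100) : B.Coprime n := by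
  rw [Nat.coprime_iff_gcd_eq_one]
  by_contra h
  obtain ⟨p, hp, hpd⟩ := Nat.exists_prime_and_dvd h
  have h1 := hr p hp (hpd.trans (Nat.gcd_dvd_left _ _))
  have h2 := Nat.le_of_dvd (by omega) (hpd.trans (Nat.gcd_dvd_right B n))
  omega

private theorem b2_pre {s : ℕ} {Q β γ δ κ : ℕ} (hβ : β.Coprime Q) {w k₁ b₀ c d e₀ : ℕ} (hw : 4 ≤ w)
    (hsq : Squarefree (k₁ * b₀ * c * d * e₀)) (hcop : (k₁ * b₀ * c * d * e₀).Coprime Q) (hc : c ≡ γ [MOD Q])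
    (hd : d ≡ δ [MOD Q]) (hk : k₁ ≡ κ [MOD Q]) (hkc : (k₁ : ℤ) ∣ (d : ℤ) ^ 2 - (c : ℤ) ^ 2) (hcd : c < d)
    (hdc : d ≤ 4 * c) (hkw : 2 * k₁ ≤ w ^ 2) (hcw : c ≤ w ^ 19) (hew : e₀ ≤ w) (hbw : b₀ ≤ w)
    {B : ℕ} (hB : B ∈ BS Q (NN s) w β k₁ b₀ c) :
    b₀ * B ≤ w ^ NN s ∧ Pre Q β γ δ κ w (HA (NN s) w k₁) k₁ (b₀ * B) c d e₀ := by
  have hne : k₁ * b₀ * c * d * e₀ ≠ 0 := hsq.ne_zero
  have hne' : k₁ ≠ 0 ∧ b₀ ≠ 0 ∧ c ≠ 0 ∧ d ≠ 0 ∧ e₀ ≠ 0 := by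
    refine ⟨?_, ?_, ?_, ?_, ?_⟩ <;> (rintro rfl; simp at hne)
  obtain ⟨hk0, hb0, hc0, hd0, he0⟩ := hne'
  rw [mem_BS] at hB
  obtain ⟨⟨_, hB2⟩, hBβ, hBr, hBs⟩ := hB
  have hNN : 60 ≤ NN s := by unfold NN; omega
  obtain ⟨a1, a2, a3, a4⟩ := P1_HA (NN s) w k₁ (by omega) hNN (by omega) hkw
  obtain ⟨b1, b2, b3, b4⟩ := P1_HB (NN s) w k₁ b₀ c (by omega) hNN (by omega) hkw (by omega) hbw (by omega) hcw
  have hw1 : ∀ n : ℕ, 1 ≤ w ^ n := fun n => Nat.one_le_pow _ _ (by omega)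
  have hHA : 1 ≤ HA (NN s) w k₁ := (hw1 _).trans a1
  have hbB : 4 * (b₀ * B * c) ≤ k₁ * HA (NN s) w k₁ := by
    calc 4 * (b₀ * B * c) ≤ 4 * (b₀ * (2 * HB (NN s) w k₁ b₀ c) * c) := by gcongr
      _ = 8 * b₀ * c * HB (NN s) w k₁ b₀ c := by ring
      _ ≤ _ := b2
  have hcopB : B.Coprime (k₁ * b₀ * c * d * e₀) := by
    have e1 : w ^ 1 ≤ w ^ 100 := Nat.pow_le_pow_right (by omega) (by norm_num)
    have e2 : w ^ 2 ≤ w ^ 100 := Nat.pow_le_pow_right (by omega) (by norm_num)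
    have e19 : w ^ 19 ≤ w ^ 100 := Nat.pow_le_pow_right (by omega) (by norm_num)
    have e20 : w ^ 20 ≤ w ^ 100 := Nat.pow_le_pow_right (by omega) (by norm_num)
    have ed : d ≤ w ^ 20 := by
      calc d ≤ 4 * c := hdc
        _ ≤ w * w ^ 19 := Nat.mul_le_mul hw hcw
        _ = w ^ 20 := by ring
    rw [pow_one] at e1
    refine Nat.Coprime.mul_right (Nat.Coprime.mul_right (Nat.Coprime.mul_right (Nat.Coprime.mul_right ?_ ?_) ?_) ?_) ?_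
    · exact b2_cop hBr (by omega) (by omega)
    · exact b2_cop hBr (by omega) (by omega)
    · exact b2_cop hBr (by omega) (by omega)
    · exact b2_cop hBr (by omega) (by omega)
    · exact b2_cop hBr (by omega) (by omega)
  have hBQ : B.Coprime Q := by
    have h1 : (b₀ * B).Coprime Q := by
      rw [Nat.coprime_iff_gcd_eq_one, hBβ.gcd_eq]
      exact hβ
    exact (Nat.coprime_mul_iff_left.mp h1).2
  have e : k₁ * (b₀ * B) * c * d * e₀ = B * (k₁ * b₀ * c * d * e₀) := by ring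
  constructor
  · have h1 : b₀ * B ≤ 4 * (b₀ * B * c) := by
      calc b₀ * B = 1 * (b₀ * B * 1) := by ring
        _ ≤ 4 * (b₀ * B * c) := by
          gcongr
          · omega
          · omega
    have h2 : k₁ * HA (NN s) w k₁ ≤ 2 * k₁ * HA (NN s) w k₁ ^ 2 := by
      calc k₁ * HA (NN s) w k₁ = 1 * k₁ * (HA (NN s) w k₁ * 1) := by ring
        _ ≤ 2 * k₁ * (HA (NN s) w k₁ * HA (NN s) w k₁) := by
          gcongr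
          omega
        _ = 2 * k₁ * HA (NN s) w k₁ ^ 2 := by ring
    omega
  · refine ⟨?_, ?_, hBβ, hc, hd, hk, hkc, hcd, hdc, hkw, hcw, hew, hbB⟩
    · rw [e, Nat.squarefree_mul hcopB]
      exact ⟨hBs, hsq⟩
    · rw [e]
      exact Nat.Coprime.mul_left hBQ hcop

theorem B2_sum (s : ℕ) (hs1 : 1 ≤ s) (hs : LS s) {Q α β γ δ κ : ℕ} (hC : Cls Q α β γ δ κ) :
    ∃ κ₂ : ℝ, 0 < κ₂ ∧ ∃ w0 : ℕ, ∀ w : ℕ, w0 ≤ w → ∀ k₁ b₀ c d e₀ : ℕ,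
      Squarefree (k₁ * b₀ * c * d * e₀) → (k₁ * b₀ * c * d * e₀).Coprime Q → c ≡ γ [MOD Q] → d ≡ δ [MOD Q] →
      k₁ ≡ κ [MOD Q] → (k₁ : ℤ) ∣ (d : ℤ) ^ 2 - (c : ℤ) ^ 2 → c < d → d ≤ 4 * c → 2 * k₁ ≤ w ^ 2 → c ≤ w ^ 19 →
      e₀ ≤ w → b₀ ≤ w →
      κ₂ * w ^ NN s / (b₀ * c * d * e₀ * Real.log w ^ 4) ≤
        ∑ B ∈ BS Q (NN s) w β k₁ b₀ c, (#(AS Q (NN s) w α k₁ (b₀ * B) c d e₀) : ℝ) := by
  obtain ⟨κ₀, hκ₀, w0, hA⟩ := A3_count s hs1 hs hC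
  obtain ⟨κ₁, hκ₁, w1, hB⟩ := B1_count s hs1 hs hC.h210 hC.pos hC.b
  refine ⟨κ₀ * κ₁ / 128, by positivity, max (max w0 w1) 4, ?_⟩
  intro w hw k₁ b₀ c d e₀ hsq hcop hc hd hk hkc hcd hdc hkw hcw hew hbw
  have hw0 : w0 ≤ w := (le_max_left _ _).trans ((le_max_left _ _).trans hw)
  have hw1 : w1 ≤ w := (le_max_right _ _).trans ((le_max_left _ _).trans hw)
  have hw4 : 4 ≤ w := (le_max_right _ _).trans hw
  have hne : k₁ * b₀ * c * d * e₀ ≠ 0 := hsq.ne_zero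
  have hne' : k₁ ≠ 0 ∧ b₀ ≠ 0 ∧ c ≠ 0 ∧ d ≠ 0 ∧ e₀ ≠ 0 := by
    refine ⟨?_, ?_, ?_, ?_, ?_⟩ <;> (rintro rfl; simp at hne)
  obtain ⟨hk0, hb0, hc0, hd0, he0⟩ := hne'
  have hNN : 60 ≤ NN s := by unfold NN; omega
  obtain ⟨a1, a2, a3, a4⟩ := P1_HA (NN s) w k₁ (by omega) hNN (by omega) hkw
  obtain ⟨b1, b2, b3, b4⟩ := P1_HB (NN s) w k₁ b₀ c (by omega) hNN (by omega) hkw (by omega) hbw (by omega) hcw
  have hHA : 1 ≤ HA (NN s) w k₁ := (Nat.one_le_pow _ _ (by omega)).trans a1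
  have hb0Q : b₀.Coprime Q :=
    Nat.Coprime.coprime_dvd_left ⟨k₁ * c * d * e₀, by ring⟩ hcop
  have hcard := hB w hw1 k₁ b₀ c (by omega) hkw (by omega) hbw hb0Q (by omega) hcw
  have hlog : 0 < Real.log w := by
    apply Real.log_pos
    have : (4 : ℝ) ≤ w := by exact_mod_cast hw4
    linarith
  have hdp : (0 : ℝ) < d := by exact_mod_cast Nat.pos_of_ne_zero hd0
  have hep : (0 : ℝ) < e₀ := by exact_mod_cast Nat.pos_of_ne_zero he0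
  have hbp : (0 : ℝ) < b₀ := by exact_mod_cast Nat.pos_of_ne_zero hb0
  have hcp : (0 : ℝ) < c := by exact_mod_cast Nat.pos_of_ne_zero hc0
  have hkp : (0 : ℝ) < k₁ := by exact_mod_cast Nat.pos_of_ne_zero hk0
  have hAr : (1 : ℝ) ≤ (HA (NN s) w k₁ : ℝ) := by exact_mod_cast hHA
  set R : ℝ := κ₀ * HA (NN s) w k₁ / (d * e₀ * Real.log w ^ 3) with hR
  have hR0 : 0 ≤ R := by positivity
  have hsum : (#(BS Q (NN s) w β k₁ b₀ c) : ℝ) * R ≤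
      ∑ B ∈ BS Q (NN s) w β k₁ b₀ c, (#(AS Q (NN s) w α k₁ (b₀ * B) c d e₀) : ℝ) := by
    rw [← nsmul_eq_mul]
    refine Finset.card_nsmul_le_sum _ _ _ fun B hBm => ?_
    obtain ⟨p1, p2⟩ := b2_pre hC.b hw4 hsq hcop hc hd hk hkc hcd hdc hkw hcw hew hbw hBm
    exact hA w hw0 k₁ (b₀ * B) c d e₀ p1 p2
  refine le_trans ?_ hsum
  refine le_trans ?_ (mul_le_mul_of_nonneg_right hcard hR0)
  -- sizes
  have hs1' : (k₁ : ℝ) * HA (NN s) w k₁ ≤ 16 * b₀ * c * HB (NN s) w k₁ b₀ c := by exact_mod_cast b3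
  have hs2 : (w : ℝ) ^ NN s ≤ 8 * k₁ * (HA (NN s) w k₁ : ℝ) ^ 2 := by
    have h1 : (w : ℝ) ^ NN s < 2 * k₁ * ((HA (NN s) w k₁ : ℝ) + 1) ^ 2 := by exact_mod_cast a3
    have h2 : ((HA (NN s) w k₁ : ℝ) + 1) ^ 2 ≤ (2 * (HA (NN s) w k₁ : ℝ)) ^ 2 :=
      pow_le_pow_left₀ (by positivity) (by linarith) 2
    calc (w : ℝ) ^ NN s ≤ 2 * k₁ * ((HA (NN s) w k₁ : ℝ) + 1) ^ 2 := h1.le
      _ ≤ 2 * k₁ * (2 * (HA (NN s) w k₁ : ℝ)) ^ 2 := mul_le_mul_of_nonneg_left h2 (by positivity)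
      _ = _ := by ring
  have hs3 : (w : ℝ) ^ NN s ≤ 128 * b₀ * c * (HB (NN s) w k₁ b₀ c * HA (NN s) w k₁) := by
    calc (w : ℝ) ^ NN s ≤ 8 * k₁ * (HA (NN s) w k₁ : ℝ) ^ 2 := hs2
      _ = 8 * ((k₁ : ℝ) * HA (NN s) w k₁) * HA (NN s) w k₁ := by ring
      _ ≤ 8 * (16 * b₀ * c * HB (NN s) w k₁ b₀ c) * HA (NN s) w k₁ := by gcongr
      _ = _ := by ring
  have e1 : κ₁ * HB (NN s) w k₁ b₀ c / Real.log w * R =
      κ₀ * κ₁ * (HB (NN s) w k₁ b₀ c * HA (NN s) w k₁) / (d * e₀ * Real.log w ^ 4) := by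
    rw [hR]
    field_simp
  rw [e1, div_le_div_iff₀ (by positivity) (by positivity)]
  calc κ₀ * κ₁ / 128 * (w : ℝ) ^ NN s * (d * e₀ * Real.log w ^ 4)
      ≤ κ₀ * κ₁ / 128 * (128 * b₀ * c * (HB (NN s) w k₁ b₀ c * HA (NN s) w k₁)) * (d * e₀ * Real.log w ^ 4) := by
        gcongr
    _ = _ := by ring

end PA25
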