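import Pool.Agent.LibPA25.L4

/-!
ROW [PA25 C1].  The sum over `C`.
PROOF.  Dyadic blocks: for `i` with `T^(11 g) ≤ 2^i`, `2^(i+1) ≤ T^(18 g)` the interval `(2^i, 2^(i+1)]` contains by `L4_rough` (`q = Q`, `z = T^5`, `H = 2^i`, `r0` with `c₀ r0 ≡ γ [MOD Q]`,
`M' = q ≤ T^(g+1) ≤ z^g`, `m = g`) at least `κ 2^i/(Q 5 log T)` elements of `CS`: they contribute `≥ κ/(10 Q log T)` to the sum.  The blocks are disjoint and their number is
`≥ 7 g log T/log 2 - 3 ≥ log T`.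
-/

set_option autoImplicit false

namespace PA25

open Finset Pasch

private theorem c1_inv {Q c₀ γ : ℕ} (hQ0 : 1 < Q) (hc : c₀.Coprime Q) (hγ : γ.Coprime Q) :
    ∃ r0 : ℕ, c₀ * r0 ≡ γ [MOD Q] ∧ r0.Coprime Q := by
  obtain ⟨u, -, hu⟩ := Nat.exists_mul_mod_eq_one_of_coprime hc hQ0
  have hu' : c₀ * u ≡ 1 [MOD Q] := by
    unfold Nat.ModEq
    rw [hu, Nat.mod_eq_of_lt hQ0]
  refine ⟨u * γ, ?_, ?_⟩
  · have h1 : c₀ * u * γ ≡ 1 * γ [MOD Q] := hu'.mul_right γ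
    rw [one_mul] at h1
    rw [← mul_assoc]
    exact h1
  · refine Nat.Coprime.mul_left ?_ hγ
    have h2 : (c₀ * u).Coprime Q := by
      have := hu'.gcd_eq
      unfold Nat.Coprime
      rw [this, Nat.gcd_one_left]
    exact Nat.Coprime.coprime_mul_left h2

theorem C1_sum (s : ℕ) (hs1 : 1 ≤ s) (hs : LS s) {Q γ : ℕ} (hQ : 210 ∣ Q) (hQ0 : 0 < Q) (hγ : γ.Coprime Q) :
    ∃ κ₄ : ℝ, 0 < κ₄ ∧ ∃ T0 : ℕ, ∀ T : ℕ, T0 ≤ T → ∀ c₀ q : ℕ, c₀.Coprime Q → 1 ≤ q → q ≤ T ^ (gg s + 1) →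
      κ₄ ≤ ∑ C ∈ CS Q T (gg s) γ c₀ q, 1 / (C : ℝ) := by
  classical
  obtain ⟨κ, hκ, hL⟩ := L4_rough s hs1 hs
  obtain ⟨z0, hz0⟩ := hL (gg s)
  have hQ210 : 210 ≤ Q := Nat.le_of_dvd hQ0 hQ
  have hQR : (0 : ℝ) < Q := by exact_mod_cast hQ0
  refine ⟨κ / (20 * Q), by positivity, max (Q ^ 2) (z0 + 3), ?_⟩
  intro T hT c₀ q hc hq hqT
  have hTQ : Q ^ 2 ≤ T := le_trans (le_max_left _ _) hT
  have hTz : z0 + 3 ≤ T := le_trans (le_max_right _ _) hT
  have hT3 : 3 ≤ T := by omega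
  have hT1 : 1 ≤ T := by omega
  set g := gg s with hg
  have hg1 : 1 ≤ g := by rw [hg]; unfold gg; omega
  obtain ⟨r0, hr0, hr0c⟩ := c1_inv (by omega) hc hγ
  set J := Nat.log 2 T with hJ
  set blk : ℕ → Finset ℕ := fun i => (Ioc (T ^ (11 * g) * 2 ^ i) (2 * (T ^ (11 * g) * 2 ^ i))).filter
    (fun n => n ≡ r0 [MOD Q] ∧ Rough (T ^ 5) n ∧ Squarefree n ∧ n.Coprime q) with hblk
  have hz : z0 ≤ T ^ 5 := by
    calc z0 ≤ T := by omega
      _ = T ^ 1 := (pow_one T).symm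
      _ ≤ T ^ 5 := Nat.pow_le_pow_right hT1 (by norm_num)
  have hcnt : ∀ i, κ * ((T ^ (11 * g) * 2 ^ i : ℕ) : ℝ) / (Q * Real.log ((T ^ 5 : ℕ) : ℝ)) ≤ ((blk i).card : ℝ) := by
    intro i
    refine hz0 (T ^ 5) hz Q (T ^ (11 * g) * 2 ^ i) r0 q hQ hQ0 ?_ hr0c (by omega) ?_
    · calc Q ^ 2 * (T ^ 5) ^ (s + 3) ≤ T * (T ^ 5) ^ (s + 3) := Nat.mul_le_mul_right _ hTQ
        _ = T ^ (5 * (s + 3) + 1) := by rw [← pow_mul, pow_succ]; ring
        _ ≤ T ^ (11 * g) := Nat.pow_le_pow_right hT1 (by rw [hg]; unfold gg; omega)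
        _ = T ^ (11 * g) * 1 := (mul_one _).symm
        _ ≤ T ^ (11 * g) * 2 ^ i := Nat.mul_le_mul_left _ (Nat.one_le_two_pow)
    · calc q ≤ T ^ (g + 1) := hqT
        _ ≤ T ^ (5 * g) := Nat.pow_le_pow_right hT1 (by omega)
        _ = (T ^ 5) ^ g := by rw [← pow_mul]
  have hlogT : 1 ≤ Real.log T := by
    have h3 : (3 : ℝ) ≤ T := by exact_mod_cast hT3
    rw [Real.le_log_iff_exp_le (by linarith)]
    linarith [Real.exp_one_lt_d9]
  have hlog5 : Real.log ((T ^ 5 : ℕ) : ℝ) = 5 * Real.log T := by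
    push_cast
    rw [Real.log_pow]
    norm_num
  -- contribution of a block
  have hcon : ∀ i, κ / (10 * Q * Real.log T) ≤ ∑ C ∈ blk i, 1 / (C : ℝ) := by
    intro i
    have hH : (0 : ℝ) < ((T ^ (11 * g) * 2 ^ i : ℕ) : ℝ) := by
      have : 0 < T ^ (11 * g) * 2 ^ i := by positivity
      exact_mod_cast this
    set H : ℝ := ((T ^ (11 * g) * 2 ^ i : ℕ) : ℝ) with hHdef
    have h1 : ∀ C ∈ blk i, 1 / (2 * H) ≤ 1 / (C : ℝ) := by
      intro C hC
      rw [hblk, Finset.mem_filter, Finset.mem_Ioc] at hC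
      have hC1 : (0 : ℝ) < C := by
        have : 0 < C := lt_of_le_of_lt (Nat.zero_le _) hC.1.1
        exact_mod_cast this
      have hC2 : (C : ℝ) ≤ 2 * H := by
        have := hC.1.2
        rw [hHdef]
        exact_mod_cast this
      exact one_div_le_one_div_of_le hC1 hC2
    have h2 : ((blk i).card : ℝ) * (1 / (2 * H)) ≤ ∑ C ∈ blk i, 1 / (C : ℝ) := by
      have := Finset.card_nsmul_le_sum (blk i) (fun C => 1 / (C : ℝ)) (1 / (2 * H)) h1
      rwa [nsmul_eq_mul] at this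
    refine le_trans ?_ h2
    have h3 := hcnt i
    rw [hlog5] at h3
    calc κ / (10 * Q * Real.log T) = κ * H / (Q * (5 * Real.log T)) * (1 / (2 * H)) := by
          field_simp
          norm_num
      _ ≤ _ := mul_le_mul_of_nonneg_right h3 (by positivity)
  -- blocks inside `CS`
  have hsub : ∀ i ∈ range J, blk i ⊆ CS Q T g γ c₀ q := by
    intro i hi C hC
    rw [hblk, Finset.mem_filter, Finset.mem_Ioc] at hC
    rw [mem_CS]
    obtain ⟨⟨h1, h2⟩, h3, h4, h5, h6⟩ := hC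
    refine ⟨⟨?_, ?_⟩, ?_, h4, h5, h6⟩
    · refine le_trans ?_ h1.le
      calc T ^ (11 * g) = T ^ (11 * g) * 1 := (mul_one _).symm
        _ ≤ T ^ (11 * g) * 2 ^ i := Nat.mul_le_mul_left _ (Nat.one_le_two_pow)
    · have hiJ : i + 1 ≤ J := by rw [Finset.mem_range] at hi; omega
      have h2J : 2 ^ J ≤ T := Nat.pow_log_le_self 2 (by omega)
      calc C ≤ 2 * (T ^ (11 * g) * 2 ^ i) := h2
        _ = T ^ (11 * g) * 2 ^ (i + 1) := by rw [pow_succ]; ring
        _ ≤ T ^ (11 * g) * 2 ^ J := Nat.mul_le_mul_left _ (Nat.pow_le_pow_right (by norm_num) hiJ)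
        _ ≤ T ^ (11 * g) * T := Nat.mul_le_mul_left _ h2J
        _ = T ^ (11 * g + 1) := (pow_succ _ _).symm
        _ ≤ T ^ (18 * g) := Nat.pow_le_pow_right hT1 (by omega)
    · exact (h3.mul_left c₀).trans hr0
  have hdisj : ∀ i ∈ range J, ∀ j ∈ range J, i ≠ j → Disjoint (blk i) (blk j) := by
    have key : ∀ i j, i < j → Disjoint (blk i) (blk j) := by
      intro i j hij
      rw [Finset.disjoint_left]
      intro n hn hn'
      rw [hblk, Finset.mem_filter, Finset.mem_Ioc] at hn hn'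
      have h1 : 2 * (T ^ (11 * g) * 2 ^ i) ≤ T ^ (11 * g) * 2 ^ j := by
        calc 2 * (T ^ (11 * g) * 2 ^ i) = T ^ (11 * g) * 2 ^ (i + 1) := by rw [pow_succ]; ring
          _ ≤ _ := Nat.mul_le_mul_left _ (Nat.pow_le_pow_right (by norm_num) hij)
      have h2 := hn.1.2
      have h3 := hn'.1.1
      omega
    intro i _ j _ hij
    rcases lt_or_gt_of_ne hij with h | h
    · exact key i j h
    · exact (key j i h).symm
  have hsum : ∑ i ∈ range J, ∑ C ∈ blk i, 1 / (C : ℝ) ≤ ∑ C ∈ CS Q T g γ c₀ q, 1 / (C : ℝ) := by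
    rw [← Finset.sum_biUnion (by
      intro i hi j hj hij
      exact hdisj i (by exact_mod_cast hi) j (by exact_mod_cast hj) hij)]
    refine Finset.sum_le_sum_of_subset_of_nonneg ?_ (fun C _ _ => by positivity)
    intro C hC
    rw [Finset.mem_biUnion] at hC
    obtain ⟨i, hi, hC⟩ := hC
    exact hsub i hi hC
  refine le_trans ?_ hsum
  have h1 : (J : ℝ) * (κ / (10 * Q * Real.log T)) ≤ ∑ i ∈ range J, ∑ C ∈ blk i, 1 / (C : ℝ) := by
    have := Finset.card_nsmul_le_sum (range J) (fun i => ∑ C ∈ blk i, 1 / (C : ℝ)) (κ / (10 * Q * Real.log T))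
      (fun i _ => hcon i)
    rwa [nsmul_eq_mul, Finset.card_range] at this
  refine le_trans ?_ h1
  -- `J ≥ log T / 2`
  have hJlog : Real.log T / 2 ≤ J := by
    have h2 : T < 2 ^ (J + 1) := Nat.lt_pow_succ_log_self (by norm_num) T
    have h3 : Real.log T ≤ (J + 1) * Real.log 2 := by
      have h4 : (T : ℝ) ≤ (2 : ℝ) ^ (J + 1) := by exact_mod_cast h2.le
      have h5 := Real.log_le_log (by linarith [show (0 : ℝ) < T by exact_mod_cast (by omega : 0 < T)]) h4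
      rw [Real.log_pow] at h5
      push_cast at h5
      exact h5
    have hl2 : Real.log 2 < 0.6931471808 := Real.log_two_lt_d9
    have hl2' : 0 < Real.log 2 := Real.log_pos (by norm_num)
    have hJ0 : (0 : ℝ) ≤ J := Nat.cast_nonneg _
    have h6 : ((J : ℝ) + 1) * Real.log 2 ≤ ((J : ℝ) + 1) * 0.6931471808 :=
      mul_le_mul_of_nonneg_left hl2.le (by linarith)
    have h7 : 1 ≤ J := by
      rw [hJ]
      exact Nat.log_pos (by norm_num) (by omega)
    have h7' : (1 : ℝ) ≤ J := by exact_mod_cast h7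
    nlinarith
  calc κ / (20 * Q) = (Real.log T / 2) * (κ / (10 * Q * Real.log T)) := by
        field_simp
        norm_num
    _ ≤ (J : ℝ) * (κ / (10 * Q * Real.log T)) := mul_le_mul_of_nonneg_right hJlog (by positivity)

end PA25
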