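import Pool.Agent.LibPA25.Defs

/-!
ROW [PA25 D0].  Square roots modulo an odd squarefree number.  ONLY MATHLIB.
PROOF.  Induction on the primes of `k` (`Nat.recOnPosPrimePosCoprime` or strong induction: `k = p m`, `p` prime, `(p, m) = 1`): CRT (`Nat.chineseRemainder`) maps pairs (a root mod `m`, one of
the two roots `± v` mod `p`) injectively to roots mod `p m`; the two roots mod `p` are different since `p` is odd and `p ∤ v`.  (Or: for every subset `S` of `k.primeFactors` the CRT solution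
of `ρ ≡ v` mod `p ∈ S`, `ρ ≡ -v` mod the others; `2^#primeFactors` different roots.)
-/

set_option autoImplicit false

namespace PA25

open Finset Pasch

private theorem d0_step {p m v : ℕ} (hp : p.Prime) (hp2 : p ≠ 2) (hcop : p.Coprime m) (hm : 0 < m) (hv : v.Coprime p) :
    2 * #{ρ ∈ range m | ρ ^ 2 ≡ v ^ 2 [MOD m]} ≤ #{ρ ∈ range (p * m) | ρ ^ 2 ≡ v ^ 2 [MOD (p * m)]} := by
  classical
  obtain ⟨r, hr⟩ : ∃ r : Bool → ℕ, ∀ ε, r ε = if ε then v else v + (p - 1) * v * 2 := by
    exact ⟨fun ε => if ε then v else v + (p - 1) * v * 2, fun _ => rfl⟩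
  have hp1 := hp.one_lt
  have hrt : r true = v := by rw [hr]; rfl
  have hrf : r false + v = p * (2 * v) := by
    rw [hr]
    obtain ⟨P, rfl⟩ : ∃ P, p = P + 1 := ⟨p - 1, by omega⟩
    simp
    ring
  have hsq : ∀ ε, r ε ^ 2 ≡ v ^ 2 [MOD p] := by
    intro ε
    cases ε
    · apply (Int.natCast_modEq_iff).1
      have h1 : (r false : ℤ) + v = p * (2 * v) := by exact_mod_cast hrf
      have h2 : ((r false : ℕ) : ℤ) = p * (2 * v) - v := by linarith
      push_cast
      rw [h2, Int.modEq_iff_dvd]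
      exact ⟨-(4 * (v : ℤ) ^ 2 * p) + 4 * (v : ℤ) ^ 2, by ring⟩
    · rw [hrt]
  have hne : ¬ r true ≡ r false [MOD p] := by
    intro h
    have h1 : r true + v ≡ r false + v [MOD p] := h.add_right v
    rw [hrt, hrf] at h1
    have h2 : p ∣ v + v := by
      have h3 : p * (2 * v) ≡ 0 [MOD p] := (Nat.modEq_zero_iff_dvd).2 (Dvd.intro _ rfl)
      exact (Nat.modEq_zero_iff_dvd).1 (h1.trans h3)
    have h3 : p ∣ 2 * v := by
      rw [two_mul]
      exact h2
    rcases (Nat.Prime.dvd_mul hp).1 h3 with h4 | h4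
    · exact hp2 ((Nat.prime_dvd_prime_iff_eq hp Nat.prime_two).1 h4)
    · exact Nat.not_coprime_of_dvd_of_dvd hp1 h4 (dvd_refl p) hv
  have hcard : 2 * #{ρ ∈ range m | ρ ^ 2 ≡ v ^ 2 [MOD m]} =
      #((Finset.univ : Finset Bool) ×ˢ {ρ ∈ range m | ρ ^ 2 ≡ v ^ 2 [MOD m]}) := by
    rw [Finset.card_product]
    rfl
  rw [hcard]
  apply Finset.card_le_card_of_injOn (fun x : Bool × ℕ => ((Nat.chineseRemainder hcop (r x.1) x.2 : _) : ℕ))
  · intro x hx
    rw [Finset.mem_coe, Finset.mem_product, Finset.mem_filter, Finset.mem_range] at hx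
    rw [Finset.mem_coe, Finset.mem_filter, Finset.mem_range]
    refine ⟨Nat.chineseRemainder_lt_mul hcop _ _ hp.ne_zero hm.ne', ?_⟩
    obtain ⟨h1, h2⟩ := (Nat.chineseRemainder hcop (r x.1) x.2).2
    apply (Nat.modEq_and_modEq_iff_modEq_mul hcop).1
    exact ⟨(h1.pow 2).trans (hsq _), (h2.pow 2).trans hx.2.2⟩
  · intro x hx y hy hxy
    rw [Finset.mem_coe, Finset.mem_product, Finset.mem_filter, Finset.mem_range] at hx hy
    obtain ⟨h1, h2⟩ := (Nat.chineseRemainder hcop (r x.1) x.2).2
    obtain ⟨h3, h4⟩ := (Nat.chineseRemainder hcop (r y.1) y.2).2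
    have hxy' : ((Nat.chineseRemainder hcop (r x.1) x.2 : _) : ℕ) = ((Nat.chineseRemainder hcop (r y.1) y.2 : _) : ℕ) := hxy
    rw [← hxy'] at h3 h4
    have h5 : x.2 = y.2 := Nat.ModEq.eq_of_lt_of_lt (h2.symm.trans h4) hx.2.1 hy.2.1
    have h6 : r x.1 ≡ r y.1 [MOD p] := h1.symm.trans h3
    have h7 : x.1 = y.1 := by
      rcases hx1 : x.1 with _ | _ <;> rcases hy1 : y.1 with _ | _
      · rfl
      · rw [hx1, hy1] at h6
        exact absurd h6.symm hne
      · rw [hx1, hy1] at h6
        exact absurd h6 hne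
      · rfl
    exact Prod.ext h7 h5

theorem D0_roots (k v : ℕ) (hk : Squarefree k) (ho : Odd k) (hv : v.Coprime k) :
    2 ^ nu k ≤ #{ρ ∈ range k | ρ ^ 2 ≡ v ^ 2 [MOD k]} := by
  induction k using Nat.strong_induction_on with
  | _ k ih =>
    have hk0 : 0 < k := Nat.pos_of_ne_zero hk.ne_zero
    rcases Nat.lt_or_ge 1 k with h1 | h1
    · obtain ⟨p, hp, hpk⟩ := Nat.exists_prime_and_dvd (n := k) (by omega)
      obtain ⟨m, rfl⟩ := hpk
      have hcop : p.Coprime m := Nat.coprime_of_squarefree_mul hk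
      have hm0 : 0 < m := Nat.pos_of_mul_pos_left hk0
      have hmk : m < p * m := by
        have := hp.two_le
        nlinarith
      have hp2 : p ≠ 2 := by
        rintro rfl
        rw [Nat.odd_mul] at ho
        exact absurd ho.1 (by decide)
      have hom : Odd m := (Nat.odd_mul.1 ho).2
      have h2 := ih m hmk (hk.of_mul_right) hom (Nat.Coprime.coprime_mul_left_right hv)
      have h3 := d0_step hp hp2 hcop hm0 (Nat.Coprime.coprime_mul_right_right hv)
      have h4 : nu (p * m) = nu m + 1 := by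
        unfold nu
        rw [Nat.primeFactors_mul hp.ne_zero hm0.ne', hp.primeFactors, ← Finset.insert_eq, Finset.card_insert_of_notMem]
        intro hmem
        exact (Nat.Prime.coprime_iff_not_dvd hp).1 hcop (Nat.dvd_of_mem_primeFactors hmem)
      rw [h4, pow_succ]
      omega
    · have : k = 1 := by omega
      subst this
      have : nu 1 = 0 := by
        unfold nu
        simp
      rw [this]
      simp [Nat.modEq_one]

end PA25
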