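import Pool.Agent.LibPA25.L4
import Pool.Agent.LibPA25.D0

/-!
ROW [PA25 D1].  The number of `D`.
PROOF.  For every root `ρ < k₁` of `ρ² ≡ c²` mod `k₁` (`D0_roots` with `v = c`: at least `2^nu k₁` of them; `k₁` is odd because `2 ∣ Q`) take `r0` with `d₀ r0 ≡ δ [MOD Q]`, `d₀ r0 ≡ ρ [MOD k₁]`
(`(Q, k₁) = 1`, `d₀` prime to both); `r0` is prime to `Q k₁`.  `L4_rough` with `q = Q k₁`, `z = T^5`, `H = HD c d₀ = c/d₀ + 1 ≥ T^(11 g - 1)`, `M' = C ≤ T^(18 g) ≤ z^(4 g)`: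
`(Q k₁)² z^(s+3) ≤ Q² T^(2g+4) T^(5 s + 15) ≤ T^(11 g - 1)` for `T ≥ Q²` since `g = 10 (s + 10)`.  The sets for different `ρ` are disjoint subsets of `DS`.
Total `≥ 2^nu k₁ * κ HD/(Q k₁ 5 log T)`.
-/

set_option autoImplicit false

namespace PA25

open Finset Pasch

private theorem d1_HD (T g c d₀ : ℕ) (hT : 1 ≤ T) (hc : T ^ (11 * g) ≤ c) (h1 : 1 ≤ d₀) (h2 : d₀ ≤ T) (hg : 1 ≤ g) :
    T ^ (11 * g - 1) ≤ HD c d₀ := by
  have h3 : c < d₀ * HD c d₀ := by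
    unfold HD
    exact Nat.lt_mul_div_succ c h1
  have h4 : T * T ^ (11 * g - 1) ≤ T * HD c d₀ := by
    calc T * T ^ (11 * g - 1) = T ^ (11 * g) := by
          rw [← pow_succ']
          congr 1
          omega
      _ ≤ c := hc
      _ ≤ d₀ * HD c d₀ := h3.le
      _ ≤ T * HD c d₀ := Nat.mul_le_mul_right _ h2
  exact Nat.le_of_mul_le_mul_left h4 hT

/-- the class of `D` for the root `ρ` -/
private theorem d1_class {Q k d δ ρ c : ℕ} (hQ0 : 0 < Q) (hk0 : 0 < k) (hQk : Q.Coprime k) (hδ : δ.Coprime Q)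
    (hd : d.Coprime (Q * k)) (hc : c.Coprime k) (hρ : ρ ^ 2 ≡ c ^ 2 [MOD k]) :
    ∃ r : ℕ, r.Coprime (Q * k) ∧ d * r ≡ δ [MOD Q] ∧ d * r ≡ ρ [MOD k] := by
  obtain ⟨y, hy1, hy2⟩ := Nat.chineseRemainder hQk δ ρ
  have hρk : ρ.Coprime k := by
    have h1 : (c ^ 2).Coprime k := hc.pow_left 2
    have h2 : (ρ ^ 2).Coprime k := by
      have := hρ.gcd_eq
      unfold Nat.Coprime
      rw [this]
      exact h1
    exact (Nat.coprime_pow_left_iff (by norm_num) _ _).1 h2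
  have hyQ : y.Coprime Q := by
    unfold Nat.Coprime
    rw [hy1.gcd_eq]
    exact hδ
  have hyk : y.Coprime k := by
    unfold Nat.Coprime
    rw [hy2.gcd_eq]
    exact hρk
  have hyq : y.Coprime (Q * k) := hyQ.mul_right hyk
  haveI : NeZero (Q * k) := ⟨(Nat.mul_pos hQ0 hk0).ne'⟩
  obtain ⟨u, hu⟩ := (ZMod.isUnit_iff_coprime d (Q * k)).2 hd
  obtain ⟨v, hv⟩ := (ZMod.isUnit_iff_coprime y (Q * k)).2 hyq
  set r := ((u⁻¹ * v : (ZMod (Q * k))ˣ) : ZMod (Q * k)).val with hr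
  have hr1 : (r : ZMod (Q * k)) = ((u⁻¹ * v : (ZMod (Q * k))ˣ) : ZMod (Q * k)) := by
    rw [hr, ZMod.natCast_zmod_val]
  have hdr : d * r ≡ y [MOD Q * k] := by
    rw [← ZMod.natCast_eq_natCast_iff]
    push_cast
    rw [hr1, ← hu, ← hv]
    push_cast
    rw [← mul_assoc, Units.mul_inv, one_mul]
  refine ⟨r, ?_, ?_, ?_⟩
  · rw [← ZMod.isUnit_iff_coprime, hr1]
    exact Units.isUnit _
  · exact (Nat.ModEq.of_mul_right k hdr).trans hy1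
  · exact (Nat.ModEq.of_mul_left Q hdr).trans hy2

theorem D1_count (s : ℕ) (hs1 : 1 ≤ s) (hs : LS s) {Q δ : ℕ} (hQ : 210 ∣ Q) (hQ0 : 0 < Q) (hδ : δ.Coprime Q) :
    ∃ κ₃ : ℝ, 0 < κ₃ ∧ ∃ T0 : ℕ, ∀ T : ℕ, T0 ≤ T → ∀ k₁ C c d₀ : ℕ, Squarefree k₁ → k₁.Coprime Q →
      k₁ ≤ T ^ (gg s + 2) → c.Coprime k₁ → T ^ (11 * gg s) ≤ c → 1 ≤ d₀ → d₀ ≤ T → d₀.Coprime (Q * k₁) →
      1 ≤ C → C ≤ T ^ (18 * gg s) →
      κ₃ * 2 ^ nu k₁ * HD c d₀ / (k₁ * Real.log T) ≤ (#(DS Q T δ k₁ C c d₀) : ℝ) := by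
  classical
  obtain ⟨κ, hκ, H⟩ := L4_rough s hs1 hs
  obtain ⟨z0, hz0⟩ := H (4 * gg s)
  have hQr : (0 : ℝ) < Q := by exact_mod_cast hQ0
  refine ⟨κ / (5 * Q), by positivity, max z0 (Q ^ 2) + 2, ?_⟩
  intro T hT k₁ C c d₀ hk hkQ hkT hck hc hd1 hdT hdq hC1 hCT
  have hT2 : 2 ≤ T := by omega
  have hTz : z0 ≤ T := by
    have := le_max_left z0 (Q ^ 2)
    omega
  have hTQ : Q ^ 2 ≤ T := by
    have := le_max_right z0 (Q ^ 2)
    omega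
  have hk0 : 0 < k₁ := Nat.pos_of_ne_zero hk.ne_zero
  have hkr : (0 : ℝ) < k₁ := by exact_mod_cast hk0
  have hodd : Odd k₁ := by
    rw [Nat.odd_iff]
    by_contra h
    have h2 : 2 ∣ k₁ := by omega
    have h3 : 2 ∣ Q := dvd_trans (by norm_num) hQ
    have h4 := Nat.dvd_gcd h2 h3
    rw [hkQ] at h4
    omega
  have hg : gg s = 10 * (s + 10) := rfl
  have hlog : 0 < Real.log T := Real.log_pos (by exact_mod_cast hT2)
  have hroots := D0_roots k₁ c hk hodd hck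
  set R : Finset ℕ := {ρ ∈ range k₁ | ρ ^ 2 ≡ c ^ 2 [MOD k₁]} with hR
  -- fibres
  have hmap : ∀ D ∈ DS Q T δ k₁ C c d₀, (d₀ * D) % k₁ ∈ R := by
    intro D hD
    rw [mem_DS] at hD
    rw [hR, mem_filter, mem_range]
    refine ⟨Nat.mod_lt _ hk0, ?_⟩
    exact ((Nat.mod_modEq (d₀ * D) k₁).pow 2).trans hD.2.2.1
  rw [Finset.card_eq_sum_card_fiberwise hmap]
  have hfib : ∀ ρ ∈ R, κ * HD c d₀ / ((Q * k₁ : ℕ) * Real.log (T ^ 5 : ℕ)) ≤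
      (#{D ∈ DS Q T δ k₁ C c d₀ | (d₀ * D) % k₁ = ρ} : ℝ) := by
    intro ρ hρ
    rw [hR, mem_filter, mem_range] at hρ
    obtain ⟨r, hr1, hr2, hr3⟩ := d1_class hQ0 hk0 hkQ.symm hδ hdq hck hρ.2
    have hbig : (Q * k₁) ^ 2 * (T ^ 5) ^ (s + 3) ≤ HD c d₀ := by
      refine le_trans ?_ (d1_HD T (gg s) c d₀ (by omega) hc hd1 hdT (by omega))
      calc (Q * k₁) ^ 2 * (T ^ 5) ^ (s + 3) = Q ^ 2 * (k₁ ^ 2 * (T ^ 5) ^ (s + 3)) := by ring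
        _ ≤ T * ((T ^ (gg s + 2)) ^ 2 * (T ^ 5) ^ (s + 3)) := by
          apply Nat.mul_le_mul hTQ
          exact Nat.mul_le_mul_right _ (Nat.pow_le_pow_left hkT 2)
        _ = T ^ (2 * gg s + 5 * s + 20) := by ring
        _ ≤ T ^ (11 * gg s - 1) := by
          apply Nat.pow_le_pow_right (by omega)
          omega
    have hM : C ≤ (T ^ 5) ^ (4 * gg s) := by
      refine hCT.trans ?_
      rw [← pow_mul]
      apply Nat.pow_le_pow_right (by omega)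
      omega
    have hzT : z0 ≤ T ^ 5 := hTz.trans (Nat.le_self_pow (by norm_num) T)
    have key := hz0 (T ^ 5) hzT (Q * k₁) (HD c d₀) r C (dvd_mul_of_dvd_left hQ _)
      (Nat.mul_pos hQ0 hk0) hbig hr1 hC1 hM
    refine key.trans ?_
    rw [Nat.cast_le]
    apply card_le_card
    intro D hD
    rw [mem_filter, mem_Ioc] at hD
    obtain ⟨hD1, hD2, hD3, hD4, hD5⟩ := hD
    have hDr : d₀ * D ≡ d₀ * r [MOD Q * k₁] := hD2.mul_left d₀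
    have hDδ : d₀ * D ≡ δ [MOD Q] := (Nat.ModEq.of_mul_right k₁ hDr).trans hr2
    have hDρ : d₀ * D ≡ ρ [MOD k₁] := (Nat.ModEq.of_mul_left Q hDr).trans hr3
    rw [mem_filter, mem_DS]
    refine ⟨⟨hD1, hDδ, (hDρ.pow 2).trans hρ.2, hD3, hD4, hD5⟩, ?_⟩
    have := hDρ
    unfold Nat.ModEq at this
    rw [this, Nat.mod_eq_of_lt hρ.1]
  push_cast
  refine le_trans ?_ (Finset.sum_le_sum hfib)
  rw [Finset.sum_const, nsmul_eq_mul]
  have hrr : (2 : ℝ) ^ nu k₁ ≤ (#R : ℝ) := by exact_mod_cast hroots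
  have hlog5 : Real.log (T ^ 5 : ℕ) = 5 * Real.log T := by
    push_cast
    rw [Real.log_pow]
    norm_num
  rw [hlog5]
  have e1 : κ / (5 * Q) * 2 ^ nu k₁ * HD c d₀ / (k₁ * Real.log T) =
      (2 : ℝ) ^ nu k₁ * (κ * HD c d₀ / ((Q * k₁ : ℕ) * (5 * Real.log T))) := by
    push_cast
    field_simp
  rw [e1]
  apply mul_le_mul_of_nonneg_right hrr
  positivity

end PA25
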