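import Mathlib
import Pool.Agent.LibSP15.Defs
import Pool.Agent.LibPA39.Defs

/-!
# PA25: definitions for the first moment, the sign identity and the assembly of the Pasch theorem (MP_6ea630_nt)

Four moduli `l a b c`, `l a d e`, `l b d f`, `l c e f`; `l` is the spectator.
First moment: `w = T^g`, `X = w^N`.
-/

set_option autoImplicit false

namespace PA25

open Finset Pasch

/-- real part of the Kloosterman sum `S(h n⁻², 1; l)` -/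
noncomputable def Gl (h : ℤ) (l n : ℕ) : ℝ := if hl : l ≠ 0 then (@Kloo.F h l n ⟨hl⟩).re else 0

/-- the product over the four moduli at the spectator -/
noncomputable def G4 (h : ℤ) (l a b c d e f : ℕ) : ℝ :=
  Gl h l (a * b * c) * Gl h l (a * d * e) * Gl h l (b * d * f) * Gl h l (c * e * f)

/-- the local hypothesis at the spectator `l`: classes with negative product -/
def Loc (J : Finset ℤ) (l : ℕ) : Prop :=
  l.Prime ∧ 7 < l ∧ (∀ h ∈ J, ¬ (l : ℤ) ∣ h) ∧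
  ∃ a b c d e f k : ℕ, (l.Coprime a ∧ l.Coprime b ∧ l.Coprime c ∧ l.Coprime d ∧ l.Coprime e ∧ l.Coprime f ∧
      l.Coprime k) ∧ d * e + b * c ≡ k * a [MOD l] ∧ c * e + b * d ≡ k * f [MOD l] ∧
    ∏ h ∈ J, G4 h l a b c d e f < 0

/-- the lower bound sieve of dimension three with the exponent `b` -/
def LS (b : ℕ) : Prop := ∀ (z M : ℕ) (P : Finset ℕ) (Ω : ℕ → Finset ℕ), 2 ≤ z → z ^ b ≤ M →
    (∀ p ∈ P, p.Prime ∧ 7 ≤ p ∧ p ≤ z ∧ #(Ω p) ≤ 3 ∧ ∀ h ∈ Ω p, h < p) →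
    (1 / 2) * M * ∏ p ∈ P, (1 - (#(Ω p) : ℝ) / p) ≤
      (#{n ∈ range M | ∀ p ∈ P, ∀ h ∈ Ω p, n % p ≠ h} : ℝ)

/-- classes modulo `Q` for the variables `a b c d` and `k / 2` -/
structure Cls (Q α β γ δ κ : ℕ) : Prop where
  h210 : 210 ∣ Q
  pos : 0 < Q
  a : α.Coprime Q
  b : β.Coprime Q
  c : γ.Coprime Q
  d : δ.Coprime Q
  k : κ.Coprime Q
  e : ∀ p : ℕ, p.Prime → p ∣ Q → p ≠ 2 → ¬ (p : ℤ) ∣ 2 * κ * α - β * γ
  f : ∀ p : ℕ, p.Prime → p ∣ Q → p ≠ 2 → ¬ (p : ℤ) ∣ 2 * κ * γ * α + β * ((δ : ℤ) ^ 2 - (γ : ℤ) ^ 2)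

/-- `k₁, b, c, d, e₀` as they are when `a` is chosen; `H` is the size of `a` -/
structure Pre (Q β γ δ κ : ℕ) (w H k₁ b c d e₀ : ℕ) : Prop where
  sqf : Squarefree (k₁ * b * c * d * e₀)
  cop : (k₁ * b * c * d * e₀).Coprime Q
  hb : b ≡ β [MOD Q]
  hc : c ≡ γ [MOD Q]
  hd : d ≡ δ [MOD Q]
  hk : k₁ ≡ κ [MOD Q]
  kc : (k₁ : ℤ) ∣ (d : ℤ) ^ 2 - (c : ℤ) ^ 2
  cd : c < d
  dc : d ≤ 4 * c
  kw : 2 * k₁ ≤ w ^ 2
  cw : c ≤ w ^ 19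
  ew : e₀ ≤ w
  bH : 4 * (b * c) ≤ k₁ * H

/-- the conditions on `a` -/
structure GoodA (Q α : ℕ) (w k₁ b c d e₀ a e f : ℕ) : Prop where
  ha : a ≡ α [MOD Q]
  ra : Rough (w ^ 100) a
  rf : Rough (w ^ 100) f
  eq1 : d * e + b * c = 2 * k₁ * a
  eq2 : c * e + b * d = 2 * k₁ * f
  e0 : e₀ ∣ e
  re : Rough (w ^ 100) (e / e₀)
  sqf : Squarefree (a * b * c * d * e * f)
  ce : e.Coprime Q
  cf : f.Coprime Q

/-- size of `a` -/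
def HA (N w k₁ : ℕ) : ℕ := Nat.sqrt (w ^ N / (2 * k₁))

/-- size of `B`, `b = b₀ B` -/
def HB (N w k₁ b₀ c : ℕ) : ℕ := k₁ * HA N w k₁ / (8 * b₀ * c)

/-- size of `D`, `d = d₀ D` -/
def HD (c d₀ : ℕ) : ℕ := c / d₀ + 1

/-- the parameter `g`: `w = T^g` -/
def gg (b : ℕ) : ℕ := 10 * (b + 10)

/-- the parameter `N` -/
def NN (b : ℕ) : ℕ := 1000 * (b + 10)

/-- the five small numbers `b₀ c₀ d₀ e₀ j` -/
structure Sm where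
  b : ℕ
  c : ℕ
  d : ℕ
  e : ℕ
  j : ℕ
deriving DecidableEq

def Sm.pr (s : Sm) : ℕ := s.b * s.c * s.d * s.e * s.j

/-- the set of small numbers -/
noncomputable def SmS (Q T : ℕ) : Finset Sm := by
  classical
  exact (((Icc 1 T) ×ˢ (Icc 1 T) ×ˢ (Icc 1 T) ×ˢ (Icc 1 T) ×ˢ (Icc 1 T)).image
    (fun x => (⟨x.1, x.2.1, x.2.2.1, x.2.2.2.1, x.2.2.2.2⟩ : Sm))).filter
    (fun s => Squarefree s.pr ∧ s.pr.Coprime Q ∧ s.pr ≤ T)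

/-- `ω` -/
def nu (n : ℕ) : ℕ := n.primeFactors.card

/-- the weight of the small numbers -/
noncomputable def wS (s : Sm) : ℝ :=
  (2 : ℝ) ^ nu s.j / ((2 : ℝ) ^ nu (s.b * s.c * s.d * s.e) * (s.b * s.c * s.d * s.e * s.j))

open Classical in
/-- the primes `q` -/
noncomputable def qS (Q T g κ j : ℕ) : Finset ℕ :=
  (Icc (T ^ g) (T ^ (g + 1))).filter (fun q => q.Prime ∧ j * q ≡ κ [MOD Q])

open Classical in
/-- the numbers `C` -/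
noncomputable def CS (Q T g γ c₀ q : ℕ) : Finset ℕ :=
  (Icc (T ^ (11 * g)) (T ^ (18 * g))).filter
    (fun C => c₀ * C ≡ γ [MOD Q] ∧ Rough (T ^ 5) C ∧ Squarefree C ∧ C.Coprime q)

open Classical in
/-- the numbers `D` -/
noncomputable def DS (Q T δ k₁ C c d₀ : ℕ) : Finset ℕ :=
  (Ioc (HD c d₀) (2 * HD c d₀)).filter
    (fun D => d₀ * D ≡ δ [MOD Q] ∧ ((d₀ * D) ^ 2 ≡ c ^ 2 [MOD k₁]) ∧ Rough (T ^ 5) D ∧ Squarefree D ∧ D.Coprime C)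

open Classical in
/-- the numbers `B` -/
noncomputable def BS (Q N w β k₁ b₀ c : ℕ) : Finset ℕ :=
  (Ioc (HB N w k₁ b₀ c) (2 * HB N w k₁ b₀ c)).filter
    (fun B => b₀ * B ≡ β [MOD Q] ∧ Rough (w ^ 100) B ∧ Squarefree B)

open Classical in
/-- the numbers `a` -/
noncomputable def AS (Q N w α k₁ b c d e₀ : ℕ) : Finset ℕ :=
  (Ioc (HA N w k₁) (2 * HA N w k₁)).filter (fun a => ∃ e f, GoodA Q α w k₁ b c d e₀ a e f)

/-- the `e` of a configuration -/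
def eOf (k₁ b c d a : ℕ) : ℕ := (2 * k₁ * a - b * c) / d

/-- the `f` of a configuration -/
def fOf (k₁ b c d e : ℕ) : ℕ := (c * e + b * d) / (2 * k₁)

/-- the configuration of `s, q, C, D, B, a` -/
def cfOf (s : Sm) (q C D B a : ℕ) : Cf where
  k := 2 * (s.j * q)
  a := a
  b := s.b * B
  c := s.c * C
  d := s.d * D
  e := eOf (s.j * q) (s.b * B) (s.c * C) (s.d * D) a
  f := fOf (s.j * q) (s.b * B) (s.c * C) (s.d * D) (eOf (s.j * q) (s.b * B) (s.c * C) (s.d * D) a)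

theorem mem_SmS {Q T : ℕ} {s : Sm} : s ∈ SmS Q T ↔
    ((1 ≤ s.b ∧ s.b ≤ T) ∧ (1 ≤ s.c ∧ s.c ≤ T) ∧ (1 ≤ s.d ∧ s.d ≤ T) ∧ (1 ≤ s.e ∧ s.e ≤ T) ∧ (1 ≤ s.j ∧ s.j ≤ T)) ∧
      Squarefree s.pr ∧ s.pr.Coprime Q ∧ s.pr ≤ T := by
  classical
  unfold SmS
  rw [mem_filter, mem_image]
  constructor
  · rintro ⟨⟨x, hx, rfl⟩, h⟩
    simp only [mem_product, mem_Icc] at hx
    exact ⟨hx, h⟩
  · rintro ⟨h1, h2⟩
    refine ⟨⟨(s.b, s.c, s.d, s.e, s.j), ?_, rfl⟩, h2⟩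
    simp only [mem_product, mem_Icc]
    exact h1

theorem mem_qS {Q T g κ j q : ℕ} : q ∈ qS Q T g κ j ↔
    (T ^ g ≤ q ∧ q ≤ T ^ (g + 1)) ∧ q.Prime ∧ j * q ≡ κ [MOD Q] := by
  classical
  unfold qS
  rw [mem_filter, mem_Icc]

theorem mem_CS {Q T g γ c₀ q C : ℕ} : C ∈ CS Q T g γ c₀ q ↔
    (T ^ (11 * g) ≤ C ∧ C ≤ T ^ (18 * g)) ∧
      c₀ * C ≡ γ [MOD Q] ∧ Rough (T ^ 5) C ∧ Squarefree C ∧ C.Coprime q := by
  classical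
  unfold CS
  rw [mem_filter, mem_Icc]

theorem mem_DS {Q T δ k₁ C c d₀ D : ℕ} : D ∈ DS Q T δ k₁ C c d₀ ↔
    (HD c d₀ < D ∧ D ≤ 2 * HD c d₀) ∧
      d₀ * D ≡ δ [MOD Q] ∧ ((d₀ * D) ^ 2 ≡ c ^ 2 [MOD k₁]) ∧ Rough (T ^ 5) D ∧ Squarefree D ∧ D.Coprime C := by
  classical
  unfold DS
  rw [mem_filter, mem_Ioc]

theorem mem_BS {Q N w β k₁ b₀ c B : ℕ} : B ∈ BS Q N w β k₁ b₀ c ↔
    (HB N w k₁ b₀ c < B ∧ B ≤ 2 * HB N w k₁ b₀ c) ∧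
      b₀ * B ≡ β [MOD Q] ∧ Rough (w ^ 100) B ∧ Squarefree B := by
  classical
  unfold BS
  rw [mem_filter, mem_Ioc]

theorem mem_AS {Q N w α k₁ b c d e₀ a : ℕ} : a ∈ AS Q N w α k₁ b c d e₀ ↔
    (HA N w k₁ < a ∧ a ≤ 2 * HA N w k₁) ∧ ∃ e f, GoodA Q α w k₁ b c d e₀ a e f := by
  classical
  unfold AS
  rw [mem_filter, mem_Ioc]

end PA25
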