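import Pool.Agent.LibPA25.K2

/-!
ROW [PA25 E1].  Cauchy-Schwarz.  ONLY MATHLIB (and four definitions).
PROOF.  `W = ∑_{q ∈ S} w q ≤ ∑_{i} ∑_{n ∈ A} r_i(n)`, `r_i(n) = ∑_{q ∈ S, m i q = n} w q` (every `q` is counted at least once, `w ≥ 0`).  `(∑_{n ∈ A} r_i(n))² ≤ #A ∑_n r_i(n)²` and
`∑_{n ∈ A} r_i(n)² ≤ ∑_{q ∈ S} ∑_{q' ∈ S, m i q' = m i q} w q w q' ≤ B`.  `W² ≤ 4 ∑_i (..)² ≤ 16 #A B`.
-/

set_option autoImplicit false

namespace PA25

open Finset Pasch

theorem E1_cauchy {ι : Type} [DecidableEq ι] (S : Finset ι) (w : ι → ℝ) (hw : ∀ q ∈ S, 0 ≤ w q) (m : Fin 4 → ι → ℕ)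
    (A : Finset ℕ) (hA : ∀ q ∈ S, ∃ i, m i q ∈ A) (B : ℝ)
    (hB : ∀ i, ∑ q ∈ S, ∑ q' ∈ S with m i q' = m i q, w q * w q' ≤ B) :
    (∑ q ∈ S, w q) ^ 2 ≤ 16 * #A * B := by
  classical
  set T : Fin 4 → ℝ := fun i => ∑ q ∈ S with m i q ∈ A, w q with hT
  have hT0 : ∀ i, 0 ≤ T i := fun i => Finset.sum_nonneg fun q hq => hw q (Finset.mem_filter.1 hq).1
  have hW0 : 0 ≤ ∑ q ∈ S, w q := Finset.sum_nonneg hw
  -- every q is counted
  have h1 : ∑ q ∈ S, w q ≤ ∑ i, T i := by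
    simp only [hT, Finset.sum_filter]
    rw [Finset.sum_comm]
    refine Finset.sum_le_sum fun q hq => ?_
    obtain ⟨i, hi⟩ := hA q hq
    refine le_trans ?_ (Finset.single_le_sum (f := fun i => if m i q ∈ A then w q else 0)
      (fun j _ => ?_) (Finset.mem_univ i))
    · simp only [hi, if_true]
      exact le_refl _
    · show (0 : ℝ) ≤ if m j q ∈ A then w q else 0
      split_ifs
      · exact hw q hq
      · exact le_refl 0
  -- each i
  have h2 : ∀ i, T i ^ 2 ≤ #A * B := by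
    intro i
    have ha : T i = ∑ n ∈ A, ∑ q ∈ S with m i q = n, w q := by
      simp only [hT]
      rw [← Finset.sum_fiberwise_of_maps_to (s := {q ∈ S | m i q ∈ A}) (t := A) (g := fun q => m i q)
        (fun q hq => (Finset.mem_filter.1 hq).2)]
      refine Finset.sum_congr rfl fun n hn => ?_
      refine Finset.sum_congr ?_ fun _ _ => rfl
      ext q
      simp only [Finset.mem_filter]
      constructor
      · rintro ⟨⟨h1, _⟩, h2⟩
        exact ⟨h1, h2⟩
      · rintro ⟨h1, h2⟩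
        exact ⟨⟨h1, h2 ▸ hn⟩, h2⟩
    have hb : (∑ n ∈ A, ∑ q ∈ S with m i q = n, w q) ^ 2 ≤
        #A * ∑ n ∈ A, (∑ q ∈ S with m i q = n, w q) ^ 2 := sq_sum_le_card_mul_sum_sq
    have hc : ∑ n ∈ A, (∑ q ∈ S with m i q = n, w q) ^ 2 ≤ B := by
      refine le_trans ?_ (hB i)
      have hd : ∑ n ∈ A, (∑ q ∈ S with m i q = n, w q) ^ 2 =
          ∑ q ∈ S with m i q ∈ A, ∑ q' ∈ S with m i q' = m i q, w q * w q' := by
        rw [← Finset.sum_fiberwise_of_maps_to (s := {q ∈ S | m i q ∈ A}) (t := A) (g := fun q => m i q)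
          (fun q hq => (Finset.mem_filter.1 hq).2)]
        refine Finset.sum_congr rfl fun n hn => ?_
        rw [sq, Finset.sum_mul]
        refine Finset.sum_congr ?_ ?_
        · ext q
          simp only [Finset.mem_filter]
          constructor
          · rintro ⟨h1, h2⟩
            exact ⟨⟨h1, h2 ▸ hn⟩, h2⟩
          · rintro ⟨⟨h1, _⟩, h2⟩
            exact ⟨h1, h2⟩
        · intro q hq
          have hq2 := (Finset.mem_filter.1 hq).2
          rw [Finset.mul_sum, hq2]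
      rw [hd]
      refine Finset.sum_le_sum_of_subset_of_nonneg (Finset.filter_subset _ _) ?_
      intro q hq _
      exact Finset.sum_nonneg fun q' hq' => mul_nonneg (hw q hq) (hw q' (Finset.mem_filter.1 hq').1)
    rw [ha]
    exact le_trans hb (mul_le_mul_of_nonneg_left hc (Nat.cast_nonneg _))
  have h3 : (∑ i, T i) ^ 2 ≤ 4 * ∑ i, T i ^ 2 := by
    have := sq_sum_le_card_mul_sum_sq (s := (Finset.univ : Finset (Fin 4))) (f := T)
    simpa using this
  have h4 : ∑ i, T i ^ 2 ≤ 4 * (#A * B) := by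
    refine le_trans (Finset.sum_le_sum fun i _ => h2 i) (le_of_eq ?_)
    simp
  calc (∑ q ∈ S, w q) ^ 2 ≤ (∑ i, T i) ^ 2 := pow_le_pow_left₀ hW0 h1 2
    _ ≤ 4 * ∑ i, T i ^ 2 := h3
    _ ≤ 4 * (4 * (#A * B)) := by linarith
    _ = 16 * #A * B := by ring

end PA25
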