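import Pool.Agent.LibPA25.Defs
import Pool.Agent.LibPL63.SA2
import Pool.Agent.LibPL63.SA3

/-!
ROW [PA25 L1].  The lower bound sieve of dimension three (fundamental lemma), from `LibPL63.lemmaSA`.
-/

set_option autoImplicit false

namespace PA25

open Finset Pasch Pool.Agent.LibPL63 Pool.Agent.LibLG5

private theorem l1_cnt (M m r : ℕ) (hm : 0 < m) (hr : r < m) :
    |(#((range M).filter fun A => A % m = r) : ℝ) - (M : ℝ) / m| ≤ 1 := by
  have h1 : (range M).filter (fun A => A % m = r) = (Ico 0 M).filter (fun A => A ≡ r [MOD m]) := by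
    rw [← Finset.range_eq_Ico]
    refine Finset.filter_congr fun A _ => ?_
    unfold Nat.ModEq
    rw [Nat.mod_eq_of_lt hr]
  rw [h1]
  have h2 := Nat.Ico_filter_modEq_card 0 M hm r
  have hm0 : (0 : ℚ) < m := by exact_mod_cast hm
  have h3 : ⌈(((0 : ℕ) : ℚ) - r) / m⌉ ≤ ⌈((M : ℚ) - r) / m⌉ := by
    refine Int.ceil_le_ceil ?_
    refine div_le_div_of_nonneg_right ?_ hm0.le
    push_cast
    have : (0 : ℚ) ≤ M := Nat.cast_nonneg _
    linarith
  rw [max_eq_left (by linarith)] at h2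
  have h4 : (#((Ico 0 M).filter fun A => A ≡ r [MOD m]) : ℚ) =
      (⌈((M : ℚ) - r) / m⌉ : ℚ) - (⌈(((0 : ℕ) : ℚ) - r) / m⌉ : ℚ) := by
    exact_mod_cast h2
  have h5 : |(#((Ico 0 M).filter fun A => A ≡ r [MOD m]) : ℚ) - (M : ℚ) / m| ≤ 1 := by
    have e1 := Int.le_ceil (((M : ℚ) - r) / m)
    have e2 := Int.ceil_lt_add_one (((M : ℚ) - r) / m)
    have e3 := Int.le_ceil ((((0 : ℕ) : ℚ) - r) / m)
    have e4 := Int.ceil_lt_add_one ((((0 : ℕ) : ℚ) - r) / m)
    have e5 : (M : ℚ) / m = ((M : ℚ) - r) / m - (((0 : ℕ) : ℚ) - r) / m := by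
      push_cast
      ring
    rw [h4, e5, abs_le]
    constructor <;> linarith
  have h6 : ((|(#((Ico 0 M).filter fun A => A ≡ r [MOD m]) : ℚ) - (M : ℚ) / m| : ℚ) : ℝ) ≤
      ((1 : ℚ) : ℝ) := Rat.cast_le.2 h5
  push_cast at h6
  exact h6

/-- the numbers below `M` -/
private noncomputable def l1_avg (M : ℕ) : Average where
  s := range M
  om := fun _ => 1
  good := {p | p.Prime}
  lp := fun p _ => 1 / (p : ℝ)
  X := M
  Er := fun _ => 1
  om_nonneg := fun _ _ => zero_le_one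
  X_nonneg := Nat.cast_nonneg _
  Er_nonneg := fun _ => zero_le_one
  good_prime := fun p hp => hp
  lp_nonneg := fun p _ _ => by positivity
  lp_sum := fun p hp => by
    have hp' : p.Prime := hp
    rw [Finset.sum_const, Finset.card_range, nsmul_eq_mul, mul_one_div,
      div_self (by exact_mod_cast hp'.ne_zero)]
  hp := by
    refine hp_of_classes (range M) (fun _ => 1) {p | p.Prime}
      (fun (p : ℕ) (hp : p ∈ {p : ℕ | p.Prime}) => hp)
      (fun p _ => 1 / (p : ℝ)) (M : ℝ) (fun _ => 1) ?_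
    intro T hT a ha
    set q := ∏ p ∈ T, p with hq
    have hq0 : 0 < q := Finset.prod_pos fun p hp => (Nat.Prime.pos (hT p hp))
    have h2 : (M : ℝ) * ∏ p ∈ T, 1 / (p : ℝ) = (M : ℝ) / ((q : ℕ) : ℝ) := by
      rw [Finset.prod_div_distrib, Finset.prod_const_one, hq]
      push_cast
      rw [mul_one_div]
    rw [h2, Finset.sum_const, nsmul_eq_mul, mul_one]
    exact l1_cnt M q a hq0 ha

private theorem l1_eps (C : ℝ) (K : ℕ) : ∃ b0 : ℕ, Even b0 ∧ eps0 C K b0 ≤ 1 / 8 := by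
  have h1 : Filter.Tendsto (fun n : ℕ => (C * K) ^ n / (n.factorial : ℝ)) Filter.atTop (nhds 0) :=
    FloorSemiring.tendsto_pow_div_factorial_atTop _
  have h2 : Filter.Tendsto (fun n : ℕ => C * Real.exp (C * K) *
      ((C * K) ^ n / (n.factorial : ℝ))) Filter.atTop (nhds 0) := by
    have h := h1.const_mul (C * Real.exp (C * K))
    rwa [mul_zero] at h
  have h3 : ∀ᶠ n : ℕ in Filter.atTop, C * Real.exp (C * K) *
      ((C * K) ^ n / (n.factorial : ℝ)) < 1 / 8 := h2.eventually_lt_const (by norm_num)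
  obtain ⟨N, hN⟩ := Filter.eventually_atTop.1 h3
  refine ⟨2 * N, even_two_mul N, ?_⟩
  have h4 := hN (2 * N + 1) (by omega)
  have h5 : eps0 C K (2 * N) = C * Real.exp (C * K) *
      ((C * K) ^ (2 * N + 1) / ((2 * N + 1).factorial : ℝ)) := by
    unfold eps0
    ring
  rw [h5]
  exact h4.le

private theorem l1_rem (K M : ℕ) (hM : 1 ≤ M) (Pr : Finset ℕ)
    (hPr : ∀ p ∈ Pr, p.Prime ∧ K ≤ p) :
    ∑ D ∈ Pr.powerset with ∏ p ∈ D, p ≤ M, (K : ℝ) ^ D.card * 1 ≤ 2 * (M : ℝ) ^ 2 := by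
  set S := Pr.powerset.filter (fun D => ∏ p ∈ D, p ≤ M) with hS
  have hM1 : (1 : ℝ) ≤ M := by exact_mod_cast hM
  have hterm : ∀ D ∈ S, (K : ℝ) ^ D.card * 1 ≤ M := by
    intro D hD
    rw [hS, Finset.mem_filter, Finset.mem_powerset] at hD
    rw [mul_one]
    have h1 : K ^ D.card ≤ ∏ p ∈ D, p :=
      Finset.pow_card_le_prod D (fun p => p) K fun p hp => (hPr p (hD.1 hp)).2
    exact_mod_cast h1.trans hD.2
  have hcard : S.card ≤ M + 1 := by
    have h1 : S.card ≤ (Finset.range (M + 1)).card := by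
      refine Finset.card_le_card_of_injOn (fun D => ∏ p ∈ D, p) ?_ ?_
      · intro D hD
        have hD' : D ∈ S := hD
        rw [hS, Finset.mem_filter] at hD'
        simp only [Finset.coe_range, Set.mem_Iio]
        omega
      · intro D hD D' hD' h
        have h1 : D ∈ S := hD
        have h2 : D' ∈ S := hD'
        rw [hS, Finset.mem_filter, Finset.mem_powerset] at h1 h2
        have h3 := Nat.primeFactors_prod (s := D) fun p hp => (hPr p (h1.1 hp)).1
        have h4 := Nat.primeFactors_prod (s := D') fun p hp => (hPr p (h2.1 hp)).1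
        rw [← h3, ← h4]
        exact congrArg Nat.primeFactors h
    rwa [Finset.card_range] at h1
  have hcR : (S.card : ℝ) ≤ M + 1 := by exact_mod_cast hcard
  calc ∑ D ∈ S, (K : ℝ) ^ D.card * 1 ≤ ∑ _D ∈ S, (M : ℝ) := Finset.sum_le_sum hterm
    _ = S.card * (M : ℝ) := by rw [Finset.sum_const, nsmul_eq_mul]
    _ ≤ (2 * M) * (M : ℝ) := mul_le_mul_of_nonneg_right (by linarith) (by positivity)
    _ = 2 * (M : ℝ) ^ 2 := by ring

private theorem l1_tel (z : ℕ) (hz : 2 ≤ z) : 1 / (z : ℝ) ^ 4 ≤ ∏ n ∈ Icc 7 z, (1 - 3 / (n : ℝ)) := by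
  induction z, hz using Nat.le_induction with
  | base => norm_num
  | succ z hz ih =>
    have hz2 : (2 : ℝ) ≤ z := by exact_mod_cast hz
    by_cases h : 7 ≤ z + 1
    · rw [Finset.prod_Icc_succ_top h]
      have hz6 : (6 : ℝ) ≤ z := by
        have : 6 ≤ z := by omega
        exact_mod_cast this
      have h1 : (1 : ℝ) - 3 / ((z + 1 : ℕ) : ℝ) = (z - 2) / (z + 1) := by
        push_cast
        field_simp
        ring
      rw [h1]
      refine le_trans ?_ (mul_le_mul_of_nonneg_right ih (div_nonneg (by linarith) (by linarith)))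
      push_cast
      rw [div_mul_div_comm, one_mul, div_le_div_iff₀ (by positivity) (by positivity)]
      nlinarith [mul_nonneg (sq_nonneg (z : ℝ)) (by linarith : (0 : ℝ) ≤ z - 6),
        mul_nonneg (by linarith : (0 : ℝ) ≤ z) (by linarith : (0 : ℝ) ≤ z - 6),
        mul_nonneg (mul_nonneg (sq_nonneg (z : ℝ)) (by linarith : (0 : ℝ) ≤ z - 6)) (by linarith : (0 : ℝ) ≤ (z : ℝ) + 1),
        mul_nonneg (mul_nonneg (by linarith : (0 : ℝ) ≤ z) (by linarith : (0 : ℝ) ≤ z - 6)) (by linarith : (0 : ℝ) ≤ (z : ℝ) + 1),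
        mul_nonneg (by linarith : (0 : ℝ) ≤ (z : ℝ) - 6) (by linarith : (0 : ℝ) ≤ (z : ℝ) + 1)]
    · have h2 : Icc 7 (z + 1) = ∅ := by
        rw [Finset.Icc_eq_empty]
        omega
      rw [h2, Finset.prod_empty]
      rw [div_le_one (by positivity)]
      push_cast
      exact one_le_pow₀ (by linarith)

theorem L1_sieve : ∃ b : ℕ, 1 ≤ b ∧ LS b := by
  obtain ⟨C, _, hS⟩ := lemmaSA
  obtain ⟨b0, hb0, heps⟩ := l1_eps (C : ℝ) 3
  refine ⟨4 * b0 + 19, by omega, ?_⟩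
  intro z M P Ω hz hM hP
  have hEp : ∀ p ∈ P, ∑ y ∈ range p, (if y % p ∈ Ω p then (1 : ℝ) else 0) = #(Ω p) := by
    intro p hp
    have h1 : ∀ y ∈ range p, (if y % p ∈ Ω p then (1 : ℝ) else 0) = if y ∈ Ω p then 1 else 0 := by
      intro y hy
      rw [Nat.mod_eq_of_lt (Finset.mem_range.1 hy)]
    rw [Finset.sum_congr rfl h1, ← Finset.sum_filter, Finset.sum_const, nsmul_eq_mul, mul_one]
    congr 2
    ext y
    rw [Finset.mem_filter, Finset.mem_range]
    exact ⟨fun h => h.2, fun h => ⟨(hP p hp).2.2.2.2 y h, h⟩⟩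
  have hEpA : ∀ p ∈ P, (l1_avg M).Ep p (fun n => if n % p ∈ Ω p then (1 : ℝ) else 0) =
      (#(Ω p) : ℝ) / p := by
    intro p hp
    show ∑ y ∈ range p, 1 / (p : ℝ) * (if y % p ∈ Ω p then (1 : ℝ) else 0) = _
    rw [← Finset.mul_sum, hEp p hp, one_div_mul_eq_div]
  have hk3 : ∀ p ∈ P, (#(Ω p) : ℝ) ≤ 3 := fun p hp => by exact_mod_cast (hP p hp).2.2.2.1
  have hp7 : ∀ p ∈ P, (7 : ℝ) ≤ p := fun p hp => by exact_mod_cast (hP p hp).2.1
  have key := hS 3 b0 hb0 (heps.trans (by norm_num)) (l1_avg M) z (by omega) P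
    (fun p hp => ⟨(hP p hp).1, (hP p hp).2.2.1⟩)
    (fun p n => if n % p ∈ Ω p then (1 : ℝ) else 0)
    (fun p _ A => by
      show (if (A + p) % p ∈ Ω p then (1 : ℝ) else 0) = if A % p ∈ Ω p then 1 else 0
      rw [Nat.add_mod_right])
    (fun p _ A => by
      show (0 : ℝ) ≤ (if A % p ∈ Ω p then (1 : ℝ) else 0) ∧ (if A % p ∈ Ω p then (1 : ℝ) else 0) ≤ 1
      split_ifs <;> constructor <;> norm_num)
    (fun p hp => by
      rw [hEpA p hp]
      have h5 := hp7 p hp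
      have h3 := hk3 p hp
      have hp0 : (0 : ℝ) < p := by linarith
      refine ⟨?_, ?_, ?_⟩
      · rw [div_le_iff₀ hp0]
        linarith
      · push_cast
        exact div_le_div_of_nonneg_right h3 hp0.le
      · unfold tot
        have h6 : ∑ y ∈ range p, |(if y % p ∈ Ω p then (1 : ℝ) else 0)| =
            ∑ y ∈ range p, (if y % p ∈ Ω p then (1 : ℝ) else 0) := by
          refine Finset.sum_congr rfl fun y _ => ?_
          split_ifs <;> simp
        rw [h6, hEp p hp]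
        exact_mod_cast h3)
    ∅ (fun _ _ => 1) (fun p hp => absurd hp (Finset.notMem_empty p)) (Finset.disjoint_empty_left _)
    (fun p hp => absurd hp (Finset.notMem_empty p))
  simp only [Finset.prod_empty, mul_one] at key
  have hEprod : ∏ p ∈ P, (1 - (l1_avg M).Ep p (fun n => if n % p ∈ Ω p then (1 : ℝ) else 0)) =
      ∏ p ∈ P, (1 - (#(Ω p) : ℝ) / p) :=
    Finset.prod_congr rfl fun p hp => by rw [hEpA p hp]
  rw [hEprod] at key
  set V : ℝ := ∏ p ∈ P, (1 - (#(Ω p) : ℝ) / p) with hV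
  have hcount : ∑ n ∈ (l1_avg M).s, (l1_avg M).om n *
      ∏ p ∈ P, (1 - (if n % p ∈ Ω p then (1 : ℝ) else 0)) =
      (#{n ∈ range M | ∀ p ∈ P, ∀ h ∈ Ω p, n % p ≠ h} : ℝ) := by
    show ∑ n ∈ range M, (1 : ℝ) * ∏ p ∈ P, (1 - (if n % p ∈ Ω p then (1 : ℝ) else 0)) = _
    have h1 : ∀ n : ℕ, (1 : ℝ) * ∏ p ∈ P, (1 - (if n % p ∈ Ω p then (1 : ℝ) else 0)) =
        if ∀ p ∈ P, ∀ h ∈ Ω p, n % p ≠ h then 1 else 0 := by
      intro n
      rw [one_mul]
      by_cases h3 : ∀ p ∈ P, ∀ h ∈ Ω p, n % p ≠ h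
      · rw [if_pos h3]
        refine Finset.prod_eq_one fun p hp => ?_
        rw [if_neg (fun h => h3 p hp _ h rfl), sub_zero]
      · rw [if_neg h3]
        push Not at h3
        obtain ⟨p, hp, h, hh, he⟩ := h3
        refine Finset.prod_eq_zero hp ?_
        rw [he, if_pos hh, sub_self]
    rw [Finset.sum_congr rfl fun A _ => h1 A, ← Finset.sum_filter, Finset.sum_const, nsmul_eq_mul, mul_one]
  rw [hcount] at key
  have hX : (l1_avg M).X = (M : ℝ) := rfl
  rw [hX] at key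
  have hR : ∑ D ∈ P.powerset with ∏ p ∈ D, p ≤ z ^ (2 * b0 + 6),
      ((3 : ℕ) : ℝ) ^ #D * (l1_avg M).Er (∏ p ∈ D, p) ≤ 2 * ((z ^ (2 * b0 + 6) : ℕ) : ℝ) ^ 2 :=
    l1_rem 3 (z ^ (2 * b0 + 6)) (Nat.one_le_pow _ _ (by omega)) P
      (fun p hp => ⟨(hP p hp).1, by have := (hP p hp).2.1; omega⟩)
  have hz2 : (2 : ℝ) ≤ z := by exact_mod_cast hz
  have hzpos : (0 : ℝ) < z := by linarith
  -- lower bound for `V`
  have hVlow : 1 / (z : ℝ) ^ 4 ≤ V := by
    refine (l1_tel z hz).trans ?_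
    have hsub : P ⊆ Icc 7 z := fun p hp => Finset.mem_Icc.2 ⟨(hP p hp).2.1, (hP p hp).2.2.1⟩
    have h1 : ∏ n ∈ Icc 7 z, (1 - 3 / (n : ℝ)) ≤ ∏ p ∈ P, (1 - 3 / (p : ℝ)) := by
      rw [← Finset.prod_sdiff hsub]
      have h2 : ∏ p ∈ P, (1 - 3 / (p : ℝ)) = 1 * ∏ p ∈ P, (1 - 3 / (p : ℝ)) := (one_mul _).symm
      conv_rhs => rw [h2]
      have hb : ∀ n : ℕ, 7 ≤ n → 0 ≤ 1 - 3 / (n : ℝ) ∧ 1 - 3 / (n : ℝ) ≤ 1 := by
        intro n hn
        have hn' : (7 : ℝ) ≤ n := by exact_mod_cast hn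
        have h3 : 3 / (n : ℝ) ≤ 1 := by
          rw [div_le_one (by linarith)]
          linarith
        have h4 : 0 ≤ 3 / (n : ℝ) := by positivity
        constructor <;> linarith
      refine mul_le_mul_of_nonneg_right ?_ (Finset.prod_nonneg fun p hp => (hb p (hP p hp).2.1).1)
      refine Finset.prod_le_one (fun n hn => ?_) (fun n hn => ?_)
      · rw [Finset.mem_sdiff, Finset.mem_Icc] at hn
        exact (hb n hn.1.1).1
      · rw [Finset.mem_sdiff, Finset.mem_Icc] at hn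
        exact (hb n hn.1.1).2
    refine h1.trans (Finset.prod_le_prod (fun p hp => ?_) fun p hp => ?_)
    · have h5 := hp7 p hp
      have : 3 / (p : ℝ) ≤ 1 := by
        rw [div_le_one (by linarith)]
        linarith
      linarith
    · have h5 := hp7 p hp
      have := div_le_div_of_nonneg_right (hk3 p hp) (by linarith : (0 : ℝ) ≤ p)
      linarith
  have hV0 : 0 ≤ V := le_trans (by positivity) hVlow
  have hM' : (z : ℝ) ^ (4 * b0 + 19) ≤ M := by exact_mod_cast hM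
  have hMV : (z : ℝ) ^ (4 * b0 + 15) ≤ M * V := by
    calc (z : ℝ) ^ (4 * b0 + 15) = z ^ (4 * b0 + 19) * (1 / (z : ℝ) ^ 4) := by
          rw [mul_one_div, eq_div_iff (by positivity), ← pow_add]
      _ ≤ M * V := mul_le_mul hM' hVlow (by positivity) (Nat.cast_nonneg _)
  have hfin : 2 * ((z ^ (2 * b0 + 6) : ℕ) : ℝ) ^ 2 ≤ (3 / 8) * (M * V) := by
    have h1 : ((z ^ (2 * b0 + 6) : ℕ) : ℝ) ^ 2 = (z : ℝ) ^ (4 * b0 + 12) := by
      push_cast
      rw [← pow_mul]
      congr 1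
      ring
    have h2 : (z : ℝ) ^ (4 * b0 + 15) = z ^ 3 * z ^ (4 * b0 + 12) := by
      rw [← pow_add]
      congr 1
      ring
    have h3 : (8 : ℝ) ≤ z ^ 3 := by
      have : (2 : ℝ) ^ 3 ≤ z ^ 3 := pow_le_pow_left₀ (by norm_num) hz2 3
      linarith
    have h4 : (0 : ℝ) ≤ (z : ℝ) ^ (4 * b0 + 12) := by positivity
    rw [h1]
    nlinarith
  have h1 := (abs_le.1 key).1
  have h2 : eps0 C 3 b0 * (M * V) ≤ (1 / 8) * (M * V) :=
    mul_le_mul_of_nonneg_right heps (mul_nonneg (Nat.cast_nonneg _) hV0)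
  have h3 : (1 / 2) * (M : ℝ) * V = (1 / 2) * (M * V) := by ring
  rw [h3]
  linarith

end PA25
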