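import Pool.Agent.LibPA25.E1
import Pool.Agent.LibPA25.K3
import Pool.Agent.LibPA25.L1

/-!
ROW [PA25 E2].  THE MAIN THEOREM (analytic form), uniform in a multiplicative function `g` with values `±1` (remark of helper39: the four values `g (l n_i)` have product `1`).
PROOF.  `Loc` gives `l` and classes; `K3_classes` gives `Q` and the classes mod `Q`; `L1_sieve` gives `s`; `T6_first` the first moment; `second` (hypothesis `hSM`, the block of helper39) the second moment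
for `N = NN s`.  For real/natural `X` large: `T` = the largest natural number with `10^4 l (T^g)^N ≤ X` (`g = gg s`, `N = NN s`; `Nat.findGreatest`), `T → ∞`,
`(T+1)^(g N) 10^4 l > X`, so `(T^g)^N ≥ X/(2^(gN) 10^4 l)`.  `S` from `T6_first`.  `A` = the set of the theorem (positive sign).  For `q ∈ S`: `l * ni i q ≤ X`: `n1 = a (b c) ≤ k a² ≤ 10^4 w^N`,
`n2 = a (d e) ≤ k a²`, `n3 = f (b d) ≤ k f²`, `n4 = f (c e) ≤ k f²`; squarefree, odd, prime to all `h ∈ J` (`Q` contains all primes of `h` and `2`, `l`; `l ∤ h` by `Loc`).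
By `K2_signs` some `l * ni i q ∈ A`.  `E1_cauchy` (`m i q = l * ni i q`; `m i q' = m i q ↔ ni i q' = ni i q`): `(κ₉ w^N/log T)² ≤ 16 #A C w^N/(log w)²`, `log w = g log T`:
`#A ≥ κ₉² g² w^N/(16 C)`.  Same for the negative sign.
-/

set_option autoImplicit false

namespace PA25

open Finset Filter Topology Pasch SP15

/-- the second moment (block LibPA39) -/
def Second : Prop := ∀ N : ℕ, 1000 ≤ N → ∀ i : Fin 4, ∃ C : ℝ, 0 < C ∧ ∃ w1 : ℕ, ∀ w : ℕ, w1 ≤ w → ∀ S : Finset Cf,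
    (∀ q ∈ S, IsConf N w q) →
    ∑ q ∈ S, ∑ q' ∈ S with ni i q' = ni i q, wt w q * wt w q' ≤ C * (w : ℝ) ^ N / Real.log w ^ 2

private theorem e2_sqf {Q α β γ δ κ N w : ℕ} (hC : Cls Q α β γ δ κ) {q : Cf} (hq : IsConf N w q)
    (hcl : InCls Q α β γ δ κ q) {l : ℕ} (hl : l.Prime) (hlQ : l ∣ Q) :
    (∀ i, Squarefree (l * ni i q)) ∧ (∀ i, (ni i q).Coprime Q) ∧ (∀ i, 0 < ni i q) ∧
      ∀ i, ni i q ≤ 10 ^ 4 * w ^ N := by
  have ca : q.a.Coprime Q := by
    have := hcl.a.gcd_eq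
    rw [Nat.Coprime, this]; exact hC.a
  have cb : q.b.Coprime Q := by
    have := hcl.b.gcd_eq
    rw [Nat.Coprime, this]; exact hC.b
  have cc : q.c.Coprime Q := by
    have := hcl.c.gcd_eq
    rw [Nat.Coprime, this]; exact hC.c
  have cd : q.d.Coprime Q := by
    have := hcl.d.gcd_eq
    rw [Nat.Coprime, this]; exact hC.d
  have ce := hcl.e
  have cf := hcl.f
  have hcop : ∀ i, (ni i q).Coprime Q := by
    intro i
    unfold ni n1 n2 n3 n4
    split_ifs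
    · exact (ca.mul_left cb).mul_left cc
    · exact (ca.mul_left cd).mul_left ce
    · exact (cb.mul_left cd).mul_left cf
    · exact (cc.mul_left ce).mul_left cf
  have hs := hq.sqf
  have hdvd : ∀ i, ni i q ∣ q.a * q.b * q.c * q.d * q.e * q.f := by
    intro i
    unfold ni n1 n2 n3 n4
    split_ifs
    · exact ⟨q.d * q.e * q.f, by ring⟩
    · exact ⟨q.b * q.c * q.f, by ring⟩
    · exact ⟨q.a * q.c * q.e, by ring⟩
    · exact ⟨q.a * q.b * q.d, by ring⟩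
  have hsq : ∀ i, Squarefree (ni i q) := fun i => hs.squarefree_of_dvd (hdvd i)
  have hpos : ∀ i, 0 < ni i q := fun i => Nat.pos_of_ne_zero (hsq i).ne_zero
  refine ⟨fun i => ?_, hcop, hpos, fun i => ?_⟩
  · rw [Nat.squarefree_mul_iff]
    exact ⟨((hcop i).coprime_dvd_right hlQ).symm, hl.squarefree, hsq i⟩
  · have e1 := hq.eq1
    have e2 := hq.eq2
    have a1 : q.b * q.c ≤ q.k * q.a := by rw [← e1]; exact Nat.le_add_left _ _
    have a2 : q.d * q.e ≤ q.k * q.a := by rw [← e1]; exact Nat.le_add_right _ _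
    have a3 : q.b * q.d ≤ q.k * q.f := by rw [← e2]; exact Nat.le_add_left _ _
    have a4 : q.c * q.e ≤ q.k * q.f := by rw [← e2]; exact Nat.le_add_right _ _
    have h1 := hq.ahi
    have h2 := hq.fhi
    unfold ni n1 n2 n3 n4
    split_ifs
    · calc q.a * q.b * q.c = q.a * (q.b * q.c) := by ring
        _ ≤ q.a * (q.k * q.a) := Nat.mul_le_mul_left _ a1
        _ = q.k * q.a ^ 2 := by ring
        _ ≤ _ := h1
    · calc q.a * q.d * q.e = q.a * (q.d * q.e) := by ring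
        _ ≤ q.a * (q.k * q.a) := Nat.mul_le_mul_left _ a2
        _ = q.k * q.a ^ 2 := by ring
        _ ≤ _ := h1
    · calc q.b * q.d * q.f = q.f * (q.b * q.d) := by ring
        _ ≤ q.f * (q.k * q.f) := Nat.mul_le_mul_left _ a3
        _ = q.k * q.f ^ 2 := by ring
        _ ≤ _ := h2
    · calc q.c * q.e * q.f = q.f * (q.c * q.e) := by ring
        _ ≤ q.f * (q.k * q.f) := Nat.mul_le_mul_left _ a4
        _ = q.k * q.f ^ 2 := by ring
        _ ≤ _ := h2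

/-- the choice of `T` -/
private theorem e2_T (K n : ℕ) (hK : 1 ≤ K) (hn : 1 ≤ n) (T1 : ℕ) : ∀ᶠ X : ℕ in atTop,
    ∃ T : ℕ, T1 ≤ T ∧ K * T ^ n ≤ X ∧ X ≤ K * 2 ^ n * T ^ n := by
  filter_upwards [eventually_ge_atTop (K * T1 ^ n + T1 + K)] with X hX
  set P : ℕ → Prop := fun T => K * T ^ n ≤ X with hP
  classical
  set T := Nat.findGreatest P X with hT
  have h1 : T1 ≤ T := by
    apply Nat.le_findGreatest
    · omega
    · show K * T1 ^ n ≤ X
      omega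
  have h1' : 1 ≤ T := by
    apply Nat.le_findGreatest
    · omega
    · show K * 1 ^ n ≤ X
      rw [one_pow, mul_one]
      omega
  have h2 : P T := by
    apply Nat.findGreatest_spec (m := 1)
    · omega
    · show K * 1 ^ n ≤ X
      rw [one_pow, mul_one]
      omega
  refine ⟨T, h1, h2, ?_⟩
  have h3 : ¬ P (T + 1) ∨ X < T + 1 := by
    by_cases h : T + 1 ≤ X
    · exact Or.inl (Nat.findGreatest_is_greatest (Nat.lt_succ_self _) h)
    · exact Or.inr (by omega)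
  have h4 : X < K * (T + 1) ^ n := by
    rcases h3 with h3 | h3
    · exact not_le.1 h3
    · calc X < T + 1 := h3
        _ = 1 * (T + 1) ^ 1 := by ring
        _ ≤ K * (T + 1) ^ n := Nat.mul_le_mul hK (Nat.pow_le_pow_right (by omega) hn)
  calc X ≤ K * (T + 1) ^ n := h4.le
    _ ≤ K * (2 * T) ^ n := Nat.mul_le_mul_left _ (Nat.pow_le_pow_left (by omega) _)
    _ = _ := by rw [mul_pow]; ring

open Classical in
theorem E2_main (hSM : Second) (J : Finset ℤ) (hJ : ∀ h ∈ J, h ≠ 0) (l : ℕ) (hl : Loc J l) :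
    ∃ η : ℝ, 0 < η ∧ ∀ᶠ X : ℕ in atTop, ∀ g : ℕ → ℤ, (∀ n, g n = 1 ∨ g n = -1) →
      (∀ m n : ℕ, m.Coprime n → g (m * n) = g m * g n) →
      η * X ≤ #((Icc 1 X).filter fun c : ℕ => Squarefree c ∧ Odd c ∧ (∀ h ∈ J, Int.gcd h c = 1) ∧
        0 < (g c : ℝ) * ∏ h ∈ J, Fre h c) ∧
      η * X ≤ #((Icc 1 X).filter fun c : ℕ => Squarefree c ∧ Odd c ∧ (∀ h ∈ J, Int.gcd h c = 1) ∧
        (g c : ℝ) * ∏ h ∈ J, Fre h c < 0) := by
  obtain ⟨hlp, hl7, hlJ, a₀, b₀, c₀, d₀, e₀, f₀, k₀, hco, h1, h2, hneg⟩ := hl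
  obtain ⟨Q, α, β, γ, δ, κ, hC, hlQ, hQJ, ea, eb, ec, ed, ek⟩ := K3_classes J hJ l hlp hl7 a₀ b₀ c₀ d₀ e₀ f₀ k₀
    hco h1 h2
  obtain ⟨s, hs1, hs⟩ := L1_sieve
  obtain ⟨κ₉, hκ, T0, hT0⟩ := T6_first s hs1 hs hC
  have hN : 1000 ≤ NN s := by unfold NN; omega
  have hg : 1 ≤ gg s := by unfold gg; omega
  choose C hC0 w1 hw1 using hSM (NN s) hN
  set CC : ℝ := ∑ i, C i with hCC
  have hCi : ∀ i, C i ≤ CC := fun i => Finset.single_le_sum (fun j _ => (hC0 j).le) (mem_univ i)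
  have hCC0 : 0 < CC := lt_of_lt_of_le (hC0 0) (hCi 0)
  set W1 : ℕ := ∑ i, w1 i with hW1
  have hWi : ∀ i, w1 i ≤ W1 := fun i => Finset.single_le_sum (fun j _ => Nat.zero_le _) (mem_univ i)
  set g := gg s with hgd
  set N := NN s with hNd
  set K : ℕ := 10 ^ 4 * l with hKd
  have hK1 : 1 ≤ K := by
    have := hlp.pos
    rw [hKd]; omega
  have hn1 : 1 ≤ g * N := Nat.one_le_iff_ne_zero.2 (Nat.mul_ne_zero (by omega) (by omega))
  refine ⟨κ₉ ^ 2 * g ^ 2 / (16 * CC * (K * 2 ^ (g * N))), by positivity, ?_⟩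
  filter_upwards [e2_T K (g * N) hK1 hn1 (T0 + W1 + 2)] with X hX
  obtain ⟨T, hT1, hT2, hT3⟩ := hX
  obtain ⟨S, hS, hSum⟩ := hT0 T (by omega)
  set w := T ^ g with hw
  have hTw : T ≤ w := by
    rw [hw]
    calc T = T ^ 1 := (pow_one T).symm
      _ ≤ T ^ g := Nat.pow_le_pow_right (by omega) hg
  have hwN : w ^ N = T ^ (g * N) := by rw [hw, ← pow_mul]
  have hlogT : 0 < Real.log T := Real.log_pos (by exact_mod_cast (by omega : 1 < T))
  have hlogw : Real.log w = g * Real.log T := by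
    rw [hw]
    push_cast
    rw [Real.log_pow]
  have hKl : K = 10 ^ 4 * l := hKd
  clear_value K
  clear_value w
  clear_value CC W1
  clear_value g N
  have hwpos : (0 : ℝ) < (w : ℝ) ^ N := by
    have h0 : 0 < w := by omega
    have h0' : (0 : ℝ) < (w : ℝ) := by exact_mod_cast h0
    exact pow_pos h0' N
  have hmem : ∀ q ∈ S, ∀ i, l * ni i q ∈ Icc 1 X ∧ Squarefree (l * ni i q) ∧ Odd (l * ni i q) ∧
      ∀ h ∈ J, Int.gcd h ((l * ni i q : ℕ) : ℤ) = 1 := by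
    intro q hq i
    obtain ⟨g1, g2⟩ := hS q hq
    obtain ⟨s1, s2, s3, s4⟩ := e2_sqf hC g1 g2 hlp hlQ
    refine ⟨?_, s1 i, ?_, ?_⟩
    · rw [mem_Icc]
      constructor
      · have := Nat.mul_pos hlp.pos (s3 i)
        omega
      · calc l * ni i q ≤ l * (10 ^ 4 * w ^ N) := Nat.mul_le_mul_left _ (s4 i)
          _ = K * T ^ (g * N) := by rw [hwN, hKl]; ring
          _ ≤ X := hT2
    · have hl2 : Odd l := hlp.odd_of_ne_two (by omega)
      have h2Q : 2 ∣ Q := Dvd.dvd.trans (by norm_num) hC.h210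
      have hn2 : Odd (ni i q) := by
        rw [Nat.odd_iff, ← Nat.not_even_iff, even_iff_two_dvd]
        intro hd
        have := Nat.dvd_gcd hd h2Q
        rw [(s2 i)] at this
        omega
      exact hl2.mul hn2
    · intro h hh
      have hcop : (h.natAbs).Coprime (l * ni i q) := by
        rw [Nat.coprime_iff_gcd_eq_one]
        by_contra hne
        obtain ⟨p, hp, hpd⟩ := Nat.exists_prime_and_dvd hne
        have hp1 : p ∣ h.natAbs := hpd.trans (Nat.gcd_dvd_left _ _)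
        have hp2 : p ∣ l * ni i q := hpd.trans (Nat.gcd_dvd_right _ _)
        have hp3 : (p : ℤ) ∣ h := Int.natCast_dvd.2 hp1
        rcases (Nat.Prime.dvd_mul hp).1 hp2 with h5 | h5
        · have : p = l := (Nat.prime_dvd_prime_iff_eq hp hlp).1 h5
          rw [this] at hp3
          exact hlJ h hh hp3
        · have h6 := hQJ h hh p hp hp3
          have := Nat.dvd_gcd h5 h6
          rw [(s2 i)] at this
          exact hp.one_lt.ne' (Nat.dvd_one.1 this)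
      rw [Int.gcd, Int.natAbs_natCast]
      exact hcop
  have hBd : ∀ i : Fin 4, ∑ q ∈ S, ∑ q' ∈ S with l * ni i q' = l * ni i q, wt w q * wt w q' ≤
      CC * (w : ℝ) ^ N / Real.log w ^ 2 := by
    intro i
    have h3 := hw1 i w (by have := hWi i; omega) S (fun q hq => (hS q hq).1)
    have h4 : ∀ q q' : Cf, l * ni i q' = l * ni i q ↔ ni i q' = ni i q := fun q q' =>
      ⟨fun h => Nat.eq_of_mul_eq_mul_left hlp.pos h, fun h => by rw [h]⟩
    have h5 : ∑ q ∈ S, ∑ q' ∈ S with l * ni i q' = l * ni i q, wt w q * wt w q' =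
        ∑ q ∈ S, ∑ q' ∈ S with ni i q' = ni i q, wt w q * wt w q' := by
      refine sum_congr rfl fun q _ => sum_congr ?_ fun _ _ => rfl
      ext q'
      rw [mem_filter, mem_filter, h4]
    rw [h5]
    refine h3.trans ?_
    have := hCi i
    gcongr
  have hwt : ∀ q ∈ S, 0 ≤ wt w q := fun q _ => by unfold wt; positivity
  have key : ∀ A : Finset ℕ, (∀ q ∈ S, ∃ i : Fin 4, l * ni i q ∈ A) →
      κ₉ ^ 2 * g ^ 2 / (16 * CC * (K * 2 ^ (g * N))) * X ≤ #A := by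
    intro A hA
    have hE := E1_cauchy S (wt w) hwt (fun i q => l * ni i q) A hA _ hBd
    have hS0 : κ₉ * (w : ℝ) ^ N / Real.log T ≤ ∑ q ∈ S, wt w q := hSum
    have h5 : (κ₉ * (w : ℝ) ^ N / Real.log T) ^ 2 ≤ 16 * #A * (CC * (w : ℝ) ^ N / Real.log w ^ 2) :=
      (pow_le_pow_left₀ (by positivity) hS0 2).trans hE
    rw [hlogw] at h5
    have hgR : (0 : ℝ) < g := by exact_mod_cast (by omega : 0 < g)
    have h6 : κ₉ ^ 2 * g ^ 2 * (w : ℝ) ^ N ≤ 16 * CC * #A := by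
      have e1 : (κ₉ * (w : ℝ) ^ N / Real.log T) ^ 2 =
          (κ₉ ^ 2 * g ^ 2 * (w : ℝ) ^ N) * ((w : ℝ) ^ N / ((g : ℝ) * Real.log T) ^ 2) := by
        field_simp
      have e2 : 16 * (#A : ℝ) * (CC * (w : ℝ) ^ N / ((g : ℝ) * Real.log T) ^ 2) =
          (16 * CC * #A) * ((w : ℝ) ^ N / ((g : ℝ) * Real.log T) ^ 2) := by ring
      rw [e1, e2] at h5
      exact le_of_mul_le_mul_right h5 (by positivity)
    have h7 : (X : ℝ) ≤ (K * 2 ^ (g * N)) * (w : ℝ) ^ N := by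
      have : X ≤ K * 2 ^ (g * N) * w ^ N := by rw [hwN]; exact hT3
      exact_mod_cast this
    rw [div_mul_eq_mul_div, div_le_iff₀ (by positivity)]
    calc κ₉ ^ 2 * (g : ℝ) ^ 2 * X ≤ κ₉ ^ 2 * (g : ℝ) ^ 2 * ((K * 2 ^ (g * N)) * (w : ℝ) ^ N) := by gcongr
      _ = (κ₉ ^ 2 * g ^ 2 * (w : ℝ) ^ N) * (K * 2 ^ (g * N)) := by ring
      _ ≤ (16 * CC * #A) * (K * 2 ^ (g * N)) := by gcongr
      _ = #A * (16 * CC * (K * 2 ^ (g * N))) := by ring
  intro χ hχ1 hχm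
  constructor
  · apply key
    intro q hq
    obtain ⟨g1, g2⟩ := hS q hq
    obtain ⟨⟨i, hi⟩, -⟩ := K2_signs J l hlp hC hlQ hco h1 h2 hneg ea eb ec ed ek g1 g2 χ hχ1 hχm
    obtain ⟨m1, m2, m3, m4⟩ := hmem q hq i
    exact ⟨i, mem_filter.2 ⟨m1, m2, m3, m4, hi⟩⟩
  · apply key
    intro q hq
    obtain ⟨g1, g2⟩ := hS q hq
    obtain ⟨-, ⟨i, hi⟩⟩ := K2_signs J l hlp hC hlQ hco h1 h2 hneg ea eb ec ed ek g1 g2 χ hχ1 hχm
    obtain ⟨m1, m2, m3, m4⟩ := hmem q hq i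
    exact ⟨i, mem_filter.2 ⟨m1, m2, m3, m4, hi⟩⟩

end PA25
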