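import Pool.Agent.LibPA25.Defs

/-!
ROW [PA25 K1].  THE FOUR PRODUCT.
PROOF.  Model: `A3_prod`, `A3_split` in LibSP15/A3.lean, `Kloo.F_triple` in LibKloosterman/Triple.lean.  From squarefreeness `l, a, .., f` are pairwise coprime and squarefree.
`Kloo.F_mul`: `F h (l n) 1 = F h l n * F h n l` and `F h (a b c) w = F h a (b c w) * F h b (a c w) * F h c (a b w)` (twice `F_mul`), same for the other three moduli, `w = l`.
The relation `d e f + b c f = a c e + a b d` (`f` times eq1 minus `a` times eq2: `k a f = f (d e + b c) = a (c e + b d)`) gives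
mod `a`: `d e ≡ - b c`;  mod `b`: `d f ≡ a c`;  mod `c`: `e f ≡ a b`;  mod `d`: `b f ≡ a e`;  mod `e`: `c f ≡ a d`;  mod `f`: `b d ≡ - c e`
(cancel the unit).  So by `F_congr` / `F_congr_neg`: `F a (d e w) = F a (b c w)`, `F b (d f w) = F b (a c w)`, `F c (e f w) = F c (a b w)`, `F d (b f w) = F d (a e w)`,
`F e (c f w) = F e (a d w)`, `F f (b d w) = F f (c e w)`; the product of the four `F h n l` is the square of
`F a (b c l) F b (a c l) F c (a b l) F d (a e l) F e (a d l) F f (b d l)`, a nonzero real (`F_real`, `F_re_ne_zero`).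
-/

set_option autoImplicit false

namespace PA25

open Finset Pasch SP15

private theorem k1_split (h : ℤ) (l a b c : ℕ) [NeZero l] [NeZero a] [NeZero b] [NeZero c]
    (hab : a.Coprime b) (hac : a.Coprime c) (hbc : b.Coprime c)
    (hla : l.Coprime a) (hlb : l.Coprime b) (hlc : l.Coprime c) :
    Fre h (l * (a * b * c)) = Gl h l (a * b * c) * ((Kloo.F h a (b * c * l)).re *
      (Kloo.F h b (a * c * l)).re * (Kloo.F h c (a * b * l)).re) := by
  have hl0 : l ≠ 0 := NeZero.ne l
  have h0 : l * (a * b * c) ≠ 0 := mul_ne_zero hl0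
    (mul_ne_zero (mul_ne_zero (NeZero.ne a) (NeZero.ne b)) (NeZero.ne c))
  have hn : l.Coprime (a * b * c) := (hla.mul_right hlb).mul_right hlc
  unfold Fre Gl
  rw [dif_pos h0, dif_pos hl0]
  have h1 := Kloo.F_mul h (c := l) (c' := a * b * c) (w := 1) hn (Nat.coprime_one_left _)
  have h2 := Kloo.F_mul h (c := a * b) (c' := c) (w := l * 1)
    (hac.mul_left hbc) (by rw [mul_one]; exact hn)
  have h3 := Kloo.F_mul h (c := a) (c' := b) (w := c * (l * 1)) hab (by
    rw [mul_one]
    exact (hac.symm.mul_right hbc.symm).mul_left (hla.mul_right hlb))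
  rw [h2, h3] at h1
  have e1 : b * (c * (l * 1)) = b * c * l := by ring
  have e2 : a * (c * (l * 1)) = a * c * l := by ring
  have e3 : a * b * (l * 1) = a * b * l := by ring
  rw [e1, e2, e3, mul_one] at h1
  rw [h1, Kloo.F_real h l, Kloo.F_real h a, Kloo.F_real h b, Kloo.F_real h c]
  simp only [← Complex.ofReal_mul, Complex.ofReal_re]

theorem K1_four (h : ℤ) (l k a b c d e f : ℕ) (hs : Squarefree (l * (a * b * c * d * e * f)))
    (h1 : d * e + b * c = k * a) (h2 : c * e + b * d = k * f) :
    ∃ q : ℝ, 0 < q ∧ Fre h (l * (a * b * c)) * Fre h (l * (a * d * e)) * Fre h (l * (b * d * f)) *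
      Fre h (l * (c * e * f)) = q * G4 h l a b c d e f := by
  obtain ⟨hl, sl, s6⟩ := Nat.squarefree_mul_iff.1 hs
  obtain ⟨hf, s5, sf⟩ := Nat.squarefree_mul_iff.1 s6
  obtain ⟨he, s4, se⟩ := Nat.squarefree_mul_iff.1 s5
  obtain ⟨hd, s3, sd⟩ := Nat.squarefree_mul_iff.1 s4
  obtain ⟨hc, s2, sc⟩ := Nat.squarefree_mul_iff.1 s3
  obtain ⟨hab, sa, sb⟩ := Nat.squarefree_mul_iff.1 s2
  have hac := Nat.Coprime.coprime_dvd_left (dvd_mul_right a b) hc
  have hbc := Nat.Coprime.coprime_dvd_left (dvd_mul_left b a) hc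
  have had := Nat.Coprime.coprime_dvd_left (show a ∣ a * b * c from ⟨b * c, by ring⟩) hd
  have hbd := Nat.Coprime.coprime_dvd_left (show b ∣ a * b * c from ⟨a * c, by ring⟩) hd
  have hcd := Nat.Coprime.coprime_dvd_left (show c ∣ a * b * c from ⟨a * b, by ring⟩) hd
  have hae := Nat.Coprime.coprime_dvd_left (show a ∣ a * b * c * d from ⟨b * c * d, by ring⟩) he
  have hbe := Nat.Coprime.coprime_dvd_left (show b ∣ a * b * c * d from ⟨a * c * d, by ring⟩) he
  have hce := Nat.Coprime.coprime_dvd_left (show c ∣ a * b * c * d from ⟨a * b * d, by ring⟩) he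
  have hde := Nat.Coprime.coprime_dvd_left (show d ∣ a * b * c * d from ⟨a * b * c, by ring⟩) he
  have haf := Nat.Coprime.coprime_dvd_left
    (show a ∣ a * b * c * d * e from ⟨b * c * d * e, by ring⟩) hf
  have hbf := Nat.Coprime.coprime_dvd_left
    (show b ∣ a * b * c * d * e from ⟨a * c * d * e, by ring⟩) hf
  have hcf := Nat.Coprime.coprime_dvd_left
    (show c ∣ a * b * c * d * e from ⟨a * b * d * e, by ring⟩) hf
  have hdf := Nat.Coprime.coprime_dvd_left
    (show d ∣ a * b * c * d * e from ⟨a * b * c * e, by ring⟩) hf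
  have hef := Nat.Coprime.coprime_dvd_left
    (show e ∣ a * b * c * d * e from ⟨a * b * c * d, by ring⟩) hf
  have hla := Nat.Coprime.coprime_dvd_right
    (show a ∣ a * b * c * d * e * f from ⟨b * c * d * e * f, by ring⟩) hl
  have hlb := Nat.Coprime.coprime_dvd_right
    (show b ∣ a * b * c * d * e * f from ⟨a * c * d * e * f, by ring⟩) hl
  have hlc := Nat.Coprime.coprime_dvd_right
    (show c ∣ a * b * c * d * e * f from ⟨a * b * d * e * f, by ring⟩) hl
  have hld := Nat.Coprime.coprime_dvd_right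
    (show d ∣ a * b * c * d * e * f from ⟨a * b * c * e * f, by ring⟩) hl
  have hle := Nat.Coprime.coprime_dvd_right
    (show e ∣ a * b * c * d * e * f from ⟨a * b * c * d * f, by ring⟩) hl
  have hlf := Nat.Coprime.coprime_dvd_right
    (show f ∣ a * b * c * d * e * f from ⟨a * b * c * d * e, by ring⟩) hl
  haveI : NeZero l := ⟨sl.ne_zero⟩
  haveI : NeZero a := ⟨sa.ne_zero⟩
  haveI : NeZero b := ⟨sb.ne_zero⟩
  haveI : NeZero c := ⟨sc.ne_zero⟩
  haveI : NeZero d := ⟨sd.ne_zero⟩
  haveI : NeZero e := ⟨se.ne_zero⟩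
  haveI : NeZero f := ⟨sf.ne_zero⟩
  -- the relation
  have rel : d * e * f + b * c * f = a * c * e + a * b * d := by
    calc d * e * f + b * c * f = (d * e + b * c) * f := by ring
      _ = k * a * f := by rw [h1]
      _ = a * (k * f) := by ring
      _ = a * c * e + a * b * d := by rw [← h2]; ring
  -- units
  have unit : ∀ {x m : ℕ}, m.Coprime x → IsUnit ((x : ℕ) : ZMod m) := by
    intro x m hx
    exact (ZMod.isUnit_iff_coprime x m).2 hx.symm
  have g1 : Kloo.F h a (d * e * l) = Kloo.F h a (b * c * l) := by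
    apply Kloo.F_congr_neg
    · exact ((hab.symm.mul_left hac.symm).mul_left hla)
    · have h3 := congrArg (fun n : ℕ => (n : ZMod a)) h1
      simp only [Nat.cast_add, Nat.cast_mul, ZMod.natCast_self, mul_zero] at h3
      push_cast
      linear_combination (l : ZMod a) * h3
  have g6 : Kloo.F h f (b * d * l) = Kloo.F h f (c * e * l) := by
    apply Kloo.F_congr_neg
    · exact ((hcf.mul_left hef).mul_left hlf)
    · have h3 := congrArg (fun n : ℕ => (n : ZMod f)) h2
      simp only [Nat.cast_add, Nat.cast_mul, ZMod.natCast_self, mul_zero] at h3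
      push_cast
      linear_combination (l : ZMod f) * h3
  have g2 : Kloo.F h b (d * f * l) = Kloo.F h b (a * c * l) := by
    apply Kloo.F_congr
    have h3 := congrArg (fun n : ℕ => (n : ZMod b)) rel
    simp only [Nat.cast_add, Nat.cast_mul, ZMod.natCast_self, mul_zero, zero_mul] at h3
    push_cast
    apply (unit (x := e) hbe).mul_left_cancel
    linear_combination (l : ZMod b) * h3
  have g3 : Kloo.F h c (e * f * l) = Kloo.F h c (a * b * l) := by
    apply Kloo.F_congr
    have h3 := congrArg (fun n : ℕ => (n : ZMod c)) rel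
    simp only [Nat.cast_add, Nat.cast_mul, ZMod.natCast_self, mul_zero, zero_mul] at h3
    push_cast
    apply (unit (x := d) hcd).mul_left_cancel
    linear_combination (l : ZMod c) * h3
  have g4 : Kloo.F h d (b * f * l) = Kloo.F h d (a * e * l) := by
    apply Kloo.F_congr
    have h3 := congrArg (fun n : ℕ => (n : ZMod d)) rel
    simp only [Nat.cast_add, Nat.cast_mul, ZMod.natCast_self, mul_zero, zero_mul] at h3
    push_cast
    apply (unit (x := c) hcd.symm).mul_left_cancel
    linear_combination (l : ZMod d) * h3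
  have g5 : Kloo.F h e (c * f * l) = Kloo.F h e (a * d * l) := by
    apply Kloo.F_congr
    have h3 := congrArg (fun n : ℕ => (n : ZMod e)) rel
    simp only [Nat.cast_add, Nat.cast_mul, ZMod.natCast_self, mul_zero, zero_mul] at h3
    push_cast
    apply (unit (x := b) hbe.symm).mul_left_cancel
    linear_combination (l : ZMod e) * h3
  rw [k1_split h l a b c hab hac hbc hla hlb hlc, k1_split h l a d e had hae hde hla hld hle,
    k1_split h l b d f hbd hbf hdf hlb hld hlf, k1_split h l c e f hce hcf hef hlc hle hlf,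
    g1, g2, g3, g4, g5, g6]
  refine ⟨((Kloo.F h a (b * c * l)).re * (Kloo.F h b (a * c * l)).re * (Kloo.F h c (a * b * l)).re *
    ((Kloo.F h d (a * e * l)).re * (Kloo.F h e (a * d * l)).re *
      (Kloo.F h f (c * e * l)).re)) ^ 2, ?_, ?_⟩
  · have := Kloo.F_re_ne_zero h a (b * c * l) sa
    have := Kloo.F_re_ne_zero h b (a * c * l) sb
    have := Kloo.F_re_ne_zero h c (a * b * l) sc
    have := Kloo.F_re_ne_zero h d (a * e * l) sd
    have := Kloo.F_re_ne_zero h e (a * d * l) se
    have := Kloo.F_re_ne_zero h f (c * e * l) sf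
    positivity
  · unfold G4
    ring

theorem K1_ne (h : ℤ) (n : ℕ) (hs : Squarefree n) : Fre h n ≠ 0 := by
  have h0 : n ≠ 0 := hs.ne_zero
  haveI : NeZero n := ⟨h0⟩
  unfold Fre
  rw [dif_pos h0]
  exact Kloo.F_re_ne_zero h n 1 hs

end PA25
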