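import Pool.Agent.LibPA25.T3

/-!
ROW [PA25 T4].  The weight of the configuration of a tuple.
PROOF.  The primes `≤ w^100` of `b c d e` (`b = x.b B`, `c = x.c C`, `d = x.d D`, `e = x.e * (e/x.e)`): `B` and `e / x.e` have none (`BS`; `GoodA.re` from `T3_good`), `C` has at most `4 g` prime factors
(`C ≤ T^(18 g)`, all `> T^5`, `T ≥ 2`: `(T^5)^n < T^(18 g)`), `D ≤ 2 HD ≤ 2 (c + 1) ≤ T^(20 g)`: at most `4 g`.  The others divide `x.b x.c x.d x.e`.
-/

set_option autoImplicit false

namespace PA25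

open Finset Pasch

private theorem T4_card {T m n : ℕ} (hT : 2 ≤ T) (hn : 0 < n) (hr : Rough (T ^ 5) n) (h : n ≤ T ^ m) :
    5 * n.primeFactors.card ≤ m := by
  have h1 : (T ^ 5) ^ n.primeFactors.card ≤ ∏ p ∈ n.primeFactors, p := by
    rw [← Finset.prod_const]
    apply Finset.prod_le_prod'
    intro p hp
    exact (hr p (Nat.prime_of_mem_primeFactors hp) (Nat.dvd_of_mem_primeFactors hp)).le
  have h2 : ∏ p ∈ n.primeFactors, p ≤ n := Nat.le_of_dvd hn (Nat.prod_primeFactors_dvd n)
  have h3 : T ^ (5 * n.primeFactors.card) ≤ T ^ m := by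
    rw [pow_mul]
    exact h1.trans (h2.trans h)
  exact (Nat.pow_le_pow_iff_right (by omega)).1 h3

theorem T4_weight (s : ℕ) (hs1 : 1 ≤ s) {Q α β γ δ κ : ℕ} (hC : Cls Q α β γ δ κ) :
    ∃ T0 : ℕ, ∀ T : ℕ, T0 ≤ T → ∀ (x : Sm) (q C D B a : ℕ), Tup Q α β γ δ κ (gg s) (NN s) T x q C D B a →
      (1 / 2 : ℝ) ^ (8 * gg s) * (1 / 2 : ℝ) ^ nu (x.b * x.c * x.d * x.e) ≤ wt (T ^ gg s) (cfOf x q C D B a) := by
  refine ⟨2, fun T hT x q C D B a hx => ?_⟩
  have hg := T3_good hx
  obtain ⟨hS, hq, hCS, hDS, hBS, hAS⟩ := hx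
  rw [mem_SmS] at hS
  obtain ⟨⟨hb, hc, hd, he, hj⟩, -, -, -⟩ := hS
  rw [mem_CS] at hCS
  obtain ⟨⟨hC1, hC2⟩, -, hCr, -, -⟩ := hCS
  rw [mem_DS] at hDS
  obtain ⟨⟨hD1, hD2⟩, -, -, hDr, -, -⟩ := hDS
  rw [mem_BS] at hBS
  obtain ⟨⟨hB1, hB2⟩, -, hBr, -⟩ := hBS
  have hgg : 110 ≤ gg s := by unfold gg; omega
  have hTp : 0 < T := by omega
  have hCpos : 0 < C := lt_of_lt_of_le (pow_pos hTp _) hC1
  have hDpos : 0 < D := by omega
  have hBpos : 0 < B := by omega
  have nC : 5 * C.primeFactors.card ≤ 18 * gg s := T4_card hT hCpos hCr hC2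
  have hDle : D ≤ T ^ (18 * gg s + 3) := by
    have h1 : D ≤ 2 * (x.c * C / x.d + 1) := hD2
    have h2 : x.c * C / x.d ≤ x.c * C := Nat.div_le_self _ _
    have h3 : x.c * C ≤ T * T ^ (18 * gg s) := Nat.mul_le_mul hc.2 hC2
    have h4 : 1 ≤ T * T ^ (18 * gg s) := Nat.mul_pos hTp (pow_pos hTp _)
    have h5 : T ^ (18 * gg s + 3) = T * T ^ (18 * gg s) * (T * T) := by ring
    have h6 : 4 ≤ T * T := by nlinarith
    rw [h5]
    nlinarith
  have nD : 5 * D.primeFactors.card ≤ 18 * gg s + 3 := T4_card hT hDpos hDr hDle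
  set ee := (cfOf x q C D B a).e with hee
  have hmain : om ((T ^ gg s) ^ 100) (x.b * B * (x.c * C) * (x.d * D) * ee) ≤
      8 * gg s + nu (x.b * x.c * x.d * x.e) := by
    have hsub : ((x.b * B * (x.c * C) * (x.d * D) * ee).primeFactors.filter (fun p => p ≤ (T ^ gg s) ^ 100)) ⊆
        (x.b * x.c * x.d * x.e).primeFactors ∪ (C.primeFactors ∪ D.primeFactors) := by
      intro p hp
      rw [Finset.mem_filter] at hp
      obtain ⟨hp1, hp2⟩ := hp
      have hpp := Nat.prime_of_mem_primeFactors hp1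
      have hpd := Nat.dvd_of_mem_primeFactors hp1
      have hx0 : x.b * x.c * x.d * x.e ≠ 0 := by
        have : 0 < x.b * x.c * x.d * x.e :=
          Nat.mul_pos (Nat.mul_pos (Nat.mul_pos hb.1 hc.1) hd.1) he.1
        omega
      rw [Finset.mem_union, Finset.mem_union]
      have key : p ∣ x.b * x.c * x.d * x.e → p ∈ (x.b * x.c * x.d * x.e).primeFactors := fun h =>
        Nat.mem_primeFactors.2 ⟨hpp, h, hx0⟩
      rcases (Nat.Prime.dvd_mul hpp).1 hpd with h | h
      · rcases (Nat.Prime.dvd_mul hpp).1 h with h | h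
        · rcases (Nat.Prime.dvd_mul hpp).1 h with h | h
          · rcases (Nat.Prime.dvd_mul hpp).1 h with h | h
            · left
              apply key
              exact Dvd.dvd.mul_right (Dvd.dvd.mul_right (Dvd.dvd.mul_right h _) _) _
            · exact absurd (hBr p hpp h) (by omega)
          · rcases (Nat.Prime.dvd_mul hpp).1 h with h | h
            · left
              apply key
              exact Dvd.dvd.mul_right (Dvd.dvd.mul_right (Dvd.dvd.mul_left h _) _) _
            · right; left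
              exact Nat.mem_primeFactors.2 ⟨hpp, h, by omega⟩
        · rcases (Nat.Prime.dvd_mul hpp).1 h with h | h
          · left
            apply key
            exact Dvd.dvd.mul_right (Dvd.dvd.mul_left h _) _
          · right; right
            exact Nat.mem_primeFactors.2 ⟨hpp, h, by omega⟩
      · have h7 : ee = x.e * (ee / x.e) := (Nat.mul_div_cancel' hg.e0).symm
        rw [h7] at h
        rcases (Nat.Prime.dvd_mul hpp).1 h with h | h
        · left
          apply key
          exact Dvd.dvd.mul_left h _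
        · exact absurd (hg.re p hpp h) (by omega)
    have h8 := Finset.card_le_card hsub
    have h9 := Finset.card_union_le (x.b * x.c * x.d * x.e).primeFactors (C.primeFactors ∪ D.primeFactors)
    have h10 := Finset.card_union_le C.primeFactors D.primeFactors
    unfold om nu
    omega
  have hw : wt (T ^ gg s) (cfOf x q C D B a) =
      (1 / 2 : ℝ) ^ om ((T ^ gg s) ^ 100) (x.b * B * (x.c * C) * (x.d * D) * ee) := rfl
  rw [hw, ← pow_add]
  exact pow_le_pow_of_le_one (by norm_num) (by norm_num) hmain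

end PA25
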