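import Pool.Agent.LibPA25.T3

/-!
ROW [PA25 T5].  The tuple is determined by the configuration.
PROOF.  Lemma: `m n = m' n'`, all primes of `m, m'` are `≤ T` and all primes of `n, n'` are `> T`, then `m = m'`, `n = n'` (`m` is coprime to `n'`, so `m ∣ m'`, and conversely).
`x.b, x.c, x.d, x.e, x.j ≤ T` (so their primes are `≤ T`); `B, C, D, e/x.e` have all primes `> T`; `q` is prime `≥ T^g > T` (`T ≥ 2`, `gg s ≥ 2`).  From `k, b, c, d, e, a` of `cfOf`: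
`2 j q = 2 j' q'`, `x.b B = x'.b B'`, `x.c C = x'.c C'`, `x.d D = x'.d D'`, `x.e (e/x.e) = x'.e (e/x'.e)` (`GoodA.e0`, `GoodA.re` by `T3_good`).
-/

set_option autoImplicit false

namespace PA25

open Finset Pasch

private theorem t5_cop {T m n : ℕ} (hm0 : 0 < m) (hmT : m ≤ T) (hn : Rough T n) : m.Coprime n := by
  apply Nat.Coprime.symm
  apply Nat.coprime_of_dvd
  intro p hp hpn hpm
  have h1 := hn p hp hpn
  have h2 := Nat.le_of_dvd hm0 hpm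
  omega

private theorem t5_split {T m n m' n' : ℕ} (hm0 : 0 < m) (hmT : m ≤ T) (hm0' : 0 < m') (hmT' : m' ≤ T)
    (hn : Rough T n) (hn' : Rough T n') (h : m * n = m' * n') : m = m' ∧ n = n' := by
  have h1 : m ∣ m' := by
    have : m ∣ m' * n' := ⟨n, h.symm⟩
    exact (t5_cop hm0 hmT hn').dvd_of_dvd_mul_right this
  have h2 : m' ∣ m := by
    have : m' ∣ m * n := ⟨n', h⟩
    exact (t5_cop hm0' hmT' hn).dvd_of_dvd_mul_right this
  have h3 : m = m' := Nat.dvd_antisymm h1 h2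
  refine ⟨h3, ?_⟩
  rw [← h3] at h
  exact Nat.eq_of_mul_eq_mul_left hm0 h

private theorem t5_rough {z T n : ℕ} (h : T ≤ z) (hn : Rough z n) : Rough T n := fun p hp hpn =>
  lt_of_le_of_lt h (hn p hp hpn)

theorem T5_inj (s : ℕ) (hs1 : 1 ≤ s) {Q α β γ δ κ : ℕ} (hC : Cls Q α β γ δ κ) :
    ∃ T0 : ℕ, ∀ T : ℕ, T0 ≤ T → ∀ (x x' : Sm) (q C D B a q' C' D' B' a' : ℕ),
      Tup Q α β γ δ κ (gg s) (NN s) T x q C D B a → Tup Q α β γ δ κ (gg s) (NN s) T x' q' C' D' B' a' →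
      cfOf x q C D B a = cfOf x' q' C' D' B' a' →
      x = x' ∧ q = q' ∧ C = C' ∧ D = D' ∧ B = B' ∧ a = a' := by
  refine ⟨2, fun T hT x x' q C D B a q' C' D' B' a' hx hx' heq => ?_⟩
  have hg : 2 ≤ gg s := by unfold gg; omega
  have hTg : T < T ^ gg s := by
    calc T = T ^ 1 := (pow_one T).symm
      _ < T ^ gg s := Nat.pow_lt_pow_right (by omega) (by omega)
  have hT5 : T ≤ T ^ 5 := Nat.le_self_pow (by norm_num) T
  have hTw : T ≤ (T ^ gg s) ^ 100 := hTg.le.trans (Nat.le_self_pow (by norm_num) _)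
  have G := T3_good hx
  have G' := T3_good hx'
  obtain ⟨a1, a2, a3, a4, a5, a6⟩ := hx
  obtain ⟨b1, b2, b3, b4, b5, b6⟩ := hx'
  rw [mem_SmS] at a1 b1
  rw [mem_qS] at a2 b2
  rw [mem_CS] at a3 b3
  rw [mem_DS] at a4 b4
  rw [mem_BS] at a5 b5
  obtain ⟨⟨xb, xc, xd, xe, xj⟩, -⟩ := a1
  obtain ⟨⟨yb, yc, yd, ye, yj⟩, -⟩ := b1
  have hk : (cfOf x q C D B a).k = (cfOf x' q' C' D' B' a').k := by rw [heq]
  have ha : (cfOf x q C D B a).a = (cfOf x' q' C' D' B' a').a := by rw [heq]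
  have hb : (cfOf x q C D B a).b = (cfOf x' q' C' D' B' a').b := by rw [heq]
  have hc : (cfOf x q C D B a).c = (cfOf x' q' C' D' B' a').c := by rw [heq]
  have hd : (cfOf x q C D B a).d = (cfOf x' q' C' D' B' a').d := by rw [heq]
  have he : (cfOf x q C D B a).e = (cfOf x' q' C' D' B' a').e := by rw [heq]
  have hk1 : x.j * q = x'.j * q' := by
    have : 2 * (x.j * q) = 2 * (x'.j * q') := hk
    omega
  have hrq : Rough T q := fun p hp hpq => by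
    rw [(Nat.prime_dvd_prime_iff_eq hp a2.2.1).1 hpq]
    omega
  have hrq' : Rough T q' := fun p hp hpq => by
    rw [(Nat.prime_dvd_prime_iff_eq hp b2.2.1).1 hpq]
    omega
  obtain ⟨e1, e2⟩ := t5_split xj.1 xj.2 yj.1 yj.2 hrq hrq' hk1
  obtain ⟨e3, e4⟩ := t5_split xc.1 xc.2 yc.1 yc.2 (t5_rough hT5 a3.2.2.1) (t5_rough hT5 b3.2.2.1) hc
  obtain ⟨e5, e6⟩ := t5_split xd.1 xd.2 yd.1 yd.2 (t5_rough hT5 a4.2.2.2.1) (t5_rough hT5 b4.2.2.2.1) hd
  obtain ⟨e7, e8⟩ := t5_split xb.1 xb.2 yb.1 yb.2 (t5_rough hTw a5.2.2.1) (t5_rough hTw b5.2.2.1) hb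
  have hee : x.e * ((cfOf x q C D B a).e / x.e) = x'.e * ((cfOf x' q' C' D' B' a').e / x'.e) := by
    rw [Nat.mul_div_cancel' G.e0, Nat.mul_div_cancel' G'.e0, he]
  obtain ⟨e9, -⟩ := t5_split xe.1 xe.2 ye.1 ye.2 (t5_rough hTw G.re) (t5_rough hTw G'.re) hee
  refine ⟨?_, e2, e4, e6, e8, ha⟩
  cases x
  cases x'
  simp only [Sm.mk.injEq]
  exact ⟨e7, e3, e5, e9, e1⟩

end PA25
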