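import Pool.Agent.LibPA25.T2
import Pool.Agent.LibPA25.T4
import Pool.Agent.LibPA25.T5

/-!
ROW [PA25 T6].  THE FIRST MOMENT.
PROOF.  The set of tuples as an iterated `Finset.sigma` (type `Σ _ : Sm, Σ _ : ℕ, Σ _ : ℕ, Σ _ : ℕ, Σ _ : ℕ, ℕ`; `Finset.sum_sigma` turns the sum over it into the iterated sum of `T2_total`), `S` = its image under
`cfOf` (injective by `T5_inj`: `Finset.sum_image`).  `T3_conf`, `T3_good`, `T4_weight`.  Classes: `a ≡ α` (`GoodA.ha`), `b = x.b B ≡ β`, `c = x.c C ≡ γ`, `d ≡ δ`, `k = 2 j q`, `j q ≡ κ`; `e, f` prime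
to `Q` (`GoodA.ce, cf`).
-/

set_option autoImplicit false

namespace PA25

open Finset Pasch

/-- a configuration in the given classes -/
structure InCls (Q α β γ δ κ : ℕ) (q : Cf) : Prop where
  a : q.a ≡ α [MOD Q]
  b : q.b ≡ β [MOD Q]
  c : q.c ≡ γ [MOD Q]
  d : q.d ≡ δ [MOD Q]
  k : ∃ k₁ : ℕ, q.k = 2 * k₁ ∧ k₁ ≡ κ [MOD Q]
  e : q.e.Coprime Q
  f : q.f.Coprime Q

/-- the tuples -/
private noncomputable def t6_TS (Q α β γ δ κ g N T : ℕ) : Finset (Σ _ : Sm, Σ _ : ℕ, Σ _ : ℕ, Σ _ : ℕ, Σ _ : ℕ, ℕ) :=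
  (SmS Q T).sigma fun x => (qS Q T g κ x.j).sigma fun q => (CS Q T g γ x.c q).sigma fun C =>
    (DS Q T δ (x.j * q) C (x.c * C) x.d).sigma fun D =>
      (BS Q N (T ^ g) β (x.j * q) x.b (x.c * C)).sigma fun B =>
        AS Q N (T ^ g) α (x.j * q) (x.b * B) (x.c * C) (x.d * D) x.e

/-- the configuration of a tuple -/
private def t6_cf (t : Σ _ : Sm, Σ _ : ℕ, Σ _ : ℕ, Σ _ : ℕ, Σ _ : ℕ, ℕ) : Cf :=
  cfOf t.1 t.2.1 t.2.2.1 t.2.2.2.1 t.2.2.2.2.1 t.2.2.2.2.2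

private theorem t6_mem {Q α β γ δ κ g N T : ℕ} {t : Σ _ : Sm, Σ _ : ℕ, Σ _ : ℕ, Σ _ : ℕ, Σ _ : ℕ, ℕ} :
    t ∈ t6_TS Q α β γ δ κ g N T ↔ Tup Q α β γ δ κ g N T t.1 t.2.1 t.2.2.1 t.2.2.2.1 t.2.2.2.2.1 t.2.2.2.2.2 := by
  unfold t6_TS Tup
  simp only [Finset.mem_sigma]

theorem T6_first (s : ℕ) (hs1 : 1 ≤ s) (hs : LS s) {Q α β γ δ κ : ℕ} (hC : Cls Q α β γ δ κ) :
    ∃ κ₉ : ℝ, 0 < κ₉ ∧ ∃ T0 : ℕ, ∀ T : ℕ, T0 ≤ T → ∃ S : Finset Cf,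
      (∀ q ∈ S, IsConf (NN s) (T ^ gg s) q ∧ InCls Q α β γ δ κ q) ∧
      κ₉ * (T ^ gg s : ℕ) ^ NN s / Real.log T ≤ ∑ q ∈ S, wt (T ^ gg s) q := by
  classical
  obtain ⟨κ₈, hκ₈, T2, hT2⟩ := T2_total s hs1 hs hC
  obtain ⟨T3, hT3⟩ := T3_conf s hs1 hC
  obtain ⟨T4, hT4⟩ := T4_weight s hs1 hC
  obtain ⟨T5, hT5⟩ := T5_inj s hs1 hC
  refine ⟨(1 / 2 : ℝ) ^ (8 * gg s) * κ₈, by positivity, T2 + T3 + T4 + T5, ?_⟩
  intro T hT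
  refine ⟨(t6_TS Q α β γ δ κ (gg s) (NN s) T).image t6_cf, ?_, ?_⟩
  · intro q hq
    rw [mem_image] at hq
    obtain ⟨t, ht, rfl⟩ := hq
    rw [t6_mem] at ht
    refine ⟨hT3 T (by omega) _ _ _ _ _ _ ht, ?_⟩
    have hg := T3_good ht
    obtain ⟨h1, h2, h3, h4, h5, h6⟩ := ht
    rw [mem_qS] at h2
    rw [mem_CS] at h3
    rw [mem_DS] at h4
    rw [mem_BS] at h5
    exact ⟨hg.ha, h5.2.1, h3.2.1, h4.2.1, ⟨t.1.j * t.2.1, rfl, h2.2.2⟩, hg.ce, hg.cf⟩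
  · have hinj : Set.InjOn t6_cf (t6_TS Q α β γ δ κ (gg s) (NN s) T : Set _) := by
      intro t ht t' ht' h
      have ht1 := t6_mem.1 (Finset.mem_coe.1 ht)
      have ht2 := t6_mem.1 (Finset.mem_coe.1 ht')
      obtain ⟨e1, e2, e3, e4, e5, e6⟩ := hT5 T (by omega) _ _ _ _ _ _ _ _ _ _ _ _ ht1 ht2 h
      obtain ⟨x, q, C, D, B, a⟩ := t
      obtain ⟨x', q', C', D', B', a'⟩ := t'
      simp only at e1 e2 e3 e4 e5 e6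
      subst e1 e2 e3 e4 e5 e6
      rfl
    rw [Finset.sum_image hinj]
    have h1 : ∀ t ∈ t6_TS Q α β γ δ κ (gg s) (NN s) T,
        (1 / 2 : ℝ) ^ (8 * gg s) * (1 / 2 : ℝ) ^ nu (t.1.b * t.1.c * t.1.d * t.1.e) ≤
          wt (T ^ gg s) (t6_cf t) := fun t ht => hT4 T (by omega) _ _ _ _ _ _ (t6_mem.1 ht)
    refine le_trans ?_ (Finset.sum_le_sum h1)
    rw [← Finset.mul_sum]
    have h2 := hT2 T (by omega)
    have h3 : ∑ t ∈ t6_TS Q α β γ δ κ (gg s) (NN s) T, (1 / 2 : ℝ) ^ nu (t.1.b * t.1.c * t.1.d * t.1.e) =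
        ∑ x ∈ SmS Q T, ∑ q ∈ qS Q T (gg s) κ x.j, ∑ C ∈ CS Q T (gg s) γ x.c q,
          ∑ D ∈ DS Q T δ (x.j * q) C (x.c * C) x.d,
            ∑ B ∈ BS Q (NN s) (T ^ gg s) β (x.j * q) x.b (x.c * C),
              ∑ _a ∈ AS Q (NN s) (T ^ gg s) α (x.j * q) (x.b * B) (x.c * C) (x.d * D) x.e,
                ((1 / 2 : ℝ)) ^ nu (x.b * x.c * x.d * x.e) := by
      unfold t6_TS
      simp only [Finset.sum_sigma]
    rw [h3]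
    calc (1 / 2 : ℝ) ^ (8 * gg s) * κ₈ * (T ^ gg s : ℕ) ^ NN s / Real.log T =
        (1 / 2 : ℝ) ^ (8 * gg s) * (κ₈ * (T ^ gg s : ℕ) ^ NN s / Real.log T) := by ring
      _ ≤ _ := mul_le_mul_of_nonneg_left h2 (by positivity)

end PA25
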