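import Pool.Agent.LibPA25.Defs
import Pool.Agent.LibMaier.Mertens

/-!
ROW [PA25 L2].  Lower bounds for products over primes.
PROOF.  As SP15.P1_lower (LibSP15/P1.lean, proved; copy).  `mertens_third` (LibMaier) gives `∏_{p ≤ z} (1 - 1/p) ≥ c / log z` for all `z ≥ 2`; a subproduct is larger.
For `r ≤ 3` and `p ≥ 7`: `1 - r/p ≥ (1 - 1/p)^r (1 - 9/p^2)` hmm: use `1 - r/p ≥ (1 - 1/p)^r * (1 - 3/(p-1)^2)^r` or any inequality of this kind with a convergent product: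
`(1 - 3/p) ≥ (1-1/p)^3 (1 - 4/p^2)` for `p ≥ 7` (`(1-1/p)^3 = 1 - 3/p + 3/p^2 - 1/p^3`), and `∏_{p ≥ 7} (1 - 4/p^2) ≥ ∏_{n ≥ 7} (1 - 4/n^2) ≥ 1/4` (telescopes:
`(n-2)(n+2)/n^2`).  `r = 2`: `(1 - 2/p) ≥ (1-1/p)^2 (1 - 4/p^2)`.
-/

set_option autoImplicit false

namespace PA25

open Finset Pasch

private theorem l2_pos (S : Finset ℕ) : 0 < ∏ p ∈ S.filter Nat.Prime, (1 - 1 / (p : ℝ)) := by
  refine prod_pos fun p hp => ?_
  have h1 : p.Prime := (mem_filter.1 hp).2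
  have h2 : (2 : ℝ) ≤ p := by exact_mod_cast h1.two_le
  have h3 : 1 / (p : ℝ) ≤ 1 / 2 := one_div_le_one_div_of_le (by norm_num) h2
  linarith

private theorem l2_nat : ∃ c C : ℝ, 0 < c ∧ 0 < C ∧ ∀ n : ℕ, 2 ≤ n →
    c ≤ (∏ p ∈ (range (n + 1)).filter Nat.Prime, (1 - 1 / (p : ℝ))) * Real.log n ∧
    (∏ p ∈ (range (n + 1)).filter Nat.Prime, (1 - 1 / (p : ℝ))) * Real.log n ≤ C := by
  set f : ℕ → ℝ := fun n =>
    (∏ p ∈ (range (n + 1)).filter Nat.Prime, (1 - 1 / (p : ℝ))) * Real.log n with hf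
  set L : ℝ := Real.exp (-Real.eulerMascheroniConstant) with hL
  have hL0 : 0 < L := Real.exp_pos _
  have hlim : Filter.Tendsto f Filter.atTop (nhds L) := Pool.Agent.LibMaier.mertens_third
  have hpos : ∀ n : ℕ, 2 ≤ n → 0 < f n := by
    intro n hn
    have h1 : (1 : ℝ) < n := by exact_mod_cast hn
    exact mul_pos (l2_pos _) (Real.log_pos h1)
  have e1 : ∀ᶠ n in Filter.atTop, L / 2 < f n := hlim.eventually (lt_mem_nhds (by linarith))
  have e2 : ∀ᶠ n in Filter.atTop, f n < 2 * L := hlim.eventually (gt_mem_nhds (by linarith))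
  obtain ⟨N, hN⟩ := Filter.eventually_atTop.1 (e1.and e2)
  have hfin : ∀ N : ℕ, ∃ c C : ℝ, 0 < c ∧ 0 < C ∧ ∀ n, 2 ≤ n → n < N → c ≤ f n ∧ f n ≤ C := by
    intro N
    induction N with
    | zero => exact ⟨1, 1, one_pos, one_pos, fun n _ h => absurd h (Nat.not_lt_zero n)⟩
    | succ N ih =>
      obtain ⟨c, C, hc, hC, h⟩ := ih
      by_cases h2 : 2 ≤ N
      · refine ⟨min c (f N), max C (f N), lt_min hc (hpos N h2), lt_max_of_lt_left hC, ?_⟩
        intro n hn hnN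
        rcases Nat.lt_succ_iff_lt_or_eq.1 hnN with h3 | h3
        · exact ⟨(min_le_left _ _).trans (h n hn h3).1, (h n hn h3).2.trans (le_max_left _ _)⟩
        · subst h3
          exact ⟨min_le_right _ _, le_max_right _ _⟩
      · refine ⟨c, C, hc, hC, ?_⟩
        intro n hn hnN
        exact absurd hn (by omega)
  obtain ⟨c, C, hc, hC, h⟩ := hfin N
  refine ⟨min c (L / 2), max C (2 * L), lt_min hc (by linarith), lt_max_of_lt_left hC, ?_⟩
  intro n hn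
  by_cases h3 : n < N
  · exact ⟨(min_le_left _ _).trans (h n hn h3).1, (h n hn h3).2.trans (le_max_left _ _)⟩
  · have h4 := hN n (not_lt.1 h3)
    exact ⟨(min_le_right _ _).trans h4.1.le, h4.2.le.trans (le_max_right _ _)⟩

private theorem l2_sub (S T : Finset ℕ) (h : S ⊆ T) (f : ℕ → ℝ) (h0 : ∀ x ∈ T, 0 ≤ f x) (h1 : ∀ x ∈ T, f x ≤ 1) :
    ∏ x ∈ T, f x ≤ ∏ x ∈ S, f x := by
  rw [← Finset.prod_sdiff h]
  refine mul_le_of_le_one_left (Finset.prod_nonneg fun x hx => h0 x (h hx)) ?_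
  exact Finset.prod_le_one (fun x hx => h0 x (Finset.sdiff_subset hx)) fun x hx => h1 x (Finset.sdiff_subset hx)

private theorem l2_tel (n : ℕ) : ∏ m ∈ Ico 7 (n + 7), (1 - 9 / (m : ℝ) ^ 2) =
    5 / 21 * (((n : ℝ) + 7) * (n + 8) * (n + 9)) / (((n : ℝ) + 4) * (n + 5) * (n + 6)) := by
  induction n with
  | zero => norm_num
  | succ n ih =>
    have e : n + 1 + 7 = (n + 7) + 1 := by ring
    rw [e, Finset.prod_Ico_succ_top (by omega : 7 ≤ n + 7), ih]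
    have h4 : (n : ℝ) + 4 ≠ 0 := by positivity
    have h5 : (n : ℝ) + 5 ≠ 0 := by positivity
    have h6 : (n : ℝ) + 6 ≠ 0 := by positivity
    have h7 : (n : ℝ) + 7 ≠ 0 := by positivity
    have h41 : (n : ℝ) + 1 + 4 ≠ 0 := by positivity
    have h51 : (n : ℝ) + 1 + 5 ≠ 0 := by positivity
    have h61 : (n : ℝ) + 1 + 6 ≠ 0 := by positivity
    push_cast
    rw [one_sub_div (pow_ne_zero 2 h7)]
    rw [div_mul_div_comm, div_eq_div_iff (by positivity) (by positivity)]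
    ring

private theorem l2_half (z : ℕ) (Q : Finset ℕ) (hQ : ∀ p ∈ Q, p.Prime ∧ 7 ≤ p ∧ p ≤ z) :
    5 / 21 ≤ ∏ p ∈ Q, (1 - 9 / (p : ℝ) ^ 2) := by
  have hsub : Q ⊆ Ico 7 (z + 7) := by
    intro p hp
    obtain ⟨_, h1, h2⟩ := hQ p hp
    rw [Finset.mem_Ico]
    omega
  refine le_trans ?_ (l2_sub _ _ hsub _ ?_ ?_)
  · rw [l2_tel, le_div_iff₀ (by positivity)]
    have : (0 : ℝ) ≤ z := Nat.cast_nonneg _
    nlinarith [mul_nonneg this this, mul_nonneg (mul_nonneg this this) this]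
  · intro m hm
    rw [Finset.mem_Ico] at hm
    have h1 : (7 : ℝ) ≤ m := by exact_mod_cast hm.1
    rw [sub_nonneg, div_le_one (by positivity)]
    nlinarith
  · intro m _
    have : (0 : ℝ) ≤ 9 / (m : ℝ) ^ 2 := by positivity
    linarith

private theorem l2_fac {r p : ℕ} (hr : r ≤ 3) (hp : 7 ≤ p) :
    (1 - 1 / (p : ℝ)) ^ r * (1 - 9 / (p : ℝ) ^ 2) ≤ 1 - (r : ℝ) / p := by
  have hp7 : (7 : ℝ) ≤ p := by exact_mod_cast hp
  have hp0 : (0 : ℝ) < p := by linarith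
  obtain ⟨t, ht⟩ : ∃ t : ℝ, t = 1 / (p : ℝ) := ⟨_, rfl⟩
  have ht0 : 0 ≤ t := by rw [ht]; positivity
  have ht1 : t ≤ 1 / 7 := by rw [ht]; exact one_div_le_one_div_of_le (by norm_num) hp7
  have e1 : 9 / (p : ℝ) ^ 2 = 9 * t ^ 2 := by rw [ht]; field_simp
  have e2 : (r : ℝ) / p = r * t := by rw [ht]; ring
  rw [e1, e2, ← ht]
  have ht2 : 0 ≤ t ^ 2 := sq_nonneg t
  interval_cases r
  · push_cast; nlinarith
  · push_cast; nlinarith [mul_nonneg ht2 ht0]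
  · push_cast
    have : 0 ≤ t ^ 2 * (9 * (1 - t) ^ 2 - 1) := mul_nonneg ht2 (by nlinarith)
    nlinarith
  · push_cast
    have : 0 ≤ t ^ 2 * (6 - 26 * t + 27 * t ^ 2 - 9 * t ^ 3) :=
      mul_nonneg ht2 (by nlinarith [mul_nonneg ht2 (show 0 ≤ 3 - t by linarith)])
    nlinarith

theorem L2_mertens : ∃ κ : ℝ, 0 < κ ∧ ∀ (z : ℕ) (P : Finset ℕ) (r : ℕ), 2 ≤ z → r ≤ 3 →
    (∀ p ∈ P, p.Prime ∧ 7 ≤ p ∧ p ≤ z) →
    κ / Real.log z ^ r ≤ ∏ p ∈ P, (1 - (r : ℝ) / p) := by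
  obtain ⟨c, C, hc, hC, h⟩ := l2_nat
  have hm0 : 0 < min c 1 := lt_min hc one_pos
  refine ⟨(min c 1) ^ 3 * (5 / 21), by positivity, fun z P r hz hr hP => ?_⟩
  have hz2 : (2 : ℝ) ≤ z := by exact_mod_cast hz
  have hlog : 0 < Real.log z := Real.log_pos (by linarith)
  have h1 := (h z (by omega)).1
  have hsub : P ⊆ (range (z + 1)).filter Nat.Prime := by
    intro p hp
    obtain ⟨h2, _, h3⟩ := hP p hp
    rw [Finset.mem_filter, Finset.mem_range]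
    exact ⟨by omega, h2⟩
  have h2 : ∏ p ∈ (range (z + 1)).filter Nat.Prime, (1 - 1 / (p : ℝ)) ≤ ∏ p ∈ P, (1 - 1 / (p : ℝ)) := by
    refine l2_sub _ _ hsub _ ?_ ?_
    · intro p hp
      have h3 : (1 : ℝ) ≤ p := by exact_mod_cast (Finset.mem_filter.1 hp).2.one_lt.le
      rw [sub_nonneg, div_le_one (by linarith)]
      exact h3
    · intro p _
      have : (0 : ℝ) ≤ 1 / (p : ℝ) := by positivity
      linarith
  have h3 : c / Real.log z ≤ ∏ p ∈ P, (1 - 1 / (p : ℝ)) := by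
    rw [div_le_iff₀ hlog]
    exact h1.trans (mul_le_mul_of_nonneg_right h2 hlog.le)
  have h4 := l2_half z P hP
  have h5 : 0 < c / Real.log z := by positivity
  have h6 : (c / Real.log z) ^ r ≤ (∏ p ∈ P, (1 - 1 / (p : ℝ))) ^ r := pow_le_pow_left₀ h5.le h3 r
  have h7 : (min c 1) ^ 3 ≤ c ^ r := by
    calc (min c 1) ^ 3 ≤ (min c 1) ^ r := pow_le_pow_of_le_one hm0.le (min_le_right _ _) hr
      _ ≤ c ^ r := pow_le_pow_left₀ hm0.le (min_le_left _ _) r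
  calc (min c 1) ^ 3 * (5 / 21) / Real.log z ^ r ≤ c ^ r * (5 / 21) / Real.log z ^ r := by
        refine div_le_div_of_nonneg_right ?_ (by positivity)
        exact mul_le_mul_of_nonneg_right h7 (by norm_num)
    _ = (c / Real.log z) ^ r * (5 / 21) := by
        rw [div_pow]
        ring
    _ ≤ (∏ p ∈ P, (1 - 1 / (p : ℝ))) ^ r * ∏ p ∈ P, (1 - 9 / (p : ℝ) ^ 2) :=
        mul_le_mul h6 h4 (by norm_num) ((pow_nonneg h5.le r).trans h6)
    _ = ∏ p ∈ P, ((1 - 1 / (p : ℝ)) ^ r * (1 - 9 / (p : ℝ) ^ 2)) := by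
        rw [Finset.prod_mul_distrib, Finset.prod_pow]
    _ ≤ ∏ p ∈ P, (1 - (r : ℝ) / p) := by
        refine Finset.prod_le_prod (fun p hp => ?_) (fun p hp => l2_fac hr (hP p hp).2.1)
        have hp7 : (7 : ℝ) ≤ p := by exact_mod_cast (hP p hp).2.1
        have hp0 : (0 : ℝ) < p := by linarith
        refine mul_nonneg (pow_nonneg ?_ r) ?_
        · rw [sub_nonneg, div_le_one hp0]
          linarith
        · rw [sub_nonneg, div_le_one (by positivity)]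
          nlinarith

end PA25
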