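import Pool.Agent.LibPA25.L2

/-!
ROW [PA25 L3].  Linear forms that are rough, squarefree and prime to `M'` at the large primes.
-/

set_option autoImplicit false

namespace PA25

open Finset Pasch

/-- solutions of a linear congruence below `M` -/
private theorem l3_cnt (M q A B : ℕ) (hq : 0 < q) (h : q.Coprime A) :
    (#{t ∈ range M | q ∣ A * t + B} : ℝ) ≤ (M : ℝ) / q + 1 := by
  have h1 : #{t ∈ range M | q ∣ A * t + B} ≤ M / q + 1 := by
    rw [← Finset.card_range (M / q + 1)]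
    refine Finset.card_le_card_of_injOn (fun t => t / q) ?_ ?_
    · intro t ht
      rw [Finset.mem_coe, Finset.mem_filter, Finset.mem_range] at ht
      rw [Finset.mem_coe, Finset.mem_range]
      exact Nat.lt_succ_of_le (Nat.div_le_div_right ht.1.le)
    · intro t ht s hs he
      rw [Finset.mem_coe, Finset.mem_filter] at ht hs
      have he' : t / q = s / q := he
      have h2 : (A * t + B) ≡ (A * s + B) [MOD q] :=
        ((Nat.modEq_zero_iff_dvd).2 ht.2).trans ((Nat.modEq_zero_iff_dvd).2 hs.2).symm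
      have h3 : (A * t) ≡ (A * s) [MOD q] := Nat.ModEq.add_right_cancel' B h2
      have h4 : t ≡ s [MOD q] := Nat.ModEq.cancel_left_of_coprime h h3
      have h5 : t % q = s % q := h4
      rw [← Nat.div_add_mod t q, ← Nat.div_add_mod s q, he', h5]
  have h2 : ((M / q : ℕ) : ℝ) ≤ (M : ℝ) / q := Nat.cast_div_le
  have h3 : (#{t ∈ range M | q ∣ A * t + B} : ℝ) ≤ ((M / q : ℕ) : ℝ) + 1 := by exact_mod_cast h1
  linarith

private theorem l3_empty (M q p A B : ℕ) (hp : p.Prime) (hpq : p ∣ q) (hA : p ∣ A) (h : A.Coprime B) :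
    #{t ∈ range M | q ∣ A * t + B} = 0 := by
  rw [Finset.card_eq_zero, Finset.filter_eq_empty_iff]
  intro t _ hd
  have h1 : p ∣ A * t + B := hpq.trans hd
  have h2 : p ∣ B := (Nat.dvd_add_right (hA.mul_right t)).1 h1
  have h3 := Nat.dvd_gcd hA h2
  rw [h] at h3
  exact hp.one_lt.ne' (Nat.dvd_one.1 h3)

private theorem l3_cnt' (M q p A B : ℕ) (hp : p.Prime) (k : ℕ) (hk : k ≠ 0) (hq : q = p ^ k) (h : A.Coprime B) :
    (#{t ∈ range M | q ∣ A * t + B} : ℝ) ≤ (M : ℝ) / q + 1 := by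
  by_cases hA : p ∣ A
  · rw [l3_empty M q p A B hp (hq ▸ dvd_pow_self p hk) hA h]
    have : (0 : ℝ) ≤ (M : ℝ) / q := by positivity
    push_cast
    linarith
  · refine l3_cnt M q A B (hq ▸ pow_pos hp.pos k) ?_
    rw [hq]
    exact Nat.Coprime.pow_left k ((Nat.Prime.coprime_iff_not_dvd hp).2 hA)

/-- the numbers with a large square factor -/
private theorem l3_bad1 (z M A B : ℕ) (hz : 1 ≤ z) (h : A.Coprime B) (hM : (A * M + B) * z ^ 2 ≤ M ^ 2)
    (hB : 0 < B) (S : Finset ℕ)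
    (hS : ∀ t ∈ S, t < M ∧ ∃ p : ℕ, p.Prime ∧ z < p ∧ p ^ 2 ∣ A * t + B) :
    (#S : ℝ) ≤ 2 * (M : ℝ) / z := by
  classical
  have hz0 : (0 : ℝ) < z := by exact_mod_cast hz
  have hsub : S ⊆ ((Ioc z (M / z)).filter Nat.Prime).biUnion
      (fun p => (range M).filter fun t => p ^ 2 ∣ A * t + B) := by
    intro t ht
    obtain ⟨h1, p, h2, h3, h4⟩ := hS t ht
    rw [Finset.mem_biUnion]
    refine ⟨p, ?_, ?_⟩
    · rw [Finset.mem_filter, Finset.mem_Ioc]
      refine ⟨⟨h3, ?_⟩, h2⟩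
      rw [Nat.le_div_iff_mul_le (by omega)]
      have h5 : p ^ 2 ≤ A * t + B := Nat.le_of_dvd (by omega) h4
      have h6 : A * t + B ≤ A * M + B := by
        have := Nat.mul_le_mul_left A h1.le
        omega
      have h7 : (p * z) ^ 2 ≤ M ^ 2 := by
        calc (p * z) ^ 2 = p ^ 2 * z ^ 2 := by ring
          _ ≤ (A * M + B) * z ^ 2 := Nat.mul_le_mul_right _ (h5.trans h6)
          _ ≤ M ^ 2 := hM
      exact (Nat.pow_le_pow_iff_left two_ne_zero).1 h7
    · rw [Finset.mem_filter, Finset.mem_range]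
      exact ⟨h1, h4⟩
  have hc : (#S : ℝ) ≤ ∑ p ∈ (Ioc z (M / z)).filter Nat.Prime,
      (#((range M).filter fun t => p ^ 2 ∣ A * t + B) : ℝ) := by
    have h1 := (Finset.card_le_card hsub).trans Finset.card_biUnion_le
    exact_mod_cast h1
  refine hc.trans ?_
  have h1 : ∑ p ∈ (Ioc z (M / z)).filter Nat.Prime,
      (#((range M).filter fun t => p ^ 2 ∣ A * t + B) : ℝ) ≤
      ∑ p ∈ (Ioc z (M / z)).filter Nat.Prime, ((M : ℝ) * ((p : ℝ) ^ 2)⁻¹ + 1) := by
    refine Finset.sum_le_sum fun p hp => ?_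
    rw [Finset.mem_filter] at hp
    have := l3_cnt' M (p ^ 2) p A B hp.2 2 two_ne_zero rfl h
    rw [div_eq_mul_inv] at this
    push_cast at this
    exact this
  have h2 : ∑ p ∈ (Ioc z (M / z)).filter Nat.Prime, ((M : ℝ) * ((p : ℝ) ^ 2)⁻¹ + 1) ≤
      ∑ p ∈ Ioc z (M / z), ((M : ℝ) * ((p : ℝ) ^ 2)⁻¹ + 1) :=
    Finset.sum_le_sum_of_subset_of_nonneg (Finset.filter_subset _ _) fun p _ _ => by positivity
  have h3 : ∑ p ∈ Ioc z (M / z), ((M : ℝ) * ((p : ℝ) ^ 2)⁻¹ + 1) =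
      M * ∑ p ∈ Ioc z (M / z), ((p : ℝ) ^ 2)⁻¹ + (M / z - z : ℕ) := by
    rw [Finset.sum_add_distrib, ← Finset.mul_sum, Finset.sum_const, Nat.card_Ioc, nsmul_eq_mul, mul_one]
  have h4 : ∑ p ∈ Ioc z (M / z), ((p : ℝ) ^ 2)⁻¹ ≤ (z : ℝ)⁻¹ := by
    by_cases hle : z ≤ M / z
    · have h5 := sum_Ioc_inv_sq_le_sub (α := ℝ) (by omega : z ≠ 0) hle
      have h6 : (0 : ℝ) ≤ ((M / z : ℕ) : ℝ)⁻¹ := by positivity
      linarith
    · rw [Finset.Ioc_eq_empty (by omega), Finset.sum_empty]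
      positivity
  have h5 : ((M / z - z : ℕ) : ℝ) ≤ (M : ℝ) / z := by
    have h6 : ((M / z - z : ℕ) : ℝ) ≤ ((M / z : ℕ) : ℝ) := by exact_mod_cast Nat.sub_le _ _
    exact h6.trans Nat.cast_div_le
  have h6 : (M : ℝ) * ∑ p ∈ Ioc z (M / z), ((p : ℝ) ^ 2)⁻¹ ≤ M / z := by
    rw [div_eq_mul_inv]
    exact mul_le_mul_of_nonneg_left h4 (Nat.cast_nonneg _)
  have h7 : 2 * (M : ℝ) / z = M / z + M / z := by ring
  rw [h7]
  linarith

/-- the numbers with a common large prime with `M'` -/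
private theorem l3_bad2 (z M M' m A B : ℕ) (hz : 2 ≤ z) (hzM : z ≤ M) (h : A.Coprime B)
    (hM0 : 0 < M') (hM' : M' ≤ z ^ m) (S : Finset ℕ)
    (hS : ∀ t ∈ S, t < M ∧ ∃ p : ℕ, p.Prime ∧ z < p ∧ p ∣ M' ∧ p ∣ A * t + B) :
    (#S : ℝ) ≤ m * (2 * (M : ℝ) / z) := by
  classical
  have hz0 : (0 : ℝ) < z := by
    have : 0 < z := by omega
    exact_mod_cast this
  set T : Finset ℕ := M'.primeFactors.filter fun p => z < p with hT
  have hTm : #T ≤ m := by
    by_contra hlt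
    push Not at hlt
    have h1 : ∏ p ∈ T, p ∣ M' := by
      have h2 : ∏ p ∈ T, p ∣ ∏ p ∈ M'.primeFactors, p :=
        Finset.prod_dvd_prod_of_subset _ _ _ (Finset.filter_subset _ _)
      exact h2.trans (Nat.prod_primeFactors_dvd M')
    have h2 : ∏ p ∈ T, p ≤ M' := Nat.le_of_dvd hM0 h1
    have h3 : z ^ #T ≤ ∏ p ∈ T, p := Finset.pow_card_le_prod T (fun p => p) z fun p hp => by
      rw [hT, Finset.mem_filter] at hp
      exact hp.2.le
    have h4 : z ^ m < z ^ #T := Nat.pow_lt_pow_right (by omega) hlt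
    omega
  have hsub : S ⊆ T.biUnion (fun p => (range M).filter fun t => p ∣ A * t + B) := by
    intro t ht
    obtain ⟨h1, p, h2, h3, h4, h5⟩ := hS t ht
    rw [Finset.mem_biUnion]
    refine ⟨p, ?_, ?_⟩
    · rw [hT, Finset.mem_filter, Nat.mem_primeFactors]
      exact ⟨⟨h2, h4, by omega⟩, h3⟩
    · rw [Finset.mem_filter, Finset.mem_range]
      exact ⟨h1, h5⟩
  have hc : (#S : ℝ) ≤ ∑ p ∈ T, (#((range M).filter fun t => p ∣ A * t + B) : ℝ) := by
    have h1 := (Finset.card_le_card hsub).trans Finset.card_biUnion_le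
    exact_mod_cast h1
  refine hc.trans ?_
  have h1 : ∀ p ∈ T, (#((range M).filter fun t => p ∣ A * t + B) : ℝ) ≤ 2 * (M : ℝ) / z := by
    intro p hp
    rw [hT, Finset.mem_filter, Nat.mem_primeFactors] at hp
    have h2 := l3_cnt' M p p A B hp.1.1 1 one_ne_zero (pow_one p).symm h
    have hzp : (z : ℝ) ≤ p := by exact_mod_cast hp.2.le
    have h3 : (M : ℝ) / p ≤ M / z := div_le_div_of_nonneg_left (Nat.cast_nonneg _) hz0 hzp
    have h4 : (1 : ℝ) ≤ M / z := by
      rw [le_div_iff₀ hz0, one_mul]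
      exact_mod_cast hzM
    have h5 : 2 * (M : ℝ) / z = M / z + M / z := by ring
    rw [h5]
    linarith
  refine (Finset.sum_le_sum h1).trans ?_
  rw [Finset.sum_const, nsmul_eq_mul]
  refine mul_le_mul_of_nonneg_right ?_ (by positivity)
  exact_mod_cast hTm

private theorem l3_lim (ε : ℝ) (hε : 0 < ε) : ∃ z0 : ℕ, 3 ≤ z0 ∧ ∀ z : ℕ, z0 ≤ z →
    Real.log z ^ 3 ≤ ε * z := by
  have h1 : Filter.Tendsto (fun x : ℝ => Real.log x ^ 3 / x ) Filter.atTop (nhds 0) := by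
    have := Real.tendsto_pow_log_div_mul_add_atTop 1 0 3 one_ne_zero
    simpa using this
  have h2 : ∀ᶠ x : ℝ in Filter.atTop, Real.log x ^ 3 / x < ε := h1.eventually_lt_const hε
  have h3 := (tendsto_natCast_atTop_atTop (R := ℝ)).eventually h2
  obtain ⟨N, hN⟩ := Filter.eventually_atTop.1 h3
  refine ⟨max N 3, le_max_right _ _, fun z hz => ?_⟩
  have h4 := hN z ((le_max_left _ _).trans hz)
  have hz3 : 3 ≤ z := (le_max_right _ _).trans hz
  have hz0 : (0 : ℝ) < z := by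
    have : 0 < z := by omega
    exact_mod_cast this
  rw [div_lt_iff₀ hz0] at h4
  exact h4.le

private theorem l3_om (p r : ℕ) (hp : p.Prime) (A B : Fin r → ℕ) (h : ∀ i, (A i).Coprime (B i)) :
    #((range p).filter fun x => ∃ i, p ∣ A i * x + B i) ≤ r := by
  classical
  have h1 : ((range p).filter fun x => ∃ i, p ∣ A i * x + B i) ⊆
      (Finset.univ : Finset (Fin r)).biUnion (fun i => (range p).filter fun x => p ∣ A i * x + B i) := by
    intro x hx
    rw [Finset.mem_filter] at hx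
    obtain ⟨hx1, i, hi⟩ := hx
    rw [Finset.mem_biUnion]
    exact ⟨i, Finset.mem_univ i, Finset.mem_filter.2 ⟨hx1, hi⟩⟩
  have h2 : ∀ i ∈ (Finset.univ : Finset (Fin r)), #((range p).filter fun x => p ∣ A i * x + B i) ≤ 1 := by
    intro i _
    rw [Finset.card_le_one]
    intro x hx y hy
    rw [Finset.mem_filter, Finset.mem_range] at hx hy
    by_cases hA : p ∣ A i
    · have h3 := l3_empty p p p (A i) (B i) hp dvd_rfl hA (h i)
      rw [Finset.card_eq_zero] at h3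
      have h4 : x ∈ (range p).filter fun x => p ∣ A i * x + B i :=
        Finset.mem_filter.2 ⟨Finset.mem_range.2 hx.1, hx.2⟩
      rw [h3] at h4
      exact absurd h4 (Finset.notMem_empty x)
    · have hc : p.Coprime (A i) := (Nat.Prime.coprime_iff_not_dvd hp).2 hA
      have h5 : (A i * x + B i) ≡ (A i * y + B i) [MOD p] :=
        ((Nat.modEq_zero_iff_dvd).2 hx.2).trans ((Nat.modEq_zero_iff_dvd).2 hy.2).symm
      have h6 : (A i * x) ≡ (A i * y) [MOD p] := Nat.ModEq.add_right_cancel' (B i) h5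
      have h7 : x ≡ y [MOD p] := Nat.ModEq.cancel_left_of_coprime hc h6
      have h8 : x % p = y % p := h7
      rwa [Nat.mod_eq_of_lt hx.1, Nat.mod_eq_of_lt hy.1] at h8
  calc #((range p).filter fun x => ∃ i, p ∣ A i * x + B i)
      ≤ ∑ i : Fin r, #((range p).filter fun x => p ∣ A i * x + B i) :=
        (Finset.card_le_card h1).trans Finset.card_biUnion_le
    _ ≤ ∑ i : Fin r, 1 := Finset.sum_le_sum h2
    _ = r := by simp

open Classical in
theorem L3_forms (b : ℕ) (hb1 : 1 ≤ b) (hb : LS b) : ∃ κ : ℝ, 0 < κ ∧ ∀ m : ℕ, ∃ z0 : ℕ, ∀ z : ℕ, z0 ≤ z →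
    ∀ (Q M M' r : ℕ) (A B : Fin r → ℕ), 210 ∣ Q → r ≤ 3 → z ^ (b + 2) ≤ M → 0 < M' → M' ≤ z ^ m →
    (∀ i, 0 < A i ∧ 0 < B i ∧ (A i).Coprime (B i) ∧ (A i * M + B i) * z ^ 2 ≤ M ^ 2) →
    κ * M / Real.log z ^ r ≤ (#{t ∈ range M | ∀ i,
      (∀ p : ℕ, p.Prime → ¬ p ∣ Q → p ∣ A i * t + B i → z < p) ∧
      (∀ p : ℕ, p.Prime → z < p → ¬ p ^ 2 ∣ A i * t + B i) ∧
      (∀ p : ℕ, p.Prime → z < p → p ∣ M' → ¬ p ∣ A i * t + B i)} : ℝ) := by
  obtain ⟨κ, hκ, hL2⟩ := L2_mertens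
  refine ⟨κ / 4, by linarith, fun m => ?_⟩
  obtain ⟨z0, hz03, hz0⟩ := l3_lim (κ / (4 * (6 + 6 * m))) (by positivity)
  refine ⟨z0, fun z hz Q M M' r A B hQ hr hM hM0 hM' hAB => ?_⟩
  have hz3 : 3 ≤ z := hz03.trans hz
  have hzR : (3 : ℝ) ≤ z := by exact_mod_cast hz3
  have hzpos : (0 : ℝ) < z := by linarith
  have hlog1 : 1 ≤ Real.log z := by
    have h1 : Real.log (Real.exp 1) ≤ Real.log z :=
      Real.log_le_log (Real.exp_pos 1) (by have := Real.exp_one_lt_d9; linarith)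
    rwa [Real.log_exp] at h1
  have hlogr : 0 < Real.log z ^ r := pow_pos (by linarith) r
  set P : Finset ℕ := (range (z + 1)).filter fun p => p.Prime ∧ 7 ≤ p ∧ ¬ p ∣ Q with hP
  set Ω : ℕ → Finset ℕ := fun p => (range p).filter fun x => ∃ i, p ∣ A i * x + B i with hΩ
  have hPm : ∀ p ∈ P, p.Prime ∧ 7 ≤ p ∧ p ≤ z ∧ ¬ p ∣ Q := by
    intro p hp
    rw [hP, Finset.mem_filter, Finset.mem_range] at hp
    exact ⟨hp.2.1, hp.2.2.1, by omega, hp.2.2.2⟩
  have hΩr : ∀ p ∈ P, #(Ω p) ≤ r := fun p hp => l3_om p r (hPm p hp).1 A B fun i => (hAB i).2.2.1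
  have hzM : z ^ b ≤ M := le_trans (Nat.pow_le_pow_right (by omega) (by omega)) hM
  have hzM1 : z ≤ M := by
    refine le_trans ?_ hM
    calc z = z ^ 1 := (pow_one z).symm
      _ ≤ z ^ (b + 2) := Nat.pow_le_pow_right (by omega) (by omega)
  have hS1 := hb z M P Ω (by omega) hzM fun p hp => by
    obtain ⟨h1, h2, h3, h4⟩ := hPm p hp
    refine ⟨h1, h2, h3, (hΩr p hp).trans hr, fun h hh => ?_⟩
    rw [hΩ] at hh
    exact Finset.mem_range.1 (Finset.mem_filter.1 hh).1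
  have hprod : κ / Real.log z ^ r ≤ ∏ p ∈ P, (1 - (#(Ω p) : ℝ) / p) := by
    refine (hL2 z P r (by omega) hr fun p hp => ⟨(hPm p hp).1, (hPm p hp).2.1, (hPm p hp).2.2.1⟩).trans ?_
    refine Finset.prod_le_prod (fun p hp => ?_) fun p hp => ?_
    · have h7 : (7 : ℝ) ≤ p := by exact_mod_cast (hPm p hp).2.1
      have hr3 : (r : ℝ) ≤ 3 := by exact_mod_cast hr
      have : (r : ℝ) / p ≤ 1 := by
        rw [div_le_one (by linarith)]
        linarith
      linarith
    · have h7 : (7 : ℝ) ≤ p := by exact_mod_cast (hPm p hp).2.1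
      have h8 : (#(Ω p) : ℝ) ≤ r := by exact_mod_cast hΩr p hp
      have := div_le_div_of_nonneg_right h8 (by linarith : (0 : ℝ) ≤ p)
      linarith
  set S : Finset ℕ := {n ∈ range M | ∀ p ∈ P, ∀ h ∈ Ω p, n % p ≠ h} with hS
  have hSlow : (1 / 2) * M * (κ / Real.log z ^ r) ≤ (#S : ℝ) := by
    refine le_trans ?_ hS1
    exact mul_le_mul_of_nonneg_left hprod (by positivity)
  set Tg : Finset ℕ := {t ∈ range M | ∀ i,
      (∀ p : ℕ, p.Prime → ¬ p ∣ Q → p ∣ A i * t + B i → z < p) ∧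
      (∀ p : ℕ, p.Prime → z < p → ¬ p ^ 2 ∣ A i * t + B i) ∧
      (∀ p : ℕ, p.Prime → z < p → p ∣ M' → ¬ p ∣ A i * t + B i)} with hTg
  set B1 : Fin r → Finset ℕ := fun i => (range M).filter fun t =>
    ∃ p : ℕ, p.Prime ∧ z < p ∧ p ^ 2 ∣ A i * t + B i with hB1
  set B2 : Fin r → Finset ℕ := fun i => (range M).filter fun t =>
    ∃ p : ℕ, p.Prime ∧ z < p ∧ p ∣ M' ∧ p ∣ A i * t + B i with hB2
  have hcover : S ⊆ Tg ∪ (Finset.univ : Finset (Fin r)).biUnion (fun i => B1 i ∪ B2 i) := by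
    intro t ht
    rw [hS, Finset.mem_filter] at ht
    by_cases hbad : ∃ i, t ∈ B1 i ∪ B2 i
    · obtain ⟨i, hi⟩ := hbad
      exact Finset.mem_union_right _ (Finset.mem_biUnion.2 ⟨i, Finset.mem_univ i, hi⟩)
    · refine Finset.mem_union_left _ ?_
      rw [hTg, Finset.mem_filter]
      refine ⟨ht.1, fun i => ⟨?_, ?_, ?_⟩⟩
      · intro p hp hpQ hd
        by_contra hlt
        push Not at hlt
        have hp7 : 7 ≤ p := by
          by_contra h7
          push Not at h7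
          have h2 := hp.two_le
          apply hpQ
          refine dvd_trans ?_ hQ
          interval_cases p
          · norm_num
          · norm_num
          · exact absurd hp (by norm_num)
          · norm_num
          · exact absurd hp (by norm_num)
        have hpP : p ∈ P := by
          rw [hP, Finset.mem_filter, Finset.mem_range]
          exact ⟨by omega, hp, hp7, hpQ⟩
        refine ht.2 p hpP (t % p) ?_ rfl
        rw [hΩ]
        simp only
        rw [Finset.mem_filter, Finset.mem_range]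
        refine ⟨Nat.mod_lt _ hp.pos, i, ?_⟩
        have h1 : (A i * (t % p) + B i) ≡ (A i * t + B i) [MOD p] :=
          ((Nat.mod_modEq t p).mul_left (A i)).add_right (B i)
        exact (Nat.modEq_zero_iff_dvd).1 (h1.trans ((Nat.modEq_zero_iff_dvd).2 hd))
      · intro p hp hpz hd
        exact hbad ⟨i, Finset.mem_union_left _ (Finset.mem_filter.2 ⟨ht.1, p, hp, hpz, hd⟩)⟩
      · intro p hp hpz hpM hd
        exact hbad ⟨i, Finset.mem_union_right _ (Finset.mem_filter.2 ⟨ht.1, p, hp, hpz, hpM, hd⟩)⟩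
  have hcard : (#S : ℝ) ≤ #Tg + ∑ i : Fin r, ((#(B1 i) : ℝ) + #(B2 i)) := by
    have h1 : #S ≤ #Tg + ∑ i : Fin r, (#(B1 i) + #(B2 i)) := by
      refine (Finset.card_le_card hcover).trans ((Finset.card_union_le _ _).trans ?_)
      refine Nat.add_le_add_left ?_ _
      exact Finset.card_biUnion_le.trans (Finset.sum_le_sum fun i _ => Finset.card_union_le _ _)
    exact_mod_cast h1
  have hbadi : ∀ i : Fin r, (#(B1 i) : ℝ) + #(B2 i) ≤ (2 + 2 * m) * (M / z) := by
    intro i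
    obtain ⟨hA0, hB0, hc, hsz⟩ := hAB i
    have h1 := l3_bad1 z M (A i) (B i) (by omega) hc hsz hB0 (B1 i) fun t ht => by
      rw [hB1] at ht
      simp only at ht
      rw [Finset.mem_filter, Finset.mem_range] at ht
      exact ht
    have h2 := l3_bad2 z M M' m (A i) (B i) (by omega) hzM1 hc hM0 hM' (B2 i) fun t ht => by
      rw [hB2] at ht
      simp only at ht
      rw [Finset.mem_filter, Finset.mem_range] at ht
      exact ht
    have h3 : (2 + 2 * (m : ℝ)) * (M / z) = 2 * M / z + m * (2 * M / z) := by ring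
    rw [h3]
    linarith
  have hMz : (0 : ℝ) ≤ (M : ℝ) / z := by positivity
  have hsum : ∑ i : Fin r, ((#(B1 i) : ℝ) + #(B2 i)) ≤ (6 + 6 * m) * (M / z) := by
    calc ∑ i : Fin r, ((#(B1 i) : ℝ) + #(B2 i)) ≤ ∑ _i : Fin r, (2 + 2 * (m : ℝ)) * (M / z) :=
          Finset.sum_le_sum fun i _ => hbadi i
      _ = r * ((2 + 2 * (m : ℝ)) * (M / z)) := by
          rw [Finset.sum_const, Finset.card_univ, Fintype.card_fin, nsmul_eq_mul]
      _ ≤ 3 * ((2 + 2 * (m : ℝ)) * (M / z)) := by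
          refine mul_le_mul_of_nonneg_right (by exact_mod_cast hr) (by positivity)
      _ = (6 + 6 * m) * (M / z) := by ring
  have hsmall : (6 + 6 * (m : ℝ)) * (M / z) ≤ κ / 4 * M / Real.log z ^ r := by
    have h1 := hz0 z hz
    have h2 : Real.log z ^ r ≤ Real.log z ^ 3 := pow_le_pow_right₀ hlog1 hr
    have h3 : Real.log z ^ r ≤ κ / (4 * (6 + 6 * m)) * z := h2.trans h1
    have hm0 : (0 : ℝ) < 6 + 6 * m := by positivity
    have h4 : (6 + 6 * (m : ℝ)) * Real.log z ^ r ≤ κ / 4 * z := by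
      calc (6 + 6 * (m : ℝ)) * Real.log z ^ r ≤ (6 + 6 * (m : ℝ)) * (κ / (4 * (6 + 6 * m)) * z) :=
            mul_le_mul_of_nonneg_left h3 hm0.le
        _ = κ / 4 * z := by
            field_simp
    rw [← mul_div_assoc, div_le_div_iff₀ hzpos hlogr]
    calc (6 + 6 * (m : ℝ)) * M * Real.log z ^ r = M * ((6 + 6 * (m : ℝ)) * Real.log z ^ r) := by ring
      _ ≤ M * (κ / 4 * z) := mul_le_mul_of_nonneg_left h4 (Nat.cast_nonneg _)
      _ = κ / 4 * M * z := by ring
  have hfin : (1 / 2) * (M : ℝ) * (κ / Real.log z ^ r) = κ / 4 * M / Real.log z ^ r + κ / 4 * M / Real.log z ^ r := by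
    ring
  linarith

end PA25
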