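import Pool.Agent.LibPA25.L3

/-!
ROW [PA25 L4].  Rough squarefree numbers in progressions.
PROOF.  `L3_forms` with `r = 1`, the same `Q := q`, `A 0 = q`, `B 0` = the least `n > H` with `n ≡ r0 [MOD q]` (`B 0 ≤ H + q`), `M = H / q - 1` (natural division): `q t + B 0 ≤ 2 H`
for `t < M`.  `M ≥ H/(2q) ≥ z^(b+2)` hmm: `H ≥ q^2 z^(b+3)`, so `H/q ≥ q z^(b+3) ≥ 2 z^(b+2) + 2`.  `(q M + B 0) z^2 ≤ 2 H z^2 + .. ≤ M^2` since `M^2 ≥ H^2/(4 q^2) ≥ H z^(b+3)/4 ≥ 4 H z^2`
(`z ≥ 4`, `b ≥ 1`).  `(q, B 0) = 1` (`r0` is prime to `q`).  For `t` in the good set, `n = q t + B 0`: rough: a prime `p ∣ n` does not divide `q` (otherwise `p ∣ B 0`), so `z < p`;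
squarefree: `p^2 ∣ n` gives `p ∣ n`, `z < p`, excluded; coprime to `M'`.  The map `t ↦ n` is injective into the set.
-/

set_option autoImplicit false

namespace PA25

open Finset Pasch

open Classical in
theorem L4_rough (b : ℕ) (hb1 : 1 ≤ b) (hb : LS b) : ∃ κ : ℝ, 0 < κ ∧ ∀ m : ℕ, ∃ z0 : ℕ, ∀ z : ℕ, z0 ≤ z →
    ∀ q H r0 M' : ℕ, 210 ∣ q → 0 < q → q ^ 2 * z ^ (b + 3) ≤ H → r0.Coprime q → 0 < M' → M' ≤ z ^ m →
    κ * H / (q * Real.log z) ≤ (#{n ∈ Ioc H (2 * H) | n ≡ r0 [MOD q] ∧ Rough z n ∧ Squarefree n ∧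
      n.Coprime M'} : ℝ) := by
  obtain ⟨κ₀, hκ₀, hform⟩ := L3_forms b hb1 hb
  refine ⟨κ₀ / 2, by positivity, fun m => ?_⟩
  obtain ⟨z0, hz0⟩ := hform m
  refine ⟨max z0 4, fun z hz q H r0 M' h210 hq hH hr hM' hM'z => ?_⟩
  have hz4 : 4 ≤ z := (le_max_right _ _).trans hz
  have hzz0 : z0 ≤ z := (le_max_left _ _).trans hz
  have hzp : 0 < z := by omega
  -- the parameters
  set M : ℕ := H / q - 1 with hM
  set B0 : ℕ := H + 1 + (r0 + (q - 1) * (H + 1)) % q with hB0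
  have hpow2 : 1 ≤ z ^ (b + 2) := Nat.one_le_pow _ _ hzp
  have hHq : q * (4 * z ^ (b + 2)) ≤ H := by
    calc q * (4 * z ^ (b + 2)) ≤ q * (q * z * z ^ (b + 2)) := by
          apply Nat.mul_le_mul_left
          apply Nat.mul_le_mul_right
          calc 4 = 1 * 4 := by norm_num
            _ ≤ q * z := Nat.mul_le_mul hq hz4
      _ = q ^ 2 * z ^ (b + 3) := by ring
      _ ≤ H := hH
  have hdiv : 4 * z ^ (b + 2) ≤ H / q := (Nat.le_div_iff_mul_le hq).2 (by rw [mul_comm]; exact hHq)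
  have hMz : z ^ (b + 2) ≤ M := by omega
  have hM3 : 3 ≤ M := by
    have : 4 * 1 ≤ 4 * z ^ (b + 2) := Nat.mul_le_mul_left 4 hpow2
    omega
  have hqM : q * M + q ≤ H := by
    have h1 : M + 1 = H / q := by omega
    calc q * M + q = q * (M + 1) := by ring
      _ = q * (H / q) := by rw [h1]
      _ ≤ H := Nat.mul_div_le H q
  have hH2 : H ≤ 2 * (q * M) := by
    have h1 : H / q < M + 2 := by omega
    have h2 : H < (M + 2) * q := (Nat.div_lt_iff_lt_mul hq).1 h1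
    have h3 : 2 * q ≤ q * M := by
      rw [mul_comm 2 q]
      exact Nat.mul_le_mul_left q (by omega)
    have h4 : (M + 2) * q = q * M + 2 * q := by ring
    omega
  have hBle : B0 ≤ H + q := by
    have := Nat.mod_lt (r0 + (q - 1) * (H + 1)) hq
    omega
  have hBgt : H < B0 := by omega
  have hBmod : B0 ≡ r0 [MOD q] := by
    have h1 : H + 1 + (r0 + (q - 1) * (H + 1)) % q ≡ H + 1 + (r0 + (q - 1) * (H + 1)) [MOD q] :=
      (Nat.ModEq.refl (H + 1)).add (Nat.mod_modEq _ _)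
    have h2 : H + 1 + (r0 + (q - 1) * (H + 1)) = r0 + q * (H + 1) := by
      obtain ⟨q', rfl⟩ : ∃ q', q = q' + 1 := ⟨q - 1, by omega⟩
      rw [Nat.add_sub_cancel]
      ring
    rw [h2] at h1
    refine h1.trans ?_
    have h3 : r0 + q * (H + 1) ≡ r0 + 0 [MOD q] :=
      (Nat.ModEq.refl r0).add ((Nat.modEq_zero_iff_dvd).2 (Dvd.intro _ rfl))
    simpa using h3
  have hcop : q.Coprime B0 := by
    have h1 := hBmod.gcd_eq
    have h2 : Nat.gcd r0 q = 1 := hr
    rw [Nat.coprime_comm]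
    unfold Nat.Coprime
    rw [h1, h2]
  have hsq : (q * M + B0) * z ^ 2 ≤ M ^ 2 := by
    have h1 : q * M + B0 ≤ 2 * H := by omega
    have h2 : z ^ 4 ≤ z ^ (b + 3) := Nat.pow_le_pow_right hzp (by omega)
    have h3 : 16 * z ^ 2 ≤ z ^ 4 := by
      have : 16 ≤ z ^ 2 := by
        calc 16 = 4 ^ 2 := by norm_num
          _ ≤ z ^ 2 := Nat.pow_le_pow_left hz4 2
      calc 16 * z ^ 2 ≤ z ^ 2 * z ^ 2 := Nat.mul_le_mul_right _ this
        _ = z ^ 4 := by ring
    have h4 : q ^ 2 * (H * (16 * z ^ 2)) ≤ q ^ 2 * (4 * M ^ 2) := by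
      calc q ^ 2 * (H * (16 * z ^ 2)) ≤ q ^ 2 * (H * z ^ (b + 3)) := by
            apply Nat.mul_le_mul_left
            apply Nat.mul_le_mul_left
            exact h3.trans h2
        _ = H * (q ^ 2 * z ^ (b + 3)) := by ring
        _ ≤ H * H := Nat.mul_le_mul_left H hH
        _ ≤ (2 * (q * M)) * (2 * (q * M)) := Nat.mul_le_mul hH2 hH2
        _ = q ^ 2 * (4 * M ^ 2) := by ring
    have h5 : H * (16 * z ^ 2) ≤ 4 * M ^ 2 := Nat.le_of_mul_le_mul_left h4 (by positivity)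
    have h6 : (q * M + B0) * z ^ 2 ≤ 2 * H * z ^ 2 := Nat.mul_le_mul_right _ h1
    have h7 : H * (16 * z ^ 2) = 16 * (H * z ^ 2) := by ring
    have h8 : 2 * H * z ^ 2 = 2 * (H * z ^ 2) := by ring
    omega
  have hmain := hz0 z hzz0 q M M' 1 (fun _ => q) (fun _ => B0) h210 (by norm_num) hMz hM' hM'z
    (fun _ => ⟨hq, by omega, hcop, hsq⟩)
  -- the map
  have hcard : #{t ∈ range M | ∀ i : Fin 1,
      (∀ p : ℕ, p.Prime → ¬ p ∣ q → p ∣ (fun _ => q) i * t + (fun _ => B0) i → z < p) ∧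
      (∀ p : ℕ, p.Prime → z < p → ¬ p ^ 2 ∣ (fun _ => q) i * t + (fun _ => B0) i) ∧
      (∀ p : ℕ, p.Prime → z < p → p ∣ M' → ¬ p ∣ (fun _ => q) i * t + (fun _ => B0) i)} ≤
      #{n ∈ Ioc H (2 * H) | n ≡ r0 [MOD q] ∧ Rough z n ∧ Squarefree n ∧ n.Coprime M'} := by
    apply Finset.card_le_card_of_injOn (fun t => q * t + B0)
    · intro t ht
      rw [Finset.mem_coe, Finset.mem_filter, Finset.mem_range] at ht
      obtain ⟨htM, hti⟩ := ht
      obtain ⟨g1, g2, g3⟩ := hti 0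
      simp only at g1 g2 g3
      have hrough : ∀ p : ℕ, p.Prime → p ∣ q * t + B0 → z < p := by
        intro p hp hpd
        apply g1 p hp _ hpd
        intro hpq
        have h1 : p ∣ B0 := (Nat.dvd_add_right (Dvd.dvd.mul_right hpq t)).1 hpd
        have h2 : p ∣ 1 := by
          rw [← hcop]
          exact Nat.dvd_gcd hpq h1
        exact hp.one_lt.ne' (Nat.dvd_one.1 h2)
      rw [Finset.mem_coe, Finset.mem_filter, Finset.mem_Ioc]
      beta_reduce
      refine ⟨⟨by omega, ?_⟩, ?_, hrough, ?_, ?_⟩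
      · have h1 : q * t + q ≤ q * M := by
          calc q * t + q = q * (t + 1) := by ring
            _ ≤ q * M := Nat.mul_le_mul_left q (by omega)
        omega
      · have h3 : q * t + B0 ≡ 0 + r0 [MOD q] :=
          ((Nat.modEq_zero_iff_dvd).2 (Dvd.intro _ rfl)).add hBmod
        simpa using h3
      · rw [Nat.squarefree_iff_prime_squarefree]
        intro p hp hpp
        have h1 : p ∣ q * t + B0 := (Dvd.intro _ rfl).trans hpp
        exact g2 p hp (hrough p hp h1) (by rw [pow_two]; exact hpp)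
      · by_contra hne
        obtain ⟨p, hp, hpd⟩ := Nat.exists_prime_and_dvd hne
        have h1 : p ∣ q * t + B0 := hpd.trans (Nat.gcd_dvd_left _ _)
        have h2 : p ∣ M' := hpd.trans (Nat.gcd_dvd_right _ _)
        exact g3 p hp (hrough p hp h1) h2 h1
    · intro t _ t' _ h
      simp only at h
      have h1 : q * t = q * t' := by omega
      exact Nat.eq_of_mul_eq_mul_left hq h1
  have hlog : 0 < Real.log z := Real.log_pos (by
    have : (4 : ℝ) ≤ z := by exact_mod_cast hz4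
    linarith)
  have hqR : (0 : ℝ) < q := by exact_mod_cast hq
  have hHR : (H : ℝ) ≤ 2 * (q * M) := by exact_mod_cast hH2
  refine le_trans ?_ (hmain.trans (by exact_mod_cast hcard))
  rw [pow_one, div_le_div_iff₀ (by positivity) hlog]
  have h1 : κ₀ / 2 * H ≤ κ₀ * M * q := by
    have := mul_le_mul_of_nonneg_left hHR hκ₀.le
    linarith
  calc κ₀ / 2 * H * Real.log z ≤ κ₀ * M * q * Real.log z := mul_le_mul_of_nonneg_right h1 hlog.le
    _ = κ₀ * M * (q * Real.log z) := by ring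

end PA25
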