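import Pool.Agent.LibPA25.Defs
import Pool.Agent.LibPNT.PNT

/-!
ROW [PA25 Q1].  The sum over the primes `q`.
PROOF.  `j q ≡ κ [MOD Q]` is a class `r mod Q`, prime to `Q` (finitely many classes: one `T0` for all).  Prime number theorem in progressions `LibPNT.thetaAP_tendsto` (see LibThinT/I03.lean):
`#{x < q ≤ 2x, q ≡ r}`: `θ(2x) - θ(x) ≥ x/(2 φ(Q))` for `x ≥ x0`, so `∑_{x < q ≤ 2x, q ≡ r} 1/q ≥ (1/2x) * x/(2 φ(Q) log (2x))`.  Sum over the dyadic blocks `x = 2^i`,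
`T^g ≤ 2^i`, `2^(i+1) ≤ T^(g+1)`: at least `log T/log 2 - 3 ≥ log T/ 2` blocks (`T` large), each `≥ 1/(4 φ(Q) (g+1) log T)`.
-/

set_option autoImplicit false

namespace PA25

open Finset Pasch

open Filter Topology in
private lemma q1_block {Q : ℕ} [NeZero Q] (a : (ZMod Q)ˣ) :
    ∃ x0 : ℕ, ∀ x : ℕ, x0 ≤ x → (x : ℝ) / (2 * Q.totient) ≤
      ∑ p ∈ Ioc x (2 * x), if p.Prime ∧ (p : ZMod Q) = (a : ZMod Q) then Real.log p else 0 := by
  classical
  have hφ : (0 : ℝ) < (Q.totient : ℝ) := by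
    exact_mod_cast Nat.totient_pos.mpr (Nat.pos_of_ne_zero (NeZero.ne Q))
  have hT := Pool.Agent.LibPNT.thetaAP_tendsto a.isUnit
  have h1 : (7 / 8 : ℝ) * (Q.totient : ℝ)⁻¹ < (Q.totient : ℝ)⁻¹ := by
    have := inv_pos.mpr hφ
    linarith
  have h2 : (Q.totient : ℝ)⁻¹ < (9 / 8 : ℝ) * (Q.totient : ℝ)⁻¹ := by
    have := inv_pos.mpr hφ
    linarith
  have hE := (hT.eventually (lt_mem_nhds h1)).and (hT.eventually (gt_mem_nhds h2))
  obtain ⟨y0, hy0⟩ := Filter.eventually_atTop.mp hE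
  refine ⟨max 1 ⌈y0⌉₊, fun x hx => ?_⟩
  have hx1 : 1 ≤ x := le_trans (le_max_left _ _) hx
  have hxy : y0 ≤ (x : ℝ) := by
    have h3 : ⌈y0⌉₊ ≤ x := le_trans (le_max_right _ _) hx
    exact le_trans (Nat.le_ceil y0) (by exact_mod_cast h3)
  have hx0 : (0 : ℝ) < x := by exact_mod_cast hx1
  have hA := (hy0 (x : ℝ) hxy).2
  have hB := (hy0 ((2 * x : ℕ) : ℝ) (by push_cast; linarith)).1
  have h2x0 : (0 : ℝ) < ((2 * x : ℕ) : ℝ) := by push_cast; linarith
  rw [div_lt_iff₀ hx0] at hA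
  rw [lt_div_iff₀ h2x0] at hB
  have key : Pool.Agent.LibPNT.thetaAP (a : ZMod Q) ((2 * x : ℕ) : ℝ) =
      Pool.Agent.LibPNT.thetaAP (a : ZMod Q) (x : ℝ) +
      ∑ p ∈ Ioc x (2 * x), if p.Prime ∧ (p : ZMod Q) = (a : ZMod Q) then Real.log p else 0 := by
    unfold Pool.Agent.LibPNT.thetaAP
    rw [Nat.floor_natCast, Nat.floor_natCast, Finset.sum_filter, Finset.sum_filter]
    have e1 : Finset.Icc 1 (2 * x) = Finset.Ioc 0 (2 * x) := by
      ext t; simp only [mem_Icc, mem_Ioc]; omega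
    have e2 : Finset.Icc 1 x = Finset.Ioc 0 x := by
      ext t; simp only [mem_Icc, mem_Ioc]; omega
    rw [e1, e2]
    exact (Finset.sum_Ioc_consecutive _ (Nat.zero_le x) (by omega)).symm
  rw [key] at hB
  have h5 : (x : ℝ) / (2 * Q.totient) = 1 / 2 * (Q.totient : ℝ)⁻¹ * x := by
    field_simp
  rw [h5]
  push_cast at hB
  have h6 : 0 < (Q.totient : ℝ)⁻¹ * x := mul_pos (inv_pos.mpr hφ) hx0
  nlinarith

private lemma q1_block2 {Q : ℕ} [NeZero Q] (a : (ZMod Q)ˣ) :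
    ∃ x0 : ℕ, ∀ x : ℕ, x0 ≤ x → 1 / (4 * (Q.totient : ℝ) * Real.log ((2 * x : ℕ) : ℝ)) ≤
      ∑ p ∈ Ioc x (2 * x), if p.Prime ∧ (p : ZMod Q) = (a : ZMod Q) then 1 / (p : ℝ) else 0 := by
  classical
  obtain ⟨x0, hx0⟩ := q1_block a
  have hφ : (0 : ℝ) < (Q.totient : ℝ) := by
    exact_mod_cast Nat.totient_pos.mpr (Nat.pos_of_ne_zero (NeZero.ne Q))
  refine ⟨max 1 x0, fun x hx => ?_⟩
  have hx1 : 1 ≤ x := le_trans (le_max_left _ _) hx
  have h1 := hx0 x (le_trans (le_max_right _ _) hx)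
  have hxp : (0 : ℝ) < x := by exact_mod_cast hx1
  have h2x : (1 : ℝ) < ((2 * x : ℕ) : ℝ) := by exact_mod_cast (by omega : 1 < 2 * x)
  have hlog : 0 < Real.log ((2 * x : ℕ) : ℝ) := Real.log_pos h2x
  have h2x0 : (0 : ℝ) < ((2 * x : ℕ) : ℝ) := by linarith
  have h3 : ∑ p ∈ Ioc x (2 * x), (if p.Prime ∧ (p : ZMod Q) = (a : ZMod Q) then Real.log p else 0) ≤
      (((2 * x : ℕ) : ℝ) * Real.log ((2 * x : ℕ) : ℝ)) *
      ∑ p ∈ Ioc x (2 * x), if p.Prime ∧ (p : ZMod Q) = (a : ZMod Q) then 1 / (p : ℝ) else 0 := by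
    rw [Finset.mul_sum]
    refine Finset.sum_le_sum (fun p hp => ?_)
    rw [mem_Ioc] at hp
    split_ifs with h
    · have hp0 : (0 : ℝ) < p := by exact_mod_cast h.1.pos
      have hp2 : (p : ℝ) ≤ ((2 * x : ℕ) : ℝ) := by exact_mod_cast hp.2
      have hl : Real.log p ≤ Real.log ((2 * x : ℕ) : ℝ) := Real.log_le_log hp0 hp2
      rw [mul_one_div, le_div_iff₀ hp0]
      have hlp : 0 ≤ Real.log p := Real.log_nonneg (by exact_mod_cast h.1.one_lt.le)
      calc Real.log p * p ≤ Real.log ((2 * x : ℕ) : ℝ) * ((2 * x : ℕ) : ℝ) := by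
            exact mul_le_mul hl hp2 hp0.le hlog.le
        _ = _ := by ring
    · simp
  have h4 := h1.trans h3
  have h5 : (0 : ℝ) < ((2 * x : ℕ) : ℝ) * Real.log ((2 * x : ℕ) : ℝ) := mul_pos h2x0 hlog
  rw [← div_le_iff₀' h5] at h4
  refine le_trans (le_of_eq ?_) h4
  push_cast
  have hl' : Real.log (2 * (x : ℝ)) ≠ 0 := by
    have := hlog.ne'
    push_cast at this
    exact this
  field_simp
  ring

theorem Q1_sum (g : ℕ) (hg : 1 ≤ g) {Q κ : ℕ} (hQ0 : 0 < Q) (hκ : κ.Coprime Q) :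
    ∃ κ₅ : ℝ, 0 < κ₅ ∧ ∃ T0 : ℕ, ∀ T : ℕ, T0 ≤ T → ∀ j : ℕ, 1 ≤ j → j.Coprime Q →
      κ₅ ≤ ∑ q ∈ qS Q T g κ j, 1 / (q : ℝ) := by
  classical
  have : NeZero Q := ⟨hQ0.ne'⟩
  have hφ : (0 : ℝ) < (Q.totient : ℝ) := by exact_mod_cast Nat.totient_pos.mpr hQ0
  choose x0 hx0 using fun a : (ZMod Q)ˣ => q1_block2 (Q := Q) a
  refine ⟨1 / (8 * Q.totient * (g + 1)), by positivity, max 8 (∑ a, x0 a), fun T hT j _ hj => ?_⟩
  have hT8 : 8 ≤ T := le_trans (le_max_left _ _) hT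
  have hTx : ∀ a, x0 a ≤ T := fun a =>
    (Finset.single_le_sum (f := x0) (fun _ _ => Nat.zero_le _) (mem_univ a)).trans
      (le_trans (le_max_right _ _) hT)
  set a : (ZMod Q)ˣ := (ZMod.unitOfCoprime j hj)⁻¹ * ZMod.unitOfCoprime κ hκ with ha
  have haj : (j : ZMod Q) * (a : ZMod Q) = (κ : ZMod Q) := by
    have h1 : ZMod.unitOfCoprime j hj * a = ZMod.unitOfCoprime κ hκ := by
      rw [ha, mul_inv_cancel_left]
    have h2 := congrArg (fun u : (ZMod Q)ˣ => (u : ZMod Q)) h1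
    simpa [ZMod.coe_unitOfCoprime] using h2
  set f : ℕ → ℝ := fun p => if p.Prime ∧ (p : ZMod Q) = (a : ZMod Q) then 1 / (p : ℝ) else 0 with hf
  have hf0 : ∀ p, 0 ≤ f p := by
    intro p
    simp only [hf]
    split_ifs
    · positivity
    · exact le_rfl
  have hTr : (8 : ℝ) ≤ (T : ℝ) := by exact_mod_cast hT8
  have hT0 : (0 : ℝ) < (T : ℝ) := by linarith
  have hlT : 2 ≤ Real.log T := by
    have h1 : Real.log 8 ≤ Real.log T := Real.log_le_log (by norm_num) hTr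
    have h2 : Real.log 8 = 3 * Real.log 2 := by
      rw [show (8 : ℝ) = 2 ^ 3 by norm_num, Real.log_pow]; norm_num
    have := Real.log_two_gt_d9
    linarith
  set B : ℝ := 1 / (4 * (Q.totient : ℝ) * ((g + 1) * Real.log T)) with hB
  have hTg : T ≤ T ^ g := Nat.le_self_pow (by omega) T
  have hTgp : 0 < T ^ g := pow_pos (by omega) g
  have hblock : ∀ i : ℕ, T ^ g * 2 ^ (i + 1) ≤ T ^ (g + 1) →
      B ≤ ∑ p ∈ Ioc (T ^ g * 2 ^ i) (T ^ g * 2 ^ (i + 1)), f p := by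
    intro i hi
    have h2i : 1 ≤ 2 ^ i := Nat.one_le_two_pow
    have hge : x0 a ≤ T ^ g * 2 ^ i := by
      have := hTx a
      nlinarith
    have h1 := hx0 a _ hge
    have e1 : 2 * (T ^ g * 2 ^ i) = T ^ g * 2 ^ (i + 1) := by ring
    rw [e1] at h1
    refine le_trans ?_ h1
    rw [hB]
    have hbig : (1 : ℝ) < ((T ^ g * 2 ^ (i + 1) : ℕ) : ℝ) := by
      have : 1 < T ^ g * 2 ^ (i + 1) := by
        have : 2 ≤ 2 ^ (i + 1) := by
          calc 2 = 2 ^ 1 := by norm_num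
            _ ≤ 2 ^ (i + 1) := Nat.pow_le_pow_right (by norm_num) (by omega)
        nlinarith
      exact_mod_cast this
    have hlog : 0 < Real.log ((T ^ g * 2 ^ (i + 1) : ℕ) : ℝ) := Real.log_pos hbig
    have hle : Real.log ((T ^ g * 2 ^ (i + 1) : ℕ) : ℝ) ≤ (g + 1) * Real.log T := by
      have h2 : ((T ^ g * 2 ^ (i + 1) : ℕ) : ℝ) ≤ (T : ℝ) ^ (g + 1) := by exact_mod_cast hi
      have h3 := Real.log_le_log (by linarith) h2
      rw [Real.log_pow] at h3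
      push_cast at h3 ⊢
      exact h3
    apply one_div_le_one_div_of_le
    · positivity
    · exact mul_le_mul_of_nonneg_left hle (by positivity)
  set L : ℕ := Nat.log 2 T with hL
  have h2L : 2 ^ L ≤ T := Nat.pow_log_le_self 2 (by omega)
  have hind : ∀ n : ℕ, n ≤ L → (n : ℝ) * B ≤ ∑ p ∈ Ioc (T ^ g) (T ^ g * 2 ^ n), f p := by
    intro n
    induction n with
    | zero => intro _; simp
    | succ n ih =>
      intro hn
      have h1 := ih (by omega)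
      have h2 := hblock n (by
        rw [pow_succ T g]
        exact Nat.mul_le_mul_left _ (le_trans (Nat.pow_le_pow_right (by norm_num) hn) h2L))
      have h3 : T ^ g ≤ T ^ g * 2 ^ n := Nat.le_mul_of_pos_right _ (by positivity)
      have h4 : T ^ g * 2 ^ n ≤ T ^ g * 2 ^ (n + 1) :=
        Nat.mul_le_mul_left _ (Nat.pow_le_pow_right (by norm_num) (by omega))
      rw [← Finset.sum_Ioc_consecutive f h3 h4]
      push_cast
      linarith
  have hmain := hind L le_rfl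
  have hsub : ∑ p ∈ Ioc (T ^ g) (T ^ g * 2 ^ L), f p ≤ ∑ q ∈ qS Q T g κ j, 1 / (q : ℝ) := by
    simp only [hf]
    rw [← Finset.sum_filter]
    refine Finset.sum_le_sum_of_subset_of_nonneg ?_ (fun _ _ _ => by positivity)
    intro p hp
    rw [mem_filter, mem_Ioc] at hp
    rw [mem_qS]
    refine ⟨⟨hp.1.1.le, hp.1.2.trans ?_⟩, hp.2.1, ?_⟩
    · rw [pow_succ T g]
      exact Nat.mul_le_mul_left _ h2L
    · rw [← ZMod.natCast_eq_natCast_iff]
      push_cast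
      rw [hp.2.2, haj]
  refine le_trans ?_ (hmain.trans hsub)
  have hLlow : Real.log T / 2 ≤ (L : ℝ) := by
    have h1 : T < 2 ^ (L + 1) := Nat.lt_pow_succ_log_self (by norm_num) T
    have h2 : (T : ℝ) ≤ (2 : ℝ) ^ (L + 1) := by exact_mod_cast h1.le
    have h3 := Real.log_le_log hT0 h2
    rw [Real.log_pow] at h3
    push_cast at h3
    have h4 := Real.log_two_lt_d9
    have h5 : 0 ≤ (L : ℝ) := Nat.cast_nonneg _
    nlinarith
  calc (1 : ℝ) / (8 * Q.totient * (g + 1)) = (Real.log T / 2) * B := by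
        rw [hB]
        have : Real.log T ≠ 0 := by linarith
        field_simp
        ring
    _ ≤ (L : ℝ) * B := mul_le_mul_of_nonneg_right hLlow (by rw [hB]; positivity)

end PA25
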