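import Pool.Agent.LibPA25.Defs

/-!
ROW [PA25 S1].  `∑_{n ≤ y, n squarefree, (n, Q) = 1} 1/n ≥ κ log y`.  ONLY MATHLIB.
PROOF.  `m = g n b²` with `g ∣ Q`, `n` squarefree prime to `Q`. So
`log y ≤ ∑_{m ≤ y} 1/m ≤ (∑_{g ∣ Q} 1/g) (∑_{b ≤ y} 1/b²) (∑_n 1/n)`.
-/

set_option autoImplicit false

namespace PA25

open Finset Pasch

private lemma s1_dec (Q : ℕ) (hQ0 : 0 < Q) (m : ℕ) (hm : 1 ≤ m) :
    ∃ x : ℕ × ℕ × ℕ, x.1 ∣ Q ∧ 1 ≤ x.2.1 ∧ Squarefree x.2.2 ∧ x.2.2.Coprime Q ∧ m = x.1 * (x.2.1 ^ 2 * x.2.2) := by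
  obtain ⟨a, b, hab, ha⟩ := Nat.sq_mul_squarefree m
  have hb0 : b ≠ 0 := by rintro rfl; simp at hab; omega
  have ha0 : a ≠ 0 := ha.ne_zero
  obtain ⟨n, hn⟩ := Nat.gcd_dvd_left a Q
  refine ⟨(a.gcd Q, b, n), Nat.gcd_dvd_right a Q, Nat.pos_of_ne_zero hb0, ?_, ?_, ?_⟩
  · exact Squarefree.squarefree_of_dvd ⟨a.gcd Q, by rw [mul_comm]; exact hn⟩ ha
  · rw [Nat.coprime_iff_gcd_eq_one]
    by_contra hne
    obtain ⟨p, hp, hpd⟩ := Nat.exists_prime_and_dvd hne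
    have hpn : p ∣ n := hpd.trans (Nat.gcd_dvd_left _ _)
    have hpQ : p ∣ Q := hpd.trans (Nat.gcd_dvd_right _ _)
    have hpa : p ∣ a := hn ▸ (hpn.mul_left _)
    have hpg : p ∣ a.gcd Q := Nat.dvd_gcd hpa hpQ
    have : p * p ∣ a := by
      have h := mul_dvd_mul hpg hpn
      rwa [← hn] at h
    exact hp.one_lt.ne' (Nat.isUnit_iff.1 (ha p this))
  · show m = a.gcd Q * (b ^ 2 * n)
    rw [← hab]
    calc b ^ 2 * a = b ^ 2 * (a.gcd Q * n) := by rw [← hn]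
      _ = _ := by ring

private lemma s1_sq (y : ℕ) (hy : 1 ≤ y) : ∑ b ∈ Icc 1 y, 1 / (b : ℝ) ^ 2 ≤ 2 - 1 / (y : ℝ) := by
  induction y, hy using Nat.le_induction with
  | base => norm_num
  | succ y hy ih =>
    rw [Finset.sum_Icc_succ_top (by omega)]
    have hy' : (0 : ℝ) < y := by exact_mod_cast hy
    push_cast
    have h : 1 / ((y : ℝ) + 1) ^ 2 ≤ 1 / (y : ℝ) - 1 / ((y : ℝ) + 1) := by
      rw [div_sub_div _ _ hy'.ne' (by positivity), div_le_div_iff₀ (by positivity) (by positivity)]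
      nlinarith
    linarith

open Classical in
theorem S1_log (Q : ℕ) (hQ0 : 0 < Q) : ∃ κ : ℝ, 0 < κ ∧ ∀ y : ℕ, 2 ≤ y →
    κ * Real.log y ≤ ∑ n ∈ (Icc 1 y).filter (fun n => Squarefree n ∧ n.Coprime Q), 1 / (n : ℝ) := by
  have hτ : (0 : ℝ) < (Q.divisors.card : ℝ) := by
    exact_mod_cast Finset.card_pos.2 ⟨1, Nat.one_mem_divisors.2 hQ0.ne'⟩
  refine ⟨1 / (2 * (Q.divisors.card : ℝ)), by positivity, fun y hy => ?_⟩
  choose! φ h1 h2 h3 h4 h5 using s1_dec Q hQ0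
  set S := (Icc 1 y).filter (fun n => Squarefree n ∧ n.Coprime Q) with hS
  set P : Finset (ℕ × ℕ × ℕ) := Q.divisors ×ˢ (Icc 1 y ×ˢ S) with hP
  have hlog : Real.log y ≤ ∑ m ∈ Icc 1 y, 1 / (m : ℝ) := by
    have h := log_add_one_le_harmonic y
    rw [harmonic_eq_sum_Icc] at h
    push_cast at h
    have hmono : Real.log y ≤ Real.log ((y : ℝ) + 1) :=
      Real.log_le_log (by exact_mod_cast (by omega : 0 < y)) (by linarith)
    refine hmono.trans (h.trans (le_of_eq ?_))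
    exact Finset.sum_congr rfl fun i _ => by rw [one_div]
  have hφ : ∀ m ∈ Icc 1 y, φ m ∈ P := by
    intro m hm
    rw [mem_Icc] at hm
    have e := h5 m hm.1
    have hb := h2 m hm.1
    have hg : 1 ≤ (φ m).1 := Nat.pos_of_dvd_of_pos (h1 m hm.1) hQ0
    have hn : 1 ≤ (φ m).2.2 := Nat.pos_of_ne_zero (h3 m hm.1).ne_zero
    have hb2 : (φ m).2.1 ≤ (φ m).2.1 ^ 2 := Nat.le_self_pow (by norm_num) _
    have l1 : (φ m).2.1 ^ 2 * (φ m).2.2 ≤ m := by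
      conv_rhs => rw [e]
      exact Nat.le_mul_of_pos_left _ hg
    have l2 : (φ m).2.1 ^ 2 ≤ (φ m).2.1 ^ 2 * (φ m).2.2 := Nat.le_mul_of_pos_right _ hn
    have l3 : (φ m).2.2 ≤ (φ m).2.1 ^ 2 * (φ m).2.2 := Nat.le_mul_of_pos_left _ (by positivity)
    rw [hP, mem_product, mem_product, hS, mem_filter, mem_Icc, mem_Icc, Nat.mem_divisors]
    exact ⟨⟨h1 m hm.1, hQ0.ne'⟩, ⟨hb, by omega⟩, ⟨hn, by omega⟩, h3 m hm.1, h4 m hm.1⟩
  have hinj : Set.InjOn φ (Icc 1 y : Finset ℕ) := by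
    intro m hm m' hm' he
    rw [coe_Icc, Set.mem_Icc] at hm hm'
    rw [h5 m hm.1, h5 m' hm'.1, he]
  have hsum : ∑ m ∈ Icc 1 y, 1 / (m : ℝ) ≤
      ∑ x ∈ P, 1 / (x.1 : ℝ) * (1 / (x.2.1 : ℝ) ^ 2 * (1 / (x.2.2 : ℝ))) := by
    calc ∑ m ∈ Icc 1 y, 1 / (m : ℝ)
        = ∑ m ∈ Icc 1 y, 1 / ((φ m).1 : ℝ) * (1 / ((φ m).2.1 : ℝ) ^ 2 * (1 / ((φ m).2.2 : ℝ))) := by
          refine Finset.sum_congr rfl fun m hm => ?_
          rw [mem_Icc] at hm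
          have e : (m : ℝ) = ((φ m).1 : ℝ) * (((φ m).2.1 : ℝ) ^ 2 * (φ m).2.2) := by exact_mod_cast h5 m hm.1
          conv_lhs => rw [e]
          rw [one_div_mul_one_div, one_div_mul_one_div]
      _ = ∑ x ∈ (Icc 1 y).image φ, 1 / (x.1 : ℝ) * (1 / (x.2.1 : ℝ) ^ 2 * (1 / (x.2.2 : ℝ))) := by
          rw [Finset.sum_image hinj]
      _ ≤ _ := by
          refine Finset.sum_le_sum_of_subset_of_nonneg ?_ fun x _ _ => by positivity
          intro x hx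
          rw [mem_image] at hx
          obtain ⟨m, hm, rfl⟩ := hx
          exact hφ m hm
  have hprod : ∑ x ∈ P, 1 / (x.1 : ℝ) * (1 / (x.2.1 : ℝ) ^ 2 * (1 / (x.2.2 : ℝ))) =
      (∑ g ∈ Q.divisors, 1 / (g : ℝ)) * ((∑ b ∈ Icc 1 y, 1 / (b : ℝ) ^ 2) * ∑ n ∈ S, 1 / (n : ℝ)) := by
    rw [hP, Finset.sum_product, Finset.sum_mul_sum, Finset.sum_mul_sum]
    refine Finset.sum_congr rfl fun g _ => ?_
    rw [Finset.sum_product]
    refine Finset.sum_congr rfl fun b _ => ?_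
    rw [Finset.mul_sum]
  have hg : ∑ g ∈ Q.divisors, 1 / (g : ℝ) ≤ Q.divisors.card := by
    calc ∑ g ∈ Q.divisors, 1 / (g : ℝ) ≤ ∑ g ∈ Q.divisors, (1 : ℝ) := by
          refine Finset.sum_le_sum fun g hg => ?_
          have : (1 : ℝ) ≤ g := by exact_mod_cast Nat.pos_of_mem_divisors hg
          rw [div_le_one (by linarith)]
          exact this
      _ = _ := by simp
  have hb : ∑ b ∈ Icc 1 y, 1 / (b : ℝ) ^ 2 ≤ 2 := by
    have := s1_sq y (by omega)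
    have h0 : (0 : ℝ) ≤ 1 / (y : ℝ) := by positivity
    linarith
  have hS0 : 0 ≤ ∑ n ∈ S, 1 / (n : ℝ) := Finset.sum_nonneg fun _ _ => by positivity
  have hfin : Real.log y ≤ (Q.divisors.card : ℝ) * (2 * ∑ n ∈ S, 1 / (n : ℝ)) := by
    refine hlog.trans (hsum.trans ?_)
    rw [hprod]
    gcongr
  rw [div_mul_eq_mul_div, one_mul, div_le_iff₀ (by positivity)]
  linarith

end PA25
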