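import Pool.Agent.LibPA25.S1

/-!
ROW [PA25 S2].  `∑_{n ≤ y, squarefree, (n, Q) = 1} 4^ω(n)/n ≥ κ (log y)^4`.
PROOF.  `x = ⌊y^(1/4)⌋` (`y ≥ 16`; below adjust `κ`: the sum is `≥ 1`).  `(∑_{n ≤ x} 1/n)^4` (squarefree, prime to `Q`; `S1_log`) is the sum over quadruples `(n₁, .., n₄)`.  Write
`n_i = m_i g_i`, `g_i` = product of the primes of `n_i` that divide another `n_j`; `m₁, .., m₄` are pairwise coprime, `n = m₁ m₂ m₃ m₄ ≤ y` is squarefree and prime to `Q`, a given `n` comes from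
`4^ω(n)` quadruples `(m_i)`, and for the set `G` of shared primes `∏ g_i ≥ (∏_{p ∈ G} p)²`, at most `16^#G` patterns.  So `(∑ 1/n)^4 ≤ (∑ 4^ω(n)/n) * ∑_G 16^#G/(∏ G)²`
and the last sum is `∏_p (1 + 16/p²) ≤ exp (16 * 2)`.  (Simpler organisation: two steps, `(∑ u(n)/n)(∑ v(n)/n) ≤ (∑ (u*v)(n)/n) ∑_g u(g) v(g)/g²` for the multiplicative functions
`u = 1, v = 1` and then `u = v = 2^ω`, where `n₁ = g a`, `n₂ = g b`, `g = gcd`.)
-/

set_option autoImplicit false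

namespace PA25

open Finset Pasch


open Classical in
/-- the squarefree numbers up to `x` prime to `Q` -/
private noncomputable def s2_Q (Q x : ℕ) : Finset ℕ :=
  (Icc 1 x).filter (fun n => Squarefree n ∧ n.Coprime Q)

private theorem s2_mem {Q x n : ℕ} : n ∈ s2_Q Q x ↔ (1 ≤ n ∧ n ≤ x) ∧ Squarefree n ∧ n.Coprime Q := by
  classical
  unfold s2_Q
  rw [mem_filter, mem_Icc]

/-- the sums `∑ K^ω(n)/n` -/
private noncomputable def s2_S (Q : ℕ) (K : ℝ) (x : ℕ) : ℝ := ∑ n ∈ s2_Q Q x, K ^ nu n / n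

private theorem s2_nu_mul {m n : ℕ} (h : m.Coprime n) : nu (m * n) = nu m + nu n := by
  unfold nu
  rw [Nat.Coprime.primeFactors_mul h, card_union_of_disjoint h.disjoint_primeFactors]

private theorem s2_card {n : ℕ} (hn : Squarefree n) : (n.divisors.card : ℝ) = 2 ^ nu n := by
  have h0 : n ≠ 0 := hn.ne_zero
  rw [Nat.card_divisors h0]
  have : ∀ p ∈ n.primeFactors, n.factorization p + 1 = 2 := by
    intro p hp
    rw [Nat.factorization_eq_one_of_squarefree hn (Nat.prime_of_mem_primeFactors hp)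
      (Nat.dvd_of_mem_primeFactors hp)]
  rw [prod_congr rfl this, prod_const]
  unfold nu
  push_cast
  rfl

/-- the sum over the common factors -/
private theorem s2_gsum (Q x : ℕ) (K : ℝ) (hK : 0 ≤ K) :
    ∑ g ∈ s2_Q Q x, K ^ (2 * nu g) / (g : ℝ) ^ 2 ≤ Real.exp (2 * K ^ 2) := by
  classical
  set P : Finset ℕ := (Icc 1 x).filter Nat.Prime with hP
  have hinj : Set.InjOn Nat.primeFactors (s2_Q Q x : Set ℕ) := by
    intro a ha b hb hab
    have ha' := (s2_mem.1 (Finset.mem_coe.1 ha)).2.1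
    have hb' := (s2_mem.1 (Finset.mem_coe.1 hb)).2.1
    rw [← Nat.prod_primeFactors_of_squarefree ha', ← Nat.prod_primeFactors_of_squarefree hb', hab]
  have h1 : ∑ g ∈ s2_Q Q x, K ^ (2 * nu g) / (g : ℝ) ^ 2 =
      ∑ s ∈ (s2_Q Q x).image Nat.primeFactors, ∏ p ∈ s, (K ^ 2 / (p : ℝ) ^ 2) := by
    rw [sum_image hinj]
    refine sum_congr rfl fun g hg => ?_
    have hg' := (s2_mem.1 hg).2.1
    rw [prod_div_distrib, prod_const, prod_pow, ← Nat.cast_prod, Nat.prod_primeFactors_of_squarefree hg',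
      ← pow_mul]
    rfl
  rw [h1]
  have h2 : (s2_Q Q x).image Nat.primeFactors ⊆ P.powerset := by
    intro s hs
    obtain ⟨g, hg, rfl⟩ := mem_image.1 hs
    obtain ⟨⟨hg1, hgx⟩, -, -⟩ := s2_mem.1 hg
    rw [mem_powerset]
    intro p hp
    rw [hP, mem_filter, mem_Icc]
    have hpp := Nat.prime_of_mem_primeFactors hp
    exact ⟨⟨hpp.one_lt.le, (Nat.le_of_dvd (by omega) (Nat.dvd_of_mem_primeFactors hp)).trans hgx⟩, hpp⟩
  refine (sum_le_sum_of_subset_of_nonneg h2 fun s _ _ => prod_nonneg fun p _ => by positivity).trans ?_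
  rw [← prod_one_add]
  have h3 : ∏ p ∈ P, (1 + K ^ 2 / (p : ℝ) ^ 2) ≤ ∏ p ∈ P, Real.exp (K ^ 2 / (p : ℝ) ^ 2) :=
    prod_le_prod (fun p _ => by positivity) fun p _ => by
      have := Real.add_one_le_exp (K ^ 2 / (p : ℝ) ^ 2)
      linarith
  refine h3.trans ?_
  rw [← Real.exp_sum]
  refine Real.exp_le_exp.2 ?_
  have h4 : ∑ p ∈ P, K ^ 2 / (p : ℝ) ^ 2 = K ^ 2 * ∑ p ∈ P, ((p : ℝ) ^ 2)⁻¹ := by
    rw [mul_sum]
    refine sum_congr rfl fun p _ => by rw [div_eq_mul_inv]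
  have h5 : ∑ p ∈ P, ((p : ℝ) ^ 2)⁻¹ ≤ 2 := by
    have h6 : P ⊆ Ioo 0 (x + 1) := by
      intro p hp
      rw [hP, mem_filter, mem_Icc] at hp
      rw [mem_Ioo]
      omega
    refine (sum_le_sum_of_subset_of_nonneg h6 fun p _ _ => by positivity).trans ?_
    have := sum_Ioo_inv_sq_le (α := ℝ) 0 (x + 1)
    simpa using this
  rw [h4]
  nlinarith [sq_nonneg K]

/-- the step `u = v = K^ω` -/
private theorem s2_step (Q x : ℕ) (K : ℝ) (hK : 0 ≤ K) :
    s2_S Q K x ^ 2 ≤ Real.exp (2 * K ^ 2) * s2_S Q (2 * K) (x ^ 2) := by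
  classical
  set D : Finset (ℕ × ℕ) := (s2_Q Q (x ^ 2) ×ˢ Icc 1 (x ^ 2)).filter (fun z => z.2 ∣ z.1) with hD
  have hdata : ∀ p ∈ s2_Q Q x ×ˢ s2_Q Q x, ∃ g a b : ℕ, g = Nat.gcd p.1 p.2 ∧ p.1 / g = a ∧ p.2 / g = b ∧
      p.1 = g * a ∧ p.2 = g * b ∧ 0 < g ∧ 0 < a ∧ 0 < b ∧ g ≤ x ∧ a ≤ x ∧ b ≤ x ∧ Squarefree g ∧
      g.Coprime Q ∧ Squarefree (a * b) ∧ (a * b).Coprime Q ∧ g.Coprime a ∧ g.Coprime b ∧ a.Coprime b := by
    rintro ⟨m, n⟩ hp
    rw [mem_product] at hp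
    obtain ⟨hm, hn⟩ := hp
    obtain ⟨⟨hm1, hmx⟩, hms, hmQ⟩ := s2_mem.1 hm
    obtain ⟨⟨hn1, hnx⟩, hns, hnQ⟩ := s2_mem.1 hn
    simp only at hm1 hmx hms hmQ hn1 hnx hns hnQ ⊢
    have hg0 : 0 < Nat.gcd m n := Nat.gcd_pos_of_pos_left _ (by omega)
    obtain ⟨a, ha⟩ := Nat.gcd_dvd_left m n
    obtain ⟨b, hb⟩ := Nat.gcd_dvd_right m n
    have ha' : m / Nat.gcd m n = a := Nat.div_eq_of_eq_mul_right hg0 ha
    have hb' : n / Nat.gcd m n = b := Nat.div_eq_of_eq_mul_right hg0 hb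
    have hcop : a.Coprime b := by
      have := Nat.coprime_div_gcd_div_gcd hg0
      rwa [ha', hb'] at this
    set g := Nat.gcd m n with hg
    have ha0 : 0 < a := Nat.pos_of_ne_zero fun h => by rw [h, mul_zero] at ha; omega
    have hb0 : 0 < b := Nat.pos_of_ne_zero fun h => by rw [h, mul_zero] at hb; omega
    rw [ha] at hms hmQ
    rw [hb] at hns hnQ
    have hga := (Nat.squarefree_mul_iff.1 hms)
    have hgb := (Nat.squarefree_mul_iff.1 hns)
    refine ⟨g, a, b, rfl, ha', hb', ha, hb, hg0, ha0, hb0, ?_, ?_, ?_, hga.2.1, Nat.Coprime.coprime_mul_right hmQ,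
      (Nat.squarefree_mul hcop).2 ⟨hga.2.2, hgb.2.2⟩,
      Nat.Coprime.mul_left (Nat.Coprime.coprime_mul_left hmQ) (Nat.Coprime.coprime_mul_left hnQ),
      hga.1, hgb.1, hcop⟩
    · exact (Nat.le_of_dvd (by omega) (Nat.gcd_dvd_left m n)).trans hmx
    · exact (Nat.le_of_dvd (by omega) ⟨g, by rw [ha]; ring⟩ : a ≤ m).trans hmx
    · exact (Nat.le_of_dvd (by omega) ⟨g, by rw [hb]; ring⟩ : b ≤ n).trans hnx
  set φ : ℕ × ℕ → ℕ × (ℕ × ℕ) := fun p =>
    (Nat.gcd p.1 p.2, ((p.1 / Nat.gcd p.1 p.2) * (p.2 / Nat.gcd p.1 p.2), p.1 / Nat.gcd p.1 p.2)) with hφ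
  have hinj : Set.InjOn φ (s2_Q Q x ×ˢ s2_Q Q x : Finset (ℕ × ℕ)) := by
    intro p hp p' hp' h
    obtain ⟨g, a, b, hg, ha, hb, h1, h2, hg0, ha0, hb0, -⟩ := hdata p (Finset.mem_coe.1 hp)
    obtain ⟨g', a', b', hg', ha', hb', h1', h2', hg0', ha0', hb0', -⟩ := hdata p' (Finset.mem_coe.1 hp')
    rw [hφ] at h
    simp only [Prod.mk.injEq] at h
    rw [← hg, ← hg', ha, hb, ha', hb'] at h
    obtain ⟨e1, e2, e3⟩ := h
    subst e1 e3
    have e4 : b = b' := Nat.eq_of_mul_eq_mul_left ha0 e2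
    subst e4
    exact Prod.ext (by rw [h1, h1']) (by rw [h2, h2'])
  set H : ℕ × (ℕ × ℕ) → ℝ := fun z => K ^ (2 * nu z.1) / (z.1 : ℝ) ^ 2 * (K ^ nu z.2.1 / z.2.1) with hH
  have h1 : s2_S Q K x ^ 2 = ∑ z ∈ (s2_Q Q x ×ˢ s2_Q Q x).image φ, H z := by
    rw [sum_image hinj, sq]
    unfold s2_S
    rw [sum_mul_sum, ← sum_product']
    refine sum_congr rfl fun p hp => ?_
    obtain ⟨g, a, b, hg, ha, hb, h1, h2, hg0, ha0, hb0, -, -, -, -, -, -, -, c1, c2, c3⟩ := hdata p hp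
    have e1 : nu p.1 = nu g + nu a := by rw [h1, s2_nu_mul c1]
    have e2 : nu p.2 = nu g + nu b := by rw [h2, s2_nu_mul c2]
    have e3 : nu (a * b) = nu a + nu b := s2_nu_mul c3
    rw [hH, hφ]
    simp only
    rw [← hg, ha, hb, e1, e2, e3, h1, h2]
    have hg' : (g : ℝ) ≠ 0 := by positivity
    have ha' : (a : ℝ) ≠ 0 := by positivity
    have hb' : (b : ℝ) ≠ 0 := by positivity
    push_cast
    rw [pow_add, pow_add, pow_add, pow_mul']
    field_simp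
  have h2 : (s2_Q Q x ×ˢ s2_Q Q x).image φ ⊆ s2_Q Q x ×ˢ D := by
    intro z hz
    obtain ⟨p, hp, rfl⟩ := mem_image.1 hz
    obtain ⟨g, a, b, hg, ha, hb, h1, h2, hg0, ha0, hb0, gx, ax, bx, sg, gQ, sab, abQ, -⟩ := hdata p hp
    rw [hφ]
    simp only
    rw [← hg, ha, hb, mem_product, hD, mem_filter, mem_product, mem_Icc, s2_mem, s2_mem]
    simp only
    have hab : a * b ≤ x ^ 2 := by rw [sq]; exact Nat.mul_le_mul ax bx
    have hab1 : 1 ≤ a * b := Nat.mul_pos ha0 hb0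
    refine ⟨⟨⟨hg0, gx⟩, sg, gQ⟩, ⟨⟨⟨hab1, hab⟩, sab, abQ⟩, ha0, ?_⟩, dvd_mul_right _ _⟩
    exact (Nat.le_mul_of_pos_right a hb0).trans hab
  have h3 : s2_S Q K x ^ 2 ≤ ∑ z ∈ s2_Q Q x ×ˢ D, H z := by
    rw [h1]
    refine sum_le_sum_of_subset_of_nonneg h2 fun z _ _ => ?_
    rw [hH]
    positivity
  refine h3.trans ?_
  have h4 : ∑ z ∈ s2_Q Q x ×ˢ D, H z =
      (∑ g ∈ s2_Q Q x, K ^ (2 * nu g) / (g : ℝ) ^ 2) * ∑ d ∈ D, K ^ nu d.1 / d.1 := by
    rw [sum_mul_sum, ← sum_product']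
  have h5 : ∑ d ∈ D, K ^ nu d.1 / (d.1 : ℝ) = s2_S Q (2 * K) (x ^ 2) := by
    rw [hD, sum_filter, sum_product]
    unfold s2_S
    refine sum_congr rfl fun n hn => ?_
    obtain ⟨⟨n1, nx⟩, ns, nQ⟩ := s2_mem.1 hn
    rw [← sum_filter]
    simp only
    rw [sum_const, nsmul_eq_mul]
    have e : (Icc 1 (x ^ 2)).filter (fun y => y ∣ n) = n.divisors := by
      ext y
      rw [mem_filter, mem_Icc, Nat.mem_divisors]
      constructor
      · rintro ⟨-, h⟩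
        exact ⟨h, by omega⟩
      · rintro ⟨h, h0⟩
        exact ⟨⟨Nat.pos_of_dvd_of_pos h (by omega), (Nat.le_of_dvd (by omega) h).trans nx⟩, h⟩
    rw [e, s2_card ns, mul_pow]
    ring
  rw [h4, h5]
  refine mul_le_mul_of_nonneg_right (s2_gsum Q x K hK) ?_
  unfold s2_S
  exact sum_nonneg fun n _ => by positivity

open Classical in
theorem S2_four (Q : ℕ) (hQ0 : 0 < Q) : ∃ κ : ℝ, 0 < κ ∧ ∀ y : ℕ, 2 ≤ y →
    κ * Real.log y ^ 4 ≤
      ∑ n ∈ (Icc 1 y).filter (fun n => Squarefree n ∧ n.Coprime Q), (4 : ℝ) ^ nu n / n := by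
  classical
  obtain ⟨κ₁, hκ₁, h1⟩ := S1_log Q hQ0
  set C : ℝ := Real.exp (2 * 1 ^ 2) ^ 2 * Real.exp (2 * 2 ^ 2) with hC
  have hC0 : 0 < C := by positivity
  have hpow : ∀ x : ℕ, 2 ≤ x → κ₁ ^ 4 / C * Real.log x ^ 4 ≤ s2_S Q 4 (x ^ 4) := by
    intro x hx
    have hl : 0 ≤ Real.log x := Real.log_nonneg (by exact_mod_cast (by omega : 1 ≤ x))
    have a1 : κ₁ * Real.log x ≤ s2_S Q 1 x := by
      refine (h1 x hx).trans (le_of_eq ?_)
      unfold s2_S s2_Q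
      refine sum_congr rfl fun n _ => by rw [one_pow]
    have a2 := s2_step Q x 1 zero_le_one
    have a3 := s2_step Q (x ^ 2) (2 * 1) (by norm_num)
    have a4 : (κ₁ * Real.log x) ^ 2 ≤ s2_S Q 1 x ^ 2 := pow_le_pow_left₀ (by positivity) a1 2
    have a5 : (κ₁ * Real.log x) ^ 4 ≤ (Real.exp (2 * 1 ^ 2) * s2_S Q (2 * 1) (x ^ 2)) ^ 2 := by
      have := pow_le_pow_left₀ (by positivity) (a4.trans a2) 2
      calc (κ₁ * Real.log x) ^ 4 = ((κ₁ * Real.log x) ^ 2) ^ 2 := by ring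
        _ ≤ _ := this
    have a6 : (κ₁ * Real.log x) ^ 4 ≤ C * s2_S Q 4 (x ^ 4) := by
      rw [mul_pow (Real.exp (2 * 1 ^ 2))] at a5
      refine a5.trans ?_
      have a7 := mul_le_mul_of_nonneg_left a3 (by positivity : (0 : ℝ) ≤ Real.exp (2 * 1 ^ 2) ^ 2)
      refine a7.trans (le_of_eq ?_)
      rw [hC, ← pow_mul]
      norm_num
      ring
    rw [div_mul_eq_mul_div, div_le_iff₀ hC0]
    calc κ₁ ^ 4 * Real.log x ^ 4 = (κ₁ * Real.log x) ^ 4 := by ring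
      _ ≤ C * s2_S Q 4 (x ^ 4) := a6
      _ = s2_S Q 4 (x ^ 4) * C := by ring
  have hmono : ∀ x y : ℕ, x ≤ y → s2_S Q 4 x ≤ s2_S Q 4 y := by
    intro x y hxy
    unfold s2_S
    refine sum_le_sum_of_subset_of_nonneg ?_ fun n _ _ => by positivity
    intro n hn
    rw [s2_mem] at hn ⊢
    exact ⟨⟨hn.1.1, hn.1.2.trans hxy⟩, hn.2⟩
  refine ⟨min (κ₁ ^ 4 / C / 8 ^ 4) (1 / 3 ^ 4), lt_min (by positivity) (by norm_num), ?_⟩
  intro y hy
  have hgoal : min (κ₁ ^ 4 / C / 8 ^ 4) (1 / 3 ^ 4) * Real.log y ^ 4 ≤ s2_S Q 4 y := by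
    have hly : 0 ≤ Real.log y := Real.log_nonneg (by exact_mod_cast (by omega : 1 ≤ y))
    by_cases h16 : 16 ≤ y
    · -- the fourth root
      obtain ⟨x, hx1, hx2⟩ : ∃ x : ℕ, x ^ 4 ≤ y ∧ y < (x + 1) ^ 4 := by
        have hex : ∃ n : ℕ, y < (n + 1) ^ 4 := ⟨y, by
          calc y < y + 1 := Nat.lt_succ_self y
            _ ≤ (y + 1) ^ 4 := Nat.le_self_pow (by norm_num) _⟩
        refine ⟨Nat.find hex, ?_, Nat.find_spec hex⟩
        by_contra hcon
        rw [not_le] at hcon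
        rcases Nat.eq_zero_or_pos (Nat.find hex) with h0 | h0
        · rw [h0] at hcon
          simp at hcon
        · have := Nat.find_min hex (m := Nat.find hex - 1) (by omega)
          apply this
          rwa [Nat.sub_add_cancel h0]
      have hx2' : 2 ≤ x := by
        by_contra hcon
        have : x + 1 ≤ 2 := by omega
        have := Nat.pow_le_pow_left this 4
        omega
      have b1 := (hpow x hx2').trans (hmono _ _ hx1)
      have b2 : Real.log y ≤ 8 * Real.log x := by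
        have b3 : (y : ℝ) ≤ (x : ℝ) ^ 8 := by
          have b4 : y ≤ x ^ 8 := by
            have b5 : x + 1 ≤ x ^ 2 := by nlinarith
            calc y ≤ (x + 1) ^ 4 := hx2.le
              _ ≤ (x ^ 2) ^ 4 := Nat.pow_le_pow_left b5 4
              _ = x ^ 8 := by ring
          exact_mod_cast b4
        have := Real.log_le_log (by exact_mod_cast (by omega : 0 < y)) b3
        rwa [Real.log_pow] at this
      have b6 : Real.log y ^ 4 ≤ 8 ^ 4 * Real.log x ^ 4 := by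
        rw [← mul_pow]
        exact pow_le_pow_left₀ hly b2 4
      calc min (κ₁ ^ 4 / C / 8 ^ 4) (1 / 3 ^ 4) * Real.log y ^ 4
          ≤ κ₁ ^ 4 / C / 8 ^ 4 * (8 ^ 4 * Real.log x ^ 4) :=
            mul_le_mul (min_le_left _ _) b6 (by positivity) (by positivity)
        _ = κ₁ ^ 4 / C * Real.log x ^ 4 := by ring
        _ ≤ _ := b1
    · have c1 : (1 : ℝ) ≤ s2_S Q 4 y := by
        have c2 : (1 : ℕ) ∈ s2_Q Q y := by
          rw [s2_mem]
          exact ⟨⟨le_refl 1, by omega⟩, squarefree_one, Nat.coprime_one_left Q⟩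
        unfold s2_S
        have := single_le_sum (f := fun n : ℕ => (4 : ℝ) ^ nu n / n) (fun n _ => by positivity) c2
        refine le_trans ?_ this
        simp [nu]
      have c3 : Real.log y ≤ 3 := by
        have c4 : (y : ℝ) ≤ 16 := by exact_mod_cast (by omega : y ≤ 16)
        have c5 := Real.log_le_log (by exact_mod_cast (by omega : 0 < y)) c4
        have c6 : Real.log 16 = 4 * Real.log 2 := by
          rw [show (16 : ℝ) = 2 ^ 4 by norm_num, Real.log_pow]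
          norm_num
        have := Real.log_two_lt_d9
        linarith
      have c7 : Real.log y ^ 4 ≤ 3 ^ 4 := pow_le_pow_left₀ hly c3 4
      calc min (κ₁ ^ 4 / C / 8 ^ 4) (1 / 3 ^ 4) * Real.log y ^ 4
          ≤ 1 / 3 ^ 4 * 3 ^ 4 := mul_le_mul (min_le_right _ _) c7 (by positivity) (by norm_num)
        _ = 1 := by norm_num
        _ ≤ _ := c1
  exact hgoal

end PA25
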