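import Pool.Agent.LibPA25.S2

/-!
ROW [PA25 S3].  The sum over the small numbers.
PROOF.  Group the `s ∈ SmS Q T` by `n = s.pr = b c d e j` (squarefree, `≤ T`, prime to `Q`): the `s` with `s.pr = n` are the `5^ω(n)` colourings of the primes of `n`; `wS s = 2^ω(j) 2^(-ω(bcde))/n`,
so the sum over the colourings is `∏_{p ∣ n} (4 * 1/2 + 2)/n = 4^ω(n)/n`.  Only `≥` is needed: for every function `φ : n.primeFactors → Fin 5` (`Fintype.piFinset` / `Finset.prod_add` or
`Finset.prod_univ_sum`) the `s` with components `∏_{φ p = i} p` is in `SmS` and different `φ` give different `s`.  Induction on `n` is also possible.  Then `S2_four` with `y = T`.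
-/

set_option autoImplicit false

namespace PA25

open Finset Pasch

/-- the product of the primes of colour `i` -/
private def s3_cp (n : ℕ) (x : n.primeFactors → Fin 5) (i : Fin 5) : ℕ :=
  ∏ p ∈ univ.filter (fun p => x p = i), (p : ℕ)

private def s3_E (n : ℕ) (x : n.primeFactors → Fin 5) : Sm :=
  ⟨s3_cp n x 0, s3_cp n x 1, s3_cp n x 2, s3_cp n x 3, s3_cp n x 4⟩

private noncomputable def s3_g (i : Fin 5) : ℝ := if i = 4 then 2 else 1 / 2

private lemma s3_pf (n : ℕ) (U : Finset n.primeFactors) :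
    (∏ p ∈ U, (p : ℕ)).primeFactors = U.map (Function.Embedding.subtype _) := by
  have h0 : ∏ p ∈ U, (p : ℕ) = ∏ p ∈ U.map (Function.Embedding.subtype _), p := by
    rw [Finset.prod_map]
    rfl
  rw [h0]
  apply Nat.primeFactors_prod
  intro p hp
  rw [mem_map] at hp
  obtain ⟨q, -, rfl⟩ := hp
  exact Nat.prime_of_mem_primeFactors q.2

private lemma s3_nu (n : ℕ) (U : Finset n.primeFactors) : nu (∏ p ∈ U, (p : ℕ)) = #U := by
  unfold nu
  rw [s3_pf, card_map]

private lemma s3_pr {n : ℕ} (hn : Squarefree n) (x : n.primeFactors → Fin 5) : (s3_E n x).pr = n := by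
  have h1 : ∏ i : Fin 5, s3_cp n x i = n := by
    unfold s3_cp
    rw [Finset.prod_fiberwise univ x (fun p => (p : ℕ)), Finset.prod_coe_sort n.primeFactors (fun p => p)]
    exact Nat.prod_primeFactors_of_squarefree hn
  rw [Fin.prod_univ_five] at h1
  exact h1

private lemma s3_dvd {n : ℕ} (x : n.primeFactors → Fin 5) (p : n.primeFactors) (i : Fin 5) :
    (p : ℕ) ∣ s3_cp n x i ↔ x p = i := by
  constructor
  · intro h
    have h1 : (p : ℕ) ∈ (s3_cp n x i).primeFactors := by
      rw [Nat.mem_primeFactors]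
      refine ⟨Nat.prime_of_mem_primeFactors p.2, h, ?_⟩
      unfold s3_cp
      rw [Finset.prod_ne_zero_iff]
      intro q _
      exact (Nat.prime_of_mem_primeFactors q.2).ne_zero
    unfold s3_cp at h1
    rw [s3_pf, mem_map] at h1
    obtain ⟨q, hq, hqp⟩ := h1
    rw [mem_filter] at hq
    have : q = p := Subtype.ext hqp
    rw [← this]
    exact hq.2
  · intro h
    unfold s3_cp
    exact Finset.dvd_prod_of_mem (fun p : n.primeFactors => (p : ℕ)) (mem_filter.2 ⟨mem_univ _, h⟩)

private lemma s3_comp (n : ℕ) (x y : n.primeFactors → Fin 5) (h : s3_E n x = s3_E n y) (i : Fin 5) :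
    s3_cp n x i = s3_cp n y i := by
  unfold s3_E at h
  have h0 := congrArg Sm.b h
  have h1 := congrArg Sm.c h
  have h2 := congrArg Sm.d h
  have h3 := congrArg Sm.e h
  have h4 := congrArg Sm.j h
  fin_cases i
  · exact h0
  · exact h1
  · exact h2
  · exact h3
  · exact h4

private lemma s3_inj (n : ℕ) : Function.Injective (s3_E n) := by
  intro x y h
  funext p
  have h1 := s3_comp n x y h (x p)
  have h2 := (s3_dvd x p (x p)).2 rfl
  rw [h1] at h2
  exact ((s3_dvd y p (x p)).1 h2).symm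

private lemma s3_wS {n : ℕ} (hn : Squarefree n) (x : n.primeFactors → Fin 5) :
    wS (s3_E n x) = (∏ p, s3_g (x p)) / n := by
  have hpr := s3_pr hn x
  set s := s3_E n x with hs
  have hm : s.b * s.c * s.d * s.e * s.j = n := hpr
  have hc : (s.b * s.c * s.d * s.e).Coprime s.j := by
    rw [← hm] at hn
    exact (Nat.squarefree_mul_iff.1 hn).1
  have hj : nu s.j = #(univ.filter fun p => x p = 4) := by
    have h0 : s.j = s3_cp n x 4 := rfl
    rw [h0]
    exact s3_nu n _
  have hsum : nu (s.b * s.c * s.d * s.e) + nu s.j = #(univ : Finset n.primeFactors) := by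
    have h1 : nu n = nu (s.b * s.c * s.d * s.e) + nu s.j := by
      unfold nu
      rw [← hm, hc.primeFactors_mul, card_union_of_disjoint hc.disjoint_primeFactors]
    rw [← h1]
    unfold nu
    rw [univ_eq_attach, card_attach]
  have hcard : #(univ.filter fun p => x p = 4) + #(univ.filter fun p => ¬ x p = 4) =
      #(univ : Finset n.primeFactors) := card_filter_add_card_filter_not _
  have hb : nu (s.b * s.c * s.d * s.e) = #(univ.filter fun p => ¬ x p = 4) := by omega
  have hg : ∏ p, s3_g (x p) = 2 ^ #(univ.filter fun p => x p = 4) * (1 / 2) ^ #(univ.filter fun p => ¬ x p = 4) := by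
    unfold s3_g
    rw [Finset.prod_ite, prod_const, prod_const]
  have hcast : (s.b : ℝ) * s.c * s.d * s.e * s.j = n := by exact_mod_cast hm
  unfold wS
  rw [hcast, hg, hj, hb, one_div, inv_pow]
  rw [div_eq_mul_inv, mul_inv, div_eq_mul_inv, mul_assoc]

private lemma s3_sum {n : ℕ} (hn : Squarefree n) :
    ∑ x : n.primeFactors → Fin 5, wS (s3_E n x) = (4 : ℝ) ^ nu n / n := by
  have h1 : ∀ x : n.primeFactors → Fin 5, wS (s3_E n x) = (∏ p, s3_g (x p)) / n := s3_wS hn
  simp_rw [h1]
  rw [← Finset.sum_div]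
  congr 1
  have h2 := Finset.prod_univ_sum (R := ℝ) (fun _ : n.primeFactors => (univ : Finset (Fin 5))) (fun _ i => s3_g i)
  rw [Fintype.piFinset_univ] at h2
  rw [← h2]
  have h3 : ∑ i : Fin 5, s3_g i = 4 := by
    rw [Fin.sum_univ_five]
    unfold s3_g
    norm_num
    simp only [Fin.ext_iff]
    norm_num
  rw [h3, prod_const]
  congr 1
  unfold nu
  rw [univ_eq_attach, card_attach]

private lemma s3_nonneg (s : Sm) : 0 ≤ wS s := by
  unfold wS
  positivity

theorem S3_sum (Q : ℕ) (hQ0 : 0 < Q) : ∃ κ₆ : ℝ, 0 < κ₆ ∧ ∀ T : ℕ, 2 ≤ T →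
    κ₆ * Real.log T ^ 4 ≤ ∑ s ∈ SmS Q T, wS s := by
  classical
  obtain ⟨κ, hκ, h⟩ := S2_four Q hQ0
  refine ⟨κ, hκ, fun T hT => (h T hT).trans ?_⟩
  have hmaps : ∀ s ∈ SmS Q T, s.pr ∈ Icc 1 T := by
    intro s hs
    rw [mem_SmS] at hs
    rw [mem_Icc]
    exact ⟨Nat.pos_of_ne_zero hs.2.1.ne_zero, hs.2.2.2⟩
  rw [← sum_fiberwise_of_maps_to hmaps]
  rw [sum_filter]
  refine sum_le_sum fun n hn => ?_
  rw [mem_Icc] at hn
  split_ifs with hc
  · obtain ⟨hsq, hcop⟩ := hc
    rw [← s3_sum hsq, ← Finset.sum_image (f := wS) (g := s3_E n) (fun x _ y _ hxy => s3_inj n hxy)]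
    refine sum_le_sum_of_subset_of_nonneg ?_ (fun s _ _ => s3_nonneg s)
    intro s hs
    rw [mem_image] at hs
    obtain ⟨x, -, rfl⟩ := hs
    have hpr := s3_pr hsq x
    have hdv : ∀ i, 1 ≤ s3_cp n x i ∧ s3_cp n x i ≤ T := by
      intro i
      have h1 : s3_cp n x i ≠ 0 := by
        unfold s3_cp
        rw [Finset.prod_ne_zero_iff]
        intro q _
        exact (Nat.prime_of_mem_primeFactors q.2).ne_zero
      have h2 : s3_cp n x i ∣ n := by
        have h3 : ∏ i : Fin 5, s3_cp n x i = n := by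
          rw [Fin.prod_univ_five]
          exact hpr
        conv_rhs => rw [← h3]
        exact Finset.dvd_prod_of_mem _ (mem_univ i)
      exact ⟨Nat.pos_of_ne_zero h1, (Nat.le_of_dvd (by omega) h2).trans hn.2⟩
    rw [mem_filter, mem_SmS, hpr]
    exact ⟨⟨⟨hdv 0, hdv 1, hdv 2, hdv 3, hdv 4⟩, hsq, hcop, hn.2⟩, rfl⟩
  · exact sum_nonneg fun s _ => s3_nonneg s

end PA25
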