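import Pool.Agent.LibPA25.B2
import Pool.Agent.LibPA25.D1

/-!
ROW [PA25 T1].  The sum over `D, B, a` for given small numbers, `q`, `C`.
PROOF.  `k₁ = j q`, `w = T^g`, `c = c₀ C`, for `D ∈ DS Q T δ k₁ C c d₀`: `d = d₀ D`; `B2_sum` applies: `k₁ = j q` squarefree (`q` prime, `q ≥ T^g > T ≥ j`), the product
`k₁ b₀ (c₀ C) (d₀ D) e₀` is squarefree: `s.pr` squarefree, `q` is a prime `> T` with `q ∤ C` and `q ∤ D` (`(d₀ D)² ≡ c²` mod `q`, `q ∤ c`), `C, D` are squarefree, coprime and all their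
primes are `> T^5`; prime to `Q` (`c₀ C ≡ γ`, `d₀ D ≡ δ`, `j q ≡ κ`); `c < d` since `D > c/d₀`; `d ≤ 2 d₀ (c/d₀ + 1) ≤ 2 c + 2 T ≤ 4 c`; `2 k₁ ≤ 2 T^(g+2) ≤ w²`;
`c ≤ T T^(18 g) ≤ w^19`; `e₀, b₀ ≤ T ≤ w`; the divisibility is the condition in `DS`.  The bound of `B2_sum` is `κ₂ w^N/(b₀ c d₀ D e₀ (log w)^4)` with `D ≤ 2 HD c d₀`; times
`D1_count`: `≥ κ₃ 2^nu(k₁) HD/(k₁ log T)`; `HD` cancels; `log w = g log T`.  (`D1_count` hypotheses: `c.Coprime k₁`, `T^(11 g) ≤ c`, `d₀.Coprime (Q k₁)`.)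
-/

set_option autoImplicit false

namespace PA25

open Finset Pasch

/-- a rough number is prime to the small ones -/
private theorem t1_rough_cop {z m n : ℕ} (hm : Rough z m) (hn0 : 0 < n) (hn : n ≤ z) : m.Coprime n := by
  apply Nat.coprime_of_dvd
  intro p hp hpm hpn
  have h1 := hm p hp hpm
  have h2 := Nat.le_of_dvd hn0 hpn
  omega

/-- the facts about `x, q, C` -/
private theorem t1_facts {s Q T γ κ : ℕ} (hT : 2 ≤ T) (hκ : κ.Coprime Q)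
    {x : Sm} (hx : x ∈ SmS Q T) {q : ℕ} (hq : q ∈ qS Q T (gg s) κ x.j) {C : ℕ} (hCS : C ∈ CS Q T (gg s) γ x.c q) :
    (0 < x.b ∧ 0 < x.c ∧ 0 < x.d ∧ 0 < x.e ∧ 0 < x.j ∧ 0 < q ∧ 0 < C) ∧
    Squarefree (x.j * q) ∧ (x.j * q).Coprime Q ∧ x.j * q ≤ T ^ (gg s + 2) ∧ (x.c * C).Coprime (x.j * q) ∧
      T ^ (11 * gg s) ≤ x.c * C ∧ x.d.Coprime (Q * (x.j * q)) ∧ q.Coprime (x.b * x.c * x.d * x.e) ∧
      x.c * C ≤ T ^ (18 * gg s + 1) ∧ q.Coprime (x.c * C) := by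
  obtain ⟨⟨⟨hb1, hb2⟩, ⟨hc1, hc2⟩, ⟨hd1, hd2⟩, ⟨he1, he2⟩, hj1, hj2⟩, hsq, hco, hle⟩ := mem_SmS.1 hx
  obtain ⟨⟨hq1, hq2⟩, hqp, hqm⟩ := mem_qS.1 hq
  obtain ⟨⟨hC1, hC2⟩, hCm, hCr, hCs, hCq⟩ := mem_CS.1 hCS
  have hg : 100 ≤ gg s := by unfold gg; omega
  have hTq : T < q := by
    refine lt_of_lt_of_le ?_ hq1
    calc T = T ^ 1 := (pow_one T).symm
      _ < T ^ gg s := Nat.pow_lt_pow_right (by omega) (by omega)
  have hCpos : 0 < C := lt_of_lt_of_le (by positivity) hC1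
  have hprpos : 0 < x.pr := Nat.pos_of_ne_zero hsq.ne_zero
  have hqpr : q.Coprime x.pr := by
    rw [Nat.Prime.coprime_iff_not_dvd hqp]
    intro h
    have := Nat.le_of_dvd hprpos h
    omega
  have hpr : x.pr = x.b * x.c * x.d * x.e * x.j := rfl
  have hqj : q.Coprime x.j := Nat.Coprime.coprime_dvd_right ⟨x.b * x.c * x.d * x.e, by rw [hpr]; ring⟩ hqpr
  have hqc : q.Coprime x.c := Nat.Coprime.coprime_dvd_right ⟨x.b * x.d * x.e * x.j, by rw [hpr]; ring⟩ hqpr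
  have hqd : q.Coprime x.d := Nat.Coprime.coprime_dvd_right ⟨x.b * x.c * x.e * x.j, by rw [hpr]; ring⟩ hqpr
  have hqbcde : q.Coprime (x.b * x.c * x.d * x.e) := Nat.Coprime.coprime_dvd_right ⟨x.j, by rw [hpr]⟩ hqpr
  have hsj : Squarefree x.j := hsq.squarefree_of_dvd ⟨x.b * x.c * x.d * x.e, by rw [hpr]; ring⟩
  have hcj : x.c.Coprime x.j := by
    have h1 : Squarefree (x.c * x.j) := hsq.squarefree_of_dvd ⟨x.b * x.d * x.e, by rw [hpr]; ring⟩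
    exact (Nat.squarefree_mul_iff.1 h1).1
  have hdj : x.d.Coprime x.j := by
    have h1 : Squarefree (x.d * x.j) := hsq.squarefree_of_dvd ⟨x.b * x.c * x.e, by rw [hpr]; ring⟩
    exact (Nat.squarefree_mul_iff.1 h1).1
  have hdQ : x.d.Coprime Q := Nat.Coprime.coprime_dvd_left ⟨x.b * x.c * x.e * x.j, by rw [hpr]; ring⟩ hco
  have hT5 : T ≤ T ^ 5 := Nat.le_self_pow (by norm_num) T
  have hCj : C.Coprime x.j := t1_rough_cop hCr hj1 (hj2.trans hT5)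
  refine ⟨⟨hb1, hc1, hd1, he1, hj1, by omega, hCpos⟩, ?_, ?_, ?_, ?_, ?_, ?_, hqbcde, ?_, ?_⟩
  · rw [Nat.squarefree_mul_iff]
    exact ⟨hqj.symm, hsj, hqp.squarefree⟩
  · have : Nat.gcd (x.j * q) Q = Nat.gcd κ Q := hqm.gcd_eq
    unfold Nat.Coprime
    rw [this]
    exact hκ
  · calc x.j * q ≤ T * T ^ (gg s + 1) := Nat.mul_le_mul hj2 hq2
      _ = T ^ (gg s + 2) := by ring
  · apply Nat.Coprime.mul_left
    · exact Nat.Coprime.mul_right hcj hqc.symm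
    · exact Nat.Coprime.mul_right hCj hCq
  · exact hC1.trans (Nat.le_mul_of_pos_left _ hc1)
  · apply Nat.Coprime.mul_right hdQ
    exact Nat.Coprime.mul_right hdj hqd.symm
  · calc x.c * C ≤ T * T ^ (18 * gg s) := Nat.mul_le_mul hc2 hC2
      _ = T ^ (18 * gg s + 1) := by ring
  · exact Nat.Coprime.mul_right hqc hCq.symm

/-- the facts about `D` -/
private theorem t1_D {s Q T γ δ κ : ℕ} (hT : 2 ≤ T) (hγ : γ.Coprime Q) (hδ : δ.Coprime Q) (hκ : κ.Coprime Q)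
    {x : Sm} (hx : x ∈ SmS Q T) {q : ℕ} (hq : q ∈ qS Q T (gg s) κ x.j) {C : ℕ} (hCS : C ∈ CS Q T (gg s) γ x.c q)
    {D : ℕ} (hD : D ∈ DS Q T δ (x.j * q) C (x.c * C) x.d) :
    Squarefree (x.j * q * x.b * (x.c * C) * (x.d * D) * x.e) ∧
    (x.j * q * x.b * (x.c * C) * (x.d * D) * x.e).Coprime Q ∧ x.c * C ≡ γ [MOD Q] ∧ x.d * D ≡ δ [MOD Q] ∧
    x.j * q ≡ κ [MOD Q] ∧ ((x.j * q : ℕ) : ℤ) ∣ ((x.d * D : ℕ) : ℤ) ^ 2 - ((x.c * C : ℕ) : ℤ) ^ 2 ∧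
    x.c * C < x.d * D ∧ x.d * D ≤ 4 * (x.c * C) ∧ 2 * (x.j * q) ≤ (T ^ gg s) ^ 2 ∧ x.c * C ≤ (T ^ gg s) ^ 19 ∧
    x.e ≤ T ^ gg s ∧ x.b ≤ T ^ gg s := by
  obtain ⟨⟨pb, pc, pd, pe, pj, pq, pC⟩, f1, f2, f3, f4, f5, f6, f7, f8, f9⟩ := t1_facts hT hκ hx hq hCS
  obtain ⟨⟨⟨hb1, hb2⟩, ⟨hc1, hc2⟩, ⟨hd1, hd2⟩, ⟨he1, he2⟩, hj1, hj2⟩, hsq, hco, hle⟩ := mem_SmS.1 hx
  obtain ⟨⟨hq1, hq2⟩, hqp, hqm⟩ := mem_qS.1 hq
  obtain ⟨⟨hC1, hC2⟩, hCm, hCr, hCs, hCq⟩ := mem_CS.1 hCS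
  obtain ⟨⟨hD1, hD2⟩, hDm, hDk, hDr, hDs, hDC⟩ := mem_DS.1 hD
  have hg : 100 ≤ gg s := by unfold gg; omega
  have hT5 : T ≤ T ^ 5 := Nat.le_self_pow (by norm_num) T
  have hpr : x.pr = x.b * x.c * x.d * x.e * x.j := rfl
  have hprpos : 0 < x.pr := Nat.pos_of_ne_zero hsq.ne_zero
  have hTg : T ≤ T ^ gg s := Nat.le_self_pow (by omega) T
  -- `D` is prime to `q`
  have hDq : D.Coprime q := by
    rw [Nat.coprime_comm, Nat.Prime.coprime_iff_not_dvd hqp]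
    intro h
    have h1 : q ∣ (x.d * D) ^ 2 := Dvd.dvd.pow (h.mul_left _) (by norm_num)
    have h2 : (x.d * D) ^ 2 ≡ (x.c * C) ^ 2 [MOD q] := hDk.of_mul_left _
    have h3 : q ∣ (x.c * C) ^ 2 := (h2.dvd_iff (dvd_refl q)).1 h1
    have h4 : q ∣ x.c * C := hqp.dvd_of_dvd_pow h3
    exact (Nat.Prime.coprime_iff_not_dvd hqp).1 f9 h4
  have hCpr : C.Coprime x.pr := t1_rough_cop hCr hprpos (hle.trans hT5)
  have hDpr : D.Coprime x.pr := t1_rough_cop hDr hprpos (hle.trans hT5)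
  have hqpr : q.Coprime x.pr := by
    rw [hpr]
    exact Nat.Coprime.mul_right f7 (Nat.Coprime.coprime_dvd_right ⟨x.c * C * 0 + 1, by ring⟩
      ((Nat.squarefree_mul_iff.1 f1).1.symm))
  have hcQ : (x.c * C).Coprime Q := by
    have : Nat.gcd (x.c * C) Q = Nat.gcd γ Q := hCm.gcd_eq
    unfold Nat.Coprime
    rw [this]; exact hγ
  have hdQ : (x.d * D).Coprime Q := by
    have : Nat.gcd (x.d * D) Q = Nat.gcd δ Q := hDm.gcd_eq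
    unfold Nat.Coprime
    rw [this]; exact hδ
  have hbQ : x.b.Coprime Q := Nat.Coprime.coprime_dvd_left ⟨x.c * x.d * x.e * x.j, by rw [hpr]; ring⟩ hco
  have heQ : x.e.Coprime Q := Nat.Coprime.coprime_dvd_left ⟨x.b * x.c * x.d * x.j, by rw [hpr]; ring⟩ hco
  have hmul : x.d * (x.c * C / x.d) ≤ x.c * C := Nat.mul_div_le _ _
  have hmul2 : x.c * C < x.d * (x.c * C / x.d + 1) := Nat.lt_mul_div_succ _ pd
  have hHD : HD (x.c * C) x.d = x.c * C / x.d + 1 := rfl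
  rw [hHD] at hD1 hD2
  refine ⟨?_, ?_, hCm, hDm, hqm, ?_, ?_, ?_, ?_, ?_, he2.trans hTg, hb2.trans hTg⟩
  · have e1 : x.j * q * x.b * (x.c * C) * (x.d * D) * x.e = ((x.pr * q) * C) * D := by rw [hpr]; ring
    rw [e1, Nat.squarefree_mul_iff, Nat.squarefree_mul_iff, Nat.squarefree_mul_iff]
    refine ⟨?_, ⟨?_, ⟨hqpr.symm, hsq, hqp.squarefree⟩, hCs⟩, hDs⟩
    · exact ((hDpr.mul_right hDq).mul_right hDC).symm
    · exact (hCpr.mul_right hCq).symm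
  · exact (((f2.mul_left hbQ).mul_left hcQ).mul_left hdQ).mul_left heQ
  · have h := (Nat.modEq_iff_dvd.1 hDk.symm)
    push_cast at h ⊢
    exact h
  · calc x.c * C < x.d * (x.c * C / x.d + 1) := hmul2
      _ ≤ x.d * D := Nat.mul_le_mul_left _ hD1.le
  · have h1 : x.d * D ≤ x.d * (2 * (x.c * C / x.d + 1)) := Nat.mul_le_mul_left _ hD2
    have h2 : x.d * (2 * (x.c * C / x.d + 1)) = 2 * (x.d * (x.c * C / x.d)) + 2 * x.d := by ring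
    have h3 : x.d ≤ x.c * C := by
      calc x.d ≤ T := hd2
        _ ≤ T ^ (11 * gg s) := Nat.le_self_pow (by omega) T
        _ ≤ x.c * C := f5
    omega
  · calc 2 * (x.j * q) ≤ T * T ^ (gg s + 2) := Nat.mul_le_mul hT f3
      _ = T ^ (gg s + 3) := by ring
      _ ≤ T ^ (gg s * 2) := Nat.pow_le_pow_right (by omega) (by omega)
      _ = (T ^ gg s) ^ 2 := by rw [← pow_mul]
  · calc x.c * C ≤ T ^ (18 * gg s + 1) := f8
      _ ≤ T ^ (gg s * 19) := Nat.pow_le_pow_right (by omega) (by omega)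
      _ = (T ^ gg s) ^ 19 := by rw [← pow_mul]

theorem T1_inner (s : ℕ) (hs1 : 1 ≤ s) (hs : LS s) {Q α β γ δ κ : ℕ} (hC : Cls Q α β γ δ κ) :
    ∃ κ₇ : ℝ, 0 < κ₇ ∧ ∃ T0 : ℕ, ∀ T : ℕ, T0 ≤ T → ∀ x ∈ SmS Q T, ∀ q ∈ qS Q T (gg s) κ x.j,
      ∀ C ∈ CS Q T (gg s) γ x.c q,
      κ₇ * 2 ^ nu (x.j * q) * (T ^ gg s : ℕ) ^ NN s / (x.b * x.c * x.d * x.e * C * (x.j * q) * Real.log T ^ 5) ≤
        ∑ D ∈ DS Q T δ (x.j * q) C (x.c * C) x.d,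
          ∑ B ∈ BS Q (NN s) (T ^ gg s) β (x.j * q) x.b (x.c * C),
            (#(AS Q (NN s) (T ^ gg s) α (x.j * q) (x.b * B) (x.c * C) (x.d * D) x.e) : ℝ) := by
  obtain ⟨κ₂, hκ₂, w0, hB⟩ := B2_sum s hs1 hs hC
  obtain ⟨κ₃, hκ₃, T1, hD⟩ := D1_count s hs1 hs hC.h210 hC.pos hC.d
  have hg : 100 ≤ gg s := by unfold gg; omega
  have hg0 : (0 : ℝ) < gg s := by exact_mod_cast (by omega : 0 < gg s)
  refine ⟨κ₂ * κ₃ / (2 * (gg s : ℝ) ^ 4), by positivity, max (max w0 T1) 2, ?_⟩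
  intro T hT x hx q hq C hCS
  have hT2 : 2 ≤ T := le_trans (le_max_right _ _) hT
  have hTw : w0 ≤ T := le_trans (le_trans (le_max_left _ _) (le_max_left _ _)) hT
  have hTT : T1 ≤ T := le_trans (le_trans (le_max_right _ _) (le_max_left _ _)) hT
  have hTg : T ≤ T ^ gg s := Nat.le_self_pow (by omega) T
  obtain ⟨⟨pb, pc, pd, pe, pj, pq, pC⟩, f1, f2, f3, f4, f5, f6, f7, f8, f9⟩ :=
    t1_facts hT2 hC.k hx hq hCS
  obtain ⟨⟨⟨hb1, hb2⟩, ⟨hc1, hc2⟩, ⟨hd1, hd2⟩, ⟨he1, he2⟩, hj1, hj2⟩, hsq, hco, hle⟩ := mem_SmS.1 hx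
  obtain ⟨⟨hC1, hC2⟩, hCm, hCr, hCs, hCq⟩ := mem_CS.1 hCS
  have hcount := hD T hTT (x.j * q) C (x.c * C) x.d f1 f2 f3 f4 f5 hd1 hd2 f6 pC hC2
  have hlogT : 0 < Real.log T := Real.log_pos (by exact_mod_cast (by omega : 1 < T))
  have hlw : Real.log ((T ^ gg s : ℕ) : ℝ) = gg s * Real.log T := by
    push_cast
    rw [Real.log_pow]
  have rb : (0 : ℝ) < x.b := by exact_mod_cast pb
  have rc : (0 : ℝ) < x.c := by exact_mod_cast pc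
  have rd : (0 : ℝ) < x.d := by exact_mod_cast pd
  have re : (0 : ℝ) < x.e := by exact_mod_cast pe
  have rj : (0 : ℝ) < x.j := by exact_mod_cast pj
  have rq : (0 : ℝ) < q := by exact_mod_cast pq
  have rC : (0 : ℝ) < C := by exact_mod_cast pC
  have rT : (0 : ℝ) < T := by exact_mod_cast (lt_of_lt_of_le Nat.zero_lt_two hT2)
  have hHDpos : 0 < HD (x.c * C) x.d := Nat.succ_pos _
  have rH : (0 : ℝ) < HD (x.c * C) x.d := by exact_mod_cast hHDpos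
  -- each `D`
  have hterm : ∀ D ∈ DS Q T δ (x.j * q) C (x.c * C) x.d,
      κ₂ * ((T ^ gg s : ℕ) : ℝ) ^ NN s / (x.b * (x.c * C) * (x.d * (2 * HD (x.c * C) x.d)) * x.e * (gg s * Real.log T) ^ 4) ≤
        ∑ B ∈ BS Q (NN s) (T ^ gg s) β (x.j * q) x.b (x.c * C),
            (#(AS Q (NN s) (T ^ gg s) α (x.j * q) (x.b * B) (x.c * C) (x.d * D) x.e) : ℝ) := by
    intro D hDm
    obtain ⟨g1, g2, g3, g4, g5, g6, g7, g8, g9, g10, g11, g12⟩ := t1_D hT2 hC.c hC.d hC.k hx hq hCS hDm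
    have h := hB (T ^ gg s) (hTw.trans hTg) (x.j * q) x.b (x.c * C) (x.d * D) x.e g1 g2 g3 g4 g5 g6 g7 g8 g9 g10 g11 g12
    rw [hlw] at h
    refine le_trans ?_ h
    obtain ⟨⟨hD1, hD2⟩, -⟩ := mem_DS.1 hDm
    have pD : 0 < D := by omega
    have rD : (0 : ℝ) < D := by exact_mod_cast pD
    have hD2r : (D : ℝ) ≤ 2 * HD (x.c * C) x.d := by exact_mod_cast hD2
    push_cast
    gcongr
  refine le_trans ?_ (sum_le_sum hterm)
  rw [sum_const, nsmul_eq_mul]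
  refine le_trans ?_ (mul_le_mul_of_nonneg_right hcount (by positivity))
  apply le_of_eq
  push_cast
  field_simp

end PA25
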