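import Pool.Agent.LibPA25.T1
import Pool.Agent.LibPA25.C1
import Pool.Agent.LibPA25.Q1
import Pool.Agent.LibPA25.S3

/-!
ROW [PA25 T2].  The total weighted count.
PROOF.  By `T1_inner` the inner sum is `≥ κ₇ 2^nu(j q) w^N/(b c d e C (j q) (log T)^5)`; `∑_C 1/C ≥ κ₄` (`C1_sum`: `c₀.Coprime Q` from `SmS`, `q ≤ T^(g+1)`); `2^nu(j q) = 2 * 2^nu j ≥ 2^nu j`
(or `nu j ≤ nu (j q)`); `∑_q 1/q ≥ κ₅` (`Q1_sum` with `g = gg s`); so the sum over `q, C, D, B` is `≥ κ₇ κ₄ κ₅ w^N 2^nu j/(b c d e j (log T)^5)`; multiply by `2^(-nu(b c d e))`: this is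
`κ w^N wS x/(log T)^5`; `S3_sum`.
-/

set_option autoImplicit false

namespace PA25

open Finset Pasch

theorem T2_total (s : ℕ) (hs1 : 1 ≤ s) (hs : LS s) {Q α β γ δ κ : ℕ} (hC : Cls Q α β γ δ κ) :
    ∃ κ₈ : ℝ, 0 < κ₈ ∧ ∃ T0 : ℕ, ∀ T : ℕ, T0 ≤ T →
      κ₈ * (T ^ gg s : ℕ) ^ NN s / Real.log T ≤
        ∑ x ∈ SmS Q T, ∑ q ∈ qS Q T (gg s) κ x.j, ∑ C ∈ CS Q T (gg s) γ x.c q,
          ∑ D ∈ DS Q T δ (x.j * q) C (x.c * C) x.d,
            ∑ B ∈ BS Q (NN s) (T ^ gg s) β (x.j * q) x.b (x.c * C),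
              ∑ _a ∈ AS Q (NN s) (T ^ gg s) α (x.j * q) (x.b * B) (x.c * C) (x.d * D) x.e,
                ((1 / 2 : ℝ)) ^ nu (x.b * x.c * x.d * x.e) := by
  obtain ⟨κ₇, k7, T1, h1⟩ := T1_inner s hs1 hs hC
  obtain ⟨κ₄, k4, T2, h2⟩ := C1_sum s hs1 hs hC.h210 hC.pos hC.c
  have hg1 : 1 ≤ gg s := by unfold gg; omega
  obtain ⟨κ₅, k5, T3, h3⟩ := Q1_sum (gg s) hg1 hC.pos hC.k
  obtain ⟨κ₆, k6, h6⟩ := S3_sum Q hC.pos
  refine ⟨κ₇ * κ₄ * κ₅ * κ₆, by positivity, max 2 (max T1 (max T2 T3)), fun T hT => ?_⟩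
  have hT2 : 2 ≤ T := le_trans (le_max_left _ _) hT
  have hTa : T1 ≤ T := le_trans (le_trans (le_max_left _ _) (le_max_right _ _)) hT
  have hTb : T2 ≤ T := le_trans (le_trans (le_trans (le_max_left _ _) (le_max_right _ _)) (le_max_right _ _)) hT
  have hTc : T3 ≤ T := le_trans (le_trans (le_trans (le_max_right _ _) (le_max_right _ _)) (le_max_right _ _)) hT
  have hL : 0 < Real.log T := Real.log_pos (by exact_mod_cast (by omega : 1 < T))
  set W : ℝ := ((T ^ gg s : ℕ) : ℝ) ^ NN s with hW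
  have hWpos : 0 < W := by
    rw [hW]
    have : 0 < T ^ gg s := pow_pos (by omega) _
    exact pow_pos (by exact_mod_cast this) _
  set L : ℝ := Real.log T with hLd
  -- one `x`
  have hx : ∀ x ∈ SmS Q T, κ₇ * κ₄ * κ₅ * (W / L ^ 5) * wS x ≤
      ∑ q ∈ qS Q T (gg s) κ x.j, ∑ C ∈ CS Q T (gg s) γ x.c q,
          ∑ D ∈ DS Q T δ (x.j * q) C (x.c * C) x.d,
            ∑ B ∈ BS Q (NN s) (T ^ gg s) β (x.j * q) x.b (x.c * C),
              ∑ _a ∈ AS Q (NN s) (T ^ gg s) α (x.j * q) (x.b * B) (x.c * C) (x.d * D) x.e,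
                ((1 / 2 : ℝ)) ^ nu (x.b * x.c * x.d * x.e) := by
    intro x hxS
    have hxS' := hxS
    rw [mem_SmS] at hxS'
    obtain ⟨⟨hb, hc, hd, he, hj⟩, -, hcop, -⟩ := hxS'
    have hb0 : (0 : ℝ) < x.b := by exact_mod_cast hb.1
    have hc0 : (0 : ℝ) < x.c := by exact_mod_cast hc.1
    have hd0 : (0 : ℝ) < x.d := by exact_mod_cast hd.1
    have he0 : (0 : ℝ) < x.e := by exact_mod_cast he.1
    have hj0 : (0 : ℝ) < x.j := by exact_mod_cast hj.1
    have hcQ : x.c.Coprime Q := by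
      apply Nat.Coprime.coprime_dvd_left _ hcop
      exact ⟨x.b * x.d * x.e * x.j, by unfold Sm.pr; ring⟩
    have hjQ : x.j.Coprime Q := by
      apply Nat.Coprime.coprime_dvd_left _ hcop
      exact ⟨x.b * x.c * x.d * x.e, by unfold Sm.pr; ring⟩
    set U : ℝ := κ₇ * (W / L ^ 5) * wS x with hU
    have hU0 : 0 ≤ U := by
      rw [hU]
      unfold wS
      positivity
    have hq : ∀ q ∈ qS Q T (gg s) κ x.j, U * κ₄ * (1 / (q : ℝ)) ≤
        ∑ C ∈ CS Q T (gg s) γ x.c q,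
          ∑ D ∈ DS Q T δ (x.j * q) C (x.c * C) x.d,
            ∑ B ∈ BS Q (NN s) (T ^ gg s) β (x.j * q) x.b (x.c * C),
              ∑ _a ∈ AS Q (NN s) (T ^ gg s) α (x.j * q) (x.b * B) (x.c * C) (x.d * D) x.e,
                ((1 / 2 : ℝ)) ^ nu (x.b * x.c * x.d * x.e) := by
      intro q hqS
      have hqS' := hqS
      rw [mem_qS] at hqS'
      obtain ⟨⟨hq1, hq2⟩, hqp, -⟩ := hqS'
      have hq0 : (0 : ℝ) < q := by exact_mod_cast hqp.pos
      have hcc : ∀ C ∈ CS Q T (gg s) γ x.c q, U * (1 / (q : ℝ)) * (1 / (C : ℝ)) ≤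
          ∑ D ∈ DS Q T δ (x.j * q) C (x.c * C) x.d,
            ∑ B ∈ BS Q (NN s) (T ^ gg s) β (x.j * q) x.b (x.c * C),
              ∑ _a ∈ AS Q (NN s) (T ^ gg s) α (x.j * q) (x.b * B) (x.c * C) (x.d * D) x.e,
                ((1 / 2 : ℝ)) ^ nu (x.b * x.c * x.d * x.e) := by
        intro C hCS
        have hCS' := hCS
        rw [mem_CS] at hCS'
        have hC0 : (0 : ℝ) < C := by
          have : 0 < C := lt_of_lt_of_le (pow_pos (by omega) _) hCS'.1.1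
          exact_mod_cast this
        have h7 := h1 T hTa x hxS q hqS C hCS
        have h8 : ∑ D ∈ DS Q T δ (x.j * q) C (x.c * C) x.d,
            ∑ B ∈ BS Q (NN s) (T ^ gg s) β (x.j * q) x.b (x.c * C),
              ∑ _a ∈ AS Q (NN s) (T ^ gg s) α (x.j * q) (x.b * B) (x.c * C) (x.d * D) x.e,
                ((1 / 2 : ℝ)) ^ nu (x.b * x.c * x.d * x.e) =
            (1 / 2 : ℝ) ^ nu (x.b * x.c * x.d * x.e) * ∑ D ∈ DS Q T δ (x.j * q) C (x.c * C) x.d,
              ∑ B ∈ BS Q (NN s) (T ^ gg s) β (x.j * q) x.b (x.c * C),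
                (#(AS Q (NN s) (T ^ gg s) α (x.j * q) (x.b * B) (x.c * C) (x.d * D) x.e) : ℝ) := by
          rw [Finset.mul_sum]
          refine Finset.sum_congr rfl fun D _ => ?_
          rw [Finset.mul_sum]
          refine Finset.sum_congr rfl fun B _ => ?_
          rw [Finset.sum_const, nsmul_eq_mul, mul_comm]
        rw [h8]
        have hpw : (0 : ℝ) ≤ (1 / 2 : ℝ) ^ nu (x.b * x.c * x.d * x.e) := by positivity
        refine le_trans ?_ (mul_le_mul_of_nonneg_left h7 hpw)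
        have hnu : (2 : ℝ) ^ nu x.j ≤ 2 ^ nu (x.j * q) := by
          apply pow_le_pow_right₀ (by norm_num)
          unfold nu
          apply Finset.card_le_card
          apply Nat.primeFactors_mono (dvd_mul_right _ _)
          exact Nat.mul_ne_zero (by omega) hqp.ne_zero
        have h9 : U * (1 / (q : ℝ)) * (1 / (C : ℝ)) =
            (1 / 2 : ℝ) ^ nu (x.b * x.c * x.d * x.e) * (κ₇ * 2 ^ nu x.j * W /
              (x.b * x.c * x.d * x.e * C * (x.j * q) * L ^ 5)) := by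
          rw [hU]
          unfold wS
          rw [one_div_pow]
          field_simp
        rw [h9]
        apply mul_le_mul_of_nonneg_left _ hpw
        apply div_le_div_of_nonneg_right _ (by positivity)
        exact mul_le_mul_of_nonneg_right (mul_le_mul_of_nonneg_left hnu k7.le) hWpos.le
      refine le_trans ?_ (Finset.sum_le_sum hcc)
      rw [← Finset.mul_sum]
      have h10 := h2 T hTb x.c q hcQ hqp.one_lt.le hq2
      have h11 : 0 ≤ U * (1 / (q : ℝ)) := by positivity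
      calc U * κ₄ * (1 / (q : ℝ)) = U * (1 / (q : ℝ)) * κ₄ := by ring
        _ ≤ _ := mul_le_mul_of_nonneg_left h10 h11
    refine le_trans ?_ (Finset.sum_le_sum hq)
    rw [← Finset.mul_sum]
    have h12 := h3 T hTc x.j hj.1 hjQ
    calc κ₇ * κ₄ * κ₅ * (W / L ^ 5) * wS x = U * κ₄ * κ₅ := by rw [hU]; ring
      _ ≤ _ := mul_le_mul_of_nonneg_left h12 (by positivity)
  refine le_trans ?_ (Finset.sum_le_sum hx)
  rw [← Finset.mul_sum]
  have h13 := h6 T hT2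
  calc κ₇ * κ₄ * κ₅ * κ₆ * W / L = κ₇ * κ₄ * κ₅ * (W / L ^ 5) * (κ₆ * L ^ 4) := by
        field_simp
    _ ≤ _ := mul_le_mul_of_nonneg_left h13 (by positivity)

end PA25
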