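import Pool.Agent.LibPA25.Defs
import Pool.Agent.LibPA25.P1

/-!
ROW [PA25 T3].  The tuples give configurations.
`P1_HA`, `P1_HB` (P1.lean) have all size facts about `HA`, `HB`.
PROOF.  `k₁ = j q`, `b = x.b B`, `c = x.c C`, `d = x.d D`; `a ∈ AS` gives `e', f'` with `GoodA`; the equations force `e' = eOf` (`d e' = 2 k₁ a - b c`, `d > 0`) and `f' = fOf`.
`IsConf`: `eq1 eq2` from `GoodA`; `sqf` from `GoodA`; `k = 2 j q ≥ 2 T^g ≥ w`; `k ≤ 2 T T^(g+1) ≤ w²`; `¬ 4 ∣ k`: `j q` is prime to `Q`, so odd; `c ≥ C ≥ T^(11 g) ≥ w^10`, `c ≤ T T^(18 g) ≤ w^20`;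
`c < d ≤ 4 c` (`D > c/d₀`, `d₀ D ≤ 2 d₀ (c/d₀ + 1) ≤ 2 c + 2 T ≤ 4 c`), so `d ≤ 4 w^19 ≤ w^20`; sizes with `H = HA`: `H < a ≤ 2H`, `k (H+1)² > w^N`, `k H² ≤ w^N`:
`w^N ≤ k a² ≤ 4 w^N`.  `b c = x.b B c` with `HB < B ≤ 2 HB`, `HB = k₁ H/(8 b₀ c)` (natural division): `k₁ H/8 < b c ≤ k₁ H/4`, so `k a ≤ 4 k₁ H ≤ 32 b c`;
`d e = k a - b c ≥ 2 k₁ a - k₁ H/4 ≥ (7/8) k a`; `k f = c e + b d`: `c e ≥ d e/4 ≥ (7/32) k a`; `c e ≤ d e ≤ k a`, `b d ≤ 4 b c ≤ k a/2` so `k f ≤ 2 k a`, `f ≤ 2a`, `f ≥ (7/32) a`;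
`k f ≤ 2 k a ≤ 64 b c ≤ 64 b d`; `k f ≤ 2 k a ≤ (64/7) c e`.
Everything prime to `Q`: `a ≡ α`, `b ≡ β`, `c ≡ γ`, `d ≡ δ` and `ce cf`.
-/

set_option autoImplicit false

namespace PA25

open Finset Pasch

/-- the tuple conditions -/
def Tup (Q : ℕ) (α β γ δ κ : ℕ) (g N T : ℕ) (x : Sm) (q C D B a : ℕ) : Prop :=
  x ∈ SmS Q T ∧ q ∈ qS Q T g κ x.j ∧ C ∈ CS Q T g γ x.c q ∧ D ∈ DS Q T δ (x.j * q) C (x.c * C) x.d ∧
    B ∈ BS Q N (T ^ g) β (x.j * q) x.b (x.c * C) ∧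
    a ∈ AS Q N (T ^ g) α (x.j * q) (x.b * B) (x.c * C) (x.d * D) x.e

private lemma t3_num {M k₁ a b c d e f H : ℕ} (hk : 1 ≤ k₁) (eq1 : d * e + b * c = 2 * k₁ * a)
    (eq2 : c * e + b * d = 2 * k₁ * f) (hcd : c ≤ d) (hdc : d ≤ 4 * c) (h1 : H < a) (h2 : a ≤ 2 * H)
    (h3 : 2 * k₁ * H ^ 2 ≤ M) (h4 : M < 2 * k₁ * (H + 1) ^ 2) (h5 : 4 * (b * c) ≤ k₁ * H)
    (h6 : k₁ * H ≤ 16 * (b * c)) :
    (M ≤ 10 ^ 4 * (2 * k₁ * a ^ 2) ∧ 2 * k₁ * a ^ 2 ≤ 10 ^ 4 * M ∧ M ≤ 10 ^ 4 * (2 * k₁ * f ^ 2) ∧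
      2 * k₁ * f ^ 2 ≤ 10 ^ 4 * M) ∧ 2 * k₁ * a ≤ 10 ^ 4 * (b * c) ∧ 2 * k₁ * a ≤ 10 ^ 4 * (d * e) ∧
      2 * k₁ * f ≤ 10 ^ 4 * (b * d) ∧ 2 * k₁ * f ≤ 10 ^ 4 * (c * e) := by
  have x1 : 2 * (k₁ * H) ≤ 2 * k₁ * a := by
    rw [mul_assoc]
    exact Nat.mul_le_mul_left _ (Nat.mul_le_mul_left _ h1.le)
  have x2 : 2 * k₁ * a ≤ 4 * (k₁ * H) := by
    have : k₁ * a ≤ k₁ * (2 * H) := Nat.mul_le_mul_left _ h2
    calc 2 * k₁ * a = 2 * (k₁ * a) := by ring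
      _ ≤ 2 * (k₁ * (2 * H)) := by omega
      _ = 4 * (k₁ * H) := by ring
  have x3 : c * e ≤ d * e := Nat.mul_le_mul_right _ hcd
  have x4 : d * e ≤ 4 * (c * e) := by
    rw [← mul_assoc]
    exact Nat.mul_le_mul_right _ hdc
  have x5 : b * c ≤ b * d := Nat.mul_le_mul_left _ hcd
  have x6 : b * d ≤ 4 * (b * c) := by
    calc b * d ≤ b * (4 * c) := Nat.mul_le_mul_left _ hdc
      _ = 4 * (b * c) := by ring
  have y1 : 2 * k₁ * f ≤ 2 * (2 * k₁ * a) := by omega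
  have y2 : 7 * (2 * k₁ * a) ≤ 32 * (2 * k₁ * f) := by omega
  have kp : 0 < 2 * k₁ := by omega
  have f1 : f ≤ 2 * a := by
    apply Nat.le_of_mul_le_mul_left _ kp
    calc 2 * k₁ * f ≤ 2 * (2 * k₁ * a) := y1
      _ = 2 * k₁ * (2 * a) := by ring
  have f2 : 7 * a ≤ 32 * f := by
    apply Nat.le_of_mul_le_mul_left _ kp
    calc 2 * k₁ * (7 * a) = 7 * (2 * k₁ * a) := by ring
      _ ≤ 32 * (2 * k₁ * f) := y2
      _ = 2 * k₁ * (32 * f) := by ring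
  have z1 : M ≤ 2 * k₁ * a ^ 2 := h4.le.trans (Nat.mul_le_mul_left _ (Nat.pow_le_pow_left h1 2))
  have z2 : 2 * k₁ * a ^ 2 ≤ 4 * M := by
    calc 2 * k₁ * a ^ 2 ≤ 2 * k₁ * (2 * H) ^ 2 := Nat.mul_le_mul_left _ (Nat.pow_le_pow_left h2 2)
      _ = 4 * (2 * k₁ * H ^ 2) := by ring
      _ ≤ 4 * M := Nat.mul_le_mul_left _ h3
  have z3 : 2 * k₁ * f ^ 2 ≤ 4 * (2 * k₁ * a ^ 2) := by
    calc 2 * k₁ * f ^ 2 ≤ 2 * k₁ * (2 * a) ^ 2 := Nat.mul_le_mul_left _ (Nat.pow_le_pow_left f1 2)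
      _ = 4 * (2 * k₁ * a ^ 2) := by ring
  have z4 : 49 * (2 * k₁ * a ^ 2) ≤ 1024 * (2 * k₁ * f ^ 2) := by
    calc 49 * (2 * k₁ * a ^ 2) = 2 * k₁ * (7 * a) ^ 2 := by ring
      _ ≤ 2 * k₁ * (32 * f) ^ 2 := Nat.mul_le_mul_left _ (Nat.pow_le_pow_left f2 2)
      _ = 1024 * (2 * k₁ * f ^ 2) := by ring
  refine ⟨⟨?_, ?_, ?_, ?_⟩, ?_, ?_, ?_, ?_⟩ <;> omega

private lemma t3_pow {T : ℕ} (hT : 2 ≤ T) {m n : ℕ} (h : m ≤ n) : T ^ m ≤ T ^ n :=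
  Nat.pow_le_pow_right (by omega) h

theorem T3_good {Q α β γ δ κ g N T : ℕ} {x : Sm} {q C D B a : ℕ} (hx : Tup Q α β γ δ κ g N T x q C D B a) :
    GoodA Q α (T ^ g) (x.j * q) (x.b * B) (x.c * C) (x.d * D) x.e a (cfOf x q C D B a).e
      (cfOf x q C D B a).f := by
  obtain ⟨hx1, hx2, hx3, hx4, hx5, hx6⟩ := hx
  rw [mem_SmS] at hx1
  rw [mem_qS] at hx2
  rw [mem_DS] at hx4
  rw [mem_AS] at hx6
  obtain ⟨_, e', f', hG⟩ := hx6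
  have hd : 0 < x.d * D := Nat.mul_pos hx1.1.2.2.1.1 (by omega)
  have hk : 0 < 2 * (x.j * q) := Nat.mul_pos (by norm_num) (Nat.mul_pos hx1.1.2.2.2.2.1 hx2.2.1.pos)
  have he : eOf (x.j * q) (x.b * B) (x.c * C) (x.d * D) a = e' := by
    unfold eOf
    rw [← hG.eq1, Nat.add_sub_cancel, Nat.mul_div_cancel_left _ hd]
  have hf : fOf (x.j * q) (x.b * B) (x.c * C) (x.d * D) e' = f' := by
    unfold fOf
    rw [hG.eq2, Nat.mul_div_cancel_left _ hk]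
  have h1 : (cfOf x q C D B a).e = e' := he
  have h2 : (cfOf x q C D B a).f = f' := by
    show fOf (x.j * q) (x.b * B) (x.c * C) (x.d * D)
      (eOf (x.j * q) (x.b * B) (x.c * C) (x.d * D) a) = f'
    rw [he, hf]
  rw [h1, h2]
  exact hG

theorem T3_conf (s : ℕ) (hs1 : 1 ≤ s) {Q α β γ δ κ : ℕ} (hC : Cls Q α β γ δ κ) :
    ∃ T0 : ℕ, ∀ T : ℕ, T0 ≤ T → ∀ (x : Sm) (q C D B a : ℕ), Tup Q α β γ δ κ (gg s) (NN s) T x q C D B a →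
      IsConf (NN s) (T ^ gg s) (cfOf x q C D B a) := by
  refine ⟨8, fun T hT x q C D B a hx => ?_⟩
  have hG := T3_good hx
  obtain ⟨hx1, hx2, hx3, hx4, hx5, hx6⟩ := hx
  rw [mem_SmS] at hx1
  rw [mem_qS] at hx2
  rw [mem_CS] at hx3
  rw [mem_DS] at hx4
  rw [mem_BS] at hx5
  rw [mem_AS] at hx6
  obtain ⟨⟨⟨b1, b2⟩, ⟨c1, c2⟩, ⟨d1, d2⟩, ⟨e1, e2⟩, ⟨j1, j2⟩⟩, -⟩ := hx1
  obtain ⟨⟨q1, q2⟩, q3, q4⟩ := hx2
  obtain ⟨⟨C1, C2⟩, -⟩ := hx3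
  obtain ⟨⟨D1, D2⟩, -⟩ := hx4
  obtain ⟨⟨B1, B2⟩, -⟩ := hx5
  obtain ⟨⟨a1, a2⟩, -⟩ := hx6
  have hg : 110 ≤ gg s := by unfold gg; omega
  have hN : 60 ≤ NN s := by unfold NN; omega
  have T2 : 2 ≤ T := by omega
  have k1 : 1 ≤ x.j * q := Nat.mul_pos j1 q3.pos
  -- sizes
  have hw2 : 2 ≤ T ^ gg s := T2.trans (by
    calc T = T ^ 1 := (pow_one T).symm
      _ ≤ T ^ gg s := t3_pow T2 (by omega))
  have hTw : T ≤ T ^ gg s := by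
    calc T = T ^ 1 := (pow_one T).symm
      _ ≤ T ^ gg s := t3_pow T2 (by omega)
  have k2 : 2 * (x.j * q) ≤ (T ^ gg s) ^ 2 := by
    calc 2 * (x.j * q) ≤ T * (T * T ^ (gg s + 1)) :=
        Nat.mul_le_mul T2 (Nat.mul_le_mul j2 q2)
      _ = T ^ (gg s + 3) := by ring
      _ ≤ T ^ (gg s * 2) := t3_pow T2 (by omega)
      _ = (T ^ gg s) ^ 2 := pow_mul _ _ _
  have cpos : 1 ≤ x.c * C := Nat.mul_pos c1 (lt_of_lt_of_le (Nat.pow_pos (by omega)) C1)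
  have chi : x.c * C ≤ T ^ (18 * gg s + 1) := by
    calc x.c * C ≤ T * T ^ (18 * gg s) := Nat.mul_le_mul c2 C2
      _ = T ^ (18 * gg s + 1) := by ring
  have clo : T ^ (11 * gg s) ≤ x.c * C := C1.trans (Nat.le_mul_of_pos_left _ c1)
  have c19 : x.c * C ≤ (T ^ gg s) ^ 19 := by
    rw [← pow_mul]
    exact chi.trans (t3_pow T2 (by omega))
  obtain ⟨A1, A2, A3, A4⟩ := P1_HA (NN s) (T ^ gg s) (x.j * q) hw2 hN k1 k2
  obtain ⟨E1, E2, E3, E4⟩ := P1_HB (NN s) (T ^ gg s) (x.j * q) x.b (x.c * C) hw2 hN k1 k2 b1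
    (b2.trans hTw) cpos c19
  have hTc : T ≤ x.c * C := by
    calc T = T ^ 1 := (pow_one T).symm
      _ ≤ T ^ (11 * gg s) := t3_pow T2 (by omega)
      _ ≤ _ := clo
  have hcd : x.c * C < x.d * D := by
    have h1 : x.c * C < x.d * (x.c * C / x.d + 1) := Nat.lt_mul_div_succ _ d1
    have h2 : x.d * (x.c * C / x.d + 1) ≤ x.d * D := Nat.mul_le_mul_left _ (by unfold HD at D1; omega)
    omega
  have hdc : x.d * D ≤ 4 * (x.c * C) := by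
    have h1 : x.d * (x.c * C / x.d) ≤ x.c * C := Nat.mul_div_le _ _
    have h2 : x.d * D ≤ x.d * (2 * (x.c * C / x.d + 1)) := Nat.mul_le_mul_left _ (by unfold HD at D2; omega)
    have h3 : x.d * (2 * (x.c * C / x.d + 1)) = 2 * (x.d * (x.c * C / x.d)) + 2 * x.d := by ring
    omega
  have h5 : 4 * (x.b * B * (x.c * C)) ≤ x.j * q * HA (NN s) (T ^ gg s) (x.j * q) := by
    have h6 : x.b * B * (x.c * C) ≤ x.b * (2 * HB (NN s) (T ^ gg s) (x.j * q) x.b (x.c * C)) * (x.c * C) :=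
      Nat.mul_le_mul_right _ (Nat.mul_le_mul_left _ B2)
    have h7 : 4 * (x.b * (2 * HB (NN s) (T ^ gg s) (x.j * q) x.b (x.c * C)) * (x.c * C)) =
      8 * x.b * (x.c * C) * HB (NN s) (T ^ gg s) (x.j * q) x.b (x.c * C) := by ring
    omega
  have h6 : x.j * q * HA (NN s) (T ^ gg s) (x.j * q) ≤ 16 * (x.b * B * (x.c * C)) := by
    have h8 : 16 * x.b * (x.c * C) * HB (NN s) (T ^ gg s) (x.j * q) x.b (x.c * C) ≤
      16 * x.b * (x.c * C) * B := Nat.mul_le_mul_left _ B1.le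
    have h9 : 16 * x.b * (x.c * C) * B = 16 * (x.b * B * (x.c * C)) := by ring
    omega
  obtain ⟨⟨n1, n2, n3, n4⟩, n5, n6, n7, n8⟩ := t3_num k1 hG.eq1 hG.eq2 hcd.le hdc a1 a2 A2 A3 h5 h6
  have w10 : (T ^ gg s) ^ 10 ≤ x.c * C := by
    rw [← pow_mul]
    exact (t3_pow T2 (by omega)).trans clo
  refine
    { eq1 := hG.eq1
      eq2 := hG.eq2
      sqf := hG.sqf
      klo := ?_
      khi := k2
      k4 := ?_
      clo := w10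
      chi := ?_
      dlo := w10.trans hcd.le
      dhi := ?_
      cd := ?_
      dc := hdc
      ra := hG.ra
      rf := hG.rf
      alo := n1
      ahi := n2
      flo := n3
      fhi := n4
      bc := n5
      de := n6
      bd := n7
      ce := n8 }
  · show T ^ gg s ≤ 2 * (x.j * q)
    have h1 : q ≤ x.j * q := Nat.le_mul_of_pos_left _ j1
    omega
  · show ¬ 4 ∣ 2 * (x.j * q)
    intro h4
    have h2Q : 2 ∣ Q := Dvd.dvd.trans (by norm_num) hC.h210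
    have h3 : x.j * q ≡ κ [MOD 2] := q4.of_dvd h2Q
    have h5 : ¬ 2 ∣ κ := by
      intro h
      have := Nat.dvd_gcd h h2Q
      rw [hC.k] at this
      omega
    unfold Nat.ModEq at h3
    omega
  · show x.c * C ≤ (T ^ gg s) ^ 20
    rw [← pow_mul]
    exact chi.trans (t3_pow T2 (by omega))
  · show x.d * D ≤ (T ^ gg s) ^ 20
    rw [← pow_mul]
    calc x.d * D ≤ 4 * (x.c * C) := hdc
      _ ≤ T * T ^ (18 * gg s + 1) := Nat.mul_le_mul (by omega) chi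
      _ = T ^ (18 * gg s + 2) := by ring
      _ ≤ T ^ (gg s * 20) := t3_pow T2 (by omega)
  · show x.c * C ≤ 4 * (x.d * D)
    omega

end PA25
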