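import Pool.Agent.LibPA25.V0

/-!
(helper15) [PA25 V1].  The local hypothesis for one integer.
-/

set_option autoImplicit false

namespace PA25

open Finset Pasch SP15

theorem V1_loc (a : ℤ) (ha : a ≠ 0) : ∃ l : ℕ, Loc {a} l := by
  obtain ⟨l, hlgt, hlp, hlm⟩ := Nat.forall_exists_prime_gt_and_modEq (a.natAbs + 16)
    (show (4 : ℕ) ≠ 0 by norm_num) (show Nat.Coprime 3 4 by norm_num)
  have hfact : Fact l.Prime := ⟨hlp⟩
  have h3 : l % 4 = 3 := hlm
  have hla : ¬ (l : ℤ) ∣ a := by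
    intro h
    have := Nat.le_of_dvd (Int.natAbs_pos.2 ha) (Int.natCast_dvd.1 h)
    omega
  have ha0 : (a : ZMod l) ≠ 0 := by
    rw [Ne, ZMod.intCast_zmod_eq_zero_iff_dvd]; exact hla
  obtain ⟨y, hy⟩ := A1_exists_pos h3 (by omega) (a : ZMod l) ha0
  obtain ⟨z, hz⟩ := Kloo.exists_neg h3 (by omega) (a : ZMod l) ha0
  have hneg : PA15.Kr l ((a : ZMod l) * (y : ZMod l) ^ 2) * PA15.Kr l ((a : ZMod l) * (z : ZMod l) ^ 2) < 0 :=
    mul_neg_of_pos_of_neg hy hz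
  have hne : (y : ZMod l) ^ 2 ≠ (z : ZMod l) ^ 2 := by
    intro h
    rw [h] at hneg
    exact absurd hneg (not_lt.2 (mul_self_nonneg _))
  have hJ : ∀ h ∈ ({a} : Finset ℤ), ¬ (l : ℤ) ∣ h := by
    intro h hh
    rw [mem_singleton.1 hh]; exact hla
  rcases PA15.sq_or_neg h3 (y * z) with hsq | hsq
  · refine ⟨l, loc_of {a} l (by omega) hJ y z hsq ?_ (by rw [prod_singleton]; exact hneg)⟩
    rintro rfl
    apply hne
    rw [Units.val_neg]; ring
  · have e : ((-z : (ZMod l)ˣ) : ZMod l) ^ 2 = (z : ZMod l) ^ 2 := by rw [Units.val_neg]; ring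
    refine ⟨l, loc_of {a} l (by omega) hJ y (-z) (by rw [mul_neg]; exact hsq) ?_
      (by rw [prod_singleton, e]; exact hneg)⟩
    rw [neg_neg]
    rintro rfl
    exact hne rfl

end PA25
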